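import Mathlib
import Pool.Agent.Lib.P9700a.Rank
import Pool.Agent.Lib.P9700a.Cover

/-!
# Definitions for the virtually residually (finite soluble) case of MP_9700b3_al

* `RK r G`: every finitely generated subgroup of `G` is generated by at most `r` elements (so `FR G` is `∃ r, RK r G`).
* `HI L n`: there are subgroups `K 0 ≤ K 1 ≤ ... ≤ K n = L` and elements `x i ∈ K (i+1)` normalising `K i`, no positive power of
  which is in `K i` (`i < n`).
* `hh X`: the supremum of the `n` with `HI ⊤ n`, in `ℕ∞` (for soluble groups: the torsion-free rank).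
* `DL s G`: a subgroup of finite index has derived length at most `s`.
* `HP A B N`: the pairs `(a, b)` in `A × B` with `a b⁻¹ ∈ N`.
* `Sl G0 M`: `M` is normal of finite index in `G`, `M ≤ G0`, and `G0 / M` is soluble.
* `Chf M M'`: `M / M'` is a chief factor of `G`.
* `VL v`: `v` is a valuation of a group with central torsion-free factors.
-/

set_option autoImplicit false

open scoped commutatorElement

namespace P9700e

open P9700a

/-- every finitely generated subgroup is generated by at most `r` elements -/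
def RK (r : ℕ) (G : Type*) [Group G] : Prop :=
  ∀ K : Subgroup G, K.FG → ∃ s : Finset G, s.card ≤ r ∧ Subgroup.closure (s : Set G) = K

theorem FR_iff {G : Type*} [Group G] : FR G ↔ ∃ r, RK r G := Iff.rfl

theorem RK.fr {G : Type*} [Group G] {r : ℕ} (h : RK r G) : FR G := ⟨r, h⟩

theorem RK.mono {G : Type*} [Group G] {r s : ℕ} (h : RK r G) (hrs : r ≤ s) : RK s G := by
  intro K hK
  obtain ⟨t, h1, h2⟩ := h K hK
  exact ⟨t, h1.trans hrs, h2⟩

theorem RK.of_surjective {G H : Type*} [Group G] [Group H] {r : ℕ} (f : G →* H)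
    (hf : Function.Surjective f) (hr : RK r G) : RK r H := by
  classical
  intro K hK
  obtain ⟨t, ht⟩ := hK
  obtain ⟨g, hg⟩ := hf.hasRightInverse
  obtain ⟨s, hs1, hs2⟩ := hr (Subgroup.closure ((t.image g : Finset G) : Set G)) ⟨t.image g, rfl⟩
  refine ⟨s.image f, Finset.card_image_le.trans hs1, ?_⟩
  rw [Finset.coe_image, ← MonoidHom.map_closure, hs2, MonoidHom.map_closure, Finset.coe_image,
    Set.image_image]
  have : (fun x => f (g x)) '' (t : Set H) = (t : Set H) := by
    have h1 : (fun x => f (g x)) = id := funext hg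
    rw [h1, Set.image_id]
  rw [this, ht]

theorem RK.of_injective {G H : Type*} [Group G] [Group H] {r : ℕ} (f : G →* H)
    (hf : Function.Injective f) (hr : RK r H) : RK r G := by
  intro K hK
  obtain ⟨s, hs1, hs2⟩ := hr (K.map f) (RankAux.fg_map f hK)
  obtain ⟨s', h1, h2⟩ := RankAux.lift_inj f hf K s hs2
  exact ⟨s', h1.trans hs1, h2⟩

theorem RK.subgroup {G : Type*} [Group G] {r : ℕ} (H : Subgroup G) (h : RK r G) : RK r H :=
  RK.of_injective H.subtype (Subgroup.subtype_injective H) h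

theorem RK.of_le {G : Type*} [Group G] {r : ℕ} {H K : Subgroup G} (hHK : H ≤ K) (h : RK r K) :
    RK r H :=
  RK.of_injective (Subgroup.inclusion hHK) (Subgroup.inclusion_injective hHK) h

theorem RK.map {G H : Type*} [Group G] [Group H] {r : ℕ} (f : G →* H) {A : Subgroup G}
    (h : RK r A) : RK r (A.map f) :=
  RK.of_surjective (f.subgroupMap A) (MonoidHom.subgroupMap_surjective f A) h

theorem rk_iff {G : Type*} [Group G] {r : ℕ} (A : Subgroup G) :
    RK r A ↔ ∀ K : Subgroup G, K ≤ A → K.FG →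
      ∃ s : Finset G, s.card ≤ r ∧ Subgroup.closure (s : Set G) = K := by
  classical
  constructor
  · intro hr K hKA hK
    have hmap : (K.subgroupOf A).map A.subtype = K := Subgroup.map_subgroupOf_eq_of_le hKA
    have hfg : (K.subgroupOf A).FG := by
      obtain ⟨t, ht⟩ := hK
      rw [← hmap] at ht
      obtain ⟨t', -, h2⟩ := RankAux.lift_inj A.subtype (Subgroup.subtype_injective A) _ t ht
      exact ⟨t', h2⟩
    obtain ⟨s, h1, h2⟩ := hr _ hfg
    refine ⟨s.image A.subtype, Finset.card_image_le.trans h1, ?_⟩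
    rw [Finset.coe_image, ← MonoidHom.map_closure, h2, hmap]
  · intro hr K hK
    obtain ⟨s, h1, h2⟩ := hr (K.map A.subtype) (Subgroup.map_subtype_le K) (RankAux.fg_map _ hK)
    obtain ⟨s', h3, h4⟩ := RankAux.lift_inj A.subtype (Subgroup.subtype_injective A) K s h2
    exact ⟨s', h3.trans h1, h4⟩

/-- there are subgroups `K 0 ≤ K 1 ≤ ... ≤ K n = L` and elements `x i ∈ K (i+1)` which normalise `K i` and
have no positive power in `K i` -/
inductive HI {X : Type*} [Group X] : Subgroup X → ℕ → Prop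
  | zero (L : Subgroup X) : HI L 0
  | succ {K L : Subgroup X} {x : X} {n : ℕ} (h : HI K n) (hKL : K ≤ L) (hx : x ∈ L)
      (hn : ∀ k ∈ K, x * k * x⁻¹ ∈ K ∧ x⁻¹ * k * x ∈ K) (hp : ∀ m : ℕ, 0 < m → x ^ m ∉ K) :
      HI L (n + 1)

/-- the supremum of the `n` with `HI ⊤ n` -/
noncomputable def hh (X : Type*) [Group X] : ℕ∞ :=
  ⨆ (n : ℕ) (_ : HI (⊤ : Subgroup X) n), (n : ℕ∞)

/-- a subgroup of finite index has derived length at most `s` -/
def DL (s : ℕ) (G : Type*) [Group G] : Prop :=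
  ∃ Y : Subgroup G, Y.FiniteIndex ∧ derivedSeries Y s = ⊥

/-- the pairs `(a, b)` with `a b⁻¹ ∈ N` -/
def HP {G : Type*} [Group G] (A B N : Subgroup G) [N.Normal] : Subgroup (A × B) where
  carrier := {x | (x.1 : G) * (x.2 : G)⁻¹ ∈ N}
  one_mem' := by
    change ((1 : A) : G) * ((1 : B) : G)⁻¹ ∈ N
    simp [N.one_mem]
  mul_mem' := by
    rintro x y hx hy
    change ((x.1 : G) * (y.1 : G)) * ((x.2 : G) * (y.2 : G))⁻¹ ∈ N
    have e : ((x.1 : G) * (y.1 : G)) * ((x.2 : G) * (y.2 : G))⁻¹ =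
        (x.1 : G) * ((y.1 : G) * (y.2 : G)⁻¹) * (x.1 : G)⁻¹ * ((x.1 : G) * (x.2 : G)⁻¹) := by group
    rw [e]
    exact N.mul_mem (Subgroup.Normal.conj_mem inferInstance _ hy _) hx
  inv_mem' := by
    rintro x hx
    change (x.1 : G)⁻¹ * ((x.2 : G)⁻¹)⁻¹ ∈ N
    have e : (x.1 : G)⁻¹ * ((x.2 : G)⁻¹)⁻¹ =
        (x.1 : G)⁻¹ * ((x.1 : G) * (x.2 : G)⁻¹)⁻¹ * ((x.1 : G)⁻¹)⁻¹ := by group
    rw [e]
    exact Subgroup.Normal.conj_mem inferInstance _ (N.inv_mem hx) _

theorem mem_HP {G : Type*} [Group G] {A B N : Subgroup G} [N.Normal] (x : A × B) :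
    x ∈ HP A B N ↔ (x.1 : G) * (x.2 : G)⁻¹ ∈ N := Iff.rfl

theorem HP_mono {G : Type*} [Group G] {A B N N' : Subgroup G} [N.Normal] [N'.Normal] (h : N ≤ N') :
    HP A B N ≤ HP A B N' := fun _ hx => h hx

/-- `M` is normal of finite index in `G`, contained in `G0`, and `G0 / M` is soluble -/
def Sl {G : Type*} [Group G] (G0 M : Subgroup G) : Prop :=
  M.Normal ∧ M.FiniteIndex ∧ M ≤ G0 ∧ ∃ k : ℕ, (derivedSeries G0 k).map G0.subtype ≤ M

/-- `M / M'` is a chief factor of `G` -/
def Chf {G : Type*} [Group G] (M M' : Subgroup G) : Prop :=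
  M.Normal ∧ M'.Normal ∧ M' < M ∧
    ∀ U : Subgroup G, U.Normal → M' ≤ U → U ≤ M → U = M' ∨ U = M

/-- a valuation of a group with values in a linear order with top `⊤`: the factors are central and
torsion-free -/
structure VL {X : Type*} [Group X] {Λ : Type*} [LinearOrder Λ] [OrderTop Λ] (v : X → Λ) : Prop where
  top_iff : ∀ x, v x = ⊤ ↔ x = 1
  mul : ∀ x y, min (v x) (v y) ≤ v (x * y)
  inv : ∀ x, v x⁻¹ = v x
  comm : ∀ x y : X, y ≠ 1 → v y < v ⁅x, y⁆
  pow : ∀ x (m : ℕ), 0 < m → v (x ^ m) = v x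

end P9700e
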