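import Mathlib
import Pool.Agent.Lib.P9700e.Defs

/-!
# Further definitions for T5b of MP_9700b3_al

* `PR p G0 M`: a normal subgroup `U` of `G` with `M ≤ U ≤ G0` and `U / M` of order prime to `p` is `M`.
* `CJ G0 J`: `J` centralises all chief factors `M / M'` of `G` with `M ≤ G0`, `Sl G0 M'`.
-/

set_option autoImplicit false

open scoped commutatorElement

namespace P9700e

/-- `G0 / M` has no nontrivial `G`-invariant normal subgroup of order prime to `p` -/
def PR {G : Type*} [Group G] (p : ℕ) (G0 M : Subgroup G) : Prop :=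
  ∀ U : Subgroup G, U.Normal → M ≤ U → U ≤ G0 → ¬ p ∣ M.relIndex U → U = M

/-- `J` centralises all chief factors `M / M'` of `G` with `M ≤ G0`, `Sl G0 M'` -/
def CJ {G : Type*} [Group G] (G0 J : Subgroup G) : Prop :=
  ∀ M M' : Subgroup G, Sl G0 M' → M ≤ G0 → Chf M M' → ⁅M, J⁆ ≤ M'

end P9700e
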