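import Mathlib
import Pool.Agent.Lib.P9700e.Defs
import Pool.Agent.Lib.P9700e.Defs2

/-!
# Valuations and towers for T5b of MP_9700b3_al

* `WV K N v`: `v : G → Λ` is a `G`-invariant valuation of the normal subgroup `K` with kernel `N` (`{x ∈ K : v x = ⊤}`), with central torsion-free factors.
* `Tower K e N c`: for every prime `p` a chain `c p 0 ≥ c p 1 ≥ ... ≥ c p l = N p` of normal subgroups of `G` starting above `K`, with elementary abelian `p`-factors of rank at most `e` centralised by `K`.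
* `lev c p x`: the largest `i` with `x ∈ c p i` (`⊤` if there is none).
* `NU K N 𝒰`: the elements of `K` that are in `N p` for `𝒰`-almost all `p`.
* `vU c 𝒰 x`: the germ of the levels.
-/

set_option autoImplicit false

open scoped commutatorElement

namespace P9700e

/-- an invariant valuation of `K` with kernel `N` -/
structure WV {G : Type*} [Group G] (K N : Subgroup G) {Λ : Type*} [LinearOrder Λ] [OrderTop Λ]
    (v : G → Λ) : Prop where
  top_iff : ∀ x ∈ K, v x = ⊤ ↔ x ∈ N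
  mul : ∀ x ∈ K, ∀ y ∈ K, min (v x) (v y) ≤ v (x * y)
  inv : ∀ x ∈ K, v x⁻¹ = v x
  conj : ∀ g : G, ∀ x ∈ K, v (g * x * g⁻¹) = v x
  comm : ∀ x ∈ K, ∀ y ∈ K, y ∉ N → v y < v ⁅x, y⁆
  pow : ∀ x ∈ K, ∀ m : ℕ, 0 < m → v (x ^ m) = v x

/-- towers of elementary abelian sections -/
structure Tower {G : Type*} [Group G] (K : Subgroup G) (e : ℕ) (N : Nat.Primes → Subgroup G)
    (c : Nat.Primes → ℕ → Subgroup G) : Prop where
  zero : ∀ p, K ≤ c p 0
  normal : ∀ p i, (c p i).Normal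
  anti : ∀ p i, c p (i + 1) ≤ c p i
  le : ∀ p i, N p ≤ c p i
  stop : ∀ p, ∃ l, c p l = N p
  comm : ∀ p i, ⁅c p i, K⁆ ≤ c p (i + 1)
  ab : ∀ p i, ⁅c p i, c p i⁆ ≤ c p (i + 1)
  exp : ∀ p i, ∀ x ∈ c p i, x ^ (p : ℕ) ∈ c p (i + 1)
  rk : ∀ p i, (c p (i + 1)).relIndex (c p i) ≠ 0 ∧ (c p (i + 1)).relIndex (c p i) ≤ (p : ℕ) ^ e

/-- the level of `x` -/
noncomputable def lev {G : Type*} [Group G] (c : Nat.Primes → ℕ → Subgroup G) (p : Nat.Primes)
    (x : G) : ℕ∞ := ⨆ (i : ℕ) (_ : x ∈ c p i), (i : ℕ∞)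

/-- the elements of `K` which are in `N p` for almost all `p` -/
def NU {G : Type*} [Group G] (K : Subgroup G) (N : Nat.Primes → Subgroup G)
    (𝒰 : Ultrafilter Nat.Primes) : Subgroup G where
  carrier := {x | x ∈ K ∧ ∀ᶠ p in (𝒰 : Filter Nat.Primes), x ∈ N p}
  one_mem' := ⟨K.one_mem, Filter.Eventually.of_forall fun p => (N p).one_mem⟩
  mul_mem' := by
    rintro x y ⟨hx, hx'⟩ ⟨hy, hy'⟩
    exact ⟨K.mul_mem hx hy, (hx'.and hy').mono fun p h => (N p).mul_mem h.1 h.2⟩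
  inv_mem' := by
    rintro x ⟨hx, hx'⟩
    exact ⟨K.inv_mem hx, hx'.mono fun p h => (N p).inv_mem h⟩

theorem mem_NU {G : Type*} [Group G] {K : Subgroup G} {N : Nat.Primes → Subgroup G}
    {𝒰 : Ultrafilter Nat.Primes} {x : G} :
    x ∈ NU K N 𝒰 ↔ x ∈ K ∧ ∀ᶠ p in (𝒰 : Filter Nat.Primes), x ∈ N p := Iff.rfl

theorem NU_normal {G : Type*} [Group G] {K : Subgroup G} (hK : K.Normal)
    {N : Nat.Primes → Subgroup G} (hN : ∀ p, (N p).Normal) (𝒰 : Ultrafilter Nat.Primes) :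
    (NU K N 𝒰).Normal := by
  refine ⟨fun x hx g => ?_⟩
  exact ⟨hK.conj_mem x hx.1 g, hx.2.mono fun p h => (hN p).conj_mem x h g⟩

theorem NU_le {G : Type*} [Group G] {K : Subgroup G} {N : Nat.Primes → Subgroup G}
    {𝒰 : Ultrafilter Nat.Primes} : NU K N 𝒰 ≤ K := fun _ h => h.1

/-- the germ of the levels -/
noncomputable def vU {G : Type*} [Group G] (c : Nat.Primes → ℕ → Subgroup G)
    (𝒰 : Ultrafilter Nat.Primes) (x : G) : Filter.Germ (𝒰 : Filter Nat.Primes) ℕ∞ :=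
  ((fun p => lev c p x : Nat.Primes → ℕ∞) : Filter.Germ (𝒰 : Filter Nat.Primes) ℕ∞)

end P9700e
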