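import Mathlib
import Pool.Agent.Lib.P9700e.Defs

/-!
# Basic properties of `HI` and `hh`

* `HI.mono`: enlarge `L` (cases on `h`; in the case `succ` keep `K`, `x`). `HI.of_le`: induction on `h` (an `HI L (n+1)` gives `HI K n`, hence `HI L n` by `mono`).
* `HI.map`: image under an injective homomorphism (induction on `h`; `x` becomes `f x`). `HI.comap`: preimage under a surjective homomorphism (choose a preimage of `x`).
* `le_hh`: `le_iSup₂`. `hh_le`: `iSup₂_le`. `HI_of_le_hh`: if `(n : ℕ∞) ≤ hh X` then `HI ⊤ n`: otherwise `HI ⊤ m` implies `m < n` (`HI.of_le`), so `n ≠ 0`, `hh X ≤ n - 1`.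
* `exists_of_lt_top`: if `hh X ≠ ⊤` then `hh X = n` for some natural number `n` (`ENat.ne_top_iff_exists`).
-/

set_option autoImplicit false

namespace P9700e

theorem HI.mono {X : Type*} [Group X] {L M : Subgroup X} {n : ℕ} (h : HI L n) (hLM : L ≤ M) :
    HI M n := by
  cases h with
  | zero => exact HI.zero M
  | succ h hKL hx hn hp => exact HI.succ h (hKL.trans hLM) (hLM hx) hn hp

theorem HI.of_le {X : Type*} [Group X] {L : Subgroup X} {m n : ℕ} (h : HI L n) (hmn : m ≤ n) :
    HI L m := by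
  induction h with
  | zero L =>
    obtain rfl : m = 0 := Nat.le_zero.mp hmn
    exact HI.zero L
  | @succ K L x n h hKL hx hn hp ih =>
    rcases Nat.lt_or_ge n m with h1 | h1
    · obtain rfl : m = n + 1 := le_antisymm hmn h1
      exact HI.succ h hKL hx hn hp
    · exact (ih h1).mono hKL

theorem HI.map {X Y : Type*} [Group X] [Group Y] (f : X →* Y) (hf : Function.Injective f)
    {L : Subgroup X} {n : ℕ} (h : HI L n) : HI (L.map f) n := by
  induction h with
  | zero L => exact HI.zero _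
  | @succ K L x n h hKL hx hn hp ih =>
    refine HI.succ (x := f x) ih (Subgroup.map_mono hKL) (Subgroup.mem_map_of_mem f hx) ?_ ?_
    · rintro _ ⟨k, hk, rfl⟩
      refine ⟨⟨x * k * x⁻¹, (hn k hk).1, by simp⟩, ⟨x⁻¹ * k * x, (hn k hk).2, by simp⟩⟩
    · rintro m hm ⟨k, hk, hk2⟩
      rw [← map_pow] at hk2
      have h3 : k = x ^ m := hf hk2
      rw [h3] at hk
      exact hp m hm hk

theorem HI.comap {X Y : Type*} [Group X] [Group Y] (f : X →* Y) (hf : Function.Surjective f)
    {L : Subgroup Y} {n : ℕ} (h : HI L n) : HI (L.comap f) n := by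
  induction h with
  | zero L => exact HI.zero _
  | @succ K L x n h hKL hx hn hp ih =>
    obtain ⟨x', rfl⟩ := hf x
    refine HI.succ (x := x') ih (Subgroup.comap_mono hKL) (Subgroup.mem_comap.mpr hx) ?_ ?_
    · intro k hk
      have h1 := hn (f k) (Subgroup.mem_comap.mp hk)
      constructor
      · rw [Subgroup.mem_comap]
        simpa using h1.1
      · rw [Subgroup.mem_comap]
        simpa using h1.2
    · intro m hm hk
      rw [Subgroup.mem_comap, map_pow] at hk
      exact hp m hm hk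

theorem le_hh {X : Type*} [Group X] {n : ℕ} (h : HI (⊤ : Subgroup X) n) : (n : ℕ∞) ≤ hh X :=
  le_iSup₂ (f := fun (n : ℕ) (_ : HI (⊤ : Subgroup X) n) => (n : ℕ∞)) n h

theorem hh_le {X : Type*} [Group X] {c : ℕ∞} (h : ∀ n, HI (⊤ : Subgroup X) n → (n : ℕ∞) ≤ c) :
    hh X ≤ c :=
  iSup₂_le h

theorem HI_of_le_hh {X : Type*} [Group X] {n : ℕ} (h : (n : ℕ∞) ≤ hh X) :
    HI (⊤ : Subgroup X) n := by
  by_contra hcon
  have h1 : ∀ m, HI (⊤ : Subgroup X) m → m < n := by
    intro m hm
    by_contra h2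
    exact hcon (hm.of_le (not_lt.mp h2))
  have h0 : 0 < n := h1 0 (HI.zero _)
  have h2 : hh X ≤ ((n - 1 : ℕ) : ℕ∞) := by
    refine hh_le fun m hm => ?_
    have h3 := h1 m hm
    exact_mod_cast (by omega : m ≤ n - 1)
  have h3 : (n : ℕ∞) ≤ ((n - 1 : ℕ) : ℕ∞) := h.trans h2
  have h4 : n ≤ n - 1 := by exact_mod_cast h3
  omega

theorem hh_le_of_injective {X Y : Type*} [Group X] [Group Y] (f : X →* Y)
    (hf : Function.Injective f) : hh X ≤ hh Y :=
  hh_le fun _ hn => le_hh ((hn.map f hf).mono le_top)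

theorem hh_le_of_surjective {X Y : Type*} [Group X] [Group Y] (f : X →* Y)
    (hf : Function.Surjective f) : hh Y ≤ hh X :=
  hh_le fun _ hn => le_hh ((hn.comap f hf).mono le_top)

theorem hh_congr {X Y : Type*} [Group X] [Group Y] (f : X ≃* Y) : hh X = hh Y :=
  le_antisymm (hh_le_of_injective f.toMonoidHom f.injective)
    (hh_le_of_surjective f.toMonoidHom f.surjective)

theorem hh_le_of_le {X : Type*} [Group X] {H K : Subgroup X} (h : H ≤ K) : hh H ≤ hh K :=
  hh_le_of_injective (Subgroup.inclusion h) (Subgroup.inclusion_injective h)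

end P9700e
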