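import Mathlib
import Pool.Agent.Lib.P9700e.Defs
import Pool.Agent.Lib.P9700e.HMono

/-!
# Additivity of `hh`

`hh_add`, `≤`: by induction on `HI L n` one gets `a + b = n` with `HI (L.subgroupOf N) a` (in `N`) and `HI (L.map (mk' N)) b` (in `X ⧸ N`). Step (`K`, `x`, `L`): if `x ^ k ∈ K ⊔ N` for
some `k > 0`, write `x ^ k = κ ν`, `κ ∈ K`, `ν ∈ N` (`Subgroup.mem_sup`, `N` normal); then `ν = κ⁻¹ x ^ k ∈ L ⊓ N` normalises `K` and `N`, hence `K ⊓ N`, and no positive power of `ν` is in `K`:
modulo `K` (in the normaliser of `K`) `ν` is `x ^ k`, precisely `ν ^ m ∈ K` implies `(κ ν) ^ m ∈ K` (`κ ∈ K`, `ν` normalises `K`), i.e. `x ^ (k m) ∈ K`. So `a` goes up by one (and `b` is kept by `HI.mono`).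
Otherwise `b` goes up by one: the image of `x` normalises the image of `K` and no positive power of it is in the image of `K`.
`≥`: `HI.map` along `N.subtype` gives `HI N a` in `X`, and by induction on `HI M b` (in `X ⧸ N`) one gets `HI (M.comap (mk' N)) (a + b)`: start with `N ≤ M.comap (mk' N)`, in the step lift `x`.
In `ℕ∞`: `hh N + hh (X ⧸ N) ≤ hh X` from the statement for natural numbers: if one of the two summands is `⊤` use `HI_of_le_hh` for all `n` (`ENat.eq_top_iff_forall_le` or similar), or prove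
`a ≤ hh N → b ≤ hh (X ⧸ N) → a + b ≤ hh X` for naturals `a`, `b` and use `ENat.iSup_add`-like lemmas.
-/

set_option autoImplicit false

namespace P9700e

namespace HAddAux

/-- `x` normalises `K` -/
def Nm {X : Type*} [Group X] (K : Subgroup X) (x : X) : Prop :=
  ∀ k ∈ K, x * k * x⁻¹ ∈ K ∧ x⁻¹ * k * x ∈ K

theorem Nm.mul {X : Type*} [Group X] {K : Subgroup X} {x y : X} (hx : Nm K x) (hy : Nm K y) :
    Nm K (x * y) := by
  intro k hk
  constructor
  · have e : x * y * k * (x * y)⁻¹ = x * (y * k * y⁻¹) * x⁻¹ := by group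
    rw [e]
    exact (hx _ (hy k hk).1).1
  · have e : (x * y)⁻¹ * k * (x * y) = y⁻¹ * (x⁻¹ * k * x) * y := by group
    rw [e]
    exact (hy _ (hx k hk).2).2

theorem Nm.of_mem {X : Type*} [Group X] {K : Subgroup X} {x : X} (hx : x ∈ K) : Nm K x := fun _ hk =>
  ⟨K.mul_mem (K.mul_mem hx hk) (K.inv_mem hx), K.mul_mem (K.mul_mem (K.inv_mem hx) hk) hx⟩

theorem Nm.pow {X : Type*} [Group X] {K : Subgroup X} {x : X} (hx : Nm K x) (n : ℕ) :
    Nm K (x ^ n) := by
  induction n with
  | zero => rw [pow_zero]; exact Nm.of_mem K.one_mem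
  | succ n ih => rw [pow_succ]; exact ih.mul hx

/-- powers of `κ ν` modulo `K` -/
theorem pow_mod {X : Type*} [Group X] {K : Subgroup X} {κ ν : X} (hκ : κ ∈ K) (hν : Nm K ν)
    (m : ℕ) : ∃ κ' ∈ K, (κ * ν) ^ m = κ' * ν ^ m := by
  induction m with
  | zero => exact ⟨1, K.one_mem, by simp⟩
  | succ m ih =>
    obtain ⟨κ', h1, h2⟩ := ih
    refine ⟨κ' * (ν ^ m * κ * (ν ^ m)⁻¹), K.mul_mem h1 ((hν.pow m) κ hκ).1, ?_⟩
    rw [pow_succ, h2, pow_succ]
    group

/-- the upper bound -/
theorem split {X : Type*} [Group X] (N : Subgroup X) [N.Normal] {L : Subgroup X} {n : ℕ}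
    (h : HI L n) : ∃ a b : ℕ, a + b = n ∧ HI (L.subgroupOf N) a ∧
      HI (L.map (QuotientGroup.mk' N)) b := by
  induction h with
  | zero L => exact ⟨0, 0, rfl, HI.zero _, HI.zero _⟩
  | @succ K L x n h hKL hx hn hp ih =>
    obtain ⟨a, b, hab, ha, hb⟩ := ih
    by_cases hk : ∃ k : ℕ, 0 < k ∧ x ^ k ∈ K ⊔ N
    · obtain ⟨k, hk0, hk⟩ := hk
      obtain ⟨κ, hκ, ν, hν, hκν⟩ := Subgroup.mem_sup_of_normal_right.1 hk
      have hNx : Nm K x := hn
      have e1 : ν = κ⁻¹ * x ^ k := by rw [← hκν]; group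
      have hNν : Nm K ν := by
        rw [e1]
        exact (Nm.of_mem (K.inv_mem hκ)).mul (hNx.pow k)
      have hνL : ν ∈ L := by
        rw [e1]
        exact L.mul_mem (L.inv_mem (hKL hκ)) (L.pow_mem hx k)
      refine ⟨a + 1, b, by omega, ?_, hb.mono (Subgroup.map_mono hKL)⟩
      refine HI.succ (x := (⟨ν, hν⟩ : N)) ha (Subgroup.comap_mono hKL) ?_ ?_ ?_
      · exact hνL
      · intro y hy
        exact ⟨(hNν _ hy).1, (hNν _ hy).2⟩
      · intro m hm hmem
        have hmem' : ν ^ m ∈ K := hmem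
        obtain ⟨κ', h1, h2⟩ := pow_mod hκ hNν m
        apply hp (k * m) (Nat.mul_pos hk0 hm)
        rw [pow_mul, ← hκν, h2]
        exact K.mul_mem h1 hmem'
    · refine ⟨a, b + 1, by omega, ha.mono (Subgroup.comap_mono hKL), ?_⟩
      refine HI.succ (x := QuotientGroup.mk' N x) hb (Subgroup.map_mono hKL)
        (Subgroup.mem_map_of_mem _ hx) ?_ ?_
      · rintro _ ⟨y, hy, rfl⟩
        refine ⟨⟨x * y * x⁻¹, (hn y hy).1, ?_⟩, ⟨x⁻¹ * y * x, (hn y hy).2, ?_⟩⟩
        · simp
        · simp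
      · rintro m hm ⟨y, hy, hyx⟩
        apply hk
        refine ⟨m, hm, ?_⟩
        rw [← map_pow] at hyx
        have h1 : y⁻¹ * x ^ m ∈ N := QuotientGroup.eq.1 hyx
        have h2 : x ^ m = y * (y⁻¹ * x ^ m) := by group
        rw [h2]
        exact Subgroup.mul_mem_sup hy h1

/-- the lower bound -/
theorem join {X : Type*} [Group X] (N : Subgroup X) [N.Normal] {a : ℕ} (ha : HI N a)
    {M : Subgroup (X ⧸ N)} {b : ℕ} (h : HI M b) :
    HI (M.comap (QuotientGroup.mk' N)) (a + b) := by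
  induction h with
  | zero L =>
    refine ha.mono ?_
    intro x hx
    have : QuotientGroup.mk' N x = 1 := (QuotientGroup.eq_one_iff x).2 hx
    rw [Subgroup.mem_comap, this]
    exact L.one_mem
  | @succ K L x n h hKL hx hn hp ih =>
    obtain ⟨y, rfl⟩ := QuotientGroup.mk'_surjective N x
    refine HI.succ (x := y) ih (Subgroup.comap_mono hKL) hx ?_ ?_
    · intro k hk
      rw [Subgroup.mem_comap] at hk
      rw [Subgroup.mem_comap, Subgroup.mem_comap]
      simp only [map_mul, map_inv]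
      exact hn _ hk
    · intro m hm hmem
      rw [Subgroup.mem_comap, map_pow] at hmem
      exact hp m hm hmem

theorem enat_add_le {u v w : ℕ∞} (h : ∀ a b : ℕ, (a : ℕ∞) ≤ u → (b : ℕ∞) ≤ v →
    ((a + b : ℕ) : ℕ∞) ≤ w) : u + v ≤ w := by
  rw [← ENat.forall_natCast_le_iff_le]
  intro c hc
  induction u using ENat.recTopCoe with
  | top => simpa using h c 0 le_top (by simp)
  | coe u =>
    induction v using ENat.recTopCoe with
    | top => simpa using h 0 c (by simp) le_top
    | coe v =>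
      refine hc.trans ?_
      have := h u v le_rfl le_rfl
      push_cast at this
      exact this

end HAddAux

open HAddAux in
theorem hh_add {X : Type*} [Group X] (N : Subgroup X) [N.Normal] :
    hh X = hh N + hh (X ⧸ N) := by
  apply le_antisymm
  · apply hh_le
    intro n hn
    obtain ⟨a, b, hab, ha, hb⟩ := split N hn
    rw [Subgroup.top_subgroupOf] at ha
    rw [Subgroup.map_top_of_surjective _ (QuotientGroup.mk'_surjective N)] at hb
    rw [← hab]
    push_cast
    exact add_le_add (le_hh ha) (le_hh hb)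
  · apply enat_add_le
    intro a b ha hb
    have h1 := (HI_of_le_hh ha).map N.subtype (Subgroup.subtype_injective N)
    rw [← MonoidHom.range_eq_map, Subgroup.range_subtype] at h1
    have h2 := join N h1 (HI_of_le_hh hb)
    rw [Subgroup.comap_top] at h2
    exact le_hh h2

end P9700e
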