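import Mathlib
import Pool.Agent.Lib.P9700e.Defs
import Pool.Agent.Lib.P9700e.HMono

/-!
# `hh` of periodic groups, and elements of infinite order

* periodic: `HI ⊤ (n+1)` would give `x` with no positive power in `K`; but `x ^ m = 1 ∈ K`.
* `one_le_hh`: `HI ⊤ 1` with `K = ⊥`.
-/

set_option autoImplicit false

namespace P9700e

theorem hh_eq_zero {X : Type*} [Group X] (h : ∀ x : X, ∃ m : ℕ, 0 < m ∧ x ^ m = 1) : hh X = 0 := by
  refine le_antisymm (iSup₂_le ?_) bot_le
  intro n hn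
  cases hn with
  | zero => simp
  | @succ K _ x n h1 hKL hx hn hp =>
    exfalso
    obtain ⟨m, hm, h2⟩ := h x
    exact hp m hm (h2 ▸ K.one_mem)

theorem one_le_hh {X : Type*} [Group X] (x : X) (h : ∀ m : ℕ, 0 < m → x ^ m ≠ 1) : 1 ≤ hh X := by
  have h1 : HI (⊤ : Subgroup X) 1 := by
    refine HI.succ (K := ⊥) (x := x) (HI.zero ⊥) bot_le (Subgroup.mem_top x) ?_ ?_
    · intro k hk
      rw [Subgroup.mem_bot] at hk
      subst hk
      constructor <;> simp
    · intro m hm h2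
      exact h m hm (Subgroup.mem_bot.mp h2)
  have h2 : ((1 : ℕ) : ℕ∞) ≤ hh X := le_iSup₂_of_le (f := fun (n : ℕ) (_ : HI (⊤ : Subgroup X) n) => (n : ℕ∞)) 1 h1 le_rfl
  simpa using h2

/-- a torsion-free group with `hh X = 0` is trivial -/
theorem eq_one_of_hh_zero {X : Type*} [Group X] (h : hh X = 0)
    (htf : ∀ x : X, ∀ m : ℕ, 0 < m → x ^ m = 1 → x = 1) (x : X) : x = 1 := by
  by_contra hx
  have h1 := one_le_hh x fun m hm h2 => hx (htf x m hm h2)
  rw [h] at h1
  exact absurd h1 (by simp)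

end P9700e
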