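import Mathlib
import Pool.Agent.Lib.P9700e.Defs
import Pool.Agent.Lib.P9700e.HMono
import Pool.Agent.Lib.P9700e.HAdd
import Pool.Agent.Lib.P9700e.HTor

/-!
# `hh`: subgroups of finite index, kernels and images, products

* `hh_ker_range`: `hh_add f.ker`, `QuotientGroup.quotientKerEquivRange`, `hh_congr`.
* `hh_finiteIndex`: `hh H ≤ hh X` (`hh_le_of_injective`); with `N = H.normalCore`: `hh X = hh N + hh (X ⧸ N) = hh N` (`X ⧸ N` is finite, `hh_eq_zero`) `≤ hh H`.
* `hh_prod`: `hh_ker_range (MonoidHom.fst X Y)`, kernel isomorphic to `Y` (injects by `snd`).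
* `hh_extension`: `N' ≤ N` normal in `X`: `hh N = hh N' + hh (N ⧸ N'.subgroupOf N)` (`hh_add` in `N`; `N'.subgroupOf N` is isomorphic to `N'`, `Subgroup.subgroupOfEquivOfLe`).
-/

set_option autoImplicit false

namespace P9700e

theorem hh_ker_range {X Y : Type*} [Group X] [Group Y] (f : X →* Y) :
    hh X = hh f.ker + hh f.range := by
  rw [hh_add f.ker, hh_congr (QuotientGroup.quotientKerEquivRange f)]

theorem hh_finiteIndex {X : Type*} [Group X] (H : Subgroup X) [H.FiniteIndex] : hh H = hh X := by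
  apply le_antisymm (hh_le_of_injective H.subtype H.subtype_injective)
  rw [hh_add H.normalCore]
  have : Finite (X ⧸ H.normalCore) := Subgroup.finite_quotient_of_finiteIndex
  have h0 : hh (X ⧸ H.normalCore) = 0 :=
    hh_eq_zero (fun x => ⟨orderOf x, orderOf_pos x, pow_orderOf_eq_one x⟩)
  rw [h0, add_zero]
  exact hh_le_of_le H.normalCore_le

theorem hh_prod_le {X Y : Type*} [Group X] [Group Y] : hh (X × Y) ≤ hh X + hh Y := by
  have h1 : hh (MonoidHom.fst X Y).ker ≤ hh Y := by
    refine hh_le_of_injective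
      ((MonoidHom.snd X Y).comp (Subgroup.subtype (MonoidHom.fst X Y).ker)) ?_
    rintro ⟨⟨a, b⟩, ha⟩ ⟨⟨c, d⟩, hc⟩ hab
    have ha' : a = 1 := ha
    have hc' : c = 1 := hc
    have hbd : b = d := hab
    subst ha' hc' hbd
    rfl
  have h2 : hh (MonoidHom.fst X Y).range ≤ hh X :=
    hh_le_of_injective (Subgroup.subtype _) (Subgroup.subtype_injective _)
  calc hh (X × Y) = hh (MonoidHom.fst X Y).ker + hh (MonoidHom.fst X Y).range :=
        hh_ker_range (MonoidHom.fst X Y)
    _ ≤ hh Y + hh X := add_le_add h1 h2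
    _ = hh X + hh Y := add_comm _ _

theorem hh_extension {X : Type*} [Group X] (N' N : Subgroup X) [N'.Normal] (h : N' ≤ N) :
    hh N = hh N' + hh (N ⧸ N'.subgroupOf N) := by
  rw [hh_add (N'.subgroupOf N), hh_congr (Subgroup.subgroupOfEquivOfLe h)]

end P9700e
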