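import Mathlib
import Pool.Agent.Lib.P9700a.RankAb
import Pool.Agent.Lib.P9700e.Defs
import Pool.Agent.Lib.P9700e.HMono

/-!
# `hh` of an abelian group of rank `r` is at most `r`

Let `HI ⊤ n` with data `K 0 ≤ ... ≤ K n`, `x i`. The elements `x 0, ..., x (n-1)` are independent: if `∏ x i ^ (a i) = 1` with integers `a i` not all zero, take the largest `i` with `a i ≠ 0`; then
`x i ^ (a i) ∈ K i` (as `x j ∈ K (j+1) ≤ K i` for `j < i`), so a positive power of `x i` is in `K i`, a contradiction. (In Lean: by induction on `HI L n` there is a family `x : Fin n → X` with values in `L`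
that is linearly independent over `ℤ` in `Additive X`; use `Fin.snoc`/`linearIndependent_fin_snoc`-like lemmas or a direct statement `∀ a : Fin n → ℤ, ∏ i, x i ^ a i = 1 → a = 0`.)
So `Subgroup.closure (range x)` is free abelian of rank `n`, generated by at most `r` elements, and `n ≤ r` (e.g. a surjection `ℤ^r → ℤ^n`: `LinearIndependent` vectors in a module spanned by `r` elements:
`LinearIndependent.fintype_card_le...`/`linearIndependent_le_span` over the commutative ring `ℤ` (strong rank condition)).
-/

set_option autoImplicit false

namespace P9700e

open P9700a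

namespace HAbAux

theorem exists_indep {X : Type*} [CommGroup X] {L : Subgroup X} {n : ℕ} (h : HI L n) :
    ∃ x : Fin n → X, (∀ i, x i ∈ L) ∧ LinearIndependent ℤ (fun i => Additive.ofMul (x i)) := by
  induction h with
  | zero L => exact ⟨Fin.elim0, fun i => i.elim0, linearIndependent_empty_type⟩
  | @succ K L x n h hKL hx hn hp ih =>
    obtain ⟨y, hy, hi⟩ := ih
    refine ⟨Fin.cons x y, ?_, ?_⟩
    · intro i
      refine Fin.cases ?_ (fun j => ?_) i
      · simpa using hx
      · simpa using hKL (hy j)
    · have h1 := LinearIndependent.finCons' (R := ℤ) (Additive.ofMul x)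
        (fun i => Additive.ofMul (y i)) hi (by
          intro c z hz hz0
          by_contra hc
          have hzK : ∀ w ∈ Submodule.span ℤ (Set.range (fun i => Additive.ofMul (y i))),
              Additive.toMul w ∈ K := by
            intro w hw
            induction hw using Submodule.span_induction with
            | mem w hw =>
              obtain ⟨i, rfl⟩ := hw
              exact hy i
            | zero => exact K.one_mem
            | add a b _ _ ha hb => exact K.mul_mem ha hb
            | smul a b _ hb => exact K.zpow_mem hb a
          have h2 : x ^ c * Additive.toMul (z : Additive X) = 1 := hz0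
          have h3 : x ^ c ∈ K := by
            rw [eq_inv_of_mul_eq_one_left h2]
            exact K.inv_mem (hzK _ hz)
          rcases Int.natAbs_eq c with h4 | h4
          · rw [h4, zpow_natCast] at h3
            exact hp _ (Int.natAbs_pos.mpr hc) h3
          · rw [h4, zpow_neg, zpow_natCast] at h3
            exact hp _ (Int.natAbs_pos.mpr hc) (K.inv_mem_iff.mp h3))
      have h2 : (fun i => Additive.ofMul ((Fin.cons x y : Fin (n + 1) → X) i)) =
          (Fin.cons (Additive.ofMul x) fun i => Additive.ofMul (y i) : Fin (n + 1) → Additive X) := by
        funext i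
        refine Fin.cases ?_ (fun j => ?_) i
        · simp
        · simp
      rw [h2]
      exact h1

end HAbAux

theorem hh_le_of_comm {X : Type*} [CommGroup X] {r : ℕ} (h : RK r X) : hh X ≤ r := by
  classical
  refine hh_le fun n hn => ?_
  obtain ⟨x, -, hli⟩ := HAbAux.exists_indep hn
  obtain ⟨s, hs, hcl⟩ := h (Subgroup.closure (Set.range x))
    ⟨Finset.univ.image x, by rw [Finset.coe_image, Finset.coe_univ, Set.image_univ]⟩
  have hfin : Fintype (Additive.ofMul '' (s : Set X)) := Set.Finite.fintype (s.finite_toSet.image _)
  have := linearIndependent_le_span_aux' (R := ℤ) (fun i => Additive.ofMul (x i)) hli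
    (Additive.ofMul '' (s : Set X)) (by
      rintro _ ⟨i, rfl⟩
      apply RankAbAux.mem_span_of_mem_closure
      rw [hcl]
      exact Subgroup.subset_closure ⟨i, rfl⟩)
  rw [Fintype.card_fin] at this
  have h2 : Fintype.card (Additive.ofMul '' (s : Set X)) ≤ s.card := by
    rw [← Nat.card_eq_fintype_card, Nat.card_coe_set_eq, ← Set.ncard_coe_finset s]
    exact Set.ncard_image_le s.finite_toSet
  exact_mod_cast (by omega : n ≤ r)

/-- the same for a group with commuting elements -/
theorem hh_le_of_comm' {X : Type*} [Group X] {r : ℕ} (h : RK r X) (hc : ∀ x y : X, x * y = y * x) :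
    hh X ≤ r := by
  let _ : CommGroup X := { (inferInstance : Group X) with mul_comm := hc }
  exact hh_le_of_comm h

end P9700e
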