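import Mathlib
import Pool.Agent.Lib.P9700e.Defs
import Pool.Agent.Lib.P9700e.HMono
import Pool.Agent.Lib.P9700e.HAdd
import Pool.Agent.Lib.P9700e.HTor
import Pool.Agent.Lib.P9700e.HFin
import Pool.Agent.Lib.P9700e.HAb

/-!
# `hh` of soluble groups of rank `r`

* `hh_le_of_derived`: induction on `s` for all groups: with `N = derivedSeries X 1 = commutator X`, `hh X = hh N + hh (X ⧸ N)` (`hh_add`), `hh (X ⧸ N) ≤ r` (`hh_le_of_comm'`), and
`derivedSeries N s = ⊥` if `derivedSeries X (s+1) = ⊥` (the derived series of `N = derivedSeries X 1` is the shifted derived series: prove `(derivedSeries N j).map N.subtype = derivedSeries X (j+1)`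
or at least `≤` by induction with `Subgroup.map_commutator`). For `s = 0`: `⊤ = ⊥`, `X` is trivial.
* `hh_le_of_DL`: `hh_finiteIndex`.
-/

set_option autoImplicit false

open scoped commutatorElement

namespace P9700e

theorem derived_shift {X : Type*} [Group X] (j : ℕ) :
    (derivedSeries (commutator X) j).map (commutator X).subtype ≤ derivedSeries X (j + 1) := by
  induction j with
  | zero =>
    rw [derivedSeries_zero, derivedSeries_succ, derivedSeries_zero]
    exact Subgroup.map_subtype_le _
  | succ j ih =>
    rw [derivedSeries_succ, Subgroup.map_commutator, derivedSeries_succ X (j + 1)]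
    exact Subgroup.commutator_mono ih ih

theorem hh_le_of_derived {X : Type*} [Group X] {r : ℕ} (h : RK r X) (s : ℕ)
    (hs : derivedSeries X s = ⊥) : hh X ≤ ((r * s : ℕ) : ℕ∞) := by
  have key : ∀ (s : ℕ) (L : Subgroup X), derivedSeries L s = ⊥ → hh L ≤ ((r * s : ℕ) : ℕ∞) := by
    intro s
    induction s with
    | zero =>
      intro L hL
      rw [derivedSeries_zero] at hL
      have h0 : hh L = 0 := hh_eq_zero (fun x => ⟨1, one_pos, by
        have hx : x ∈ (⊤ : Subgroup L) := Subgroup.mem_top x
        rw [hL, Subgroup.mem_bot] at hx
        rw [hx, one_pow]⟩)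
      rw [h0]
      exact zero_le
    | succ s ih =>
      intro L hL
      have e1 : hh L = hh (commutator L) + hh (L ⧸ commutator L) := hh_add _
      -- the commutator subgroup of `L`, as a subgroup of `X`
      have e2 : hh (commutator L) = hh ((commutator L).map L.subtype) :=
        hh_congr ((commutator L).equivMapOfInjective L.subtype L.subtype_injective)
      have e3 : derivedSeries ((commutator L).map L.subtype) s = ⊥ := by
        have h1 : derivedSeries (commutator L) s = ⊥ := by
          have h2 := derived_shift (X := L) s
          rw [hL, le_bot_iff] at h2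
          exact (Subgroup.map_eq_bot_iff_of_injective _ (commutator L).subtype_injective).1 h2
        let f := (commutator L).equivMapOfInjective L.subtype L.subtype_injective
        have h3 := map_derivedSeries_eq (f := f.toMonoidHom) f.surjective s
        rw [h1, Subgroup.map_bot] at h3
        exact h3.symm
      have h4 : hh (commutator L) ≤ ((r * s : ℕ) : ℕ∞) := by
        rw [e2]
        exact ih _ e3
      have h5 : hh (L ⧸ commutator L) ≤ r := by
        refine hh_le_of_comm' ((h.subgroup L).of_surjective (QuotientGroup.mk' (commutator L))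
          (QuotientGroup.mk'_surjective _)) ?_
        intro x y
        induction x using QuotientGroup.induction_on with
        | H x =>
          induction y using QuotientGroup.induction_on with
          | H y =>
            rw [← QuotientGroup.mk_mul, ← QuotientGroup.mk_mul, QuotientGroup.eq]
            have e : (x * y)⁻¹ * (y * x) = ⁅y⁻¹, x⁻¹⁆ := by
              rw [commutatorElement_def]
              group
            rw [e]
            exact Subgroup.commutator_mem_commutator (Subgroup.mem_top _) (Subgroup.mem_top _)
      rw [e1]
      have h6 : (((r * (s + 1) : ℕ)) : ℕ∞) = ((r * s : ℕ) : ℕ∞) + (r : ℕ∞) := by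
        push_cast
        ring
      rw [h6]
      exact add_le_add h4 h5
  have h7 : hh X = hh (⊤ : Subgroup X) := hh_congr Subgroup.topEquiv.symm
  rw [h7]
  refine key s ⊤ ?_
  let f := (Subgroup.topEquiv : (⊤ : Subgroup X) ≃* X).symm
  have h8 := map_derivedSeries_eq (f := f.toMonoidHom) f.surjective s
  rw [hs, Subgroup.map_bot] at h8
  exact h8.symm

theorem hh_le_of_DL {X : Type*} [Group X] {r s : ℕ} (h : RK r X) (hs : DL s X) :
    hh X ≤ ((r * s : ℕ) : ℕ∞) := by
  obtain ⟨Y, hY, hd⟩ := hs
  rw [← hh_finiteIndex Y]
  exact hh_le_of_derived (h.subgroup Y) s hd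

end P9700e
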