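import Mathlib
import Pool.Agent.Lib.P9700a.RankAb
import Pool.Agent.Lib.P9700e.Defs
import Pool.Agent.Lib.P9700e.HMono
import Pool.Agent.Lib.P9700e.HAb

/-!
# `hh` of additive subgroups of rational vector spaces

* `le_hh_of_span`: choose a basis `e 0, ..., e (d-1)` of `V` in `E` (`Submodule.span` of `E` is everything: `exists_linearIndependent`, `Basis.extend`-like lemmas, or `Module.finBasis`/`Set.Finite` subset of `E`
that is linearly independent and spans). With `K i` = the subgroup of the elements of `E` in the span of `e 0, ..., e (i-1)`: `m • e i ∈ K i` is impossible for `m > 0` by linear independence. By induction on `i` get `HI (K i) i`.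
* `hh_le_finrank`: every finitely generated subgroup of `Multiplicative V` is generated by at most `finrank ℚ V` elements (a finitely generated subgroup is a torsion-free f.g. abelian group, so free, and a basis of it is
linearly independent over `ℚ` (`LinearIndependent.iff_fractionRing`-like)), then `hh_le_of_comm`.
-/

set_option autoImplicit false

namespace P9700e

namespace HVecAux

/-- the elements of `E` in the span of the first `i` vectors -/
def KK {V : Type*} [AddCommGroup V] [Module ℚ V] (E : AddSubgroup V) {d : ℕ} (v : Fin d → V)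
    (i : ℕ) : Subgroup (Multiplicative E) where
  carrier := {x | ((Multiplicative.toAdd x : E) : V) ∈ Submodule.span ℚ (v '' {j | j.val < i})}
  one_mem' := by
    change ((0 : E) : V) ∈ Submodule.span ℚ (v '' {j | j.val < i})
    simp
  mul_mem' := by
    intro x y hx hy
    exact (Submodule.span ℚ (v '' {j | j.val < i})).add_mem hx hy
  inv_mem' := by
    intro x hx
    exact (Submodule.span ℚ (v '' {j | j.val < i})).neg_mem hx

theorem mem_KK {V : Type*} [AddCommGroup V] [Module ℚ V] (E : AddSubgroup V) {d : ℕ} (v : Fin d → V)
    (i : ℕ) (x : Multiplicative E) : x ∈ KK E v i ↔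
      ((Multiplicative.toAdd x : E) : V) ∈ Submodule.span ℚ (v '' {j | j.val < i}) := Iff.rfl

theorem HI_KK {V : Type*} [AddCommGroup V] [Module ℚ V] (E : AddSubgroup V) {d : ℕ} (v : Fin d → V)
    (hv : LinearIndependent ℚ v) (hE : ∀ i, v i ∈ E) (i : ℕ) (hi : i ≤ d) : HI (KK E v i) i := by
  induction i with
  | zero => exact HI.zero _
  | succ i ih =>
    refine HI.succ (x := Multiplicative.ofAdd (⟨v ⟨i, hi⟩, hE _⟩ : E)) (ih (Nat.le_of_succ_le hi))
      ?_ ?_ ?_ ?_
    · intro x hx
      rw [mem_KK] at hx ⊢
      refine Submodule.span_mono (Set.image_mono ?_) hx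
      intro j hj
      exact Nat.lt_succ_of_lt hj
    · rw [mem_KK]
      exact Submodule.subset_span ⟨⟨i, hi⟩, Nat.lt_succ_self i, rfl⟩
    · intro k hk
      constructor
      · rw [mul_comm (Multiplicative.ofAdd _) k, mul_inv_cancel_right]
        exact hk
      · rw [mul_comm _⁻¹ k, inv_mul_cancel_right]
        exact hk
    · intro m hm hmem
      rw [mem_KK] at hmem
      have h1 : ((Multiplicative.toAdd ((Multiplicative.ofAdd (⟨v ⟨i, hi⟩, hE _⟩ : E)) ^ m) : E) : V)
          = (m : ℚ) • v ⟨i, hi⟩ := by
        rw [toAdd_pow, toAdd_ofAdd, AddSubgroup.coe_nsmul, Nat.cast_smul_eq_nsmul]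
      rw [h1] at hmem
      have hm0 : (m : ℚ) ≠ 0 := by exact_mod_cast hm.ne'
      have h2 := (Submodule.smul_mem_iff _ hm0).mp hmem
      exact hv.notMem_span_image (s := {j : Fin d | j.val < i}) (x := ⟨i, hi⟩) (by simp) h2

theorem RK_of_emb {X W : Type*} [CommGroup X] [AddCommGroup W] [Module ℚ W]
    [FiniteDimensional ℚ W] (f : X → W) (hf : ∀ x y, f (x * y) = f x + f y)
    (hinj : Function.Injective f) : RK (Module.finrank ℚ W) X := by
  classical
  intro K hK
  have hf1 : f 1 = 0 := by
    have := hf 1 1
    rw [mul_one] at this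
    exact left_eq_add.mp this
  -- the injection into `W`
  let g : Additive K →+ W :=
    { toFun := fun k => f ((Additive.toMul k : K) : X)
      map_zero' := hf1
      map_add' := fun _ _ => hf _ _ }
  have hg : Function.Injective g := by
    intro a b hab
    have h2 : ((Additive.toMul a : K) : X) = ((Additive.toMul b : K) : X) := hinj hab
    have h3 : (Additive.toMul a : K) = (Additive.toMul b : K) := Subtype.ext h2
    exact h3
  have hgl : Function.Injective g.toIntLinearMap := hg
  have : Group.FG K := (Group.fg_iff_subgroup_fg K).mpr hK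
  have : AddGroup.FG (Additive K) := GroupFG.iff_add_fg.mp inferInstance
  have : Module.Finite ℤ (Additive K) := Module.Finite.iff_addGroup_fg.mpr inferInstance
  have : Module.IsTorsionFree ℤ W := Module.IsTorsionFree.trans_faithfulSMul ℤ ℚ W
  have : Module.IsTorsionFree ℤ (Additive K) := by
    exact hgl.moduleIsTorsionFree g.toIntLinearMap (fun _ _ => map_smul g.toIntLinearMap _ _)
  let β := Module.Free.chooseBasis ℤ (Additive K)
  have hli : LinearIndependent ℤ (fun i => g (β i)) := by
    have := β.linearIndependent.map' g.toIntLinearMap (LinearMap.ker_eq_bot.mpr hgl)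
    exact this
  have hliQ : LinearIndependent ℚ (fun i => g (β i)) := (LinearIndependent.iff_fractionRing ℤ ℚ).mp hli
  have hcard := hliQ.fintype_card_le_finrank
  refine ⟨Finset.univ.image (fun i => ((Additive.toMul (β i) : K) : X)), ?_, ?_⟩
  · exact Finset.card_image_le.trans hcard
  · apply le_antisymm
    · rw [Subgroup.closure_le]
      intro x hx
      rw [Finset.coe_image] at hx
      obtain ⟨i, _, rfl⟩ := hx
      exact (Additive.toMul (β i) : K).2
    · intro k hk
      have h1 := β.sum_repr (Additive.ofMul ⟨k, hk⟩)
      have h2 := congrArg (fun z : Additive K => ((Additive.toMul z : K) : X)) h1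
      simp only [toMul_sum, toMul_zsmul, toMul_ofMul] at h2
      rw [← h2, Subgroup.val_finsetProd]
      refine Subgroup.prod_mem _ fun i _ => ?_
      rw [Subgroup.coe_zpow]
      refine Subgroup.zpow_mem _ (Subgroup.subset_closure ?_) _
      rw [Finset.coe_image]
      exact ⟨i, by simp, rfl⟩

end HVecAux

theorem le_hh_of_span {V : Type*} [AddCommGroup V] [Module ℚ V] [FiniteDimensional ℚ V]
    (E : AddSubgroup V) (hE : Submodule.span ℚ (E : Set V) = ⊤) :
    (Module.finrank ℚ V : ℕ∞) ≤ hh (Multiplicative E) := by
  classical
  obtain ⟨b, hbE, hbs, hbi⟩ := exists_linearIndependent ℚ (E : Set V)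
  rw [hE] at hbs
  have hfin : Finite b := hbi.finite
  have : Fintype b := Fintype.ofFinite b
  let B : Module.Basis b ℚ V := Module.Basis.mk hbi (by rw [Subtype.range_coe, hbs])
  have hcard : Fintype.card b = Module.finrank ℚ V := (Module.finrank_eq_card_basis B).symm
  let e : Fin (Module.finrank ℚ V) ≃ b := (Fin.castOrderIso hcard.symm).toEquiv.trans
    (Fintype.equivFin b).symm
  have hv : LinearIndependent ℚ (fun i => ((e i : b) : V)) := hbi.comp e e.injective
  have h := HVecAux.HI_KK E (fun i => ((e i : b) : V)) hv (fun i => hbE (e i).2)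
    (Module.finrank ℚ V) le_rfl
  exact le_hh (h.mono le_top)

theorem hh_le_finrank {V : Type*} [AddCommGroup V] [Module ℚ V] [FiniteDimensional ℚ V] :
    hh (Multiplicative V) ≤ (Module.finrank ℚ V : ℕ∞) :=
  hh_le_of_comm (HVecAux.RK_of_emb (fun x : Multiplicative V => (Multiplicative.toAdd x : V))
    (fun _ _ => rfl) (fun _ _ h => h))

/-- a group that embeds into the additive group of a finite-dimensional space -/
theorem hh_le_of_emb {X V : Type*} [Group X] [AddCommGroup V] [Module ℚ V] [FiniteDimensional ℚ V]
    (f : X → V) (hf : ∀ x y, f (x * y) = f x + f y) (hinj : Function.Injective f) :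
    hh X ≤ (Module.finrank ℚ V : ℕ∞) := by
  let F : X →* Multiplicative V :=
    { toFun := fun x => Multiplicative.ofAdd (f x)
      map_one' := by
        have := hf 1 1
        rw [mul_one] at this
        have h0 : f 1 = 0 := left_eq_add.mp this
        rw [h0]
        rfl
      map_mul' := fun x y => by
        rw [hf, ofAdd_add] }
  have hF : Function.Injective F := fun x y h => hinj (Multiplicative.ofAdd.injective h)
  exact (hh_le_of_injective F hF).trans hh_le_finrank

end P9700e
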