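import Mathlib
import Pool.Agent.Lib.P9700a.Chain
import Pool.Agent.Lib.P9700a.ChainB
import Pool.Agent.Lib.P9700b.PolyZ
import Pool.Agent.Lib.P9700b.Reps
import Pool.Agent.Lib.P9700c.Plat
import Pool.Agent.Lib.P9700e.Defs

/-!
# Irreducible case of Lemma D: the crossed homomorphism does not vanish on the kernel

Suppose `δ h = 0` whenever `α h = 1` (this is `hker` below). `K = AlgebraicClosure ℚ`, `W = K ⊗[ℚ] V`, `α' h = (α h).baseChange K`. `platonov hH α'` gives a subgroup of finite index; its normal core `H2` is normal of finite index with `TF (α' '' H2)` (`TF.mono`).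
(0) Variant used below: only the semi-invariant functional `f0` of (2) is needed; (1) follows from it, since the span of all `α ⁅x, y⁆ v - v` is invariant and in the kernel of `f0`.
(1) `α ⁅x, y⁆ = 1` for `x, y ∈ H2`: let `D = ⁅H2, H2⁆` (normal in `H`), `V^D = {v : α d v = v for d ∈ D}`, an `H`-invariant subspace. By `TF.eigen` there is `w ≠ 0` in `W` with `α' h w = χ(h) w` for `h ∈ H2`, so `D` fixes `w`.
Writing `w = ∑ k_i ⊗ v_i` with a `ℚ`-basis `k_i` of `K`, all `v_i` are in `V^D`, and some `v_i ≠ 0`. So `V^D = ⊤` by irreducibility.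
(2) By `TF.semi` there is `f : W →ₗ[K] K`, `f ≠ 0`, with `f (α' h w) = χ(h) f w` for `h ∈ H2`. Put `f0 v = f (1 ⊗ v)` (`ℚ`-linear `V → K`, `f0 ≠ 0`), `f0 (α h v) = χ(h) f0 v` for `h ∈ H2`.
(3) If `χ(h) = 1` for all `h ∈ H2`: the span of all `α h v - v` (`h ∈ H2`) is `H`-invariant (`H2` normal) and in the kernel of `f0 ≠ 0`, so it is `⊥`, `α h = 1` on `H2`, `δ = 0` on `H2` (`hker`); `δ` takes finitely many values
(`δ (x h) = α x (δ h) + δ x`; finitely many cosets), so `E` is finite, `E = 0` (`V` is torsion-free), contradicting `hspan` and `Nontrivial V`.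
(4) Otherwise fix `h0 ∈ H2` with `χ(h0) ≠ 1`. For `x, y ∈ H2`: `δ (x y) = δ (y x)` (as `⁅x, y⁆` is in the kernel of `α`, `δ ⁅x, y⁆ = 0`, and `x y = ⁅x, y⁆ y x`). Hence `(χ(h0) - 1) f0 (δ y) = (χ(y) - 1) f0 (δ h0)`, so `f0 (δ y) = c (χ(y) - 1)` for `y ∈ H2` with
`c = f0 (δ h0) / (χ(h0) - 1)`. Every `h ∈ H` is `y t`, `y ∈ H2`, `t` in a finite set `S`: `f0 (δ h) + c = χ(y) (f0 (δ t) + c)`. Choose `e ∈ E` with `f0 e ≠ 0` (`E` spans `V`). For all `n : ℕ`, `n • e ∈ E`, so `n f0 e + c` is in the finite set `{f0 (δ t) + c}` times the subgroup `T = χ(H2)` of `Kˣ`,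
which satisfies `FR` (image of `H2`). `poly_const_fin` for `P = C (f0 e) * X + C c` gives `natDegree P = 0`, a contradiction.
-/

set_option autoImplicit false

namespace P9700e

open P9700a

namespace IrrDAux

open scoped TensorProduct

theorem functional {V : Type*} [AddCommGroup V] [Module ℚ V] [FiniteDimensional ℚ V] [Nontrivial V]
    {H : Type*} [Group H] (hH : FR H) (α : H →* Module.End ℚ V) :
    ∃ (H2 : Subgroup H) (f0 : V →ₗ[ℚ] AlgebraicClosure ℚ) (χ : H2 →* (AlgebraicClosure ℚ)ˣ),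
      H2.Normal ∧ H2.FiniteIndex ∧ f0 ≠ 0 ∧
        ∀ (h : H2) (v : V), f0 (α (h : H) v) = (χ h : AlgebraicClosure ℚ) * f0 v := by
  classical
  let K := AlgebraicClosure ℚ
  let β : Module.End ℚ V →* Module.End K (K ⊗[ℚ] V) :=
    (Module.End.baseChangeHom ℚ K V : Module.End ℚ V →ₐ[ℚ] Module.End K (K ⊗[ℚ] V))
  let α' : H →* Module.End K (K ⊗[ℚ] V) := β.comp α
  have hα' : ∀ (h : H) (k : K) (v : V), α' h (k ⊗ₜ[ℚ] v) = k ⊗ₜ[ℚ] (α h v) := fun h k v => rfl
  obtain ⟨A1, hA1, hTF⟩ := platonov hH α'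
  have hTF' : TF (α' '' (A1.normalCore : Set H)) :=
    TF.mono (Set.image_mono A1.normalCore_le) hTF
  have hnt : Nontrivial (K ⊗[ℚ] V) := by
    apply Module.nontrivial_of_finrank_pos (R := K)
    rw [Module.finrank_baseChange]
    exact Module.finrank_pos
  obtain ⟨f, hf, hc⟩ := TF.semi hTF'
  let f0 : V →ₗ[ℚ] K := (f.restrictScalars ℚ).comp (TensorProduct.mk ℚ K V 1)
  have hf0' : ∀ v : V, f0 v = f ((1 : K) ⊗ₜ[ℚ] v) := fun v => rfl
  have hf0 : ∀ (k : K) (v : V), f (k ⊗ₜ[ℚ] v) = k * f0 v := by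
    intro k v
    have h1 : k ⊗ₜ[ℚ] v = k • ((1 : K) ⊗ₜ[ℚ] v) := by
      rw [TensorProduct.smul_tmul', smul_eq_mul, mul_one]
    rw [h1, map_smul, hf0', smul_eq_mul]
  have hf0n : f0 ≠ 0 := by
    intro h0
    apply hf
    refine LinearMap.ext fun w => ?_
    induction w using TensorProduct.induction_on with
    | zero => simp
    | tmul k v => rw [hf0, h0]; simp
    | add x y hx hy => rw [map_add, hx, hy]; simp
  obtain ⟨v0, hv0⟩ : ∃ v0, f0 v0 ≠ 0 := by
    by_contra hcon
    push Not at hcon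
    exact hf0n (LinearMap.ext hcon)
  have h1 : ∀ h : A1.normalCore, ∃ c : K, ∀ v, f0 (α (h : H) v) = c * f0 v := by
    rintro ⟨h, hh⟩
    obtain ⟨c, hcc⟩ := hc (α' h) ⟨h, hh, rfl⟩
    refine ⟨c, fun v => ?_⟩
    have h2 := hcc ((1 : K) ⊗ₜ[ℚ] v)
    rw [hα'] at h2
    rw [hf0', hf0']
    exact h2
  choose c hcc using h1
  let χ0 : A1.normalCore →* K :=
    { toFun := c
      map_one' := by
        have h2 := hcc 1 v0
        rw [Subgroup.coe_one, map_one, Module.End.one_apply] at h2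
        exact (mul_right_cancel₀ hv0 (by rw [one_mul]; exact h2)).symm
      map_mul' := by
        intro x y
        have h2 := hcc (x * y) v0
        rw [Subgroup.coe_mul, map_mul, Module.End.mul_apply, hcc, hcc, ← mul_assoc] at h2
        exact (mul_right_cancel₀ hv0 h2).symm }
  exact ⟨A1.normalCore, f0, χ0.toHomUnits, inferInstance, inferInstance, hf0n, fun h v => hcc h v⟩

/-- an invariant subspace spanned by vectors killed by a nonzero functional is `⊥` -/
theorem span_bot {V : Type*} [AddCommGroup V] [Module ℚ V]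
    {H : Type*} [Group H] (α : H →* Module.End ℚ V) {K : Type*} [Field K] [Algebra ℚ K]
    (f0 : V →ₗ[ℚ] K) (hf0 : f0 ≠ 0) (X : Set V) (hX : ∀ u ∈ X, f0 u = 0)
    (hXi : ∀ (h : H), ∀ u ∈ X, α h u ∈ X)
    (hirr : ∀ U : Submodule ℚ V, (∀ h : H, ∀ u ∈ U, α h u ∈ U) → U = ⊥ ∨ U = ⊤) :
    ∀ u ∈ X, u = 0 := by
  have h1 : ∀ h : H, ∀ u ∈ Submodule.span ℚ X, α h u ∈ Submodule.span ℚ X := by
    intro h u hu
    have h2 : Submodule.span ℚ X ≤ (Submodule.span ℚ X).comap (α h) := by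
      rw [Submodule.span_le]
      intro x hx
      exact Submodule.subset_span (hXi h x hx)
    exact h2 hu
  rcases hirr _ h1 with h2 | h2
  · intro u hu
    have h3 : u ∈ Submodule.span ℚ X := Submodule.subset_span hu
    rw [h2, Submodule.mem_bot] at h3
    exact h3
  · exfalso
    apply hf0
    have h3 : Submodule.span ℚ X ≤ LinearMap.ker f0 := by
      rw [Submodule.span_le]
      intro x hx
      exact LinearMap.mem_ker.2 (hX x hx)
    rw [h2, top_le_iff, LinearMap.ker_eq_top] at h3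
    exact h3

end IrrDAux

open IrrDAux Polynomial in
theorem irrD {V : Type*} [AddCommGroup V] [Module ℚ V] [FiniteDimensional ℚ V] [Nontrivial V]
    {H : Type*} [Group H] (hH : FR H) (α : H →* Module.End ℚ V) (δ : H → V)
    (hδ : ∀ h h' : H, δ (h * h') = α h (δ h') + δ h) (E : AddSubgroup V)
    (hE : ∀ w, w ∈ E ↔ ∃ h, δ h = w) (hspan : Submodule.span ℚ (E : Set V) = ⊤)
    (hirr : ∀ U : Submodule ℚ V, (∀ h : H, ∀ u ∈ U, α h u ∈ U) → U = ⊥ ∨ U = ⊤) :
    ∃ h : H, α h = 1 ∧ δ h ≠ 0 := by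
  classical
  by_contra hcon
  have hker : ∀ h, α h = 1 → δ h = 0 := by
    intro h h1
    by_contra h2
    exact hcon ⟨h, h1, h2⟩
  obtain ⟨H2, f0, χ, hN, hF, hf0, hχ⟩ := functional hH α
  obtain ⟨S, -, hS⟩ := exists_reps_right (⊤ : Subgroup H) H2 (by
    rw [Subgroup.relIndex_top_right]
    exact Subgroup.FiniteIndex.index_ne_zero)
  obtain ⟨S', -, hS'⟩ := exists_reps_left (⊤ : Subgroup H) H2 (by
    rw [Subgroup.relIndex_top_right]
    exact Subgroup.FiniteIndex.index_ne_zero)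
  -- an element of `E` on which `f0` does not vanish
  obtain ⟨e, heE, he⟩ : ∃ e ∈ E, f0 e ≠ 0 := by
    by_contra hc
    push Not at hc
    apply hf0
    have h3 : Submodule.span ℚ (E : Set V) ≤ LinearMap.ker f0 := by
      rw [Submodule.span_le]
      intro x hx
      exact LinearMap.mem_ker.2 (hc x hx)
    rw [hspan, top_le_iff, LinearMap.ker_eq_top] at h3
    exact h3
  -- commutators of `H2` act trivially
  have hcomm : ∀ x ∈ H2, ∀ y ∈ H2, α (x * y * x⁻¹ * y⁻¹) = 1 := by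
    have h1 : ∀ u ∈ {u : V | ∃ x ∈ H2, ∃ y ∈ H2, ∃ v : V, u = α (x * y * x⁻¹ * y⁻¹) v - v},
        u = 0 := by
      refine span_bot α f0 hf0 _ ?_ ?_ hirr
      · rintro u ⟨x, hx, y, hy, v, rfl⟩
        have hm : x * y * x⁻¹ * y⁻¹ ∈ H2 :=
          H2.mul_mem (H2.mul_mem (H2.mul_mem hx hy) (H2.inv_mem hx)) (H2.inv_mem hy)
        have h2 := hχ ⟨_, hm⟩ v
        have h3 : χ ⟨x * y * x⁻¹ * y⁻¹, hm⟩ = 1 := by
          have h4 : (⟨x * y * x⁻¹ * y⁻¹, hm⟩ : H2) =
              (⟨x, hx⟩ : H2) * ⟨y, hy⟩ * (⟨x, hx⟩ : H2)⁻¹ * (⟨y, hy⟩ : H2)⁻¹ := rfl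
          rw [h4, map_mul, map_mul, map_mul, map_inv, map_inv, mul_comm (χ ⟨x, hx⟩)]
          group
        rw [map_sub, h2, h3, Units.val_one, one_mul, sub_self]
      · rintro h u ⟨x, hx, y, hy, v, rfl⟩
        refine ⟨h * x * h⁻¹, hN.conj_mem x hx h, h * y * h⁻¹, hN.conj_mem y hy h, α h v, ?_⟩
        rw [map_sub]
        congr 1
        rw [← Module.End.mul_apply, ← Module.End.mul_apply, ← map_mul, ← map_mul]
        congr 2
        group
    intro x hx y hy
    ext v
    have h2 := h1 _ ⟨x, hx, y, hy, v, rfl⟩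
    rw [Module.End.one_apply]
    exact sub_eq_zero.1 h2
  have hsym : ∀ x ∈ H2, ∀ y ∈ H2, δ (x * y) = δ (y * x) := by
    intro x hx y hy
    have h1 := hcomm x hx y hy
    have h2 : x * y = (x * y * x⁻¹ * y⁻¹) * (y * x) := by group
    rw [h2, hδ, h1, hker _ h1, Module.End.one_apply, add_zero]
  by_cases hone : ∀ h : H2, χ h = 1
  · -- `α` is trivial on `H2`
    have h1 : ∀ u ∈ {u : V | ∃ x ∈ H2, ∃ v : V, u = α x v - v}, u = 0 := by
      refine span_bot α f0 hf0 _ ?_ ?_ hirr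
      · rintro u ⟨x, hx, v, rfl⟩
        have h2 := hχ ⟨x, hx⟩ v
        rw [map_sub, h2, hone, Units.val_one, one_mul, sub_self]
      · rintro h u ⟨x, hx, v, rfl⟩
        refine ⟨h * x * h⁻¹, hN.conj_mem x hx h, α h v, ?_⟩
        rw [map_sub]
        congr 1
        rw [← Module.End.mul_apply, ← Module.End.mul_apply, ← map_mul, ← map_mul]
        congr 2
        group
    have h2 : ∀ x ∈ H2, δ x = 0 := by
      intro x hx
      apply hker
      ext v
      have h3 := h1 _ ⟨x, hx, v, rfl⟩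
      rw [Module.End.one_apply]
      exact sub_eq_zero.1 h3
    have h3 : ∀ n : ℕ, n • e ∈ S'.image δ := by
      intro n
      obtain ⟨h, hh⟩ := (hE _).1 (E.nsmul_mem heE n)
      obtain ⟨x, hxS, a0, ha0, hx⟩ := hS' h (Subgroup.mem_top h)
      rw [← hh, hx, hδ, h2 a0 ha0, map_zero, zero_add]
      exact Finset.mem_image_of_mem δ hxS
    have hinj : Function.Injective fun n : ℕ => n • e := by
      intro m n hmn
      have h4 : f0 (m • e) = f0 (n • e) := congrArg f0 hmn
      rw [map_nsmul, map_nsmul, nsmul_eq_mul, nsmul_eq_mul] at h4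
      exact Nat.cast_injective (mul_right_cancel₀ he h4)
    have h5 : Set.Infinite (Set.range fun n : ℕ => n • e) := Set.infinite_range_of_injective hinj
    exact h5 ((S'.image δ).finite_toSet.subset (by
      rintro _ ⟨n, rfl⟩
      exact Finset.mem_coe.2 (h3 n)))
  · push Not at hone
    obtain ⟨h0, hh0⟩ := hone
    have hne : ((χ h0 : AlgebraicClosure ℚ) - 1) ≠ 0 := by
      intro h1
      apply hh0
      ext
      rw [Units.val_one]
      exact sub_eq_zero.1 h1
    set c : AlgebraicClosure ℚ := f0 (δ h0) / ((χ h0 : AlgebraicClosure ℚ) - 1) with hc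
    have hcc : f0 (δ h0) = c * ((χ h0 : AlgebraicClosure ℚ) - 1) := by
      rw [hc, div_mul_cancel₀ _ hne]
    have hy : ∀ y : H2, f0 (δ y) = c * ((χ y : AlgebraicClosure ℚ) - 1) := by
      intro y
      have h1 := hsym h0 h0.2 y y.2
      rw [hδ, hδ] at h1
      have h2 := congrArg f0 h1
      rw [map_add, map_add, hχ, hχ, hcc] at h2
      apply mul_left_cancel₀ hne
      linear_combination h2
    have hT : FR χ.range := FR.of_surjective χ.rangeRestrict χ.rangeRestrict_surjective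
      (FR.subgroup H2 hH)
    have hP := poly_const_fin χ.range hT (S.image fun t => f0 (δ t) + c)
      (C (f0 e) * X + C c) (by
        intro n
        obtain ⟨h, hh⟩ := (hE _).1 (E.nsmul_mem heE n)
        obtain ⟨t, htS, y, hyH, hx⟩ := hS h (Subgroup.mem_top h)
        refine ⟨f0 (δ t) + c, Finset.mem_image_of_mem _ htS, χ ⟨y, hyH⟩, ⟨_, rfl⟩, ?_⟩
        have h1 : f0 (n • e) = (n : AlgebraicClosure ℚ) * f0 e := by
          rw [map_nsmul, nsmul_eq_mul]
        have h2 : f0 (δ h) = (χ ⟨y, hyH⟩ : AlgebraicClosure ℚ) * f0 (δ t) +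
            c * ((χ ⟨y, hyH⟩ : AlgebraicClosure ℚ) - 1) := by
          rw [hx, hδ, map_add]
          have h3 := hχ ⟨y, hyH⟩ (δ t)
          have h4 := hy ⟨y, hyH⟩
          rw [h3, h4]
        rw [hh, h1] at h2
        simp only [eval_add, eval_mul, eval_C, eval_X]
        linear_combination h2)
    rw [natDegree_linear he] at hP
    exact one_ne_zero hP

end P9700e
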