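import Mathlib
import Pool.Agent.Lib.P9700e.Defs
import Pool.Agent.Lib.P9700e.HMono
import Pool.Agent.Lib.P9700e.HAdd
import Pool.Agent.Lib.P9700e.HFin
import Pool.Agent.Lib.P9700e.HVec
import Pool.Agent.Lib.P9700e.IrrD

/-!
# Lemma D: a crossed homomorphism onto a spanning subgroup costs `dim V`

Induction on `finrank ℚ V` (for all `V` and all `H`).
(a) `V` trivial: `H0 = ⊤`, `finrank = 0`.
(b) There is an `H`-invariant `U`, `⊥ < U < ⊤`. `H1 = {h : δ h ∈ U}` is a subgroup. Induction for `V ⧸ U` (`α` induced by `Submodule.mapQ`, `δ` composed with `mkQ`, the image of `E`, `H0 := H1`): `finrank (V ⧸ U) + hh H1 ≤ hh H`.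
On `H1` (restricted `α`, `δ` with values in `U`, `E ∩ U`): `E ∩ U` spans `U`: every `v ∈ V` has a positive multiple in `E` (`v = ∑ q_i e_i`, clear denominators; e.g. `Submodule.span_induction` for `∃ m > 0, m • v ∈ E`). So `finrank U + hh H0 ≤ hh H1` (the subgroup `{h ∈ H1 : δ h = 0}` is isomorphic to `H0`).
(c) `V ≠ 0` irreducible. `C = ker α`; `δ` restricted to `C` is additive: a homomorphism `ψ : C →* Multiplicative V`, `δ (x c x⁻¹) = α x (δ c)` (as `α x (δ x⁻¹) = - δ x`), so the span of `δ(C)` is `H`-invariant; it is not `⊥` by `irrD`, so it is `⊤`.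
`hh C = hh (ker ψ) + hh (range ψ)` (`hh_ker_range`) with `finrank ℚ V ≤ hh (range ψ)` (`le_hh_of_span`). `ker ψ = C ⊓ H0` (as a group; it is normal in `H0`, being `ker (α restricted to H0)`). `hh H = hh C + hh (range α')` and `hh H0 = hh (C ⊓ H0) + hh (range of α' on H0)`, where `α' : H →* (Module.End ℚ V)ˣ`
(`MonoidHom.toHomUnits`), by `hh_ker_range`; and the range on `H0` is a subgroup of the range on `H` (`hh_le_of_injective`). Add up (in `ℕ∞`; addition is monotone).
-/

set_option autoImplicit false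

universe u v

namespace P9700e

open P9700a

namespace LemDAux

variable {V : Type u} [AddCommGroup V] [Module ℚ V] {H : Type v} [Group H]

theorem one (α : H →* Module.End ℚ V) (δ : H → V)
    (hδ : ∀ h h' : H, δ (h * h') = α h (δ h') + δ h) : δ 1 = 0 := by
  have h1 := hδ 1 1
  rw [mul_one, map_one, Module.End.one_apply] at h1
  have h2 : δ 1 + 0 = δ 1 + δ 1 := by rw [add_zero]; exact h1
  exact (add_left_cancel h2).symm

theorem inv (α : H →* Module.End ℚ V) (δ : H → V)
    (hδ : ∀ h h' : H, δ (h * h') = α h (δ h') + δ h) (h : H) : δ h⁻¹ = - α h⁻¹ (δ h) := by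
  have h1 := hδ h⁻¹ h
  rw [inv_mul_cancel, one α δ hδ] at h1
  exact eq_neg_of_add_eq_zero_right h1.symm

theorem exists_mul (E : AddSubgroup V) (hspan : Submodule.span ℚ (E : Set V) = ⊤) (v : V) :
    ∃ m : ℕ, 0 < m ∧ m • v ∈ E := by
  have hv : v ∈ Submodule.span ℚ (E : Set V) := by rw [hspan]; exact Submodule.mem_top
  induction hv using Submodule.span_induction with
  | mem x hx => exact ⟨1, Nat.one_pos, by rw [one_smul]; exact hx⟩
  | zero => exact ⟨1, Nat.one_pos, by rw [one_smul]; exact E.zero_mem⟩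
  | add x y _ _ hx hy =>
    obtain ⟨m, hm, hmx⟩ := hx
    obtain ⟨n, hn, hny⟩ := hy
    refine ⟨m * n, Nat.mul_pos hm hn, ?_⟩
    rw [smul_add]
    apply E.add_mem
    · rw [mul_comm, mul_smul]
      exact E.nsmul_mem hmx n
    · rw [mul_smul]
      exact E.nsmul_mem hny m
  | smul q x _ hx =>
    obtain ⟨m, hm, hmx⟩ := hx
    refine ⟨q.den * m, Nat.mul_pos q.den_pos hm, ?_⟩
    have h1 : (q.den * m) • (q • x) = q.num • (m • x) := by
      have h2 : (((q.den * m : ℕ) : ℚ) * q) = (q.num : ℚ) * (m : ℚ) := by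
        push_cast
        have h3 : (q.den : ℚ) * q = q.num := Rat.den_mul_eq_num q
        calc (q.den : ℚ) * m * q = ((q.den : ℚ) * q) * m := by ring
          _ = (q.num : ℚ) * m := by rw [h3]
      rw [← Nat.cast_smul_eq_nsmul ℚ (q.den * m), ← Nat.cast_smul_eq_nsmul ℚ m,
        ← Int.cast_smul_eq_zsmul ℚ q.num, smul_smul, smul_smul, h2]
    rw [h1]
    exact E.zsmul_mem hmx _

/-- the irreducible case -/
theorem irr [FiniteDimensional ℚ V] [Nontrivial V] (hH : FR H) (α : H →* Module.End ℚ V)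
    (δ : H → V) (hδ : ∀ h h' : H, δ (h * h') = α h (δ h') + δ h) (E : AddSubgroup V)
    (hE : ∀ w, w ∈ E ↔ ∃ h, δ h = w) (hspan : Submodule.span ℚ (E : Set V) = ⊤)
    (H0 : Subgroup H) (hH0 : ∀ h, h ∈ H0 ↔ δ h = 0)
    (hirr : ∀ U : Submodule ℚ V, (∀ h : H, ∀ u ∈ U, α h u ∈ U) → U = ⊥ ∨ U = ⊤) :
    (Module.finrank ℚ V : ℕ∞) + hh H0 ≤ hh H := by
  obtain ⟨h1, hα1, hδ1⟩ := irrD hH α δ hδ E hE hspan hirr
  let α' : H →* (Module.End ℚ V)ˣ := α.toHomUnits
  have hα' : ∀ h, ((α' h : (Module.End ℚ V)ˣ) : Module.End ℚ V) = α h := fun h => rfl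
  have hker : ∀ h, h ∈ α'.ker ↔ α h = 1 := by
    intro h
    rw [MonoidHom.mem_ker, Units.ext_iff, hα', Units.val_one]
  -- the additive subgroup δ(C)
  let E' : AddSubgroup V :=
    { carrier := {w | ∃ c : H, α c = 1 ∧ δ c = w}
      zero_mem' := ⟨1, map_one α, one α δ hδ⟩
      add_mem' := by
        rintro _ _ ⟨c, hc, rfl⟩ ⟨d, hd, rfl⟩
        refine ⟨d * c, ?_, ?_⟩
        · rw [map_mul, hc, hd, one_mul]
        · rw [hδ, hd, Module.End.one_apply]
      neg_mem' := by
        rintro _ ⟨c, hc, rfl⟩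
        refine ⟨c⁻¹, ?_, ?_⟩
        · have h2 : α c⁻¹ * α c = 1 := by rw [← map_mul, inv_mul_cancel, map_one]
          rwa [hc, mul_one] at h2
        · have h2 : α c⁻¹ * α c = 1 := by rw [← map_mul, inv_mul_cancel, map_one]
          rw [hc, mul_one] at h2
          rw [inv α δ hδ, h2, Module.End.one_apply] }
  have hE'mem : ∀ w, w ∈ E' ↔ ∃ c : H, α c = 1 ∧ δ c = w := fun w => Iff.rfl
  have hconj : ∀ h c : H, α c = 1 → α (h * c * h⁻¹) = 1 ∧ δ (h * c * h⁻¹) = α h (δ c) := by
    intro h c hc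
    constructor
    · rw [map_mul, map_mul, hc, mul_one, ← map_mul, mul_inv_cancel, map_one]
    · have h2 := hδ h h⁻¹
      rw [mul_inv_cancel, one α δ hδ] at h2
      rw [hδ, hδ, map_mul, hc, mul_one]
      calc α h (δ h⁻¹) + (α h (δ c) + δ h) = (α h (δ h⁻¹) + δ h) + α h (δ c) := by abel
        _ = α h (δ c) := by rw [← h2, zero_add]
  have hspan' : Submodule.span ℚ (E' : Set V) = ⊤ := by
    rcases hirr (Submodule.span ℚ (E' : Set V)) (by
      intro h u hu
      induction hu using Submodule.span_induction with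
      | mem x hx =>
        obtain ⟨c, hc, rfl⟩ := hx
        apply Submodule.subset_span
        obtain ⟨h3, h4⟩ := hconj h c hc
        exact ⟨h * c * h⁻¹, h3, h4⟩
      | zero => rw [map_zero]; exact Submodule.zero_mem _
      | add x y _ _ hx hy => rw [map_add]; exact Submodule.add_mem _ hx hy
      | smul q x _ hx => rw [map_smul]; exact Submodule.smul_mem _ _ hx) with h | h
    · exfalso
      apply hδ1
      have h2 : δ h1 ∈ Submodule.span ℚ (E' : Set V) := Submodule.subset_span ⟨h1, hα1, rfl⟩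
      rw [h] at h2
      exact (Submodule.mem_bot ℚ).1 h2
    · exact h
  let ψ : α'.ker →* Multiplicative V :=
    { toFun := fun c => Multiplicative.ofAdd (δ c)
      map_one' := by
        show Multiplicative.ofAdd (δ ((1 : α'.ker) : H)) = 1
        rw [Subgroup.coe_one, one α δ hδ]
        rfl
      map_mul' := by
        intro c d
        show Multiplicative.ofAdd (δ ((c * d : α'.ker) : H)) = _
        rw [Subgroup.coe_mul, hδ, (hker c).1 c.2, Module.End.one_apply, add_comm, ofAdd_add] }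
  have hψ : ∀ c : α'.ker, ψ c = Multiplicative.ofAdd (δ c) := fun c => rfl
  let β : H0 →* (Module.End ℚ V)ˣ := α'.comp H0.subtype
  have hβ : ∀ x : H0, β x = α' x := fun x => rfl
  have hbk : ∀ x : β.ker, ((x : H0) : H) ∈ α'.ker := by
    intro x
    have := x.2
    rw [MonoidHom.mem_ker, hβ] at this
    exact this
  have hbψ : ∀ x : β.ker, (⟨((x : H0) : H), hbk x⟩ : α'.ker) ∈ ψ.ker := by
    intro x
    rw [MonoidHom.mem_ker, hψ]
    show Multiplicative.ofAdd (δ ((x : H0) : H)) = 1
    rw [(hH0 _).1 (x : H0).2]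
    rfl
  let j : β.ker →* ψ.ker :=
    { toFun := fun x => ⟨⟨((x : H0) : H), hbk x⟩, hbψ x⟩
      map_one' := rfl
      map_mul' := fun x y => rfl }
  have hj : Function.Injective j := by
    intro x y hxy
    have h2 : ((j x : α'.ker) : H) = ((j y : α'.ker) : H) := by rw [hxy]
    exact Subtype.ext (Subtype.ext h2)
  have k1 : hh β.ker ≤ hh ψ.ker := hh_le_of_injective j hj
  have k2 : hh β.range ≤ hh α'.range := by
    apply hh_le_of_le
    rintro _ ⟨x, rfl⟩
    exact ⟨(x : H), rfl⟩
  have hE'r : ∀ x : Multiplicative E', Multiplicative.ofAdd ((Multiplicative.toAdd x : E') : V) ∈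
      ψ.range := by
    intro x
    obtain ⟨c, hc, hcx⟩ := (hE'mem _).1 (Multiplicative.toAdd x : E').2
    refine ⟨⟨c, (hker c).2 hc⟩, ?_⟩
    rw [hψ]
    exact congrArg Multiplicative.ofAdd hcx
  let i : Multiplicative E' →* ψ.range :=
    { toFun := fun x => ⟨Multiplicative.ofAdd ((Multiplicative.toAdd x : E') : V), hE'r x⟩
      map_one' := rfl
      map_mul' := fun x y => rfl }
  have hi : Function.Injective i := by
    intro x y hxy
    have h2 : ((i x : ψ.range) : Multiplicative V) = ((i y : ψ.range) : Multiplicative V) := by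
      rw [hxy]
    have h3 : ((Multiplicative.toAdd x : E') : V) = ((Multiplicative.toAdd y : E') : V) := h2
    exact Multiplicative.toAdd.injective (Subtype.ext h3)
  have k3 : (Module.finrank ℚ V : ℕ∞) ≤ hh ψ.range :=
    (le_hh_of_span E' hspan').trans (hh_le_of_injective i hi)
  calc (Module.finrank ℚ V : ℕ∞) + hh H0
      = (Module.finrank ℚ V : ℕ∞) + (hh β.ker + hh β.range) := by rw [← hh_ker_range β]
    _ ≤ hh ψ.range + (hh ψ.ker + hh α'.range) := add_le_add k3 (add_le_add k1 k2)
    _ = (hh ψ.ker + hh ψ.range) + hh α'.range := by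
        rw [← add_assoc, add_comm (hh ψ.range)]
    _ = hh H := by rw [← hh_ker_range ψ, ← hh_ker_range α']

theorem main (n : ℕ) : ∀ (V : Type u) [AddCommGroup V] [Module ℚ V] [FiniteDimensional ℚ V]
    (H : Type v) [Group H] (_ : FR H) (α : H →* Module.End ℚ V) (δ : H → V)
    (_ : ∀ h h' : H, δ (h * h') = α h (δ h') + δ h) (E : AddSubgroup V)
    (_ : ∀ w, w ∈ E ↔ ∃ h, δ h = w) (_ : Submodule.span ℚ (E : Set V) = ⊤)
    (H0 : Subgroup H) (_ : ∀ h, h ∈ H0 ↔ δ h = 0) (_ : Module.finrank ℚ V = n),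
    (Module.finrank ℚ V : ℕ∞) + hh H0 ≤ hh H := by
  induction n using Nat.strong_induction_on with
  | _ n ih =>
    intro V _ _ _ H _ hH α δ hδ E hE hspan H0 hH0 hn
    rcases Nat.eq_zero_or_pos n with h0 | hpos
    · rw [hn, h0, Nat.cast_zero, zero_add]
      exact hh_le_of_injective H0.subtype H0.subtype_injective
    have : Nontrivial V := by
      apply Module.nontrivial_of_finrank_pos (R := ℚ)
      omega
    by_cases hirr : ∀ U : Submodule ℚ V, (∀ h : H, ∀ u ∈ U, α h u ∈ U) → U = ⊥ ∨ U = ⊤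
    · exact irr hH α δ hδ E hE hspan H0 hH0 hirr
    push Not at hirr
    obtain ⟨U, hU, hUb, hUt⟩ := hirr
    have hsum := Submodule.finrank_quotient_add_finrank U
    have hU0 : Module.finrank ℚ U ≠ 0 := by
      intro h
      exact hUb (Submodule.finrank_eq_zero.1 h)
    have hUlt : Module.finrank ℚ U < Module.finrank ℚ V := Submodule.finrank_lt hUt
    let H1 : Subgroup H :=
      { carrier := {h | δ h ∈ U}
        one_mem' := by
          show δ 1 ∈ U
          rw [one α δ hδ]
          exact U.zero_mem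
        mul_mem' := by
          intro a b ha hb
          show δ (a * b) ∈ U
          rw [hδ]
          exact U.add_mem (hU _ _ hb) ha
        inv_mem' := by
          intro a ha
          show δ a⁻¹ ∈ U
          rw [inv α δ hδ]
          exact U.neg_mem (hU _ _ ha) }
    have hH1 : ∀ h, h ∈ H1 ↔ δ h ∈ U := fun h => Iff.rfl
    -- the quotient
    let α₁ : H →* Module.End ℚ (V ⧸ U) :=
      { toFun := fun h => U.mapQ U (α h) (fun u hu => hU h u hu)
        map_one' := by
          apply LinearMap.ext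
          intro x
          obtain ⟨y, rfl⟩ := U.mkQ_surjective x
          simp
        map_mul' := by
          intro a b
          apply LinearMap.ext
          intro x
          obtain ⟨y, rfl⟩ := U.mkQ_surjective x
          simp }
    have hα₁ : ∀ h v, α₁ h (U.mkQ v) = U.mkQ (α h v) := fun h v => rfl
    have q1 : (Module.finrank ℚ (V ⧸ U) : ℕ∞) + hh H1 ≤ hh H := by
      refine ih (Module.finrank ℚ (V ⧸ U)) (by omega) (V ⧸ U) H hH α₁ (fun h => U.mkQ (δ h)) ?_
        (E.map U.mkQ.toAddMonoidHom) ?_ ?_ H1 ?_ rfl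
      · intro h h'
        show U.mkQ (δ (h * h')) = α₁ h (U.mkQ (δ h')) + U.mkQ (δ h)
        rw [hα₁, hδ, map_add]
      · intro w
        constructor
        · rintro ⟨x, hx, rfl⟩
          obtain ⟨h, rfl⟩ := (hE x).1 hx
          exact ⟨h, rfl⟩
        · rintro ⟨h, rfl⟩
          exact ⟨δ h, (hE _).2 ⟨h, rfl⟩, rfl⟩
      · have e1 : ((E.map U.mkQ.toAddMonoidHom : AddSubgroup (V ⧸ U)) : Set (V ⧸ U)) =
            U.mkQ '' (E : Set V) := rfl
        rw [e1, Submodule.span_image, hspan, Submodule.map_top, Submodule.range_mkQ]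
      · intro h
        rw [hH1]
        show δ h ∈ U ↔ U.mkQ (δ h) = 0
        rw [Submodule.mkQ_apply, Submodule.Quotient.mk_eq_zero]
    -- the subspace
    let α₂ : H1 →* Module.End ℚ U :=
      { toFun := fun h => (α h).restrict (fun u hu => hU h u hu)
        map_one' := by
          apply LinearMap.ext
          intro x
          apply Subtype.ext
          simp
        map_mul' := by
          intro a b
          apply LinearMap.ext
          intro x
          apply Subtype.ext
          simp }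
    have hα₂ : ∀ (h : H1) (u : U), ((α₂ h u : U) : V) = α h u := fun h u => rfl
    let δ₂ : H1 → U := fun h => ⟨δ h, h.2⟩
    have hδ₂ : ∀ h : H1, ((δ₂ h : U) : V) = δ h := fun h => rfl
    have q2 : (Module.finrank ℚ U : ℕ∞) + hh (H0.subgroupOf H1) ≤ hh H1 := by
      refine ih (Module.finrank ℚ U) (by omega) U H1 (hH.subgroup H1) α₂ δ₂ ?_
        (E.comap U.subtype.toAddMonoidHom) ?_ ?_ (H0.subgroupOf H1) ?_ rfl
      · intro h h'
        apply Subtype.ext
        rw [Submodule.coe_add, hα₂, hδ₂, hδ₂, hδ₂, Subgroup.coe_mul, hδ]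
      · intro w
        constructor
        · intro hw
          obtain ⟨h, hh⟩ := (hE _).1 (show ((w : U) : V) ∈ E from hw)
          have h2 : h ∈ H1 := by
            rw [hH1, hh]
            exact w.2
          exact ⟨⟨h, h2⟩, Subtype.ext hh⟩
        · rintro ⟨h, rfl⟩
          show δ (h : H) ∈ E
          exact (hE _).2 ⟨_, rfl⟩
      · rw [eq_top_iff]
        rintro u -
        obtain ⟨m, hm, hmu⟩ := exists_mul E hspan (u : V)
        have h2 : m • u ∈ E.comap U.subtype.toAddMonoidHom := by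
          have e2 : ((m • u : U) : V) = m • (u : V) := rfl
          show ((m • u : U) : V) ∈ E
          rw [e2]
          exact hmu
        have h3 : u = (m : ℚ)⁻¹ • (m • u) := by
          rw [← Nat.cast_smul_eq_nsmul ℚ m u, smul_smul, inv_mul_cancel₀, one_smul]
          exact_mod_cast hm.ne'
        rw [h3]
        exact Submodule.smul_mem _ _ (Submodule.subset_span h2)
      · intro h
        rw [Subgroup.mem_subgroupOf, hH0, ← hδ₂, Submodule.coe_eq_zero]
    have hle : H0 ≤ H1 := by
      intro h hh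
      rw [hH1, (hH0 h).1 hh]
      exact U.zero_mem
    have e0 : hh (H0.subgroupOf H1) = hh H0 := hh_congr (Subgroup.subgroupOfEquivOfLe hle)
    rw [e0] at q2
    calc (Module.finrank ℚ V : ℕ∞) + hh H0
        = (Module.finrank ℚ (V ⧸ U) : ℕ∞) + ((Module.finrank ℚ U : ℕ∞) + hh H0) := by
          rw [← hsum, Nat.cast_add, add_assoc]
      _ ≤ (Module.finrank ℚ (V ⧸ U) : ℕ∞) + hh H1 := add_le_add le_rfl q2
      _ ≤ hh H := q1

end LemDAux

theorem lemD {V : Type u} [AddCommGroup V] [Module ℚ V] [FiniteDimensional ℚ V]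
    {H : Type v} [Group H] (hH : FR H) (α : H →* Module.End ℚ V) (δ : H → V)
    (hδ : ∀ h h' : H, δ (h * h') = α h (δ h') + δ h) (E : AddSubgroup V)
    (hE : ∀ w, w ∈ E ↔ ∃ h, δ h = w) (hspan : Submodule.span ℚ (E : Set V) = ⊤)
    (H0 : Subgroup H) (hH0 : ∀ h, h ∈ H0 ↔ δ h = 0) :
    (Module.finrank ℚ V : ℕ∞) + hh H0 ≤ hh H := by
  exact LemDAux.main _ V H hH α δ hδ E hE hspan H0 hH0 rfl

end P9700e
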