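import Mathlib
import Pool.Agent.Lib.P9700a.RankAb
import Pool.Agent.Lib.P9700e.Defs
import Pool.Agent.Lib.P9700e.HMono
import Pool.Agent.Lib.P9700e.HTor
import Pool.Agent.Lib.P9700e.HFin
import Pool.Agent.Lib.P9700e.HVec

/-!
# The rational space of an abelian group of finite rank

`V = ℚ ⊗[ℤ] Additive M` (or the localisation `LocalizedModule`), `θ m = 1 ⊗ m`. The kernel of `θ` is the torsion subgroup (`IsLocalizedModule`: `IsLocalizedModule.eq_zero_iff`, e.g. the instance for
`TensorProduct.mk ℤ ℚ M 1` with the submonoid `nonZeroDivisors ℤ`), the image spans, endomorphisms of `M` extend functorially (`LinearMap.baseChange ℚ`, `LinearMap.baseChange_comp`, `baseChange_id`).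
`V` is finite-dimensional: `P9700a.RankAbAux.exists_rel` / `span_fin_of_FR` (in P9700a/RankAb.lean: an additive subgroup of a rational space that has finite rank spans a finite-dimensional space), applied to the image of `θ`.
`hh M = finrank ℚ V`: the kernel of `θ` is periodic (`hh_eq_zero`), `hh_ker_range` for `θ : M →* Multiplicative V`, the image is `Multiplicative E` with `E` spanning `V` (`le_hh_of_span`, `hh_le_of_emb`).
-/

set_option autoImplicit false

universe u

namespace P9700e

open P9700a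

namespace RatAux

open TensorProduct

/-- the map into the tensor product -/
noncomputable def th (M : Type u) [CommGroup M] : M →* Multiplicative (ℚ ⊗[ℤ] Additive M) where
  toFun m := Multiplicative.ofAdd ((1 : ℚ) ⊗ₜ[ℤ] Additive.ofMul m)
  map_one' := by
    change Multiplicative.ofAdd ((1 : ℚ) ⊗ₜ[ℤ] (0 : Additive M)) = 1
    rw [TensorProduct.tmul_zero]
    rfl
  map_mul' x y := by
    change Multiplicative.ofAdd ((1 : ℚ) ⊗ₜ[ℤ] (Additive.ofMul x + Additive.ofMul y)) = _
    rw [TensorProduct.tmul_add]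
    rfl

theorem loc (M : Type u) [CommGroup M] :
    IsLocalizedModule (nonZeroDivisors ℤ) (TensorProduct.mk ℤ ℚ (Additive M) 1) :=
  (isLocalizedModule_iff_isBaseChange (nonZeroDivisors ℤ) ℚ _).mpr
    (TensorProduct.isBaseChange ℤ (Additive M) ℚ)

theorem zero_iff (M : Type u) [CommGroup M] (x : M) :
    (1 : ℚ) ⊗ₜ[ℤ] Additive.ofMul x = 0 ↔ ∃ m : ℕ, 0 < m ∧ x ^ m = 1 := by
  have hl := loc M
  have h := IsLocalizedModule.eq_zero_iff (nonZeroDivisors ℤ) (TensorProduct.mk ℤ ℚ (Additive M) 1)
    (m := Additive.ofMul x)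
  rw [TensorProduct.mk_apply] at h
  rw [h]
  constructor
  · rintro ⟨⟨c, hc⟩, hcx⟩
    have hc0 : c ≠ 0 := nonZeroDivisors.ne_zero hc
    have h1 : c • Additive.ofMul x = 0 := hcx
    have h2 : x ^ c = 1 := h1
    refine ⟨c.natAbs, Int.natAbs_pos.mpr hc0, ?_⟩
    rcases Int.natAbs_eq c with h3 | h3
    · rw [h3, zpow_natCast] at h2
      exact h2
    · rw [h3, zpow_neg, zpow_natCast, inv_eq_one] at h2
      exact h2
  · rintro ⟨m, hm, hx⟩
    refine ⟨⟨(m : ℤ), mem_nonZeroDivisors_of_ne_zero (by exact_mod_cast hm.ne')⟩, ?_⟩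
    have h2 : x ^ (m : ℤ) = 1 := by rw [zpow_natCast]; exact hx
    exact h2

theorem span_top (M : Type u) [CommGroup M] :
    Submodule.span ℚ (Set.range fun x : M => (1 : ℚ) ⊗ₜ[ℤ] Additive.ofMul x) = ⊤ := by
  rw [eq_top_iff]
  rintro v -
  induction v using TensorProduct.induction_on with
  | zero => exact Submodule.zero_mem _
  | tmul q m =>
    have : q ⊗ₜ[ℤ] m = q • ((1 : ℚ) ⊗ₜ[ℤ] m) := by
      rw [TensorProduct.smul_tmul', smul_eq_mul, mul_one]
    rw [this]
    exact Submodule.smul_mem _ _ (Submodule.subset_span ⟨Additive.toMul m, rfl⟩)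
  | add x y hx hy => exact Submodule.add_mem _ hx hy

/-- automorphisms act on the tensor product -/
noncomputable def act (M : Type u) [CommGroup M] :
    MulAut M →* Module.End ℚ (ℚ ⊗[ℤ] Additive M) where
  toFun f := LinearMap.baseChange ℚ (MonoidHom.toAdditive f.toMonoidHom).toIntLinearMap
  map_one' := by
    have : (MonoidHom.toAdditive (1 : MulAut M).toMonoidHom).toIntLinearMap = LinearMap.id := rfl
    rw [this, LinearMap.baseChange_id]
    rfl
  map_mul' f g := by
    have : (MonoidHom.toAdditive (f * g).toMonoidHom).toIntLinearMap =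
        (MonoidHom.toAdditive f.toMonoidHom).toIntLinearMap ∘ₗ
          (MonoidHom.toAdditive g.toMonoidHom).toIntLinearMap := rfl
    rw [this, LinearMap.baseChange_comp]
    rfl

end RatAux

theorem exists_rat (M : Type u) [CommGroup M] (hM : FR M) :
    ∃ (V : Type u) (_ : AddCommGroup V) (_ : Module ℚ V) (_ : FiniteDimensional ℚ V) (θ : M → V)
      (Φ : MulAut M →* Module.End ℚ V),
      (∀ x y, θ (x * y) = θ x + θ y) ∧ (∀ x, θ x = 0 ↔ ∃ m : ℕ, 0 < m ∧ x ^ m = 1) ∧
      (∀ f x, Φ f (θ x) = θ (f x)) ∧ Submodule.span ℚ (Set.range θ) = ⊤ ∧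
      hh M = (Module.finrank ℚ V : ℕ∞) := by
  have hsp := RatAux.span_top M
  let E : AddSubgroup (TensorProduct ℤ ℚ (Additive M)) :=
    { carrier := Set.range fun x : M => TensorProduct.tmul ℤ (1 : ℚ) (Additive.ofMul x)
      zero_mem' := ⟨1, TensorProduct.tmul_zero _ _⟩
      add_mem' := by
        rintro _ _ ⟨x, rfl⟩ ⟨y, rfl⟩
        exact ⟨x * y, TensorProduct.tmul_add _ _ _⟩
      neg_mem' := by
        rintro _ ⟨x, rfl⟩
        exact ⟨x⁻¹, TensorProduct.tmul_neg _ _⟩ }
  let φ : M →* Multiplicative E :=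
    { toFun := fun x => Multiplicative.ofAdd
        (⟨TensorProduct.tmul ℤ (1 : ℚ) (Additive.ofMul x), x, rfl⟩ : E)
      map_one' := congrArg Multiplicative.ofAdd (Subtype.ext (TensorProduct.tmul_zero _ _))
      map_mul' := fun x y =>
        congrArg Multiplicative.ofAdd (Subtype.ext (TensorProduct.tmul_add _ _ _)) }
  have hφ : Function.Surjective φ := by
    rintro ⟨e, x, hx⟩
    exact ⟨x, congrArg Multiplicative.ofAdd (Subtype.ext hx)⟩
  have hE : Submodule.span ℚ (E : Set (TensorProduct ℤ ℚ (Additive M))) = ⊤ := hsp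
  have hfd : FiniteDimensional ℚ (TensorProduct ℤ ℚ (Additive M)) := by
    have h1 := span_fin_of_FR E (FR.of_surjective φ hφ hM)
    rw [hE] at h1
    exact Module.Finite.equiv (Submodule.topEquiv (R := ℚ) (M := TensorProduct ℤ ℚ (Additive M)))
  refine ⟨TensorProduct ℤ ℚ (Additive M), inferInstance, inferInstance, hfd,
    fun x => TensorProduct.tmul ℤ (1 : ℚ) (Additive.ofMul x), RatAux.act M,
    fun x y => TensorProduct.tmul_add _ _ _, RatAux.zero_iff M, fun f x => rfl, hsp, ?_⟩
  have hk := hh_ker_range (RatAux.th M)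
  have hk0 : hh (RatAux.th M).ker = 0 := by
    refine hh_eq_zero fun x => ?_
    have hx : RatAux.th M x.1 = 1 := x.2
    obtain ⟨m, hm, h⟩ := (RatAux.zero_iff M x.1).mp hx
    exact ⟨m, hm, Subtype.ext (by simpa using h)⟩
  rw [hk, hk0, zero_add]
  apply le_antisymm
  · exact (hh_le_of_injective (RatAux.th M).range.subtype
      (Subgroup.subtype_injective _)).trans hh_le_finrank
  · refine (le_hh_of_span E hE).trans ?_
    let ψ : Multiplicative E →* (RatAux.th M).range :=
      { toFun := fun e => ⟨Multiplicative.ofAdd ((Multiplicative.toAdd e : E) : _), by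
          obtain ⟨x, hx⟩ := (Multiplicative.toAdd e : E).2
          exact ⟨x, congrArg Multiplicative.ofAdd hx⟩⟩
        map_one' := rfl
        map_mul' := fun _ _ => rfl }
    refine hh_le_of_injective ψ fun a b hab => ?_
    have h1 := congrArg Subtype.val hab
    exact Subtype.ext h1

end P9700e
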