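import Mathlib
import Pool.Agent.Lib.P9700e.Defs
import Pool.Agent.Lib.P9700e.HMono
import Pool.Agent.Lib.P9700e.HFin
import Pool.Agent.Lib.P9700e.Rat
import Pool.Agent.Lib.P9700e.LemD

/-!
# One step: an abelian factor `R / R'` of finite rank in `G = A B`

`M = R ⧸ R'.subgroupOf R` is abelian (`hc`), `FR M`; `exists_rat` gives `V`, `θ`, `Φ`, `hh M = finrank ℚ V`. `H = HP A B R` has finite rank (`FR.prod`, `FR.subgroup`). It acts on `M` by conjugation with the first component
(an automorphism of `R` preserving `R'`; `QuotientGroup.congr`), so `α : H →* Module.End ℚ V` via `Φ`; `δ (a, b) = θ [a b⁻¹]`. Crossed: `(a a') (b b')⁻¹ = a (a' b'⁻¹) a⁻¹ * (a b⁻¹)`. The image of `δ` is the image `E` of `θ` (every `g ∈ R` is `a b⁻¹`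
with `(a, b) ∈ H`, by `hAB`; compare `P9700a/Cover.lean`, `dl_surj`), an additive subgroup spanning `V`. `H0 = {δ = 0}` contains the copy of `HP A B R'`: `lemD` and `hh_le_of_injective`
(from `HP A B R'` into `H0`; both live in subgroups of `A × B`).
-/

set_option autoImplicit false

open scoped commutatorElement

universe u

namespace P9700e

open P9700a

namespace StepGAux

variable {G : Type u} [Group G] (R R' : Subgroup G) [R.Normal] [R'.Normal]

theorem map_conj (g : G) : (R'.subgroupOf R).map ((MulAut.conjNormal g : MulAut R) : R ≃* R).toMonoidHom =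
    R'.subgroupOf R := by
  ext x
  rw [Subgroup.mem_map]
  constructor
  · rintro ⟨y, hy, rfl⟩
    rw [Subgroup.mem_subgroupOf] at hy ⊢
    change ((MulAut.conjNormal g y : R) : G) ∈ R'
    rw [MulAut.conjNormal_apply]
    exact Subgroup.Normal.conj_mem inferInstance _ hy _
  · intro hx
    rw [Subgroup.mem_subgroupOf] at hx
    refine ⟨MulAut.conjNormal g⁻¹ x, ?_, ?_⟩
    · rw [Subgroup.mem_subgroupOf, MulAut.conjNormal_apply]
      exact Subgroup.Normal.conj_mem inferInstance _ hx _
    · apply Subtype.ext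
      change ((MulAut.conjNormal g (MulAut.conjNormal g⁻¹ x) : R) : G) = x
      rw [MulAut.conjNormal_apply, MulAut.conjNormal_apply]
      group

/-- conjugation on the factor -/
noncomputable def cj : G →* MulAut (R ⧸ R'.subgroupOf R) :=
  MonoidHom.mk' (fun g => QuotientGroup.congr (R'.subgroupOf R) (R'.subgroupOf R)
    (MulAut.conjNormal g : MulAut R) (map_conj R R' g)) (by
    intro g h
    ext z
    induction z using QuotientGroup.induction_on with
    | H x =>
      change (((MulAut.conjNormal (g * h) x : R)) : R ⧸ R'.subgroupOf R) =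
        ((MulAut.conjNormal g (MulAut.conjNormal h x) : R) : R ⧸ R'.subgroupOf R)
      rw [map_mul]
      rfl)

theorem cj_mk (g : G) (x : R) : cj R R' g (x : R ⧸ R'.subgroupOf R) =
    ((MulAut.conjNormal g x : R) : R ⧸ R'.subgroupOf R) := rfl

end StepGAux

open StepGAux in
theorem step {G : Type u} [Group G] (A B R R' : Subgroup G) [R.Normal] [R'.Normal] (hA : FR A)
    (hB : FR B) (hAB : ∀ g : G, ∃ a ∈ A, ∃ b ∈ B, g = a * b) (hle : R' ≤ R) (hc : ⁅R, R⁆ ≤ R')
    (hFR : FR (R ⧸ R'.subgroupOf R)) :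
    hh (R ⧸ R'.subgroupOf R) + hh (HP A B R') ≤ hh (HP A B R) := by
  have hcomm : ∀ x y : R ⧸ R'.subgroupOf R, x * y = y * x := by
    intro x y
    induction x using QuotientGroup.induction_on with
    | H x =>
      induction y using QuotientGroup.induction_on with
      | H y =>
        rw [← QuotientGroup.mk_mul, ← QuotientGroup.mk_mul, QuotientGroup.eq,
          Subgroup.mem_subgroupOf]
        have h1 : (((x * y)⁻¹ * (y * x) : R) : G) = ⁅((y⁻¹ : R) : G), ((x⁻¹ : R) : G)⁆ := by
          rw [commutatorElement_def]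
          push_cast
          group
        rw [h1]
        exact hc (Subgroup.commutator_mem_commutator (y⁻¹).2 (x⁻¹).2)
  letI : CommGroup (R ⧸ R'.subgroupOf R) :=
    { (inferInstance : Group (R ⧸ R'.subgroupOf R)) with mul_comm := hcomm }
  obtain ⟨V, _, _, _, θ, Φ, hadd, hker, hΦ, hspan, hrank⟩ := exists_rat (R ⧸ R'.subgroupOf R) hFR
  have hθ1 : θ 1 = 0 := by
    have := hadd 1 1
    rw [mul_one] at this
    exact left_eq_add.1 this
  have hθi : ∀ x, θ x⁻¹ = - θ x := by
    intro x
    have := hadd x⁻¹ x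
    rw [inv_mul_cancel, hθ1] at this
    exact eq_neg_of_add_eq_zero_left this.symm
  have hrank' : hh (R ⧸ R'.subgroupOf R) = (Module.finrank ℚ V : ℕ∞) := hrank
  rw [hrank']
  have hH : FR (HP A B R) := FR.subgroup _ (FR.prod hA hB)
  let pr : HP A B R →* G := A.subtype.comp ((MonoidHom.fst A B).comp (HP A B R).subtype)
  let α : HP A B R →* Module.End ℚ V := Φ.comp ((cj R R').comp pr)
  let dl : HP A B R → R := fun h => ⟨(h.1.1 : G) * (h.1.2 : G)⁻¹, h.2⟩
  let δ : HP A B R → V := fun h => θ ((dl h : R) : R ⧸ R'.subgroupOf R)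
  have hδ : ∀ h h' : HP A B R, δ (h * h') = α h (δ h') + δ h := by
    intro h h'
    have h1 : dl (h * h') = (MulAut.conjNormal (pr h) (dl h') : R) * dl h := by
      apply Subtype.ext
      rw [Subgroup.coe_mul, MulAut.conjNormal_apply]
      change ((h.1.1 : G) * (h'.1.1 : G)) * ((h.1.2 : G) * (h'.1.2 : G))⁻¹ =
        (h.1.1 : G) * ((h'.1.1 : G) * (h'.1.2 : G)⁻¹) * (h.1.1 : G)⁻¹ *
          ((h.1.1 : G) * (h.1.2 : G)⁻¹)
      group
    have h2 : α h (δ h') = θ (cj R R' (pr h) ((dl h' : R) : R ⧸ R'.subgroupOf R)) := hΦ _ _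
    rw [h2, cj_mk]
    change θ ((dl (h * h') : R) : R ⧸ R'.subgroupOf R) = _
    rw [h1, QuotientGroup.mk_mul, hadd]
  let E : AddSubgroup V :=
    { carrier := Set.range θ
      zero_mem' := ⟨1, hθ1⟩
      add_mem' := by
        rintro _ _ ⟨x, rfl⟩ ⟨y, rfl⟩
        exact ⟨x * y, hadd x y⟩
      neg_mem' := by
        rintro _ ⟨x, rfl⟩
        exact ⟨x⁻¹, hθi x⟩ }
  have hE : ∀ w, w ∈ E ↔ ∃ h, δ h = w := by
    intro w
    constructor
    · rintro ⟨x, rfl⟩
      induction x using QuotientGroup.induction_on with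
      | H x =>
        obtain ⟨a, ha, b, hb, hab⟩ := hAB (x : G)
        have h1 : ((⟨a, ha⟩, ⟨b⁻¹, B.inv_mem hb⟩) : A × B) ∈ HP A B R := by
          rw [mem_HP]
          change a * (b⁻¹)⁻¹ ∈ R
          rw [inv_inv, ← hab]
          exact x.2
        refine ⟨⟨_, h1⟩, ?_⟩
        have h2 : dl ⟨_, h1⟩ = x := by
          apply Subtype.ext
          change a * (b⁻¹)⁻¹ = (x : G)
          rw [inv_inv, ← hab]
        change θ ((dl ⟨_, h1⟩ : R) : R ⧸ R'.subgroupOf R) = _
        rw [h2]
    · rintro ⟨h, rfl⟩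
      exact ⟨_, rfl⟩
  let H0 : Subgroup (HP A B R) :=
    { carrier := {h | δ h = 0}
      one_mem' := by
        have h1 : δ (1 * 1) = α 1 (δ 1) + δ 1 := hδ 1 1
        rw [mul_one, map_one, Module.End.one_apply] at h1
        exact left_eq_add.1 h1
      mul_mem' := by
        intro x y hx hy
        have hx' : δ x = 0 := hx
        have hy' : δ y = 0 := hy
        change δ (x * y) = 0
        rw [hδ, hx', hy', map_zero, add_zero]
      inv_mem' := by
        intro x hx
        have hx' : δ x = 0 := hx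
        have h0 : δ 1 = 0 := by
          have h1 : δ (1 * 1) = α 1 (δ 1) + δ 1 := hδ 1 1
          rw [mul_one, map_one, Module.End.one_apply] at h1
          exact left_eq_add.1 h1
        have h2 := hδ x⁻¹ x
        rw [inv_mul_cancel, h0, hx', map_zero, zero_add] at h2
        exact h2.symm }
  have hmain := lemD hH α δ hδ E hE hspan H0 (fun h => Iff.rfl)
  refine le_trans (add_le_add le_rfl ?_) hmain
  have hin : ∀ x : HP A B R', δ ⟨x.1, HP_mono hle x.2⟩ = 0 := by
    intro x
    change θ ((dl ⟨x.1, HP_mono hle x.2⟩ : R) : R ⧸ R'.subgroupOf R) = 0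
    have h1 : ((dl ⟨x.1, HP_mono hle x.2⟩ : R) : R ⧸ R'.subgroupOf R) = 1 := by
      rw [QuotientGroup.eq_one_iff, Subgroup.mem_subgroupOf]
      exact x.2
    rw [h1, hθ1]
  let ι : HP A B R' →* H0 :=
    { toFun := fun x => ⟨⟨x.1, HP_mono hle x.2⟩, hin x⟩
      map_one' := rfl
      map_mul' := fun _ _ => rfl }
  refine hh_le_of_injective ι ?_
  intro x y hxy
  have h1 := congrArg (fun z : H0 => ((z : HP A B R) : A × B)) hxy
  exact Subtype.ext h1

end P9700e
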