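import Mathlib
import Pool.Agent.Lib.P9700e.Defs
import Pool.Agent.Lib.P9700e.HMono
import Pool.Agent.Lib.P9700e.HFin
import Pool.Agent.Lib.P9700e.HDer
import Pool.Agent.Lib.P9700e.StepG

/-!
# `hh` of a soluble normal subgroup of a product

* `hh_le_HP`: put `R i = (derivedSeries Y i).map Y.subtype`, normal in `G` (`derivedSeries Y i` is characteristic in the normal subgroup `Y`: `ConjAct.normal_of_characteristic_of_normal` or directly), `R 0 = Y`, `R s = ⊥`. Downward induction on `i ≤ s`: `hh (R i) ≤ hh (HP A B (R i))`: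
`i = s`: `hh ⊥ = 0`. Step: `hh (R i) = hh (R (i+1)) + hh (R i ⧸ (R (i+1)).subgroupOf (R i))` (`hh_extension`), and `step`. `FR` of the factor: it is a quotient of `R i ≤ Y`.
* `hh_HP_le`: subgroup of `A × B`, `hh_prod_le`.
* `hh_le_of_prod`: let `Y` be the normal core of the subgroup in `DL s G` (its derived length is at most `s`: inclusion of groups and `map_derivedSeries_le_derivedSeries`-like lemmas); `hh G = hh Y` (`hh_finiteIndex`) `≤ hh A + hh B`, and `DL s A` (take `Y.subgroupOf A`), `hh_le_of_DL`.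
-/

set_option autoImplicit false

universe u

namespace P9700e

open P9700a

namespace HSolAux

/-- the terms of the derived series of `Y`, as subgroups of `G` -/
def R {G : Type*} [Group G] (Y : Subgroup G) (i : ℕ) : Subgroup G :=
  (derivedSeries Y i).map Y.subtype

theorem R_zero {G : Type*} [Group G] (Y : Subgroup G) : R Y 0 = Y := by
  simp only [R, derivedSeries_zero]
  rw [← MonoidHom.range_eq_map, Subgroup.range_subtype]

theorem R_succ {G : Type*} [Group G] (Y : Subgroup G) (i : ℕ) :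
    R Y (i + 1) = ⁅R Y i, R Y i⁆ := by
  simp only [R, derivedSeries_succ]
  exact Subgroup.map_commutator _ _ _

theorem R_normal {G : Type*} [Group G] (Y : Subgroup G) [hY : Y.Normal] (i : ℕ) :
    (R Y i).Normal := by
  induction i with
  | zero => rw [R_zero]; exact hY
  | succ n ih =>
    rw [R_succ]
    exact Subgroup.commutator_normal _ _

theorem R_le {G : Type*} [Group G] (Y : Subgroup G) (i : ℕ) : R Y i ≤ Y :=
  Subgroup.map_subtype_le _

theorem R_succ_le {G : Type*} [Group G] (Y : Subgroup G) (i : ℕ) : R Y (i + 1) ≤ R Y i :=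
  Subgroup.map_mono (derivedSeries_antitone Y (Nat.le_succ i))

theorem hh_of_subsingleton {X : Type*} [Group X] [Subsingleton X] : hh X = 0 := by
  rw [← nonpos_iff_eq_zero]
  refine hh_le fun n hn => ?_
  cases hn with
  | zero => simp
  | @succ K _ x m h hKL hx hn hp =>
    exfalso
    refine hp 1 Nat.one_pos ?_
    have e : x ^ 1 = 1 := Subsingleton.elim _ _
    rw [e]
    exact Subgroup.one_mem _

theorem main {G : Type u} [Group G] (A B Y : Subgroup G) [Y.Normal] (hA : FR A)
    (hB : FR B) (hAB : ∀ g : G, ∃ a ∈ A, ∃ b ∈ B, g = a * b) (hY : FR Y) (s : ℕ)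
    (hs : derivedSeries Y s = ⊥) (j : ℕ) :
    ∀ i : ℕ, i + j = s → ∀ _h : (R Y i).Normal, hh (R Y i) ≤ hh (HP A B (R Y i)) := by
  induction j with
  | zero =>
    intro i hi _
    have e : R Y i = ⊥ := by
      have : i = s := by omega
      rw [this, R, hs, Subgroup.map_bot]
    have : Subsingleton (R Y i) := by
      rw [e]; infer_instance
    rw [hh_of_subsingleton]
    exact zero_le
  | succ j ih =>
    intro i hi _
    have hn : (R Y (i + 1)).Normal := R_normal Y (i + 1)
    have h1 := ih (i + 1) (by omega) hn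
    have h2 := hh_extension (R Y (i + 1)) (R Y i) (R_succ_le Y i)
    have hFR : FR (R Y i ⧸ (R Y (i + 1)).subgroupOf (R Y i)) := by
      obtain ⟨r, hr⟩ := hY
      have hr' : RK r Y := hr
      exact ⟨r, RK.of_surjective (QuotientGroup.mk' ((R Y (i + 1)).subgroupOf (R Y i)))
        (QuotientGroup.mk'_surjective _) (hr'.of_le (R_le Y i))⟩
    have h3 := step A B (R Y i) (R Y (i + 1)) hA hB hAB (R_succ_le Y i) (R_succ Y i).ge hFR
    rw [h2]
    calc hh (R Y (i + 1)) + hh (R Y i ⧸ (R Y (i + 1)).subgroupOf (R Y i))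
        ≤ hh (HP A B (R Y (i + 1))) + hh (R Y i ⧸ (R Y (i + 1)).subgroupOf (R Y i)) := by gcongr
      _ = hh (R Y i ⧸ (R Y (i + 1)).subgroupOf (R Y i)) + hh (HP A B (R Y (i + 1))) :=
        add_comm _ _
      _ ≤ _ := h3

theorem derived_of_injective {G H : Type*} [Group G] [Group H] (f : G →* H)
    (hf : Function.Injective f) {s : ℕ} (h : derivedSeries H s = ⊥) : derivedSeries G s = ⊥ := by
  rw [eq_bot_iff]
  intro x hx
  have h1 : f x ∈ derivedSeries H s :=
    map_derivedSeries_le_derivedSeries f s (Subgroup.mem_map_of_mem f hx)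
  rw [h, Subgroup.mem_bot] at h1
  rw [Subgroup.mem_bot]
  exact hf (by rw [h1, map_one])

theorem derived_of_surjective {G H : Type*} [Group G] [Group H] (f : G →* H)
    (hf : Function.Surjective f) {s : ℕ} (h : derivedSeries G s = ⊥) : derivedSeries H s = ⊥ := by
  rw [← map_derivedSeries_eq hf s, h, Subgroup.map_bot]

end HSolAux

open HSolAux

theorem hh_le_HP {G : Type u} [Group G] (A B Y : Subgroup G) [Y.Normal] (hA : FR A)
    (hB : FR B) (hAB : ∀ g : G, ∃ a ∈ A, ∃ b ∈ B, g = a * b) (hY : FR Y) (s : ℕ)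
    (hs : derivedSeries Y s = ⊥) : hh Y ≤ hh (HP A B Y) := by
  have h := main A B Y hA hB hAB hY s hs s 0 (by omega) (R_normal Y 0)
  have key : ∀ (Z : Subgroup G) (hZ : Z.Normal), Z = Y → hh Z ≤ hh (HP A B Z) →
      hh Y ≤ hh (HP A B Y) := by
    intro Z hZ e h'
    subst e
    exact h'
  exact key _ _ (R_zero Y) h

theorem hh_HP_le {G : Type u} [Group G] (A B Y : Subgroup G) [Y.Normal] :
    hh (HP A B Y) ≤ hh A + hh B :=
  (hh_le_of_injective (HP A B Y).subtype (Subgroup.subtype_injective _)).trans hh_prod_le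

theorem DL.of_injective {G H : Type*} [Group G] [Group H] (f : G →* H) (hf : Function.Injective f)
    {s : ℕ} (h : DL s H) : DL s G := by
  obtain ⟨Y, h1, h2⟩ := h
  refine ⟨Y.comap f, ?_, ?_⟩
  · constructor
    rw [Subgroup.index_comap]
    have := Subgroup.isFiniteRelIndex_of_finiteIndex (H := Y) (K := f.range)
    exact Subgroup.relIndex_ne_zero
  refine derived_of_injective (f.subgroupComap Y) ?_ h2
  intro x y hxy
  apply Subtype.ext
  apply hf
  have := congrArg (fun z : Y => (z : H)) hxy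
  simpa using this

theorem DL.subgroup {G : Type*} [Group G] {s : ℕ} (h : DL s G) (A : Subgroup G) : DL s A :=
  h.of_injective A.subtype A.subtype_injective

theorem DL.map {G H : Type*} [Group G] [Group H] (f : G →* H) (hf : Function.Surjective f) {s : ℕ}
    (h : DL s G) : DL s H := by
  obtain ⟨Y, h1, h2⟩ := h
  refine ⟨Y.map f, ?_, ?_⟩
  · constructor
    intro h0
    have := Subgroup.index_map_dvd Y hf
    rw [h0, zero_dvd_iff] at this
    exact h1.index_ne_zero this
  · exact derived_of_surjective (f.subgroupMap Y) (MonoidHom.subgroupMap_surjective f Y) h2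

theorem DL.prod {G H : Type*} [Group G] [Group H] {s : ℕ} (hG : DL s G) (hH : DL s H) :
    DL s (G × H) := by
  obtain ⟨Y, h1, h2⟩ := hG
  obtain ⟨Z, h3, h4⟩ := hH
  refine ⟨Y.prod Z, ?_, ?_⟩
  · constructor
    rw [Subgroup.index_prod]
    exact mul_ne_zero h1.index_ne_zero h3.index_ne_zero
  · rw [eq_bot_iff]
    intro x hx
    let e := (Subgroup.prodEquiv Y Z).toMonoidHom
    let p : Y.prod Z →* Y := (MonoidHom.fst Y Z).comp e
    let q : Y.prod Z →* Z := (MonoidHom.snd Y Z).comp e
    have hp : p x ∈ derivedSeries Y s :=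
      map_derivedSeries_le_derivedSeries p s (Subgroup.mem_map_of_mem p hx)
    have hq : q x ∈ derivedSeries Z s :=
      map_derivedSeries_le_derivedSeries q s (Subgroup.mem_map_of_mem q hx)
    rw [h2, Subgroup.mem_bot] at hp
    rw [h4, Subgroup.mem_bot] at hq
    rw [Subgroup.mem_bot]
    apply (Subgroup.prodEquiv Y Z).injective
    rw [map_one]
    exact Prod.ext hp hq

theorem DL.mono {G : Type*} [Group G] {s t : ℕ} (h : DL s G) (hst : s ≤ t) : DL t G := by
  obtain ⟨Y, h1, h2⟩ := h
  refine ⟨Y, h1, ?_⟩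
  rw [eq_bot_iff, ← h2]
  exact derivedSeries_antitone Y hst

theorem hh_le_of_prod {G : Type u} [Group G] (A B : Subgroup G) {r s : ℕ} (hA : RK r A)
    (hB : RK r B) (hAB : ∀ g : G, ∃ a ∈ A, ∃ b ∈ B, g = a * b) (hG : FR G) (hs : DL s G) :
    hh G ≤ ((2 * (r * s) : ℕ) : ℕ∞) := by
  have hs' := hs
  obtain ⟨Y0, h1, h2⟩ := hs
  set Y : Subgroup G := Y0.normalCore with hY
  have hd : derivedSeries Y s = ⊥ :=
    derived_of_injective (Subgroup.inclusion Y0.normalCore_le) (Subgroup.inclusion_injective _) h2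
  have hf : Y.FiniteIndex := Subgroup.finiteIndex_normalCore Y0
  have hFY : FR Y := by
    obtain ⟨t, ht⟩ := hG
    exact ⟨t, RK.subgroup Y ht⟩
  have e1 : hh G = hh Y := (hh_finiteIndex Y).symm
  have e2 := hh_le_HP A B Y hA.fr hB.fr hAB hFY s hd
  have e3 := hh_HP_le A B Y
  have e4 := hh_le_of_DL hA (hs'.subgroup A)
  have e5 := hh_le_of_DL hB (hs'.subgroup B)
  calc hh G = hh Y := e1
    _ ≤ hh A + hh B := e2.trans e3
    _ ≤ ((r * s : ℕ) : ℕ∞) + ((r * s : ℕ) : ℕ∞) := add_le_add e4 e5
    _ = ((2 * (r * s) : ℕ) : ℕ∞) := by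
      rw [← Nat.cast_add, two_mul]

end P9700e
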