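import Mathlib
import Pool.Agent.Lib.P9700e.Defs
import Pool.Agent.Lib.P9700e.HMono
import Pool.Agent.Lib.P9700e.HFin
import Pool.Agent.Lib.P9700e.HVec

/-!
# `hh` of a group of unipotent matrices

`hh_unip`: induction on `finrank ℚ V` (for all `V`, `X`): bound `(finrank ℚ V) ^ 2` for `hh X`, `X` acting faithfully. If `finrank ℚ V = 0`, `X` is trivial (`α` injective into a trivial monoid). Otherwise let `j` be maximal with `U j ≠ ⊥` and `0 ≠ v ∈ U j`: `v` is fixed by `X`. `L = ℚ v`, `X` acts on `V ⧸ L`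
(`Submodule.mapQ`) with the flag of the images of `U i`; let `X1` be the kernel of this action (as a homomorphism to `(Module.End ℚ (V ⧸ L))ˣ`, `MonoidHom.toHomUnits`), `hh X = hh X1 + hh (range)` (`hh_ker_range`), the range acts faithfully on `V ⧸ L`, so `hh (range) ≤ (d-1)^2`, `d = finrank ℚ V`.
`X1`: `x ↦ α x - 1` maps `V` to `L` and `L` to `0`, so it gives an element of `(V ⧸ L) →ₗ[ℚ] L`, dimension `d - 1`; it is additive in `x` and injective on `X1`: `hh_le_of_emb`. `(d-1)^2 + (d-1) ≤ d^2`.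
`hh_unip'` (not nec. faithful, for the range): apply `hh_unip` to the range.
-/

set_option autoImplicit false

universe u v

namespace P9700e

namespace UnipAux

theorem exists_fixed {V : Type u} [AddCommGroup V] [Module ℚ V] [Nontrivial V] {X : Type v}
    [Group X] (α : X →* Module.End ℚ V) (n : ℕ)
    (U : ℕ → Submodule ℚ V) (h0 : U 0 = ⊤) (hn : U n = ⊥)
    (hU : ∀ i, ∀ v ∈ U i, ∀ x : X, α x v - v ∈ U (i + 1)) :
    ∃ v : V, v ≠ 0 ∧ ∀ x, α x v = v := by
  have hex : ∃ j, U (j + 1) = ⊥ ∧ U j ≠ ⊥ := by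
    by_contra hcon
    have hstep : ∀ j, U (j + 1) = ⊥ → U j = ⊥ := by
      intro j hj
      by_contra h1
      exact hcon ⟨j, hj, h1⟩
    have hall : ∀ m, U m = ⊥ → U 0 = ⊥ := by
      intro m
      induction m with
      | zero => exact fun h => h
      | succ m ih => exact fun h => ih (hstep m h)
    have h1 := hall n hn
    rw [h0] at h1
    exact top_ne_bot h1
  obtain ⟨j, hj, hj'⟩ := hex
  obtain ⟨v, hv, hv0⟩ := Submodule.exists_mem_ne_zero_of_ne_bot hj'
  refine ⟨v, hv0, fun x => ?_⟩
  have h1 := hU j v hv x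
  rw [hj, Submodule.mem_bot] at h1
  exact sub_eq_zero.mp h1

theorem fix_span {V : Type u} [AddCommGroup V] [Module ℚ V] {X : Type v}
    [Group X] (α : X →* Module.End ℚ V) {v : V} (hv : ∀ x, α x v = v) (x : X) {w : V}
    (hw : w ∈ Submodule.span ℚ {v}) : α x w = w := by
  obtain ⟨c, rfl⟩ := Submodule.mem_span_singleton.mp hw
  rw [map_smul, hv]

/-- the action on the quotient by a submodule of fixed vectors -/
noncomputable def quo {V : Type u} [AddCommGroup V] [Module ℚ V] {X : Type v}
    [Group X] (α : X →* Module.End ℚ V) (L : Submodule ℚ V) (hL : ∀ x, ∀ w ∈ L, α x w = w) :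
    X →* Module.End ℚ (V ⧸ L) where
  toFun x := L.mapQ L (α x) (fun w hw => by
    show α x w ∈ L
    rw [hL x w hw]
    exact hw)
  map_one' := by
    apply LinearMap.ext
    intro q
    obtain ⟨u, rfl⟩ := Submodule.mkQ_surjective L q
    rw [Submodule.mkQ_apply, Submodule.mapQ_apply, map_one, Module.End.one_apply,
      Module.End.one_apply]
  map_mul' x y := by
    apply LinearMap.ext
    intro q
    obtain ⟨u, rfl⟩ := Submodule.mkQ_surjective L q
    rw [Submodule.mkQ_apply, Submodule.mapQ_apply, map_mul, Module.End.mul_apply,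
      Module.End.mul_apply, Submodule.mapQ_apply, Submodule.mapQ_apply]

theorem quo_mk {V : Type u} [AddCommGroup V] [Module ℚ V] {X : Type v}
    [Group X] (α : X →* Module.End ℚ V) (L : Submodule ℚ V) (hL : ∀ x, ∀ w ∈ L, α x w = w)
    (x : X) (u : V) : quo α L hL x (L.mkQ u) = L.mkQ (α x u) := rfl

/-- the map `x ↦ α x - 1` on the kernel of the action on the quotient -/
theorem hh_ker_le {V : Type u} [AddCommGroup V] [Module ℚ V] [FiniteDimensional ℚ V] {X : Type v}
    [Group X] (α : X →* Module.End ℚ V) (hinj : Function.Injective α)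
    (L : Submodule ℚ V) (hL : ∀ x, ∀ w ∈ L, α x w = w) (K : Subgroup X)
    (hK : ∀ x ∈ K, quo α L hL x = 1) :
    hh K ≤ ((Module.finrank ℚ (V ⧸ L) * Module.finrank ℚ L : ℕ) : ℕ∞) := by
  have hmem : ∀ x : K, ∀ u : V, (α (x : X) - 1) u ∈ L := by
    intro x u
    have h1 : quo α L hL (x : X) (L.mkQ u) = L.mkQ u := by
      rw [hK x x.2, Module.End.one_apply]
    rw [quo_mk] at h1
    rw [LinearMap.sub_apply, Module.End.one_apply]
    exact (Submodule.Quotient.eq L).mp h1
  let f : K → ((V ⧸ L) →ₗ[ℚ] L) := fun x =>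
    L.liftQ (LinearMap.codRestrict L (α (x : X) - 1) (hmem x)) (fun w hw => by
      rw [LinearMap.mem_ker]
      apply Subtype.ext
      rw [LinearMap.codRestrict_apply, LinearMap.sub_apply, Module.End.one_apply, hL _ w hw,
        sub_self]
      rfl)
  have hf : ∀ (x : K) (u : V), ((f x (L.mkQ u) : L) : V) = α (x : X) u - u := by
    intro x u
    show ((L.liftQ _ _ (L.mkQ u) : L) : V) = _
    rw [Submodule.mkQ_apply, Submodule.liftQ_apply, LinearMap.codRestrict_apply,
      LinearMap.sub_apply, Module.End.one_apply]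
  have h := hh_le_of_emb f (fun x y => by
    apply LinearMap.ext
    intro q
    obtain ⟨u, rfl⟩ := Submodule.mkQ_surjective L q
    apply Subtype.ext
    rw [LinearMap.add_apply, Submodule.coe_add, hf, hf, hf, Subgroup.coe_mul, map_mul,
      Module.End.mul_apply]
    have h1 : α (y : X) u - u ∈ L := by
      have := hmem y u
      rwa [LinearMap.sub_apply, Module.End.one_apply] at this
    have h2 := hL (x : X) _ h1
    rw [map_sub] at h2
    have h3 : α (x : X) (α (y : X) u) = α (x : X) u + (α (y : X) u - u) := by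
      rw [← h2]
      abel
    rw [h3]
    abel) (fun x y hxy => by
    apply Subtype.ext
    apply hinj
    apply LinearMap.ext
    intro u
    have h1 : ((f x (L.mkQ u) : L) : V) = ((f y (L.mkQ u) : L) : V) := by rw [hxy]
    rw [hf, hf] at h1
    exact sub_left_injective h1)
  rwa [Module.finrank_linearMap] at h

theorem main (d : ℕ) : ∀ {V : Type u} [AddCommGroup V] [Module ℚ V] [FiniteDimensional ℚ V]
    {X : Type v} [Group X] (α : X →* Module.End ℚ V) (_ : Function.Injective α) (n : ℕ)
    (U : ℕ → Submodule ℚ V) (_ : U 0 = ⊤) (_ : U n = ⊥)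
    (_ : ∀ i, ∀ v ∈ U i, ∀ x : X, α x v - v ∈ U (i + 1)),
    Module.finrank ℚ V = d → hh X ≤ ((d ^ 2 : ℕ) : ℕ∞) := by
  induction d with
  | zero =>
    intro V _ _ _ X _ α hinj n U h0 hn hU hd
    have hs : Subsingleton V := Module.finrank_zero_iff.mp hd
    have h1 : hh X = 0 := hh_eq_zero (fun x => ⟨1, Nat.one_pos, by
      rw [pow_one]
      apply hinj
      apply LinearMap.ext
      intro w
      exact Subsingleton.elim _ _⟩)
    rw [h1]
    exact zero_le
  | succ d ih =>
    intro V _ _ _ X _ α hinj n U h0 hn hU hd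
    have hnt : Nontrivial V := Module.nontrivial_of_finrank_pos (R := ℚ) (by omega)
    obtain ⟨v, hv0, hv⟩ := exists_fixed α n U h0 hn hU
    have hL : ∀ x, ∀ w ∈ Submodule.span ℚ {v}, α x w = w := fun x w hw => fix_span α hv x hw
    have hr1 : Module.finrank ℚ (Submodule.span ℚ {v}) = 1 := finrank_span_singleton hv0
    have hr2 : Module.finrank ℚ (V ⧸ Submodule.span ℚ {v}) = d := by
      have := Submodule.finrank_quotient_add_finrank (Submodule.span ℚ {v})
      omega
    let β : X →* (Module.End ℚ (V ⧸ Submodule.span ℚ {v}))ˣ :=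
      (quo α (Submodule.span ℚ {v}) hL).toHomUnits
    have hβ : ∀ x, ((β x : (Module.End ℚ (V ⧸ Submodule.span ℚ {v}))ˣ) :
        Module.End ℚ (V ⧸ Submodule.span ℚ {v})) = quo α (Submodule.span ℚ {v}) hL x :=
      fun x => rfl
    have hker : hh β.ker ≤ ((d : ℕ) : ℕ∞) := by
      have h := hh_ker_le α hinj (Submodule.span ℚ {v}) hL β.ker (fun x hx => by
        rw [← hβ, (MonoidHom.mem_ker).mp hx]
        rfl)
      rwa [hr1, hr2, mul_one] at h
    have hquo : hh (X ⧸ β.ker) ≤ ((d ^ 2 : ℕ) : ℕ∞) := by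
      let γ : X ⧸ β.ker →* Module.End ℚ (V ⧸ Submodule.span ℚ {v}) :=
        (Units.coeHom _).comp (QuotientGroup.kerLift β)
      have hγ : ∀ x : X, γ (QuotientGroup.mk x) = quo α (Submodule.span ℚ {v}) hL x :=
        fun x => rfl
      refine ih γ ?_ n (fun i => (U i).map (Submodule.span ℚ {v}).mkQ) ?_ ?_ ?_ hr2
      · intro a b hab
        apply QuotientGroup.kerLift_injective β
        exact Units.ext hab
      · show (U 0).map (Submodule.span ℚ {v}).mkQ = ⊤
        rw [h0, Submodule.map_top, Submodule.range_mkQ]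
      · show (U n).map (Submodule.span ℚ {v}).mkQ = ⊥
        rw [hn, Submodule.map_bot]
      · intro i w hw x
        obtain ⟨u, hu, rfl⟩ := Submodule.mem_map.mp hw
        obtain ⟨x, rfl⟩ := QuotientGroup.mk_surjective x
        rw [hγ, quo_mk, ← map_sub]
        exact Submodule.mem_map_of_mem (hU i u hu x)
    rw [hh_add β.ker]
    refine (add_le_add hker hquo).trans ?_
    rw [← Nat.cast_add]
    apply Nat.cast_le.mpr
    nlinarith

end UnipAux

theorem hh_unip {V : Type u} [AddCommGroup V] [Module ℚ V] [FiniteDimensional ℚ V] {X : Type v}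
    [Group X] (α : X →* Module.End ℚ V) (hinj : Function.Injective α) (n : ℕ)
    (U : ℕ → Submodule ℚ V) (h0 : U 0 = ⊤) (hn : U n = ⊥)
    (hU : ∀ i, ∀ v ∈ U i, ∀ x : X, α x v - v ∈ U (i + 1)) :
    hh X ≤ ((Module.finrank ℚ V ^ 2 : ℕ) : ℕ∞) :=
  UnipAux.main _ α hinj n U h0 hn hU rfl

end P9700e
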