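import Mathlib
import Pool.Agent.Lib.P9700d.MaxAb
import Pool.Agent.Lib.P9700e.Defs
import Pool.Agent.Lib.P9700e.HMono
import Pool.Agent.Lib.P9700e.HFin
import Pool.Agent.Lib.P9700e.HAb
import Pool.Agent.Lib.P9700e.Rat
import Pool.Agent.Lib.P9700e.Unip

/-!
# Torsion-free nilpotent groups of rank `r` have `hh ≤ r + r ^ 2`

Let `M` be a maximal abelian normal subgroup of `X` (Zorn: the union of a chain of abelian normal subgroups is one; `zorn_le_nonempty₀` or `zorn_le₀`). It is its own centralizer: if `C = centralizer M` is not `≤ M`, `P9700d.MaxAbAux.deep`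
(for the nilpotent group `X`) gives `x ∈ C`, `x ∉ M`, with `⁅x, g⁆ ∈ M` for all `g`; then `M ⊔ zpowers x` is a larger abelian normal subgroup. `M` is abelian, torsion-free, `RK r M`: `exists_rat` gives `V`, `θ` (injective), `Φ`; `finrank ℚ V = hh M ≤ r` (`hh_le_of_comm`).
`X` acts by conjugation: `α x = Φ (MulAut.conjNormal x)`, a homomorphism `X →* Module.End ℚ V` with kernel exactly `M` (if `α x = 1` then `θ (x m x⁻¹) = θ m`, so `x` centralises `M`). Flag: `U i` = span of `θ (m)`, `m ∈ M ⊓ lowerCentralSeries`-like subgroup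
`M_i`, where `M_0 = M`, `M_(i+1) = ⁅M_i, ⊤⁆ ≤ lowerCentralSeries ⊤ (i+1)`; `M_n = ⊥` for large `n`; `α x (θ m) - θ m = θ (⁅x, m⁆)` is in `U (i+1)` for `m ∈ M_i`. `hh_unip` for the (faithful) action of the range of `α` (as a group: `MonoidHom.toHomUnits`) or of `X ⧸ M`: `hh (X ⧸ M) ≤ r^2`. `hh_add`.
-/

set_option autoImplicit false

universe u

namespace P9700e

namespace FactNAux

/-- a maximal abelian normal subgroup of a nilpotent group is its own centralizer -/
theorem exists_max_ab {X : Type*} [Group X] (hnil : Group.IsNilpotent X) :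
    ∃ M : Subgroup X, M.Normal ∧ (∀ x ∈ M, ∀ y ∈ M, x * y = y * x) ∧
      ∀ g : X, (∀ x ∈ M, x * g = g * x) → g ∈ M := by
  classical
  let S : Set (Subgroup X) := {M | M.Normal ∧ ∀ x ∈ M, ∀ y ∈ M, x * y = y * x}
  obtain ⟨M, hMax⟩ : ∃ M, Maximal (· ∈ S) M := by
    refine zorn_le₀ S fun c hc hch => ?_
    rcases c.eq_empty_or_nonempty with rfl | hne
    · exact ⟨⊥, ⟨inferInstance, fun x hx y hy => by
        rw [Subgroup.mem_bot.1 hx, Subgroup.mem_bot.1 hy]⟩, fun z hz => absurd hz (by simp)⟩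
    · have hdir : DirectedOn (· ≤ ·) c := hch.directedOn
      refine ⟨sSup c, ⟨⟨fun x hx g => ?_⟩, fun x hx y hy => ?_⟩, fun z hz => le_sSup hz⟩
      · rw [Subgroup.mem_sSup_of_directedOn hne hdir] at hx ⊢
        obtain ⟨K, hK, hxK⟩ := hx
        exact ⟨K, hK, (hc hK).1.conj_mem x hxK g⟩
      · rw [Subgroup.mem_sSup_of_directedOn hne hdir] at hx hy
        obtain ⟨K, hK, hxK⟩ := hx
        obtain ⟨L, hL, hyL⟩ := hy
        obtain ⟨N, hN, h1, h2⟩ := hdir K hK L hL
        exact (hc hN).2 x (h1 hxK) y (h2 hyL)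
  obtain ⟨⟨hMn, hMc⟩, hmax⟩ := hMax
  refine ⟨M, hMn, hMc, fun g hg => ?_⟩
  by_contra hgM
  obtain ⟨x, hxC, hxM, hx⟩ := P9700d.MaxAbAux.deep hnil M (Subgroup.centralizer (M : Set X))
    ⟨g, Subgroup.mem_centralizer_iff.2 hg, hgM⟩
  rw [Subgroup.mem_centralizer_iff] at hxC
  have hmem : ∀ y, y ∈ M ⊔ Subgroup.zpowers x ↔ ∃ m ∈ M, ∃ k : ℤ, m * x ^ k = y := by
    intro y
    rw [← SetLike.mem_coe, Subgroup.normal_mul, Set.mem_mul]
    constructor
    · rintro ⟨m, hm, z, hz, rfl⟩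
      obtain ⟨k, rfl⟩ := Subgroup.mem_zpowers_iff.1 hz
      exact ⟨m, hm, k, rfl⟩
    · rintro ⟨m, hm, k, rfl⟩
      exact ⟨m, hm, x ^ k, Subgroup.zpow_mem_zpowers x k, rfl⟩
  have hxm : ∀ m ∈ M, ∀ k : ℤ, m * x ^ k = x ^ k * m := fun m hm k =>
    ((show Commute m x from hxC m hm).zpow_right k)
  have hle : M ≤ M ⊔ Subgroup.zpowers x := le_sup_left
  have hxin : x ∈ M ⊔ Subgroup.zpowers x := (hmem x).2 ⟨1, M.one_mem, 1, by simp⟩
  have hnorm : (M ⊔ Subgroup.zpowers x).Normal := by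
    refine ⟨fun y hy g => ?_⟩
    obtain ⟨m, hm, k, rfl⟩ := (hmem y).1 hy
    have h1 : g * x * g⁻¹ ∈ M ⊔ Subgroup.zpowers x := by
      have h2 : x⁻¹ * (x * g * x⁻¹ * g⁻¹)⁻¹ * x ∈ M := by
        have := hMn.conj_mem _ (M.inv_mem (hx g)) x⁻¹
        rwa [inv_inv] at this
      have h3 : g * x * g⁻¹ = x * (x⁻¹ * (x * g * x⁻¹ * g⁻¹)⁻¹ * x) := by group
      rw [h3]
      exact mul_mem hxin (hle h2)
    have h4 : g * (m * x ^ k) * g⁻¹ = (g * m * g⁻¹) * (g * x * g⁻¹) ^ k := by
      rw [conj_zpow]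
      group
    rw [h4]
    exact mul_mem (hle (hMn.conj_mem m hm g)) (zpow_mem h1 k)
  have hcomm : ∀ a ∈ M ⊔ Subgroup.zpowers x, ∀ b ∈ M ⊔ Subgroup.zpowers x, a * b = b * a := by
    intro a ha b hb
    obtain ⟨m, hm, k, rfl⟩ := (hmem a).1 ha
    obtain ⟨n, hn, l, rfl⟩ := (hmem b).1 hb
    have c1 : Commute m n := hMc m hm n hn
    have c2 : Commute m (x ^ l) := hxm m hm l
    have c3 : Commute (x ^ k) n := (hxm n hn k).symm
    have c4 : Commute (x ^ k) (x ^ l) := (Commute.refl x).zpow_zpow k l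
    exact (c1.mul_right c2).mul_left (c3.mul_right c4)
  have := hmax (y := M ⊔ Subgroup.zpowers x) ⟨hnorm, hcomm⟩ hle
  exact hxM (this hxin)

end FactNAux

open FactNAux

open scoped commutatorElement

theorem hh_le_of_nilp {X : Type u} [Group X] {r : ℕ} (h : RK r X) (hn : Group.IsNilpotent X)
    (htf : ∀ x : X, ∀ m : ℕ, 0 < m → x ^ m = 1 → x = 1) :
    hh X ≤ ((r + r ^ 2 : ℕ) : ℕ∞) := by
  classical
  obtain ⟨M, hMn, hMc, hself⟩ := exists_max_ab hn
  let inst : CommGroup M :=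
    { (inferInstance : Group M) with
      mul_comm := fun a b => Subtype.ext (hMc a a.2 b b.2) }
  have hRM : RK r M := RK.subgroup M h
  obtain ⟨V, _, _, _, θ, Φ, hadd, hker, hΦ, hspan, hfin⟩ := exists_rat M hRM.fr
  have hhM : hh M ≤ r := hh_le_of_comm hRM
  have hdim : Module.finrank ℚ V ≤ r := by
    rw [hfin] at hhM
    exact_mod_cast hhM
  have hzero : ∀ x : M, θ x = 0 → x = 1 := by
    intro x hx
    obtain ⟨m, hm, hxm⟩ := (hker x).mp hx
    have h1 : (x : X) ^ m = 1 := by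
      have := congrArg Subtype.val hxm
      simpa using this
    exact Subtype.ext (htf x m hm h1)
  have hone : θ 1 = 0 := (hker 1).mpr ⟨1, one_pos, one_pow 1⟩
  have hinvθ : ∀ x : M, θ x⁻¹ = -θ x := by
    intro x
    have h1 := hadd x x⁻¹
    rw [mul_inv_cancel, hone] at h1
    exact (neg_eq_of_add_eq_zero_right h1.symm).symm
  let α : X →* Module.End ℚ V := Φ.comp MulAut.conjNormal
  have hα : ∀ (x : X) (m : M), α x (θ m) = θ (MulAut.conjNormal x m) := fun x m => hΦ _ m
  let α' : X →* (Module.End ℚ V)ˣ := α.toHomUnits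
  have hkM : α'.ker ≤ M := by
    intro x hx
    have hx1 : α x = 1 := by
      have h1 : α' x = 1 := hx
      have h2 := congrArg Units.val h1
      exact h2
    refine hself x fun m hm => ?_
    have h3 := hα x ⟨m, hm⟩
    rw [hx1] at h3
    have h4 : θ ((MulAut.conjNormal x ⟨m, hm⟩) * (⟨m, hm⟩ : M)⁻¹) = 0 := by
      rw [hadd, hinvθ, ← h3]
      exact add_neg_cancel _
    have h5 := hzero _ h4
    have h6 : (MulAut.conjNormal x ⟨m, hm⟩ : M) = ⟨m, hm⟩ := mul_inv_eq_one.mp h5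
    have h7 := congrArg Subtype.val h6
    rw [MulAut.conjNormal_apply] at h7
    have h8 : x * m * x⁻¹ = m := h7
    rw [mul_inv_eq_iff_eq_mul] at h8
    exact h8.symm
  have hk : hh α'.ker ≤ r := (hh_le_of_le hkM).trans hhM
  let β : α'.range →* Module.End ℚ V := (Units.coeHom _).comp α'.range.subtype
  have hβ : Function.Injective β := by
    intro a b hab
    exact Subtype.ext (Units.ext hab)
  obtain ⟨c, hc⟩ := Subgroup.nilpotent_iff_lowerCentralSeries.1 hn
  let U : ℕ → Submodule ℚ V := fun i =>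
    Submodule.span ℚ (θ '' {m : M | (m : X) ∈ Subgroup.lowerCentralSeries (⊤ : Subgroup X) i})
  have h0 : U 0 = ⊤ := by
    have : {m : M | (m : X) ∈ Subgroup.lowerCentralSeries (⊤ : Subgroup X) 0} = Set.univ := by
      ext m
      simp
    simp only [U]
    rw [this, Set.image_univ]
    exact hspan
  have hcU : U c = ⊥ := by
    simp only [U]
    rw [Submodule.span_eq_bot]
    rintro _ ⟨m, hm, rfl⟩
    have hm : (m : X) ∈ Subgroup.lowerCentralSeries (⊤ : Subgroup X) c := hm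
    rw [hc, Subgroup.mem_bot] at hm
    have : m = 1 := Subtype.ext hm
    rw [this]
    exact hone
  have hUs : ∀ i, ∀ v ∈ U i, ∀ x : X, α x v - v ∈ U (i + 1) := by
    intro i v hv x
    induction hv using Submodule.span_induction with
    | mem v hv =>
      obtain ⟨m, hm, rfl⟩ := hv
      have h1 : α x (θ m) - θ m = θ (MulAut.conjNormal x m * m⁻¹) := by
        rw [hα, hadd, hinvθ, sub_eq_add_neg]
      rw [h1]
      refine Submodule.subset_span ⟨_, ?_, rfl⟩
      change ((MulAut.conjNormal x m * m⁻¹ : M) : X) ∈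
        Subgroup.lowerCentralSeries (⊤ : Subgroup X) (i + 1)
      rw [Subgroup.lowerCentralSeries_succ]
      have h2 : ((MulAut.conjNormal x m * m⁻¹ : M) : X) = (⁅(m : X), x⁆)⁻¹ := by
        rw [Subgroup.coe_mul, MulAut.conjNormal_apply, commutatorElement_def]
        simp only [InvMemClass.coe_inv]
        group
      rw [h2]
      exact Subgroup.inv_mem _ (Subgroup.commutator_mem_commutator hm (Subgroup.mem_top x))
    | zero => simp
    | add u w _ _ hu hw =>
      have : α x (u + w) - (u + w) = (α x u - u) + (α x w - w) := by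
        rw [map_add]
        abel
      rw [this]
      exact Submodule.add_mem _ hu hw
    | smul a u _ hu =>
      have : α x (a • u) - a • u = a • (α x u - u) := by
        rw [map_smul, smul_sub]
      rw [this]
      exact Submodule.smul_mem _ _ hu
  have hr : hh α'.range ≤ ((r ^ 2 : ℕ) : ℕ∞) := by
    refine (hh_unip β hβ c U h0 hcU ?_).trans ?_
    · rintro i v hv ⟨_, x, rfl⟩
      exact hUs i v hv x
    · exact_mod_cast Nat.pow_le_pow_left hdim 2
  calc hh X = hh α'.ker + hh α'.range := hh_ker_range α'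
    _ ≤ (r : ℕ∞) + ((r ^ 2 : ℕ) : ℕ∞) := add_le_add hk hr
    _ = ((r + r ^ 2 : ℕ) : ℕ∞) := by push_cast; rfl

end P9700e
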