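import Mathlib
import Pool.Agent.Lib.P9700e.Defs

/-!
# The lower central series of a finitely generated group

* `comm_closure`: `S` generates `Y`, `N` is the subgroup of `Y` generated by the `Y`-conjugates of the elements of `T ⊆ Y`. Let `P` be the subgroup generated by the `Y`-conjugates of all `⁅t, s⁆`, `t ∈ T`, `s ∈ S`, invariant under `Y`, contained in `Y`. The elements `y ∈ Y` with `⁅t, y⁆ ∈ P` form a
subgroup (`P` is invariant under `Y`), it contains `S`, so it is `Y`: every `t` is central modulo `P`, so conjugates of `t` are `t` modulo `P` and all elements of `N` are central modulo `P`: `⁅N, Y⁆ ≤ P`.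
* `lcs_gen`: induction on `k`: `Y.lowerCentralSeries k` is generated by the `Y`-conjugates of a finite set `T k ⊆ Y.lowerCentralSeries k` (`T 0 = S`, `T (k+1) = {⁅t, s⁆}`).
-/

set_option autoImplicit false

open scoped commutatorElement

namespace P9700e

namespace NClosAux

variable {X : Type*} [Group X]

/-- the subgroup generated by the `Y`-conjugates of `T` is invariant under `Y` -/
theorem conj_inv (Y : Subgroup X) (A : Set X) {y : X} (hy : y ∈ Y) {g : X}
    (hg : g ∈ Subgroup.closure {x | ∃ y ∈ Y, ∃ t ∈ A, x = y * t * y⁻¹}) :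
    y * g * y⁻¹ ∈ Subgroup.closure {x | ∃ y ∈ Y, ∃ t ∈ A, x = y * t * y⁻¹} := by
  induction hg using Subgroup.closure_induction with
  | mem x hx =>
    obtain ⟨z, hz, t, ht, rfl⟩ := hx
    apply Subgroup.subset_closure
    refine ⟨y * z, Y.mul_mem hy hz, t, ht, ?_⟩
    group
  | one => rw [mul_one, mul_inv_cancel]; exact Subgroup.one_mem _
  | mul a b _ _ ha hb =>
    have e : y * (a * b) * y⁻¹ = (y * a * y⁻¹) * (y * b * y⁻¹) := by group
    rw [e]
    exact Subgroup.mul_mem _ ha hb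
  | inv a _ ha =>
    have e : y * a⁻¹ * y⁻¹ = (y * a * y⁻¹)⁻¹ := by group
    rw [e]
    exact Subgroup.inv_mem _ ha

theorem set_eq (Y : Subgroup X) (S T : Set X) :
    {x | ∃ y ∈ Y, ∃ t ∈ T, ∃ s ∈ S, x = y * ⁅t, s⁆ * y⁻¹}
      = {x | ∃ y ∈ Y, ∃ c ∈ {c | ∃ t ∈ T, ∃ s ∈ S, c = ⁅t, s⁆}, x = y * c * y⁻¹} := by
  ext x
  constructor
  · rintro ⟨y, hy, t, ht, s, hs, rfl⟩
    exact ⟨y, hy, ⁅t, s⁆, ⟨t, ht, s, hs, rfl⟩, rfl⟩
  · rintro ⟨y, hy, c, ⟨t, ht, s, hs, rfl⟩, rfl⟩
    exact ⟨y, hy, t, ht, s, hs, rfl⟩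

theorem lcs_mono {Y Z : Subgroup X} (h : Y ≤ Z) (k : ℕ) :
    Y.lowerCentralSeries k ≤ Z.lowerCentralSeries k := by
  induction k with
  | zero => exact h
  | succ k ih => exact Subgroup.commutator_mono ih h

theorem lcs_le (Y : Subgroup X) (k : ℕ) : Y.lowerCentralSeries k ≤ Y :=
  Y.lowerCentralSeries_antitone (Nat.zero_le k)

theorem fg_sup {Y Z : Subgroup X} (hY : Y.FG) (hZ : Z.FG) : (Y ⊔ Z).FG := by
  classical
  obtain ⟨s, hs⟩ := hY
  obtain ⟨t, ht⟩ := hZ
  refine ⟨s ∪ t, ?_⟩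
  rw [Finset.coe_union, Subgroup.closure_union, hs, ht]

theorem local_mem (c : ℕ) : ∀ x ∈ (⊤ : Subgroup X).lowerCentralSeries c,
    ∃ Y : Subgroup X, Y.FG ∧ x ∈ Y.lowerCentralSeries c := by
  induction c with
  | zero =>
    intro x _
    exact ⟨Subgroup.closure {x}, ⟨{x}, by rw [Finset.coe_singleton]⟩,
      Subgroup.subset_closure rfl⟩
  | succ c ih =>
    intro x hx
    rw [Subgroup.mem_lowerCentralSeries_succ_iff] at hx
    induction hx using Subgroup.closure_induction with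
    | mem x hx =>
      obtain ⟨p, hp, q, _, rfl⟩ := hx
      obtain ⟨Y, hY, hpY⟩ := ih p hp
      refine ⟨Y ⊔ Subgroup.closure {q}, fg_sup hY ⟨{q}, by rw [Finset.coe_singleton]⟩, ?_⟩
      rw [Subgroup.lowerCentralSeries_succ]
      apply Subgroup.commutator_mem_commutator
      · exact lcs_mono le_sup_left c hpY
      · exact Subgroup.mem_sup_right (Subgroup.subset_closure rfl)
    | one => exact ⟨⊥, ⟨∅, by rw [Finset.coe_empty, Subgroup.closure_empty]⟩, Subgroup.one_mem _⟩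
    | mul a b _ _ ha hb =>
      obtain ⟨Y, hY, hY'⟩ := ha
      obtain ⟨Z, hZ, hZ'⟩ := hb
      exact ⟨Y ⊔ Z, fg_sup hY hZ, Subgroup.mul_mem _ (lcs_mono le_sup_left _ hY')
        (lcs_mono le_sup_right _ hZ')⟩
    | inv a _ ha =>
      obtain ⟨Y, hY, hY'⟩ := ha
      exact ⟨Y, hY, Subgroup.inv_mem _ hY'⟩

end NClosAux

theorem comm_closure {X : Type*} [Group X] (Y : Subgroup X) (S T : Set X)
    (hS : Subgroup.closure S = Y) (hT : T ⊆ Y) :
    ⁅Subgroup.closure {x | ∃ y ∈ Y, ∃ t ∈ T, x = y * t * y⁻¹}, Y⁆ =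
      Subgroup.closure {x | ∃ y ∈ Y, ∃ t ∈ T, ∃ s ∈ S, x = y * ⁅t, s⁆ * y⁻¹} := by
  have hSY : S ⊆ Y := by
    rw [← hS]
    exact Subgroup.subset_closure
  apply le_antisymm
  · rw [NClosAux.set_eq]
    set A : Set X := {c | ∃ t ∈ T, ∃ s ∈ S, c = ⁅t, s⁆} with hA
    set P := Subgroup.closure {x | ∃ y ∈ Y, ∃ t ∈ A, x = y * t * y⁻¹} with hP
    have hPY : ∀ {y g : X}, y ∈ Y → g ∈ P → y * g * y⁻¹ ∈ P := fun hy hg =>
      NClosAux.conj_inv Y A hy hg
    have hPY' : ∀ {y g : X}, y ∈ Y → g ∈ P → y⁻¹ * g * y ∈ P := by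
      intro y g hy hg
      have h := hPY (Y.inv_mem hy) hg
      rwa [inv_inv] at h
    have claimA : ∀ t ∈ T, ∀ y ∈ Subgroup.closure S, ⁅t, y⁆ ∈ P := by
      intro t ht y hy
      induction hy using Subgroup.closure_induction with
      | mem s hs =>
        apply Subgroup.subset_closure
        exact ⟨1, Y.one_mem, ⁅t, s⁆, ⟨t, ht, s, hs, rfl⟩, by group⟩
      | one => rw [commutatorElement_one_right]; exact P.one_mem
      | mul a b ha hb iha ihb =>
        have e : ⁅t, a * b⁆ = ⁅t, a⁆ * (a * ⁅t, b⁆ * a⁻¹) := by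
          rw [commutatorElement_def, commutatorElement_def, commutatorElement_def]
          group
        rw [e]
        exact P.mul_mem iha (hPY (hS ▸ ha) ihb)
      | inv a ha iha =>
        have e : ⁅t, a⁻¹⁆ = a⁻¹ * ⁅t, a⁆⁻¹ * a := by
          rw [commutatorElement_def, commutatorElement_def]
          group
        rw [e]
        exact hPY' (hS ▸ ha) (P.inv_mem iha)
    rw [hS] at claimA
    rw [Subgroup.commutator_le]
    intro n hn
    have hNY : ∀ {g : X}, g ∈ Subgroup.closure {x | ∃ y ∈ Y, ∃ t ∈ T, x = y * t * y⁻¹} → g ∈ Y := by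
      intro g hg
      refine (Subgroup.closure_le Y).2 ?_ hg
      rintro _ ⟨y, hy, t, ht, rfl⟩
      exact Y.mul_mem (Y.mul_mem hy (hT ht)) (Y.inv_mem hy)
    induction hn using Subgroup.closure_induction with
    | mem x hx =>
      obtain ⟨z, hz, t, ht, rfl⟩ := hx
      intro y hy
      have e : ⁅z * t * z⁻¹, y⁆ = z * ⁅t, z⁻¹ * y * z⁆ * z⁻¹ := by
        rw [commutatorElement_def, commutatorElement_def]
        group
      rw [e]
      exact hPY hz (claimA t ht _ (Y.mul_mem (Y.mul_mem (Y.inv_mem hz) hy) hz))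
    | one =>
      intro y _
      rw [commutatorElement_one_left]
      exact P.one_mem
    | mul a b ha hb iha ihb =>
      intro y hy
      have e : ⁅a * b, y⁆ = a * ⁅b, y⁆ * a⁻¹ * ⁅a, y⁆ := by
        rw [commutatorElement_def, commutatorElement_def, commutatorElement_def]
        group
      rw [e]
      exact P.mul_mem (hPY (hNY ha) (ihb y hy)) (iha y hy)
    | inv a ha iha =>
      intro y hy
      have e : ⁅a⁻¹, y⁆ = a⁻¹ * ⁅a, y⁆⁻¹ * a := by
        rw [commutatorElement_def, commutatorElement_def]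
        group
      rw [e]
      exact hPY' (hNY ha) (P.inv_mem (iha y hy))
  · rw [Subgroup.closure_le]
    rintro _ ⟨y, hy, t, ht, s, hs, rfl⟩
    have e : y * ⁅t, s⁆ * y⁻¹ = ⁅y * t * y⁻¹, y * s * y⁻¹⁆ := by
      rw [commutatorElement_def, commutatorElement_def]
      group
    rw [e]
    apply Subgroup.commutator_mem_commutator
    · exact Subgroup.subset_closure ⟨y, hy, t, ht, rfl⟩
    · exact Y.mul_mem (Y.mul_mem hy (hSY hs)) (Y.inv_mem hy)

theorem lcs_gen {X : Type*} [Group X] (Y : Subgroup X) (hY : Y.FG) (k : ℕ) :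
    ∃ T : Finset X, (T : Set X) ⊆ Y.lowerCentralSeries k ∧
      Y.lowerCentralSeries k = Subgroup.closure {x | ∃ y ∈ Y, ∃ t ∈ T, x = y * t * y⁻¹} := by
  classical
  obtain ⟨S, hS⟩ := hY
  have hSY : (S : Set X) ⊆ Y := by
    rw [← hS]
    exact Subgroup.subset_closure
  induction k with
  | zero =>
    refine ⟨S, hSY, ?_⟩
    rw [Subgroup.lowerCentralSeries_zero]
    apply le_antisymm
    · conv_lhs => rw [← hS]
      rw [Subgroup.closure_le]
      intro s hs
      exact Subgroup.subset_closure ⟨1, Y.one_mem, s, hs, by group⟩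
    · rw [Subgroup.closure_le]
      rintro _ ⟨y, hy, t, ht, rfl⟩
      exact Y.mul_mem (Y.mul_mem hy (hSY ht)) (Y.inv_mem hy)
  | succ k ih =>
    obtain ⟨T, hT, hT'⟩ := ih
    refine ⟨Finset.image₂ (fun t s => ⁅t, s⁆) T S, ?_, ?_⟩
    · intro x hx
      obtain ⟨t, ht, s, hs, rfl⟩ := Finset.mem_image₂.1 hx
      rw [Subgroup.lowerCentralSeries_succ]
      exact Subgroup.commutator_mem_commutator (hT ht) (hSY hs)
    · rw [Subgroup.lowerCentralSeries_succ]
      have h1 := comm_closure Y S T hS (fun t ht => NClosAux.lcs_le Y k (hT ht))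
      have h2 : {x | ∃ y ∈ Y, ∃ t ∈ (T : Set X), x = y * t * y⁻¹}
          = {x | ∃ y ∈ Y, ∃ t ∈ T, x = y * t * y⁻¹} := rfl
      rw [h2, ← hT'] at h1
      rw [h1]
      congr 1
      ext x
      constructor
      · rintro ⟨y, hy, t, ht, s, hs, rfl⟩
        exact ⟨y, hy, ⁅t, s⁆, Finset.mem_image₂.2 ⟨t, ht, s, hs, rfl⟩, rfl⟩
      · rintro ⟨y, hy, c, hc, rfl⟩
        obtain ⟨t, ht, s, hs, rfl⟩ := Finset.mem_image₂.1 hc
        exact ⟨y, hy, t, ht, s, hs, rfl⟩

/-- the vanishing of the lower central series is a local property -/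
theorem lcs_local {X : Type*} [Group X] (c : ℕ)
    (h : ∀ Y : Subgroup X, Y.FG → Y.lowerCentralSeries c = ⊥) :
    (⊤ : Subgroup X).lowerCentralSeries c = ⊥ := by
  rw [eq_bot_iff]
  intro x hx
  obtain ⟨Y, hY, hxY⟩ := NClosAux.local_mem c x hx
  rw [h Y hY] at hxY
  exact hxY

end P9700e
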