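import Mathlib
import Pool.Agent.Lib.P9700e.Defs
import Pool.Agent.Lib.P9700e.HMono
import Pool.Agent.Lib.P9700e.NClos
import Pool.Agent.Lib.P9700e.FactN

/-!
# Valued groups of finite rank are nilpotent

`c = r + r ^ 2`. Claim: `Y.lowerCentralSeries c = ⊥` for every finitely generated `Y ≤ X`. For `l : Λ` the sets `{x : l ≤ v x}` and `{x : l < v x}` (`l ≠ ⊤`) are normal subgroups of `X` (`v 1 = ⊤`, `mul`, `inv`, and `v (g y g⁻¹) = v (⁅g, y⁆ y) ≥ min (v ⁅g, y⁆) (v y) = v y`).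
Suppose `γ_c := Y.lowerCentralSeries c ≠ ⊥`; then `γ_k ≠ ⊥` for all `k ≤ c`. By `lcs_gen`, `γ_k` is generated by the conjugates of a finite set `T k`; `T k` contains an element `≠ 1`; let `μ k = min {v t : t ∈ T k}`, attained at `t k`, `μ k ≠ ⊤`. Then `γ_k ≤ {x : μ k ≤ v x}`, and `γ_(k+1) = ⁅γ_k, Y⁆ ≤ {x : μ k < v x}`
(`comm`), so `μ k < μ (k+1)`. Let `Q` be the quotient of `Y` by `N = {x ∈ Y : μ c < v x}` (normal in `Y`). `Q` is torsion-free (`pow`), nilpotent (`γ_(c+1)` is in `N`), `RK r Q`; so `hh Q ≤ c` by `hh_le_of_nilp`. But `HI ⊤ (c+1)` holds in `Q`: with `P i` = image of `{x ∈ Y : μ (c-i) < v x}` for `i ≤ c` (`P 0` trivial) one has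
`t (c-i) ∉`, no positive power of `t (c-i)` is in `P i` (`pow`), `t (c-i) ∈ P (i+1)` for `i < c`, and for `i = c` the element `t 0` is in `⊤`. Contradiction.
Hence by `lcs_local` `X` is nilpotent; `X` is torsion-free (`pow`, `top_iff`), and `hh_le_of_nilp` gives the bound.
-/

set_option autoImplicit false

universe u v

open scoped commutatorElement

namespace P9700e

namespace LemNAux

variable {X : Type u} [Group X] {Λ : Type v} [LinearOrder Λ] [OrderTop Λ] {v : X → Λ}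

theorem v_one (hv : VL v) : v 1 = ⊤ := (hv.top_iff 1).2 rfl

theorem v_ne {x : X} (hv : VL v) (hx : x ≠ 1) : v x ≠ ⊤ := fun h => hx ((hv.top_iff x).1 h)

theorem conj_ge (hv : VL v) (g y : X) : v y ≤ v (g * y * g⁻¹) := by
  by_cases hy : y = 1
  · subst hy
    simp
  · have h1 : g * y * g⁻¹ = ⁅g, y⁆ * y := by
      rw [commutatorElement_def]
      group
    rw [h1]
    exact le_trans (le_min (hv.comm g y hy).le le_rfl) (hv.mul _ _)

/-- the elements of value at least `l` -/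
def Ge (hv : VL v) (l : Λ) : Subgroup X where
  carrier := {x | l ≤ v x}
  one_mem' := by
    change l ≤ v 1
    rw [v_one hv]
    exact le_top
  mul_mem' := by
    intro a b ha hb
    exact le_trans (le_min ha hb) (hv.mul a b)
  inv_mem' := by
    intro a ha
    change l ≤ v a⁻¹
    rw [hv.inv]
    exact ha

/-- the elements of value greater than `l` -/
def Gt (hv : VL v) (l : Λ) (hl : l < ⊤) : Subgroup X where
  carrier := {x | l < v x}
  one_mem' := by
    change l < v 1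
    rw [v_one hv]
    exact hl
  mul_mem' := by
    intro a b ha hb
    exact lt_of_lt_of_le (lt_min ha hb) (hv.mul a b)
  inv_mem' := by
    intro a ha
    change l < v a⁻¹
    rw [hv.inv]
    exact ha

theorem mem_Gt (hv : VL v) {l : Λ} (hl : l < ⊤) {x : X} : x ∈ Gt hv l hl ↔ l < v x := Iff.rfl

instance Gt_normal (hv : VL v) (l : Λ) (hl : l < ⊤) : (Gt hv l hl).Normal :=
  ⟨fun y hy g => lt_of_lt_of_le hy (conj_ge hv g y)⟩

/-- an element of least value in a term of the lower central series -/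
theorem exists_min (hv : VL v) (Y : Subgroup X) (hY : Y.FG) (k : ℕ)
    (hk : Y.lowerCentralSeries k ≠ ⊥) :
    ∃ t ∈ Y.lowerCentralSeries k, v t < ⊤ ∧ ∀ x ∈ Y.lowerCentralSeries k, v t ≤ v x := by
  obtain ⟨T, hT, hgen⟩ := lcs_gen Y hY k
  have hex : ∃ t ∈ T, t ≠ 1 := by
    by_contra hcon
    push Not at hcon
    apply hk
    rw [hgen, Subgroup.closure_eq_bot_iff]
    rintro x ⟨y, -, t, ht, rfl⟩
    rw [hcon t ht]
    simp
  obtain ⟨t0, ht0, hne⟩ := hex
  obtain ⟨t, ht, hmin⟩ := Finset.exists_min_image T v ⟨t0, ht0⟩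
  refine ⟨t, hT ht, lt_of_le_of_lt (hmin t0 ht0) (lt_top_iff_ne_top.2 (v_ne hv hne)), ?_⟩
  intro x hx
  have hle : Y.lowerCentralSeries k ≤ Ge hv (v t) := by
    rw [hgen, Subgroup.closure_le]
    rintro z ⟨y, -, s, hs, rfl⟩
    exact le_trans (hmin s hs) (conj_ge hv y s)
  exact hle hx

/-- values increase along the lower central series -/
theorem succ_lt (hv : VL v) (Y : Subgroup X) (k : ℕ) (l : Λ) (hl : l < ⊤)
    (h : ∀ x ∈ Y.lowerCentralSeries k, l ≤ v x) :
    Y.lowerCentralSeries (k + 1) ≤ Gt hv l hl := by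
  rw [Subgroup.lowerCentralSeries_succ, Subgroup.commutator_le]
  intro p hp q _
  by_cases hp1 : p = 1
  · subst hp1
    rw [commutatorElement_one_left]
    exact Subgroup.one_mem _
  · rw [mem_Gt]
    have h1 : ⁅p, q⁆ = ⁅q, p⁆⁻¹ := (commutatorElement_inv q p).symm
    rw [h1, hv.inv]
    exact lt_of_le_of_lt (h p hp) (hv.comm q p hp1)

variable (Y : Subgroup X)

/-- the image of the elements of value greater than `l` in the quotient by those of value greater
than `m` -/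
def PQ (hv : VL v) (m : Λ) (hm : m < ⊤) (l : Λ) (hl : l < ⊤) :
    Subgroup (Y ⧸ (Gt hv m hm).subgroupOf Y) :=
  ((Gt hv l hl).subgroupOf Y).map (QuotientGroup.mk' ((Gt hv m hm).subgroupOf Y))

theorem PQ_mono (hv : VL v) (m : Λ) (hm : m < ⊤) {l l' : Λ} (hl : l < ⊤) (hl' : l' < ⊤)
    (h : l' ≤ l) : PQ Y hv m hm l hl ≤ PQ Y hv m hm l' hl' := by
  apply Subgroup.map_mono
  intro y hy
  rw [Subgroup.mem_subgroupOf, mem_Gt] at hy ⊢
  exact lt_of_le_of_lt h hy

theorem PQ_normal (hv : VL v) (m : Λ) (hm : m < ⊤) (l : Λ) (hl : l < ⊤) :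
    (PQ Y hv m hm l hl).Normal :=
  Subgroup.Normal.map inferInstance _ (QuotientGroup.mk'_surjective _)

theorem pow_notMem (hv : VL v) (m : Λ) (hm : m < ⊤) (t : Y) (hl : v t < ⊤) (hlm : v t ≤ m)
    (n : ℕ) (hn : 0 < n) :
    (QuotientGroup.mk' ((Gt hv m hm).subgroupOf Y) t) ^ n ∉ PQ Y hv m hm (v t) hl := by
  rintro ⟨y, hy, he⟩
  rw [← map_pow] at he
  have h1 : y⁻¹ * t ^ n ∈ (Gt hv m hm).subgroupOf Y := by
    rw [← QuotientGroup.eq]
    exact he
  rw [Subgroup.mem_subgroupOf, mem_Gt] at h1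
  have hy' : v t < v (y : X) := hy
  have h2 : (t : X) ^ n = (y : X) * ((y⁻¹ * t ^ n : Y) : X) := by
    push_cast
    group
  have h3 : v t < v ((t : X) ^ n) := by
    rw [h2]
    exact lt_of_lt_of_le (lt_min hy' (lt_of_le_of_lt hlm h1)) (hv.mul _ _)
  rw [hv.pow _ _ hn] at h3
  exact lt_irrefl _ h3

theorem step (hv : VL v) (m : Λ) (hm : m < ⊤) (t : Y) (hl : v t < ⊤) (hlm : v t ≤ m) {n : ℕ}
    {L : Subgroup (Y ⧸ (Gt hv m hm).subgroupOf Y)}
    (h : HI (PQ Y hv m hm (v t) hl) n) (hKL : PQ Y hv m hm (v t) hl ≤ L)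
    (hx : QuotientGroup.mk' ((Gt hv m hm).subgroupOf Y) t ∈ L) : HI L (n + 1) := by
  refine HI.succ h hKL hx (fun k hk => ?_) (fun i hi => pow_notMem Y hv m hm t hl hlm i hi)
  have := PQ_normal Y hv m hm (v t) hl
  refine ⟨this.conj_mem k hk _, ?_⟩
  have h2 := this.conj_mem k hk (QuotientGroup.mk' ((Gt hv m hm).subgroupOf Y) t)⁻¹
  rwa [inv_inv] at h2

/-- the main claim -/
theorem lcs_bot {r : ℕ} (h : RK r X) (hv : VL v) (hY : Y.FG) :
    Y.lowerCentralSeries (r + r ^ 2) = ⊥ := by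
  by_contra hne
  set c := r + r ^ 2 with hc
  have hne' : ∀ k, k ≤ c → Y.lowerCentralSeries k ≠ ⊥ := by
    intro k hk h0
    apply hne
    rw [eq_bot_iff, ← h0]
    exact Y.lowerCentralSeries_antitone hk
  have hmin : ∀ k, ∃ t : Y, k ≤ c → ((t : X) ∈ Y.lowerCentralSeries k ∧ v t < ⊤ ∧
      ∀ x ∈ Y.lowerCentralSeries k, v t ≤ v x) := by
    intro k
    by_cases hk : k ≤ c
    · obtain ⟨t, h1, h2, h3⟩ := exists_min hv Y hY k (hne' k hk)
      exact ⟨⟨t, NClosAux.lcs_le Y k h1⟩, fun _ => ⟨h1, h2, h3⟩⟩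
    · exact ⟨1, fun hk' => absurd hk' hk⟩
  choose t ht using hmin
  have hlt : ∀ k, k + 1 ≤ c → v (t k) < v (t (k + 1)) := by
    intro k hk
    have h1 := ht k (by omega)
    exact succ_lt hv Y k (v (t k)) h1.2.1 h1.2.2 (ht (k + 1) hk).1
  have hle : ∀ k, k ≤ c → v (t k) ≤ v (t c) := fun k hk =>
    (ht k hk).2.2 _ (Y.lowerCentralSeries_antitone hk (ht c le_rfl).1)
  have hm : v (t c) < ⊤ := (ht c le_rfl).2.1
  have key : ∀ i, ∀ hi : i ≤ c, HI (PQ Y hv (v (t c)) hm (v (t (c - i)))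
      (ht (c - i) (by omega)).2.1) i := by
    intro i
    induction i with
    | zero =>
      intro _
      exact HI.zero _
    | succ i ih =>
      intro hi
      have hlt1 : v (t (c - (i + 1))) < v (t (c - i)) := by
        have h1 := hlt (c - (i + 1)) (by omega)
        have h2 : c - (i + 1) + 1 = c - i := by omega
        rwa [h2] at h1
      refine step Y hv (v (t c)) hm (t (c - i)) (ht (c - i) (by omega)).2.1
        (hle (c - i) (by omega)) (ih (by omega)) (PQ_mono Y hv _ hm _ _ hlt1.le) ?_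
      exact Subgroup.mem_map_of_mem _ hlt1
  have hfin : HI (⊤ : Subgroup (Y ⧸ (Gt hv (v (t c)) hm).subgroupOf Y)) (c + 1) := by
    have h1 := key c le_rfl
    have h2 : c - c = 0 := by omega
    refine step Y hv (v (t c)) hm (t (c - c)) (ht (c - c) (by omega)).2.1
      (hle (c - c) (by omega)) h1 le_top (Subgroup.mem_top _)
  have hR : RK r (Y ⧸ (Gt hv (v (t c)) hm).subgroupOf Y) :=
    RK.of_surjective (QuotientGroup.mk' _) (QuotientGroup.mk'_surjective _) (RK.subgroup Y h)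
  have hnil : Group.IsNilpotent (Y ⧸ (Gt hv (v (t c)) hm).subgroupOf Y) := by
    rw [Subgroup.nilpotent_iff_lowerCentralSeries]
    refine ⟨c + 1, ?_⟩
    have h1 : (⊤ : Subgroup (Y ⧸ (Gt hv (v (t c)) hm).subgroupOf Y)) =
        (⊤ : Subgroup Y).map (QuotientGroup.mk' ((Gt hv (v (t c)) hm).subgroupOf Y)) :=
      (Subgroup.map_top_of_surjective _ (QuotientGroup.mk'_surjective _)).symm
    rw [h1, ← Subgroup.map_lowerCentralSeries, Subgroup.map_eq_bot_iff, QuotientGroup.ker_mk']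
    intro y hy
    have h2 : (y : X) ∈ Y.lowerCentralSeries (c + 1) := by
      rw [← Subgroup.top_subtype_lowerCentralSeries]
      exact Subgroup.mem_map_of_mem Y.subtype hy
    exact succ_lt hv Y c (v (t c)) hm (ht c le_rfl).2.2 h2
  have htf : ∀ x : Y ⧸ (Gt hv (v (t c)) hm).subgroupOf Y, ∀ n : ℕ, 0 < n → x ^ n = 1 → x = 1 := by
    intro x n hn hx
    obtain ⟨y, rfl⟩ := QuotientGroup.mk'_surjective _ x
    rw [← map_pow] at hx
    have h1 : y ^ n ∈ (Gt hv (v (t c)) hm).subgroupOf Y :=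
      (QuotientGroup.eq_one_iff _).1 hx
    rw [Subgroup.mem_subgroupOf, mem_Gt] at h1
    push_cast at h1
    rw [hv.pow _ _ hn] at h1
    exact (QuotientGroup.eq_one_iff y).2 h1
  have hbd := hh_le_of_nilp hR hnil htf
  have h3 : ((c + 1 : ℕ) : ℕ∞) ≤ ((r + r ^ 2 : ℕ) : ℕ∞) := (le_hh hfin).trans hbd
  have h4 : c + 1 ≤ r + r ^ 2 := by exact_mod_cast h3
  omega

end LemNAux

theorem lemN {X : Type u} [Group X] {r : ℕ} (h : RK r X) {Λ : Type v} [LinearOrder Λ] [OrderTop Λ]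
    (v : X → Λ) (hv : VL v) : Group.IsNilpotent X ∧ hh X ≤ ((r + r ^ 2 : ℕ) : ℕ∞) := by
  have hbot : (⊤ : Subgroup X).lowerCentralSeries (r + r ^ 2) = ⊥ :=
    lcs_local (r + r ^ 2) (fun Y hY => LemNAux.lcs_bot Y h hv hY)
  have hnil : Group.IsNilpotent X := Subgroup.nilpotent_iff_lowerCentralSeries.2 ⟨_, hbot⟩
  refine ⟨hnil, hh_le_of_nilp h hnil ?_⟩
  intro x m hm hx
  have h1 : v x = ⊤ := by
    rw [← hv.pow x m hm, hx]
    exact LemNAux.v_one hv
  exact (hv.top_iff x).1 h1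

end P9700e
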