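import Mathlib
import Pool.Agent.Lib.P9700e.Defs
import Pool.Agent.Lib.P9700e.HMono
import Pool.Agent.Lib.P9700e.HFin
import Pool.Agent.Lib.P9700e.FactN
import Pool.Agent.Lib.P9700e.HSol

/-!
# Uniform bound for torsion-free nilpotent normal subgroups of a product

`hh_le_ext`: `hh A = hh ((K.subgroupOf A)) + hh (A ⧸ K.subgroupOf A)`; the first is `hh (A ⊓ K)` (isomorphic), the second embeds into `G ⧸ K`.
`hh_nilp_normal`: `K` is soluble (nilpotent), so `derivedSeries K s = ⊥` for some `s`; `hh K ≤ hh (HP A B K) ≤ hh A + hh B` (`hh_le_HP`, `hh_HP_le`). `A ⊓ K` is torsion-free, nilpotent, `RK r`, so `hh (A ⊓ K) ≤ r + r ^ 2` (`hh_le_of_nilp`) and `hh A ≤ r + r ^ 2 + c0`. Same for `B`.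
-/

set_option autoImplicit false

universe u

namespace P9700e

open P9700a

theorem hh_le_ext {G : Type*} [Group G] (A K : Subgroup G) [K.Normal] :
    hh A ≤ hh (A ⊓ K : Subgroup G) + hh (G ⧸ K) := by
  have h1 := hh_ker_range ((QuotientGroup.mk' K).comp A.subtype)
  rw [h1]
  refine add_le_add ?_ ?_
  · let f : ((QuotientGroup.mk' K).comp A.subtype).ker →* (A ⊓ K : Subgroup G) :=
      { toFun := fun x => ⟨((x : A) : G), ⟨(x : A).2, by
          have h2 := x.2
          rw [MonoidHom.mem_ker] at h2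
          exact (QuotientGroup.eq_one_iff _).1 h2⟩⟩
        map_one' := rfl
        map_mul' := fun _ _ => rfl }
    refine hh_le_of_injective f ?_
    intro x y hxy
    have h3 : (((x : A) : G)) = ((y : A) : G) :=
      congrArg (fun z : (A ⊓ K : Subgroup G) => (z : G)) hxy
    exact Subtype.ext (Subtype.ext h3)
  · exact hh_le_of_injective _ (Subgroup.subtype_injective _)

theorem hh_nilp_normal {G : Type u} [Group G] (A B K : Subgroup G) [K.Normal] {r : ℕ}
    (hA : RK r A) (hB : RK r B) (hAB : ∀ g : G, ∃ a ∈ A, ∃ b ∈ B, g = a * b) (hK : FR K)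
    (hn : Group.IsNilpotent K) (htf : ∀ x ∈ K, ∀ m : ℕ, 0 < m → x ^ m = 1 → x = 1) (c0 : ℕ)
    (hc0 : hh (G ⧸ K) ≤ c0) : hh K ≤ ((2 * (r + r ^ 2 + c0) : ℕ) : ℕ∞) := by
  have hsol : Group.IsSolvable K := inferInstance
  obtain ⟨s, hs⟩ := hsol.solvable
  have key : ∀ X : Subgroup G, RK r X → hh X ≤ ((r + r ^ 2 + c0 : ℕ) : ℕ∞) := by
    intro X hX
    have h1 : hh (X ⊓ K : Subgroup G) ≤ ((r + r ^ 2 : ℕ) : ℕ∞) := by
      have hn' : Group.IsNilpotent (X ⊓ K : Subgroup G) :=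
        (Group.isNilpotent_congr (Subgroup.subgroupOfEquivOfLe
          (inf_le_right : X ⊓ K ≤ K))).1 inferInstance
      refine hh_le_of_nilp (RK.of_le inf_le_left hX) hn' ?_
      intro x m hm hx
      have h2 : ((x : G)) ^ m = 1 := by
        have := congrArg Subtype.val hx
        simpa using this
      exact Subtype.ext (htf x x.2.2 m hm h2)
    refine (hh_le_ext X K).trans ?_
    rw [Nat.cast_add (r + r ^ 2) c0]
    exact add_le_add h1 hc0
  calc hh K ≤ hh (HP A B K) := hh_le_HP A B K hA.fr hB.fr hAB hK s hs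
    _ ≤ hh A + hh B := hh_HP_le A B K
    _ ≤ ((r + r ^ 2 + c0 : ℕ) : ℕ∞) + ((r + r ^ 2 + c0 : ℕ) : ℕ∞) :=
        add_le_add (key A hA) (key B hB)
    _ = ((2 * (r + r ^ 2 + c0) : ℕ) : ℕ∞) := by
        rw [← Nat.cast_add, two_mul]

end P9700e
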