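import Mathlib
import Pool.Agent.Lib.P9700e.Defs
import Pool.Agent.Lib.P9700e.Defs3
import Pool.Agent.Lib.P9700e.HMono
import Pool.Agent.Lib.P9700e.HTor
import Pool.Agent.Lib.P9700e.HFin
import Pool.Agent.Lib.P9700e.LemN
import Pool.Agent.Lib.P9700e.HSol
import Pool.Agent.Lib.P9700e.NilB

/-!
# A valued normal subgroup of a product of two groups of finite rank

For `l : Λ`, `l ≠ ⊤`: `R_l = {x ∈ K : l ≤ v x}`, `R'_l = {x ∈ K : l < v x}` are normal subgroups of `G` (`v 1 = ⊤` as `1 ∈ ⊥`; `mul`, `inv`, `conj`), `⁅K, R_l⁆ ≤ R'_l` (`comm`; an element `y = 1` is trivial).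
(1) `hh (A ⊓ K) ≤ r + r ^ 2` by `lemN` (`v` restricted to `A ⊓ K` is `VL`), so `hh A ≤ r + r ^ 2 + c0` (`hh_le_ext`), same for `B`, so `hh (HP A B K) ≤ C := 2 (r + r ^ 2 + c0)` (`hh_HP_le`).
(2) If `l = v x` for some `x ∈ K`, `x ≠ 1`, then `1 ≤ hh (R_l / R'_l)` (`one_le_hh` for the class of `x`: no positive power of `x` is in `R'_l`, by `pow`), and `step` gives `1 + hh (HP A B R'_l) ≤ hh (HP A B R_l)` (`FR` of the factor is `hFR`).
(3) So if `l_1 < ... < l_n` are values (`≠ ⊤`) then `n ≤ hh (HP A B K) ≤ C` (downward induction: `R_(l_(i+1)) ≤ R'_(l_i)`, `HP_mono`, `hh_le_of_le`): the set `Val` of the values `v x`, `x ∈ K`, `x ≠ 1`, is finite (every finite subset has at most `C` elements; sort it).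
(4) For `l ∈ Val`: `R'_l = R_(l')` with `l'` the next value, or `R'_l = ⊥` if `l` is the largest value; `K = R_(min)` or `K = ⊥`. By induction on the number of values `≥ l`: `FR (R_l)` (from `FR (R'_l)` and `FR (R_l / R'_l)` by `FR.of_ker_range` for `QuotientGroup.mk'`), so `FR K`.
(5) `K` is nilpotent: the chain `K = R_(l_1) ≥ R_(l_2) ≥ ... ≥ R_(l_n) ≥ ⊥` is a descending central series (`⁅R_l, K⁆ ≤ R'_l`): `K.lowerCentralSeries n = ⊥` with `n` the number of values; e.g. prove `K.lowerCentralSeries i ≤ {x ∈ K : x = 1 or there are at least i values < v x}` by induction on `i`.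
-/

set_option autoImplicit false

universe u v

namespace P9700e

open P9700a

open scoped commutatorElement

namespace AbsVAux

variable {G : Type u} [Group G] {K : Subgroup G} {Λ : Type v} [LinearOrder Λ] [OrderTop Λ]
  {v : G → Λ}

theorem v_one (hv : WV K ⊥ v) : v 1 = ⊤ :=
  (hv.top_iff 1 K.one_mem).2 (Subgroup.mem_bot.2 rfl)

theorem v_ne (hv : WV K ⊥ v) {x : G} (hx : x ∈ K) (h : x ≠ 1) : v x ≠ ⊤ := fun h' =>
  h (Subgroup.mem_bot.1 ((hv.top_iff x hx).1 h'))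

/-- the elements of value at least `l` -/
def Rg (hv : WV K ⊥ v) (l : Λ) : Subgroup G where
  carrier := {x | x ∈ K ∧ l ≤ v x}
  one_mem' := ⟨K.one_mem, by rw [v_one hv]; exact le_top⟩
  mul_mem' := by
    rintro x y ⟨hx, hx'⟩ ⟨hy, hy'⟩
    exact ⟨K.mul_mem hx hy, (le_min hx' hy').trans (hv.mul x hx y hy)⟩
  inv_mem' := by
    rintro x ⟨hx, hx'⟩
    exact ⟨K.inv_mem hx, by rw [hv.inv x hx]; exact hx'⟩

theorem mem_Rg (hv : WV K ⊥ v) {l : Λ} {x : G} : x ∈ Rg hv l ↔ x ∈ K ∧ l ≤ v x := Iff.rfl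

/-- the elements of value greater than `l` -/
def Rh (hv : WV K ⊥ v) (l : Λ) (hl : l ≠ ⊤) : Subgroup G where
  carrier := {x | x ∈ K ∧ l < v x}
  one_mem' := ⟨K.one_mem, by rw [v_one hv]; exact lt_top_iff_ne_top.2 hl⟩
  mul_mem' := by
    rintro x y ⟨hx, hx'⟩ ⟨hy, hy'⟩
    exact ⟨K.mul_mem hx hy, (lt_min hx' hy').trans_le (hv.mul x hx y hy)⟩
  inv_mem' := by
    rintro x ⟨hx, hx'⟩
    exact ⟨K.inv_mem hx, by rw [hv.inv x hx]; exact hx'⟩

theorem mem_Rh (hv : WV K ⊥ v) {l : Λ} (hl : l ≠ ⊤) {x : G} :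
    x ∈ Rh hv l hl ↔ x ∈ K ∧ l < v x := Iff.rfl

theorem Rg_normal [hK : K.Normal] (hv : WV K ⊥ v) (l : Λ) : (Rg hv l).Normal := by
  refine ⟨fun x hx g => ⟨hK.conj_mem x hx.1 g, ?_⟩⟩
  rw [hv.conj g x hx.1]
  exact hx.2

theorem Rh_normal [hK : K.Normal] (hv : WV K ⊥ v) (l : Λ) (hl : l ≠ ⊤) :
    (Rh hv l hl).Normal := by
  refine ⟨fun x hx g => ⟨hK.conj_mem x hx.1 g, ?_⟩⟩
  rw [hv.conj g x hx.1]
  exact hx.2

theorem Rh_le (hv : WV K ⊥ v) (l : Λ) (hl : l ≠ ⊤) : Rh hv l hl ≤ Rg hv l := fun _ h =>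
  ⟨h.1, h.2.le⟩

theorem Rg_le_Rh (hv : WV K ⊥ v) {l m : Λ} (hl : l ≠ ⊤) (h : l < m) :
    Rg hv m ≤ Rh hv l hl := fun _ hx => ⟨hx.1, h.trans_le hx.2⟩

theorem comm_le (hv : WV K ⊥ v) (l : Λ) (hl : l ≠ ⊤) : ⁅Rg hv l, K⁆ ≤ Rh hv l hl := by
  rw [Subgroup.commutator_le]
  intro a ha k hk
  by_cases h1 : a = 1
  · subst h1
    rw [commutatorElement_one_left]
    exact Subgroup.one_mem _
  · have h2 : ⁅a, k⁆ = ⁅k, a⁆⁻¹ := (commutatorElement_inv k a).symm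
    rw [h2]
    refine Subgroup.inv_mem _ ⟨?_, ?_⟩
    · rw [commutatorElement_def]
      exact K.mul_mem (K.mul_mem (K.mul_mem hk ha.1) (K.inv_mem hk)) (K.inv_mem ha.1)
    · exact ha.2.trans_lt (hv.comm k hk a ha.1 fun h => h1 (Subgroup.mem_bot.1 h))

theorem comm_le' (hv : WV K ⊥ v) (l : Λ) (hl : l ≠ ⊤) : ⁅Rg hv l, Rg hv l⁆ ≤ Rh hv l hl :=
  (Subgroup.commutator_mono le_rfl (fun _ h => h.1 : Rg hv l ≤ K)).trans (comm_le hv l hl)

/-- central chains -/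
inductive Cc (K : Subgroup G) : Subgroup G → Prop
  | bot : Cc K ⊥
  | step (M M' : Subgroup G) (h : ⁅M, K⁆ ≤ M') (h' : Cc K M') : Cc K M

theorem Cc.lcs {K M : Subgroup G} (h : Cc K M) :
    ∃ k, ∀ n, K.lowerCentralSeries n ≤ M → K.lowerCentralSeries (n + k) = ⊥ := by
  induction h with
  | bot => exact ⟨0, fun n hn => le_bot_iff.1 hn⟩
  | step M M' h _ ih =>
    obtain ⟨k, hk⟩ := ih
    refine ⟨k + 1, fun n hn => ?_⟩
    have h1 : K.lowerCentralSeries (n + 1) ≤ M' := by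
      rw [Subgroup.lowerCentralSeries_succ]
      exact (Subgroup.commutator_mono hn le_rfl).trans h
    have h2 := hk (n + 1) h1
    rwa [show n + (k + 1) = n + 1 + k by omega]

theorem one_le (hv : WV K ⊥ v) [K.Normal] {x : G} (hx : x ∈ K) (hx1 : x ≠ 1)
    (_ : (Rh hv (v x) (v_ne hv hx hx1)).Normal) :
    1 ≤ hh (Rg hv (v x) ⧸ (Rh hv (v x) (v_ne hv hx hx1)).subgroupOf (Rg hv (v x))) := by
  refine one_le_hh (QuotientGroup.mk (⟨x, hx, le_rfl⟩ : Rg hv (v x))) fun m hm h => ?_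
  rw [← QuotientGroup.mk_pow, QuotientGroup.eq_one_iff, Subgroup.mem_subgroupOf] at h
  have h2 : v x < v (x ^ m) := h.2
  rw [hv.pow x hx m hm] at h2
  exact lt_irrefl _ h2

/-- the step -/
theorem one_add_le (A B : Subgroup G) [K.Normal] (hA : FR A) (hB : FR B)
    (hAB : ∀ g : G, ∃ a ∈ A, ∃ b ∈ B, g = a * b) (hv : WV K ⊥ v)
    (hFR : ∀ l : Λ, l ≠ ⊤ → ∀ (R R' : Subgroup G) (_ : R.Normal) (_ : R'.Normal),
      (∀ x, x ∈ R ↔ x ∈ K ∧ l ≤ v x) → (∀ x, x ∈ R' ↔ x ∈ K ∧ l < v x) →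
      FR (R ⧸ R'.subgroupOf R)) {x : G} (hx : x ∈ K) (hx1 : x ≠ 1)
    (_ : (Rg hv (v x)).Normal) (_ : (Rh hv (v x) (v_ne hv hx hx1)).Normal) :
    1 + hh (HP A B (Rh hv (v x) (v_ne hv hx hx1))) ≤ hh (HP A B (Rg hv (v x))) := by
  refine le_trans (add_le_add (one_le hv hx hx1 inferInstance) le_rfl) ?_
  exact step A B (Rg hv (v x)) (Rh hv (v x) (v_ne hv hx hx1)) hA hB hAB
    (Rh_le hv _ _) (comm_le' hv _ _)
    (hFR (v x) (v_ne hv hx hx1) _ _ inferInstance inferInstance (fun _ => Iff.rfl)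
      fun _ => Iff.rfl)

theorem card_le (A B : Subgroup G) [K.Normal] (hA : FR A) (hB : FR B)
    (hAB : ∀ g : G, ∃ a ∈ A, ∃ b ∈ B, g = a * b) (hv : WV K ⊥ v)
    (hFR : ∀ l : Λ, l ≠ ⊤ → ∀ (R R' : Subgroup G) (_ : R.Normal) (_ : R'.Normal),
      (∀ x, x ∈ R ↔ x ∈ K ∧ l ≤ v x) → (∀ x, x ∈ R' ↔ x ∈ K ∧ l < v x) →
      FR (R ⧸ R'.subgroupOf R)) (n : ℕ) :
    ∀ s : Finset Λ, s.card = n → (∀ l ∈ s, ∃ x ∈ K, x ≠ 1 ∧ v x = l) →
      ∀ (M : Subgroup G) (_ : M.Normal), (∀ l ∈ s, Rg hv l ≤ M) →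
        (n : ℕ∞) ≤ hh (HP A B M) := by
  classical
  induction n with
  | zero => intro s _ _ M _ _; simp
  | succ n ih =>
    intro s hs hval M hM hle
    have hne : s.Nonempty := by
      rw [← Finset.card_pos, hs]
      exact Nat.succ_pos n
    obtain ⟨x, hx, hx1, hm⟩ := hval _ (s.min'_mem hne)
    have hn1 : (Rg hv (v x)).Normal := Rg_normal hv _
    have hn2 : (Rh hv (v x) (v_ne hv hx hx1)).Normal := Rh_normal hv _ _
    have h1 := ih (s.erase (s.min' hne)) (by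
      rw [Finset.card_erase_of_mem (s.min'_mem hne), hs]
      rfl) (fun l hl => hval l (Finset.mem_of_mem_erase hl))
      (Rh hv (v x) (v_ne hv hx hx1)) hn2 (fun l hl => by
        refine Rg_le_Rh hv _ ?_
        rw [hm]
        exact s.min'_lt_of_mem_erase_min' hne hl)
    have h2 := one_add_le A B hA hB hAB hv hFR hx hx1 hn1 hn2
    have h3 : HP A B (Rg hv (v x)) ≤ HP A B M := by
      refine HP_mono ?_
      have := hle _ (s.min'_mem hne)
      rwa [← hm] at this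
    have h4 := hh_le_of_le h3
    calc ((n + 1 : ℕ) : ℕ∞) = 1 + (n : ℕ∞) := by rw [Nat.cast_add, Nat.cast_one, add_comm]
      _ ≤ 1 + hh (HP A B (Rh hv (v x) (v_ne hv hx hx1))) := add_le_add le_rfl h1
      _ ≤ hh (HP A B (Rg hv (v x))) := h2
      _ ≤ hh (HP A B M) := h4

theorem main (hv : WV K ⊥ v) [K.Normal]
    (hFR : ∀ l : Λ, l ≠ ⊤ → ∀ (R R' : Subgroup G) (_ : R.Normal) (_ : R'.Normal),
      (∀ x, x ∈ R ↔ x ∈ K ∧ l ≤ v x) → (∀ x, x ∈ R' ↔ x ∈ K ∧ l < v x) →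
      FR (R ⧸ R'.subgroupOf R)) (n : ℕ) :
    ∀ s : Finset Λ, s.card ≤ n → ∀ M : Subgroup G, M ≤ K →
      (∀ x ∈ M, ∀ y ∈ K, v x ≤ v y → y ∈ M) → (∀ x ∈ M, x ≠ 1 → v x ∈ s) →
      FR M ∧ Cc K M := by
  classical
  have hbot : ∀ M : Subgroup G, (∀ x ∈ M, x = 1) → FR M ∧ Cc K M := by
    intro M hM
    have h1 : M = ⊥ := (Subgroup.eq_bot_iff_forall M).2 hM
    subst h1
    exact ⟨FR.of_finite, Cc.bot⟩
  induction n with
  | zero =>
    intro s hs M _ _ hMs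
    refine hbot M fun x hx => ?_
    by_contra hx1
    have h1 := hMs x hx hx1
    rw [Finset.card_eq_zero.1 (Nat.le_zero.1 hs)] at h1
    exact absurd h1 (Finset.notMem_empty _)
  | succ n ih =>
    intro s hs M hMK hsat hMs
    by_cases hM : ∀ x ∈ M, x = 1
    · exact hbot M hM
    · push Not at hM
      obtain ⟨x1, hx1, hx11⟩ := hM
      have hne : (s.filter fun l => ∃ x ∈ M, x ≠ 1 ∧ v x = l).Nonempty :=
        ⟨v x1, Finset.mem_filter.2 ⟨hMs x1 hx1 hx11, x1, hx1, hx11, rfl⟩⟩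
      obtain ⟨m, hm, hmin⟩ : ∃ m ∈ s.filter (fun l => ∃ x ∈ M, x ≠ 1 ∧ v x = l),
          ∀ l ∈ s.filter (fun l => ∃ x ∈ M, x ≠ 1 ∧ v x = l), m ≤ l :=
        ⟨_, Finset.min'_mem _ hne, fun l hl => Finset.min'_le _ l hl⟩
      obtain ⟨hms, x, hx, hx1', rfl⟩ := Finset.mem_filter.1 hm
      have hl : v x ≠ ⊤ := v_ne hv (hMK hx) hx1'
      have hMR : M = Rg hv (v x) := by
        ext y
        constructor
        · intro hy
          refine ⟨hMK hy, ?_⟩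
          by_cases hy1 : y = 1
          · rw [hy1, v_one hv]
            exact le_top
          · exact hmin _ (Finset.mem_filter.2 ⟨hMs y hy hy1, y, hy, hy1, rfl⟩)
        · rintro ⟨hy, hy'⟩
          exact hsat x hx y hy hy'
      have hn1 : (Rg hv (v x)).Normal := Rg_normal hv _
      have hn2 : (Rh hv (v x) hl).Normal := Rh_normal hv _ _
      obtain ⟨h1, h2⟩ := ih (s.erase (v x)) (by
          rw [Finset.card_erase_of_mem hms]
          omega) (Rh hv (v x) hl) (fun y hy => hy.1)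
        (fun y hy z hz hyz => ⟨hz, hy.2.trans_le hyz⟩) (fun y hy hy1 => by
          refine Finset.mem_erase.2 ⟨ne_of_gt hy.2, hMs y ?_ hy1⟩
          exact hsat x hx y hy.1 hy.2.le)
      subst hMR
      refine ⟨?_, Cc.step _ _ (comm_le hv _ hl) h2⟩
      refine FR.of_ker_range (QuotientGroup.mk' ((Rh hv (v x) hl).subgroupOf (Rg hv (v x)))) ?_ ?_
      · rw [QuotientGroup.ker_mk']
        exact FR.of_injective (Subgroup.subgroupOfEquivOfLe (Rh_le hv _ hl)).toMonoidHom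
          (MulEquiv.injective _) h1
      · exact FR.subgroup _ (hFR (v x) hl _ _ hn1 hn2 (fun _ => Iff.rfl) fun _ => Iff.rfl)

end AbsVAux

open AbsVAux in
theorem absV0 {G : Type u} [Group G] (A B K : Subgroup G) [K.Normal] {r : ℕ} (hA : RK r A)
    (hB : RK r B) (hAB : ∀ g : G, ∃ a ∈ A, ∃ b ∈ B, g = a * b) {Λ : Type v} [LinearOrder Λ]
    [OrderTop Λ] (v : G → Λ) (hv : WV K ⊥ v) (c0 : ℕ) (hc0 : hh (G ⧸ K) ≤ c0)
    (hFR : ∀ l : Λ, l ≠ ⊤ → ∀ (R R' : Subgroup G) (_ : R.Normal) (_ : R'.Normal),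
      (∀ x, x ∈ R ↔ x ∈ K ∧ l ≤ v x) → (∀ x, x ∈ R' ↔ x ∈ K ∧ l < v x) →
      FR (R ⧸ R'.subgroupOf R)) : FR K ∧ Group.IsNilpotent K := by
  classical
  have key : ∀ X : Subgroup G, RK r X → hh X ≤ ((r + r ^ 2 + c0 : ℕ) : ℕ∞) := by
    intro X hX
    have hVL : VL (fun x : (X ⊓ K : Subgroup G) => v x) :=
      { top_iff := fun x => by
          rw [hv.top_iff x x.2.2, Subgroup.mem_bot]
          exact ⟨fun h => Subtype.ext h, fun h => by rw [h]; rfl⟩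
        mul := fun x y => hv.mul x x.2.2 y y.2.2
        inv := fun x => hv.inv x x.2.2
        comm := fun x y hy => hv.comm x x.2.2 y y.2.2 fun h =>
          hy (Subtype.ext (Subgroup.mem_bot.1 h))
        pow := fun x m hm => hv.pow x x.2.2 m hm }
    have h1 := (lemN (RK.of_le inf_le_left hX) _ hVL).2
    refine (hh_le_ext X K).trans ?_
    rw [Nat.cast_add (r + r ^ 2) c0]
    exact add_le_add h1 hc0
  have hC : hh (HP A B K) ≤ ((2 * (r + r ^ 2 + c0) : ℕ) : ℕ∞) :=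
    calc hh (HP A B K) ≤ hh A + hh B := hh_HP_le A B K
      _ ≤ ((r + r ^ 2 + c0 : ℕ) : ℕ∞) + ((r + r ^ 2 + c0 : ℕ) : ℕ∞) :=
          add_le_add (key A hA) (key B hB)
      _ = ((2 * (r + r ^ 2 + c0) : ℕ) : ℕ∞) := by rw [← Nat.cast_add, two_mul]
  have hfin : {l : Λ | ∃ x ∈ K, x ≠ 1 ∧ v x = l}.Finite := by
    by_contra hinf
    obtain ⟨t, ht, hcard⟩ := Set.Infinite.exists_subset_card_eq hinf
      (2 * (r + r ^ 2 + c0) + 1)
    have h1 := card_le A B hA.fr hB.fr hAB hv hFR _ t hcard (fun l hl => ht hl) K inferInstance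
      fun l _ x hx => hx.1
    have h2 := h1.trans hC
    rw [Nat.cast_le] at h2
    omega
  obtain ⟨h1, h2⟩ := main hv hFR hfin.toFinset.card hfin.toFinset le_rfl K le_rfl
    (fun _ _ y hy _ => hy) fun x hx hx1 => by
      rw [Set.Finite.mem_toFinset]
      exact ⟨x, hx, hx1, rfl⟩
  refine ⟨h1, ?_⟩
  obtain ⟨k, hk⟩ := h2.lcs
  exact Subgroup.isNilpotent_of_lowerCentralSeries_eq_bot (hk 0 le_rfl)

end P9700e
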