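import Mathlib
import Pool.Agent.Lib.P9700e.Defs
import Pool.Agent.Lib.P9700e.Defs3
import Pool.Agent.Lib.P9700e.HMono
import Pool.Agent.Lib.P9700e.AbsV

/-!
# The same with a kernel `N`

Apply `absV0` to `G ⧸ N`, `A.map (mk' N)`, `B.map (mk' N)`, `K.map (mk' N)`, `vbar z = v (z.out)` (`Quotient.out`). For `x ∈ K`, `k ∈ N`: `v (x k) = v x` (`mul`, `top_iff`: `v x = min (v x) ⊤ ≤ v (x k)`, and back with `k⁻¹`), so `vbar (mk x) = v x` for `x ∈ K` (`(mk x).out = x k`). So `WV (K.map _) ⊥ vbar`. `(G ⧸ N) ⧸ (K.map _)` is a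
quotient of (isomorphic to) `G ⧸ K` (third isomorphism theorem, or a surjection `G ⧸ K →* (G ⧸ N) ⧸ K.map _`; `hh_le_of_surjective`). `hFR`: for `R`, `R'` in `G ⧸ N` take the preimages intersected suitably: `R.comap (mk' N)`, `R'.comap (mk' N)` have the right descriptions, and `R ⧸ R'.subgroupOf R` is a quotient of
`(R.comap _) ⧸ (R'.comap _).subgroupOf _` (`FR.of_surjective`). Finally `K ⧸ N.subgroupOf K` is isomorphic to `K.map (mk' N)` (kernel of the restriction of `mk' N` to `K`).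
-/

set_option autoImplicit false

universe u v

namespace P9700e

open P9700a

open scoped commutatorElement

namespace AbsQAux

/-- multiplication by an element of the kernel does not change the valuation -/
theorem v_mul_ker {G : Type u} [Group G] {K N : Subgroup G} {Λ : Type v} [LinearOrder Λ]
    [OrderTop Λ] {v : G → Λ} (hv : WV K N v) (hNK : N ≤ K) {x k : G} (hx : x ∈ K) (hk : k ∈ N) :
    v (x * k) = v x := by
  have h1 : v k = ⊤ := (hv.top_iff k (hNK hk)).2 hk
  have h2 : v k⁻¹ = ⊤ := (hv.top_iff k⁻¹ (hNK (N.inv_mem hk))).2 (N.inv_mem hk)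
  apply le_antisymm
  · have h3 := hv.mul (x * k) (K.mul_mem hx (hNK hk)) k⁻¹ (hNK (N.inv_mem hk))
    rw [h2, min_eq_left le_top, mul_inv_cancel_right] at h3
    exact h3
  · have h3 := hv.mul x hx k (hNK hk)
    rw [h1, min_eq_left le_top] at h3
    exact h3

theorem vbar {G : Type u} [Group G] {K N : Subgroup G} [N.Normal] {Λ : Type v} [LinearOrder Λ]
    [OrderTop Λ] {v : G → Λ} (hv : WV K N v) (hNK : N ≤ K) {x : G} (hx : x ∈ K) :
    v (Quotient.out (QuotientGroup.mk' N x)) = v x := by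
  obtain ⟨k, hk⟩ := QuotientGroup.mk_out_eq_mul N x
  have h : (Quotient.out (QuotientGroup.mk' N x) : G) = x * k := hk
  rw [h]
  exact v_mul_ker hv hNK hx k.2

theorem mem_map_iff {G : Type u} [Group G] {K N : Subgroup G} [N.Normal] (hNK : N ≤ K) (x : G) :
    QuotientGroup.mk' N x ∈ K.map (QuotientGroup.mk' N) ↔ x ∈ K := by
  constructor
  · rintro ⟨y, hy, hyx⟩
    have h1 : y⁻¹ * x ∈ N := QuotientGroup.eq.1 hyx
    have h2 : x = y * (y⁻¹ * x) := by group
    rw [h2]
    exact K.mul_mem hy (hNK h1)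
  · intro hx
    exact Subgroup.mem_map_of_mem _ hx

theorem wv {G : Type u} [Group G] {K N : Subgroup G} [K.Normal] [N.Normal] {Λ : Type v} [LinearOrder Λ]
    [OrderTop Λ] {v : G → Λ} (hv : WV K N v) (hNK : N ≤ K) :
    WV (K.map (QuotientGroup.mk' N)) ⊥ (fun z : G ⧸ N => v (Quotient.out z)) where
  top_iff := by
    rintro _ ⟨x, hx, rfl⟩
    show v (Quotient.out (QuotientGroup.mk' N x)) = ⊤ ↔ _
    rw [vbar hv hNK hx, hv.top_iff x hx, Subgroup.mem_bot]
    exact (QuotientGroup.eq_one_iff x).symm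
  mul := by
    rintro _ ⟨x, hx, rfl⟩ _ ⟨y, hy, rfl⟩
    show min (v (Quotient.out (QuotientGroup.mk' N x))) (v (Quotient.out (QuotientGroup.mk' N y))) ≤
      v (Quotient.out (QuotientGroup.mk' N x * QuotientGroup.mk' N y : G ⧸ N))
    rw [← map_mul, vbar hv hNK hx, vbar hv hNK hy, vbar hv hNK (K.mul_mem hx hy)]
    exact hv.mul x hx y hy
  inv := by
    rintro _ ⟨x, hx, rfl⟩
    show v (Quotient.out ((QuotientGroup.mk' N x)⁻¹ : G ⧸ N)) = v (Quotient.out (QuotientGroup.mk' N x))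
    rw [← map_inv, vbar hv hNK hx, vbar hv hNK (K.inv_mem hx)]
    exact hv.inv x hx
  conj := by
    rintro g _ ⟨x, hx, rfl⟩
    obtain ⟨g, rfl⟩ := QuotientGroup.mk'_surjective N g
    show v (Quotient.out (QuotientGroup.mk' N g * QuotientGroup.mk' N x *
      (QuotientGroup.mk' N g)⁻¹ : G ⧸ N)) = v (Quotient.out (QuotientGroup.mk' N x))
    have hgx : g * x * g⁻¹ ∈ K := Subgroup.Normal.conj_mem inferInstance x hx g
    rw [← map_inv, ← map_mul, ← map_mul, vbar hv hNK hx, vbar hv hNK hgx]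
    exact hv.conj g x hx
  comm := by
    rintro _ ⟨x, hx, rfl⟩ _ ⟨y, hy, rfl⟩ hyN
    have hyN' : y ∉ N := by
      intro h
      apply hyN
      rw [Subgroup.mem_bot]
      exact (QuotientGroup.eq_one_iff y).2 h
    show v (Quotient.out (QuotientGroup.mk' N y)) <
      v (Quotient.out (⁅QuotientGroup.mk' N x, QuotientGroup.mk' N y⁆ : G ⧸ N))
    have hxy : ⁅x, y⁆ ∈ K := by
      rw [commutatorElement_def]
      exact K.mul_mem (K.mul_mem (K.mul_mem hx hy) (K.inv_mem hx)) (K.inv_mem hy)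
    rw [← map_commutatorElement, vbar hv hNK hy, vbar hv hNK hxy]
    exact hv.comm x hx y hy hyN'
  pow := by
    rintro _ ⟨x, hx, rfl⟩ m hm
    show v (Quotient.out (QuotientGroup.mk' N x ^ m : G ⧸ N)) = v (Quotient.out (QuotientGroup.mk' N x))
    rw [← map_pow, vbar hv hNK hx, vbar hv hNK (K.pow_mem hx m)]
    exact hv.pow x hx m hm

end AbsQAux

open AbsQAux in
theorem absV {G : Type u} [Group G] (A B K N : Subgroup G) [K.Normal] [N.Normal] (hNK : N ≤ K)
    {r : ℕ} (hA : RK r A) (hB : RK r B) (hAB : ∀ g : G, ∃ a ∈ A, ∃ b ∈ B, g = a * b) {Λ : Type v}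
    [LinearOrder Λ] [OrderTop Λ] (v : G → Λ) (hv : WV K N v) (c0 : ℕ) (hc0 : hh (G ⧸ K) ≤ c0)
    (hFR : ∀ l : Λ, l ≠ ⊤ → ∀ (R R' : Subgroup G) (_ : R.Normal) (_ : R'.Normal),
      (∀ x, x ∈ R ↔ x ∈ K ∧ l ≤ v x) → (∀ x, x ∈ R' ↔ x ∈ K ∧ l < v x) →
      FR (R ⧸ R'.subgroupOf R)) :
    FR (K ⧸ N.subgroupOf K) ∧ Group.IsNilpotent (K ⧸ N.subgroupOf K) := by
  have hK' : (K.map (QuotientGroup.mk' N)).Normal :=
    Subgroup.Normal.map inferInstance _ (QuotientGroup.mk'_surjective N)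
  have hAB' : ∀ g : G ⧸ N, ∃ a ∈ A.map (QuotientGroup.mk' N), ∃ b ∈ B.map (QuotientGroup.mk' N),
      g = a * b := by
    intro g
    obtain ⟨g, rfl⟩ := QuotientGroup.mk'_surjective N g
    obtain ⟨a, ha, b, hb, rfl⟩ := hAB g
    exact ⟨_, Subgroup.mem_map_of_mem _ ha, _, Subgroup.mem_map_of_mem _ hb, map_mul _ a b⟩
  have hc0' : hh ((G ⧸ N) ⧸ K.map (QuotientGroup.mk' N)) ≤ c0 := by
    rw [hh_congr (QuotientGroup.quotientQuotientEquivQuotient N K hNK)]
    exact hc0
  have key := absV0 (A.map (QuotientGroup.mk' N)) (B.map (QuotientGroup.mk' N))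
    (K.map (QuotientGroup.mk' N)) (hA.map _) (hB.map _) hAB'
    (fun z : G ⧸ N => v (Quotient.out z)) (wv hv hNK) c0 hc0' ?_
  · have hker : ∀ x ∈ N.subgroupOf K, (QuotientGroup.mk' N).subgroupMap K x = 1 := by
      intro x hx
      apply Subtype.ext
      exact (QuotientGroup.eq_one_iff (x : G)).2 hx
    obtain ⟨g, hg⟩ : ∃ g : K ⧸ N.subgroupOf K →* K.map (QuotientGroup.mk' N),
        ∀ x : K, g (QuotientGroup.mk x) = (QuotientGroup.mk' N).subgroupMap K x :=
      ⟨QuotientGroup.lift (N.subgroupOf K) ((QuotientGroup.mk' N).subgroupMap K) hker,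
        fun x => rfl⟩
    have hinj : Function.Injective g := by
      rw [injective_iff_map_eq_one]
      intro q hq
      obtain ⟨x, rfl⟩ := QuotientGroup.mk_surjective q
      rw [hg] at hq
      have h1 : QuotientGroup.mk' N (x : G) = 1 := congrArg Subtype.val hq
      exact (QuotientGroup.eq_one_iff x).2 ((QuotientGroup.eq_one_iff (x : G)).1 h1)
    have hsurj : Function.Surjective g := by
      intro y
      obtain ⟨x, hx⟩ := (QuotientGroup.mk' N).subgroupMap_surjective K y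
      exact ⟨QuotientGroup.mk x, by rw [hg, hx]⟩
    refine ⟨FR.of_injective g hinj key.1, ?_⟩
    have i1 := key.2
    exact Group.nilpotent_of_mulEquiv (MulEquiv.ofBijective g ⟨hinj, hsurj⟩).symm
  · intro l hl R R' hR hR' h1 h2
    have h3 : FR (R.comap (QuotientGroup.mk' N) ⧸
        (R'.comap (QuotientGroup.mk' N)).subgroupOf (R.comap (QuotientGroup.mk' N))) := by
      refine hFR l hl _ _ (hR.comap _) (hR'.comap _) ?_ ?_
      · intro x
        rw [Subgroup.mem_comap, h1, mem_map_iff hNK]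
        constructor
        · rintro ⟨hx, h⟩
          rw [vbar hv hNK hx] at h
          exact ⟨hx, h⟩
        · rintro ⟨hx, h⟩
          rw [vbar hv hNK hx]
          exact ⟨hx, h⟩
      · intro x
        rw [Subgroup.mem_comap, h2, mem_map_iff hNK]
        constructor
        · rintro ⟨hx, h⟩
          rw [vbar hv hNK hx] at h
          exact ⟨hx, h⟩
        · rintro ⟨hx, h⟩
          rw [vbar hv hNK hx]
          exact ⟨hx, h⟩
    have h4 : (R'.comap (QuotientGroup.mk' N)).subgroupOf (R.comap (QuotientGroup.mk' N)) ≤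
        (R'.subgroupOf R).comap ((QuotientGroup.mk' N).subgroupComap R) := by
      intro x hx
      exact hx
    refine FR.of_surjective (QuotientGroup.map _ _ ((QuotientGroup.mk' N).subgroupComap R) h4) ?_ h3
    intro z
    obtain ⟨z, rfl⟩ := QuotientGroup.mk_surjective z
    obtain ⟨y, hy⟩ := (QuotientGroup.mk' N).subgroupComap_surjective_of_surjective R
      (QuotientGroup.mk'_surjective N) z
    exact ⟨QuotientGroup.mk y, by rw [← hy]; rfl⟩

end P9700e
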