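import Mathlib
import Pool.Agent.Lib.P9700e.Defs

/-!
# Soluble chief factors are elementary abelian

(1) `⁅M, M⁆ ⊔ M'` is normal, between `M'` and `M`, so it is `M'` or `M`. If it is `M`, then by induction on `k` `M ≤ (derivedSeries G0 k).map G0.subtype ⊔ M'` for all `k` (if `M ≤ D ⊔ M'` with `D`, `M'` normal in... then `⁅M, M⁆ ≤ ⁅D ⊔ M', D ⊔ M'⁆ ≤ ⁅D, D⁆ ⊔ M'`; `M ≤ G0`), so `M ≤ M'` by `Sl`, a contradiction. So `⁅M, M⁆ ≤ M'`.
(2) `M / M'` is a nontrivial finite abelian group; take a prime `p` dividing its order (`M'.relIndex M`). `U = closure {x ^ p : x ∈ M} ⊔ M'` is normal, between `M'` and `M`. If `U = M` then the `p`-power map of the finite abelian group `M / M'` is surjective, hence injective, contradicting Cauchy. So `U = M'`.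
-/

set_option autoImplicit false

open scoped commutatorElement

namespace P9700e

theorem chief_elem {G : Type*} [Group G] (G0 M M' : Subgroup G) (hs : Sl G0 M') (hM : M ≤ G0)
    (hch : Chf M M') : ∃ p : ℕ, p.Prime ∧ ⁅M, M⁆ ≤ M' ∧ ∀ x ∈ M, x ^ p ∈ M' := by
  classical
  obtain ⟨_, hfi, hM'0, k, hk⟩ := hs
  obtain ⟨hMn, hM'n, hlt, hmax⟩ := hch
  haveI := hMn
  haveI := hM'n
  haveI := hfi
  set f := QuotientGroup.mk' M' with hf
  have hker : ∀ x, f x = 1 ↔ x ∈ M' := fun x => QuotientGroup.eq_one_iff x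
  have hbot : M'.map f = ⊥ := by
    rw [eq_bot_iff]
    rintro _ ⟨x, hx, rfl⟩
    exact (hker x).2 hx
  have hle : ∀ {A : Subgroup G}, A.map f = ⊥ → A ≤ M' := by
    intro A hA x hx
    rw [← hker]
    have h1 : f x ∈ A.map f := ⟨x, hx, rfl⟩
    rw [hA] at h1
    exact h1
  set N := M.map f with hN
  -- the commutator subgroup
  have hcomm : ⁅M, M⁆ ≤ M' := by
    rcases hmax (⁅M, M⁆ ⊔ M') inferInstance le_sup_right
      (sup_le (Subgroup.commutator_le_left M M) hlt.le) with h1 | h1
    · rw [← h1]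
      exact le_sup_left
    · exfalso
      have hNN : N = ⁅N, N⁆ := by
        conv_lhs => rw [hN, ← h1, Subgroup.map_sup, hbot, sup_bot_eq]
        rw [Subgroup.map_commutator]
      have hind : ∀ j, N ≤ (derivedSeries G0 j).map (f.comp G0.subtype) := by
        intro j
        induction j with
        | zero =>
          rintro _ ⟨x, hx, rfl⟩
          exact ⟨⟨x, hM hx⟩, by rw [derivedSeries_zero]; exact Subgroup.mem_top _, rfl⟩
        | succ j ih =>
          rw [hNN, derivedSeries_succ, Subgroup.map_commutator]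
          exact Subgroup.commutator_mono ih ih
      have h2 : N = ⊥ := by
        rw [eq_bot_iff]
        refine (hind k).trans ?_
        rw [← Subgroup.map_map, ← hbot]
        exact Subgroup.map_mono hk
      exact absurd (hle h2) (not_le_of_gt hlt)
  have hNc : ∀ x ∈ N, ∀ y ∈ N, x * y = y * x := by
    rintro _ ⟨x, hx, rfl⟩ _ ⟨y, hy, rfl⟩
    have h1 : f ⁅x, y⁆ = 1 := (hker _).2 (hcomm (Subgroup.commutator_mem_commutator hx hy))
    rw [map_commutatorElement, commutatorElement_eq_one_iff_mul_comm] at h1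
    exact h1
  letI : CommGroup N :=
    { (inferInstance : Group N) with
      mul_comm := fun a b => Subtype.ext (hNc a a.2 b b.2) }
  haveI : Finite (G ⧸ M') := inferInstance
  haveI : Finite N := inferInstance
  have hN1 : Nat.card N ≠ 1 := by
    intro h1
    have h2 : N = ⊥ := Subgroup.card_eq_one.1 h1
    exact absurd (hle h2) (not_le_of_gt hlt)
  obtain ⟨p, hp, hpd⟩ := Nat.exists_prime_and_dvd hN1
  haveI : Fact p.Prime := ⟨hp⟩
  obtain ⟨z, hz⟩ := exists_prime_orderOf_dvd_card' (G := N) p hpd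
  refine ⟨p, hp, hcomm, ?_⟩
  set S : Set G := {y | ∃ x ∈ M, x ^ p = y} with hS
  have hSM : Subgroup.closure S ≤ M := by
    rw [Subgroup.closure_le]
    rintro _ ⟨x, hx, rfl⟩
    exact M.pow_mem hx p
  have hSn : (Subgroup.closure S).Normal := by
    refine ⟨fun n hn g => ?_⟩
    have h1 : (Subgroup.closure S).map (MulAut.conj g).toMonoidHom ≤ Subgroup.closure S := by
      rw [MonoidHom.map_closure, Subgroup.closure_le]
      rintro _ ⟨_, ⟨x, hx, rfl⟩, rfl⟩
      refine Subgroup.subset_closure ⟨g * x * g⁻¹, hMn.conj_mem x hx g, ?_⟩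
      rw [conj_pow]
      rfl
    exact h1 ⟨n, hn, rfl⟩
  haveI := hSn
  rcases hmax (Subgroup.closure S ⊔ M') inferInstance le_sup_right (sup_le hSM hlt.le)
    with h1 | h1
  · intro x hx
    rw [← h1]
    exact Subgroup.mem_sup_left (Subgroup.subset_closure ⟨x, hx, rfl⟩)
  · exfalso
    have hsub : N ≤ (powMonoidHom p : N →* N).range.map N.subtype := by
      have h2 : N = Subgroup.closure (f '' S) := by
        conv_lhs => rw [hN, ← h1, Subgroup.map_sup, hbot, sup_bot_eq]
        rw [MonoidHom.map_closure]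
      conv_lhs => rw [h2]
      rw [Subgroup.closure_le]
      rintro _ ⟨_, ⟨x, hx, rfl⟩, rfl⟩
      refine ⟨(⟨f x, x, hx, rfl⟩ : N) ^ p, ⟨⟨f x, x, hx, rfl⟩, rfl⟩, ?_⟩
      rw [map_pow, map_pow]
      rfl
    have hsurj : Function.Surjective (fun y : N => y ^ p) := by
      intro y
      obtain ⟨w, ⟨u, hu⟩, hw⟩ := hsub y.2
      refine ⟨u, ?_⟩
      have h3 : w = y := Subtype.ext hw
      rw [← h3, ← hu]
      rfl
    have hinj := Finite.injective_iff_surjective.2 hsurj
    have h4 : z ^ p = 1 := by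
      rw [← hz]
      exact pow_orderOf_eq_one z
    have h5 : z = 1 := hinj (by
      show z ^ p = 1 ^ p
      rw [h4, one_pow])
    rw [h5, orderOf_one] at hz
    exact hp.one_lt.ne hz

end P9700e
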