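import Mathlib
import Pool.Agent.Lib.P9700a.Chain
import Pool.Agent.Lib.P9700b.Clif
import Pool.Agent.Lib.P9700e.Defs

/-!
# Abelian normal subgroups are scalar when all subgroups of small index are irreducible

Compare the proof of `scalar_of_comm` in `P9700b/Clif.lean` (its auxiliary lemmas `ClifAux.exists_common`, `ClifAux.E` may be used). `N` has a common eigenvector with character `χ`; `E = {w : ρ n w = χ(n) w for n ∈ N} ≠ 0`. For `h ∈ H` the space `ρ h E` is the common eigenspace of `N` for the character `n ↦ χ(h⁻¹ n h)`;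
the nonzero common eigenspaces for different characters are independent, so there are at most `finrank K V` of them. `H1 = {h : χ(h⁻¹ n h) = χ(n) for all n ∈ N}` is the stabiliser of one of them, so `H1.index ≤ finrank K V ≤ ν` and `≠ 0`. `E` is `H1`-invariant, so `E = ⊤`.
-/

set_option autoImplicit false

namespace P9700e

open P9700a

open WeightsAux ClifAux

theorem scalar_of_comm_bdd {K V H : Type*} [Field K] [IsAlgClosed K] [AddCommGroup V] [Module K V]
    [FiniteDimensional K V] [Nontrivial V] [Group H] (ρ : H →* Module.End K V) (ν : ℕ)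
    (hν : Module.finrank K V ≤ ν)
    (hs : ∀ H1 : Subgroup H, H1.index ≠ 0 → H1.index ≤ ν →
      ∀ X : Submodule K V, (∀ h ∈ H1, ∀ x ∈ X, ρ h x ∈ X) → X = ⊥ ∨ X = ⊤)
    (N : Subgroup H) [N.Normal] (hN : ∀ x ∈ N, ∀ y ∈ N, ρ x * ρ y = ρ y * ρ x) :
    ∀ x ∈ N, ∃ c : K, ρ x = c • (1 : Module.End K V) := by
  classical
  have hcomm : ∀ x y : N, Commute (ρ x) (ρ y) := fun x y => hN x x.2 y y.2
  have hind : iSupIndep (W ρ N) :=
    Module.End.independent_iInf_maxGenEigenspace_of_forall_mapsTo (fun n : N => ρ n)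
      (fun i j φ => Module.End.mapsTo_maxGenEigenspace_of_comm (hcomm j i) φ)
  have hfin : {χ | W ρ N χ ≠ ⊥}.Finite := WellFoundedGT.finite_ne_bot_of_iSupIndep hind
  have hFin : Finite {χ : N → K // W ρ N χ ≠ ⊥} := hfin.to_subtype
  have hFt : Fintype {χ : N → K // W ρ N χ ≠ ⊥} := Fintype.ofFinite _
  have hcard : Nat.card {χ : N → K // W ρ N χ ≠ ⊥} ≤ Module.finrank K V := by
    rw [Nat.card_eq_fintype_card]
    exact hind.subtype_ne_bot_le_finrank
  obtain ⟨χ, v, hv0, hv⟩ := exists_common ρ N hN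
  have hvE : v ∈ E ρ N χ := mem_E.2 hv
  have hE0 : E ρ N χ ≠ ⊥ := by
    intro h
    rw [h, Submodule.mem_bot] at hvE
    exact hv0 hvE
  have hW0 : W ρ N χ ≠ ⊥ := fun h => hE0 (le_bot_iff.1 (h ▸ E_le_W))
  let pt : {χ : N → K // W ρ N χ ≠ ⊥} := ⟨χ, hW0⟩
  have hidx : (MulAction.stabilizer H pt).index = (MulAction.orbit H pt).ncard :=
    MulAction.index_stabilizer H pt
  have hi0 : (MulAction.stabilizer H pt).index ≠ 0 := by
    rw [hidx]
    exact Set.ncard_ne_zero_of_mem (MulAction.mem_orbit_self pt) (Set.toFinite _)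
  have hi1 : (MulAction.stabilizer H pt).index ≤ ν := by
    rw [hidx]
    refine le_trans ?_ (hcard.trans hν)
    rw [← Set.ncard_univ]
    exact Set.ncard_le_ncard (Set.subset_univ _) Set.finite_univ
  have hval : ∀ g ∈ MulAction.stabilizer H pt, ∀ n : N, χ (cj N g n) = χ n := by
    intro g hg n
    have h1 : g • pt = pt := hg
    have h2 := smul_val ρ N g pt n
    rw [h1] at h2
    exact h2.symm
  have hinv : ∀ h ∈ MulAction.stabilizer H pt, ∀ x ∈ E ρ N χ, ρ h x ∈ E ρ N χ := by
    intro g hg x hx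
    rw [mem_E] at hx ⊢
    intro n
    have h1 := hx (cj N g n)
    rw [hval g hg n] at h1
    have h2 : (n : H) * g = g * (cj N g n : H) := by
      show (n : H) * g = g * (g⁻¹ * n * g)
      group
    have h3 : ρ n (ρ g x) = ρ g (ρ (cj N g n) x) := by
      have h4 : (ρ n * ρ g) x = (ρ g * ρ (cj N g n)) x := by
        rw [← map_mul, ← map_mul, h2]
      exact h4
    rw [h3, h1, map_smul]
  rcases hs _ hi0 hi1 (E ρ N χ) hinv with h | h
  · exact absurd h hE0
  · intro x hx
    refine ⟨χ ⟨x, hx⟩, ?_⟩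
    ext w
    have hw : w ∈ E ρ N χ := by
      rw [h]
      exact Submodule.mem_top
    exact mem_E.1 hw ⟨x, hx⟩

end P9700e
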