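import Mathlib
import Pool.Agent.Lib.P9700e.Defs

/-!
# A group of matrices, commutative up to scalars, has at most `n ^ 2` elements modulo scalars

`F` is a group of operators `ρ x` (`x ∈ F`) with `ρ x ρ y = c ρ y ρ x`, and every element of `F` commuting (as an operator) with all of `F` is scalar (`hcent`). For `x ∈ F` let `χ_x(y)` be the scalar with `ρ y ρ x ρ y⁻¹ = χ_x(y) ρ x` (unique, as `ρ x` is invertible, `V ≠ 0`).
If `χ_x = χ_x'` then `x⁻¹ x'` commutes with all `ρ y`, so `ρ (x⁻¹ x')` is scalar: `x`, `x'` are in the same coset of `Z ⊓ F`. Operators `ρ x_1, ..., ρ x_m` with pairwise different `χ_(x_i)` are linearly independent in `Module.End K V` (the usual argument: take a shortest relation, conjugate it with `ρ y`, subtract; or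
`Module.End.eigenvectors_linearIndependent`-like lemmas / Dedekind). So the number of cosets is at most `finrank K (Module.End K V) = (finrank K V) ^ 2`; in particular finite.
-/

set_option autoImplicit false

namespace P9700e

namespace UMbAux

variable {K V H : Type*} [Field K] [AddCommGroup V] [Module K V] [Group H]

/-- the operator of a group element is not zero -/
theorem rho_ne_zero [Nontrivial V] (ρ : H →* Module.End K V) (x : H) : ρ x ≠ 0 := by
  intro h
  have h1 : ρ x * ρ x⁻¹ = 1 := by rw [← map_mul, mul_inv_cancel, map_one]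
  rw [h, zero_mul] at h1
  exact zero_ne_one h1

theorem cancel_right (ρ : H →* Module.End K V) (y : H) {A B : Module.End K V}
    (h : A * ρ y = B * ρ y) : A = B := by
  have h1 : ρ y * ρ y⁻¹ = 1 := by rw [← map_mul, mul_inv_cancel, map_one]
  calc A = A * (ρ y * ρ y⁻¹) := by rw [h1, mul_one]
    _ = B * (ρ y * ρ y⁻¹) := by rw [← mul_assoc, h, mul_assoc]
    _ = B := by rw [h1, mul_one]

theorem indep [Nontrivial V] (ρ : H →* Module.End K V)
    (F Z : Subgroup H)
    (hF : ∀ x ∈ F, ∀ y ∈ F, ∃ c : K, ρ x * ρ y = c • (ρ y * ρ x))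
    (hcent : ∀ x ∈ F, (∀ y ∈ F, ρ x * ρ y = ρ y * ρ x) → x ∈ Z) (s : Finset H) :
    (∀ x ∈ s, x ∈ F) → (∀ x ∈ s, ∀ y ∈ s, x⁻¹ * y ∈ Z → x = y) →
      LinearIndepOn K (fun x => ρ x) (s : Set H) := by
  classical
  induction s using Finset.induction_on with
  | empty =>
    intro _ _
    simp
  | insert a t hat ih =>
    intro hsF hsZ
    have iht := ih (fun x hx => hsF x (Finset.mem_insert_of_mem hx))
      (fun x hx y hy h => hsZ x (Finset.mem_insert_of_mem hx) y (Finset.mem_insert_of_mem hy) h)
    rw [Finset.coe_insert]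
    refine iht.insert ?_
    intro hmem
    have haF : a ∈ F := hsF a (Finset.mem_insert_self _ _)
    rw [Submodule.mem_span_image_finset_iff_exists_fun] at hmem
    obtain ⟨g0, hg0⟩ := hmem
    obtain ⟨g, hg⟩ : ∃ g : H → K, ∑ x ∈ t, g x • ρ x = ρ a := by
      refine ⟨fun x => if h : x ∈ t then g0 ⟨x, h⟩ else 0, ?_⟩
      rw [← hg0, ← Finset.sum_coe_sort t]
      apply Finset.sum_congr rfl
      intro x _
      simp [x.2]
    -- some coefficient is not zero
    have hex : ∃ x ∈ t, g x ≠ 0 := by
      by_contra hcon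
      push Not at hcon
      apply rho_ne_zero ρ a
      rw [← hg]
      exact Finset.sum_eq_zero (fun x hx => by rw [hcon x hx, zero_smul])
    obtain ⟨x, hxt, hgx⟩ := hex
    have hxF : x ∈ F := hsF x (Finset.mem_insert_of_mem hxt)
    have hxa : x⁻¹ * a ∈ Z := by
      apply hcent _ (F.mul_mem (F.inv_mem hxF) haF)
      intro y hy
      -- the scalars
      have hch : ∀ w : H, ∃ c : K, w ∈ F → ρ y * ρ w = c • (ρ w * ρ y) := by
        intro w
        by_cases hw : w ∈ F
        · obtain ⟨c, hc⟩ := hF y hy w hw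
          exact ⟨c, fun _ => hc⟩
        · exact ⟨0, fun h => absurd h hw⟩
      choose χ hχ using hch
      have key : ∑ w ∈ t, (g w * (χ w - χ a)) • ρ w = 0 := by
        apply cancel_right ρ y
        rw [zero_mul, Finset.sum_mul]
        have h1 : ρ y * ρ a = ∑ w ∈ t, (g w * χ w) • (ρ w * ρ y) := by
          rw [← hg, Finset.mul_sum]
          apply Finset.sum_congr rfl
          intro w hw
          rw [mul_smul_comm, hχ w (hsF w (Finset.mem_insert_of_mem hw)), smul_smul]
        have h2 : ρ y * ρ a = ∑ w ∈ t, (g w * χ a) • (ρ w * ρ y) := by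
          rw [hχ a haF, ← hg, Finset.sum_mul, Finset.smul_sum]
          apply Finset.sum_congr rfl
          intro w hw
          rw [smul_mul_assoc, smul_smul, mul_comm]
        have h3 : ∑ w ∈ t, ((g w * χ w) • (ρ w * ρ y) - (g w * χ a) • (ρ w * ρ y)) = 0 := by
          rw [Finset.sum_sub_distrib, ← h1, ← h2, sub_self]
        rw [← h3]
        apply Finset.sum_congr rfl
        intro w hw
        rw [smul_mul_assoc, ← sub_smul, mul_sub]
      have hz := (linearIndepOn_finset_iff.mp iht) _ key x hxt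
      have hχxa : χ x = χ a := by
        rcases mul_eq_zero.mp hz with h | h
        · exact absurd h hgx
        · exact sub_eq_zero.mp h
      -- conclude
      have e1 := hχ x hxF
      have e2 := hχ a haF
      have i1 : ρ x * ρ x⁻¹ = 1 := by rw [← map_mul, mul_inv_cancel, map_one]
      have i2 : ρ x⁻¹ * ρ x = 1 := by rw [← map_mul, inv_mul_cancel, map_one]
      have c1 : ρ x⁻¹ * ρ y = χ x • (ρ y * ρ x⁻¹) := by
        calc ρ x⁻¹ * ρ y = ρ x⁻¹ * (ρ y * ρ x) * ρ x⁻¹ := by
              rw [mul_assoc, mul_assoc, i1, mul_one]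
          _ = ρ x⁻¹ * (χ x • (ρ x * ρ y)) * ρ x⁻¹ := by rw [e1]
          _ = χ x • (ρ y * ρ x⁻¹) := by
              rw [mul_smul_comm, smul_mul_assoc, ← mul_assoc, i2, one_mul]
      rw [map_mul]
      calc ρ x⁻¹ * ρ a * ρ y = ρ x⁻¹ * (ρ a * ρ y) := mul_assoc _ _ _
        _ = ρ y * (ρ x⁻¹ * ρ a) := by
          have hne : χ x ≠ 0 := by
            intro h0
            rw [h0, zero_smul] at e1
            have : ρ (y * x) = 0 := by rw [map_mul]; exact e1
            exact rho_ne_zero ρ _ this
          have h5 : χ x • (ρ x⁻¹ * (ρ a * ρ y)) = χ x • (ρ y * (ρ x⁻¹ * ρ a)) := by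
            calc χ x • (ρ x⁻¹ * (ρ a * ρ y)) = ρ x⁻¹ * (χ a • (ρ a * ρ y)) := by
                  rw [mul_smul_comm, hχxa]
              _ = ρ x⁻¹ * (ρ y * ρ a) := by rw [e2]
              _ = (ρ x⁻¹ * ρ y) * ρ a := (mul_assoc _ _ _).symm
              _ = χ x • (ρ y * (ρ x⁻¹ * ρ a)) := by rw [c1, smul_mul_assoc, mul_assoc]
          exact smul_right_injective _ hne h5
    have := hsZ x (Finset.mem_insert_of_mem hxt) a (Finset.mem_insert_self _ _) hxa
    rw [this] at hxt
    exact hat hxt

end UMbAux

open UMbAux in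
theorem card_mod_scalar {K V H : Type*} [Field K] [AddCommGroup V] [Module K V]
    [FiniteDimensional K V] [Nontrivial V] [Group H] (ρ : H →* Module.End K V)
    (F Z : Subgroup H) (hZ : ∀ x, x ∈ Z ↔ ∃ c : K, ρ x = c • (1 : Module.End K V))
    (hF : ∀ x ∈ F, ∀ y ∈ F, ∃ c : K, ρ x * ρ y = c • (ρ y * ρ x))
    (hcent : ∀ x ∈ F, (∀ y ∈ F, ρ x * ρ y = ρ y * ρ x) → x ∈ Z) :
    Z.relIndex F ≠ 0 ∧ Z.relIndex F ≤ Module.finrank K V ^ 2 := by
  classical
  have hfr : Module.finrank K (Module.End K V) = Module.finrank K V ^ 2 := by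
    rw [Module.finrank_linearMap, sq]
  have hbd : ∀ T : Finset (F ⧸ Z.subgroupOf F), T.card ≤ Module.finrank K V ^ 2 := by
    intro T
    have hinj : Set.InjOn (fun q : F ⧸ Z.subgroupOf F => ((q.out : F) : H)) (T : Set _) := by
      intro q _ q' _ h
      have h' : q.out = q'.out := Subtype.ext h
      rw [← QuotientGroup.out_eq' q, ← QuotientGroup.out_eq' q', h']
    have hli := indep ρ F Z hF hcent
      (T.image (fun q : F ⧸ Z.subgroupOf F => ((q.out : F) : H))) (by
        intro x hx
        obtain ⟨q, _, rfl⟩ := Finset.mem_image.mp hx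
        exact (q.out : F).2) (by
        intro x hx y hy h
        obtain ⟨q, _, rfl⟩ := Finset.mem_image.mp hx
        obtain ⟨q', _, rfl⟩ := Finset.mem_image.mp hy
        have h1 : (q.out : F)⁻¹ * q'.out ∈ Z.subgroupOf F := by
          rw [Subgroup.mem_subgroupOf]
          exact h
        have h2 : q = q' := by
          rw [← QuotientGroup.out_eq' q, ← QuotientGroup.out_eq' q']
          exact QuotientGroup.eq.mpr h1
        rw [h2])
    have h3 := LinearIndependent.fintype_card_le_finrank hli
    rw [hfr] at h3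
    have h4 : Fintype.card ((T.image (fun q : F ⧸ Z.subgroupOf F => ((q.out : F) : H)) :
        Finset H) : Set H) = T.card := by
      rw [← Finset.card_image_of_injOn hinj]
      simp
    rw [h4] at h3
    exact h3
  have hfin : Finite (F ⧸ Z.subgroupOf F) := by
    by_contra hcon
    rw [not_finite_iff_infinite] at hcon
    obtain ⟨T, hT⟩ := Infinite.exists_subset_card_eq (F ⧸ Z.subgroupOf F)
      (Module.finrank K V ^ 2 + 1)
    have := hbd T
    omega
  have hcard : Z.relIndex F = Nat.card (F ⧸ Z.subgroupOf F) := rfl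
  constructor
  · rw [hcard]
    exact Nat.card_pos.ne'
  · rw [hcard]
    haveI := Fintype.ofFinite (F ⧸ Z.subgroupOf F)
    rw [Nat.card_eq_fintype_card, ← Finset.card_univ]
    exact hbd _

end P9700e
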