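import Mathlib
import Pool.Agent.Lib.P9700a.Chain
import Pool.Agent.Lib.P9700e.Defs
import Pool.Agent.Lib.P9700e.UMa
import Pool.Agent.Lib.P9700e.UMb

/-!
# A soluble group all whose subgroups of small index are irreducible is scalar

`n = finrank K V`, `ν = n ^ 2 * (n ^ 2)!` (so `n ≤ ν`). `Z` = the elements acting as scalars, normal in `H`. Call `F` good if `Z ≤ F`, `F` normal in `H` and `⁅F, F⁆ ≤ Z`. For good `F`: elements of `F` commuting (as operators) with all of `F` form a normal subgroup of `H` whose operators commute, so they are in `Z` (`scalar_of_comm_bdd`);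
`card_mod_scalar` gives `[F : Z] ≤ n ^ 2`. `Z` is good; choose a good `F` with `Z.relIndex F` maximal. `C` = the elements of `H` whose operators commute with `ρ y` for all `y ∈ F`: normal, `Z ≤ C`, `F ⊓ C = Z`. Claim `C = Z`: otherwise `C / Z` is a nontrivial normal subgroup of the soluble group `H / Z`, and
the last nontrivial term `D / Z` of its derived series gives `D` normal in `H` with `Z < D ≤ C`, `⁅D, D⁆ ≤ Z`. Then `F ⊔ D` is good (elements of `D` commute as operators with those of `F`), so by maximality `D ≤ F`, `D ≤ F ⊓ C = Z`, a contradiction.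
Index of `C = Z`: let `H2 = {h : ⁅h, f⁆ ∈ Z for all f ∈ F}`; `H / H2` embeds into the permutations of `F / Z`, so `[H : H2] ≤ (n ^ 2)!`. For `h ∈ H2` the operator `ρ h` is a simultaneous eigenvector for the conjugations by the `ρ f`, `f ∈ F` (which commute); elements with the same
character are in the same coset of `C = Z`, and the number of characters is at most `finrank K (Module.End K V) = n ^ 2`. Hence `Z.index ≤ ν`, so by `hs` every subspace (invariant under scalars) is `⊥` or `⊤`: `finrank K V = 1` and all operators are scalar.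
-/

set_option autoImplicit false

open scoped commutatorElement

namespace P9700e

open P9700a

namespace UMcAux

variable {K V H : Type*} [Field K] [AddCommGroup V] [Module K V] [Group H]

/-- the elements acting as scalars -/
def ZZ [Nontrivial V] (ρ : H →* Module.End K V) : Subgroup H where
  carrier := {h | ∃ c : K, ρ h = c • (1 : Module.End K V)}
  one_mem' := ⟨1, by rw [map_one, one_smul]⟩
  mul_mem' := by
    rintro x y ⟨c, hc⟩ ⟨d, hd⟩
    refine ⟨c * d, ?_⟩
    rw [map_mul, hc, hd, smul_mul_smul_comm, one_mul]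
  inv_mem' := by
    rintro x ⟨c, hc⟩
    have h1 : c • ρ x⁻¹ = 1 := by
      rw [← one_mul (ρ x⁻¹), ← smul_mul_assoc, ← hc, ← map_mul, mul_inv_cancel, map_one]
    have hc0 : c ≠ 0 := by
      rintro rfl
      rw [zero_smul] at h1
      exact zero_ne_one h1
    refine ⟨c⁻¹, ?_⟩
    rw [← h1, smul_smul, inv_mul_cancel₀ hc0, one_smul]

theorem mem_ZZ [Nontrivial V] {ρ : H →* Module.End K V} {x : H} :
    x ∈ ZZ ρ ↔ ∃ c : K, ρ x = c • (1 : Module.End K V) := Iff.rfl

theorem ZZ_comm [Nontrivial V] {ρ : H →* Module.End K V} {x : H} (hx : x ∈ ZZ ρ)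
    (φ : Module.End K V) : ρ x * φ = φ * ρ x := by
  obtain ⟨c, hc⟩ := hx
  rw [hc, smul_mul_assoc, mul_smul_comm, one_mul, mul_one]

theorem ρ_ne_zero [Nontrivial V] (ρ : H →* Module.End K V) (x : H) : ρ x ≠ 0 := by
  intro h
  have h1 : ρ x * ρ x⁻¹ = 1 := by rw [← map_mul, mul_inv_cancel, map_one]
  rw [h, zero_mul] at h1
  exact zero_ne_one h1

instance ZZ_normal [Nontrivial V] (ρ : H →* Module.End K V) : (ZZ ρ).Normal := by
  constructor
  rintro x ⟨c, hc⟩ g
  refine ⟨c, ?_⟩
  rw [map_mul, map_mul, hc, mul_smul_comm, smul_mul_assoc, mul_one, ← map_mul, mul_inv_cancel,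
    map_one]

theorem comm_iff [Nontrivial V] {ρ : H →* Module.End K V} {x y : H} :
    ⁅x, y⁆ ∈ ZZ ρ ↔ ∃ c : K, ρ x * ρ y = c • (ρ y * ρ x) := by
  constructor
  · rintro ⟨c, hc⟩
    refine ⟨c, ?_⟩
    have h1 : x * y = ⁅x, y⁆ * (y * x) := by
      rw [commutatorElement_def]
      group
    rw [← map_mul, h1, map_mul, hc, smul_mul_assoc, one_mul, map_mul]
  · rintro ⟨c, hc⟩
    refine ⟨c, ?_⟩
    have h1 : ⁅x, y⁆ = (x * y) * (x⁻¹ * y⁻¹) := by
      rw [commutatorElement_def]
      group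
    rw [h1, map_mul, map_mul, hc, smul_mul_assoc, ← map_mul, ← map_mul]
    have h2 : y * x * (x⁻¹ * y⁻¹) = 1 := by group
    rw [h2, map_one]

/-- the elements commuting as operators with `F` -/
def CC (ρ : H →* Module.End K V) (F : Subgroup H) : Subgroup H where
  carrier := {x | ∀ y ∈ F, ρ x * ρ y = ρ y * ρ x}
  one_mem' := by
    intro y _
    rw [map_one, one_mul, mul_one]
  mul_mem' := by
    intro a b ha hb y hy
    rw [map_mul, mul_assoc, hb y hy, ← mul_assoc, ha y hy, mul_assoc]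
  inv_mem' := by
    intro x hx y hy
    have h1 : ρ x * ρ x⁻¹ = 1 := by rw [← map_mul, mul_inv_cancel, map_one]
    have h2 : ρ x⁻¹ * ρ x = 1 := by rw [← map_mul, inv_mul_cancel, map_one]
    calc ρ x⁻¹ * ρ y = ρ x⁻¹ * (ρ y * ρ x) * ρ x⁻¹ := by
          rw [mul_assoc, mul_assoc, h1, mul_one]
      _ = ρ x⁻¹ * (ρ x * ρ y) * ρ x⁻¹ := by rw [hx y hy]
      _ = ρ y * ρ x⁻¹ := by rw [← mul_assoc, h2, one_mul]

theorem mem_CC {ρ : H →* Module.End K V} {F : Subgroup H} {x : H} :
    x ∈ CC ρ F ↔ ∀ y ∈ F, ρ x * ρ y = ρ y * ρ x := Iff.rfl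

theorem CC_normal (ρ : H →* Module.End K V) (F : Subgroup H) (hF : F.Normal) :
    (CC ρ F).Normal := by
  constructor
  intro x hx g y hy
  have hy' : g⁻¹ * y * g ∈ F := by
    have := hF.conj_mem y hy g⁻¹
    rwa [inv_inv] at this
  have h1 := hx _ hy'
  have e1 : g * x * g⁻¹ * y = g * (x * (g⁻¹ * y * g)) * g⁻¹ := by group
  have e2 : y * (g * x * g⁻¹) = g * ((g⁻¹ * y * g) * x) * g⁻¹ := by group
  have h2 : ρ (x * (g⁻¹ * y * g)) = ρ ((g⁻¹ * y * g) * x) := by
    rw [map_mul, map_mul ρ (g⁻¹ * y * g) x, h1]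
  rw [← map_mul, ← map_mul, e1, e2, map_mul, map_mul, h2, ← map_mul, ← map_mul]

theorem ZZ_le_CC [Nontrivial V] (ρ : H →* Module.End K V) (F : Subgroup H) :
    ZZ ρ ≤ CC ρ F := fun _ hx y _ => ZZ_comm hx (ρ y)

/-- `F` is normal, contains the scalars and is commutative modulo scalars -/
def Good [Nontrivial V] (ρ : H →* Module.End K V) (F : Subgroup H) : Prop :=
  F.Normal ∧ ZZ ρ ≤ F ∧ ∀ x ∈ F, ∀ y ∈ F, ∃ c : K, ρ x * ρ y = c • (ρ y * ρ x)

theorem good_ZZ [Nontrivial V] (ρ : H →* Module.End K V) : Good ρ (ZZ ρ) :=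
  ⟨inferInstance, le_rfl, fun x hx y _ => ⟨1, by rw [ZZ_comm hx, one_smul]⟩⟩

/-- the derived chain of a subgroup -/
def DD (C : Subgroup H) : ℕ → Subgroup H
  | 0 => C
  | i + 1 => ⁅DD C i, DD C i⁆

theorem DD_normal (C : Subgroup H) (hC : C.Normal) (i : ℕ) : (DD C i).Normal := by
  induction i with
  | zero => exact hC
  | succ i ih =>
    have := ih
    exact Subgroup.commutator_normal _ _

theorem DD_le_derived (C : Subgroup H) (i : ℕ) : DD C i ≤ derivedSeries H i := by
  induction i with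
  | zero => exact le_top
  | succ i ih => exact Subgroup.commutator_mono ih ih

theorem DD_le (C : Subgroup H) (hC : C.Normal) (i : ℕ) : DD C i ≤ C := by
  induction i with
  | zero => exact le_rfl
  | succ i ih =>
    have h1 := DD_normal C hC i
    exact (Subgroup.commutator_le_left _ _).trans ih

/-- conjugation on the cosets -/
theorem map_conj (F Z : Subgroup H) [F.Normal] [Z.Normal] (g : H) :
    (Z.subgroupOf F).map ((MulAut.conjNormal g : MulAut F) : F ≃* F).toMonoidHom =
      Z.subgroupOf F := by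
  ext x
  rw [Subgroup.mem_map]
  constructor
  · rintro ⟨y, hy, rfl⟩
    rw [Subgroup.mem_subgroupOf] at hy ⊢
    change ((MulAut.conjNormal g y : F) : H) ∈ Z
    rw [MulAut.conjNormal_apply]
    exact Subgroup.Normal.conj_mem inferInstance _ hy _
  · intro hx
    rw [Subgroup.mem_subgroupOf] at hx
    refine ⟨MulAut.conjNormal g⁻¹ x, ?_, ?_⟩
    · rw [Subgroup.mem_subgroupOf, MulAut.conjNormal_apply]
      exact Subgroup.Normal.conj_mem inferInstance _ hx _
    · apply Subtype.ext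
      change ((MulAut.conjNormal g (MulAut.conjNormal g⁻¹ x) : F) : H) = x
      rw [MulAut.conjNormal_apply, MulAut.conjNormal_apply]
      group

noncomputable def cj (F Z : Subgroup H) [F.Normal] [Z.Normal] :
    H →* MulAut (F ⧸ Z.subgroupOf F) :=
  MonoidHom.mk' (fun g => QuotientGroup.congr (Z.subgroupOf F) (Z.subgroupOf F)
    (MulAut.conjNormal g : MulAut F) (map_conj F Z g)) (by
    intro g h
    ext z
    induction z using QuotientGroup.induction_on with
    | H x =>
      change (((MulAut.conjNormal (g * h) x : F)) : F ⧸ Z.subgroupOf F) =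
        ((MulAut.conjNormal g (MulAut.conjNormal h x) : F) : F ⧸ Z.subgroupOf F)
      rw [map_mul]
      rfl)

theorem cj_mk (F Z : Subgroup H) [F.Normal] [Z.Normal] (g : H) (x : F) :
    cj F Z g (x : F ⧸ Z.subgroupOf F) = ((MulAut.conjNormal g x : F) : F ⧸ Z.subgroupOf F) := rfl

theorem mem_ker_cj (F Z : Subgroup H) [F.Normal] [Z.Normal] (g : H) :
    g ∈ (cj F Z).ker ↔ ∀ f ∈ F, ⁅g, f⁆ ∈ Z := by
  rw [MonoidHom.mem_ker]
  have key : ∀ f : F, ((MulAut.conjNormal g f : F) : F ⧸ Z.subgroupOf F) = (f : F ⧸ Z.subgroupOf F) ↔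
      ⁅g, (f : H)⁆ ∈ Z := by
    intro f
    rw [QuotientGroup.eq, Subgroup.mem_subgroupOf]
    have e : ((MulAut.conjNormal g f)⁻¹ * f : F) = (⟨_, (MulAut.conjNormal g f : F).2⟩ : F)⁻¹ * f := rfl
    have h1 : (((MulAut.conjNormal g f)⁻¹ * f : F) : H) = (g * f * g⁻¹)⁻¹ * f := by
      rw [Subgroup.coe_mul, Subgroup.coe_inv, MulAut.conjNormal_apply]
    rw [h1]
    constructor
    · intro h
      have h2 := Subgroup.Normal.conj_mem inferInstance _ (Z.inv_mem h) (f : H)
      have e2 : (f : H) * ((g * f * g⁻¹)⁻¹ * f)⁻¹ * (f : H)⁻¹ = ⁅g, (f : H)⁆ := by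
        rw [commutatorElement_def]
        group
      rwa [e2] at h2
    · intro h
      have h2 := Subgroup.Normal.conj_mem inferInstance _ (Z.inv_mem h) (f : H)⁻¹
      have e2 : (f : H)⁻¹ * (⁅g, (f : H)⁆)⁻¹ * ((f : H)⁻¹)⁻¹ = (g * f * g⁻¹)⁻¹ * f := by
        rw [commutatorElement_def]
        group
      rwa [e2] at h2
  constructor
  · intro h f hf
    have h1 : cj F Z g ((⟨f, hf⟩ : F) : F ⧸ Z.subgroupOf F) = ((⟨f, hf⟩ : F) : F ⧸ Z.subgroupOf F) := by
      rw [h]
      rfl
    rw [cj_mk] at h1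
    exact (key ⟨f, hf⟩).1 h1
  · intro h
    ext z
    induction z using QuotientGroup.induction_on with
    | H x =>
      rw [cj_mk]
      exact (key x).2 (h x x.2)

/-- conjugation of operators -/
def TT (ρ : H →* Module.End K V) (y : H) : Module.End K (Module.End K V) where
  toFun φ := ρ y⁻¹ * φ * ρ y
  map_add' a b := by rw [mul_add, add_mul]
  map_smul' c a := by rw [mul_smul_comm, smul_mul_assoc, RingHom.id_apply]

theorem TT_apply (ρ : H →* Module.End K V) (y : H) (φ : Module.End K V) :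
    TT ρ y φ = ρ y⁻¹ * φ * ρ y := rfl

theorem TT_mul (ρ : H →* Module.End K V) (x y : H) : TT ρ (x * y) = TT ρ y * TT ρ x := by
  ext1 φ
  rw [Module.End.mul_apply, TT_apply, TT_apply, TT_apply, mul_inv_rev, map_mul, map_mul]
  simp only [mul_assoc]

theorem TT_ZZ [Nontrivial V] {ρ : H →* Module.End K V} {z : H} (hz : z ∈ ZZ ρ) :
    TT ρ z = 1 := by
  ext1 φ
  rw [TT_apply, mul_assoc, ← ZZ_comm hz, ← mul_assoc, ← map_mul, inv_mul_cancel, map_one, one_mul]
  rfl

theorem TT_comm [Nontrivial V] {ρ : H →* Module.End K V} {x y : H} (h : ⁅x, y⁆ ∈ ZZ ρ) :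
    Commute (TT ρ x) (TT ρ y) := by
  change TT ρ x * TT ρ y = TT ρ y * TT ρ x
  rw [← TT_mul, ← TT_mul]
  have h1 : x * y = ⁅x, y⁆ * (y * x) := by
    rw [commutatorElement_def]
    group
  rw [h1, TT_mul ρ ⁅x, y⁆, TT_ZZ h, mul_one]

end UMcAux

open UMcAux in
theorem scalar_all {K V H : Type*} [Field K] [IsAlgClosed K] [AddCommGroup V] [Module K V]
    [FiniteDimensional K V] [Nontrivial V] [Group H] [Group.IsSolvable H]
    (ρ : H →* Module.End K V)
    (hs : ∀ H1 : Subgroup H, H1.index ≠ 0 →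
      H1.index ≤ Module.finrank K V ^ 2 * (Module.finrank K V ^ 2).factorial →
      ∀ X : Submodule K V, (∀ h ∈ H1, ∀ x ∈ X, ρ h x ∈ X) → X = ⊥ ∨ X = ⊤) :
    ∀ h : H, ∃ c : K, ρ h = c • (1 : Module.End K V) := by
  classical
  set n := Module.finrank K V with hn
  have hn1 : 1 ≤ n := Module.finrank_pos
  have hnν : n ≤ n ^ 2 * (n ^ 2).factorial := by
    calc n = n * 1 := (mul_one n).symm
      _ ≤ n * n := Nat.mul_le_mul le_rfl hn1
      _ = n ^ 2 := (sq n).symm
      _ = n ^ 2 * 1 := (mul_one _).symm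
      _ ≤ n ^ 2 * (n ^ 2).factorial := Nat.mul_le_mul le_rfl (Nat.factorial_pos _)
  set Z := ZZ ρ with hZ
  -- commuting normal subgroups are scalar
  have hcommN : ∀ N : Subgroup H, N.Normal → (∀ x ∈ N, ∀ y ∈ N, ρ x * ρ y = ρ y * ρ x) → N ≤ Z := by
    intro N hN hc x hx
    have := hN
    exact scalar_of_comm_bdd ρ _ hnν hs N hc x hx
  -- centre of a good subgroup
  have hcent : ∀ F : Subgroup H, Good ρ F → F ⊓ CC ρ F ≤ Z := by
    intro F hF
    have h1 := hF.1
    have h2 := CC_normal ρ F hF.1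
    refine hcommN _ inferInstance ?_
    intro x hx y hy
    exact hx.2 y hy.1
  have hcard : ∀ F : Subgroup H, Good ρ F → Z.relIndex F ≠ 0 ∧ Z.relIndex F ≤ n ^ 2 := by
    intro F hF
    exact card_mod_scalar ρ F Z (fun x => Iff.rfl) hF.2.2 (fun x hx h => hcent F hF ⟨hx, h⟩)
  -- a maximal good subgroup
  obtain ⟨F, hF, hmax⟩ : ∃ F : Subgroup H, Good ρ F ∧ ∀ F', Good ρ F' → Z.relIndex F' ≤ Z.relIndex F := by
    let S : Set ℕ := {k | ∃ F : Subgroup H, Good ρ F ∧ Z.relIndex F = k}
    have hS : S.Nonempty := ⟨_, Z, good_ZZ ρ, rfl⟩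
    have hb : BddAbove S := ⟨n ^ 2, by
      rintro k ⟨F, hF, rfl⟩
      exact (hcard F hF).2⟩
    obtain ⟨F, hF, hk⟩ := Nat.sSup_mem hS hb
    refine ⟨F, hF, fun F' hF' => ?_⟩
    rw [hk]
    exact le_csSup hb ⟨F', hF', rfl⟩
  have hFn : F.Normal := hF.1
  have hCn : (CC ρ F).Normal := CC_normal ρ F hFn
  -- the centraliser is scalar
  have hC : CC ρ F ≤ Z := by
    by_contra hcon
    have hex : ∃ i, DD (CC ρ F) i ≤ Z := by
      obtain ⟨m, hm⟩ := Group.IsSolvable.solvable (G := H)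
      refine ⟨m, (DD_le_derived _ m).trans ?_⟩
      rw [hm]
      exact bot_le
    set i := Nat.find hex with hi
    have hi1 : DD (CC ρ F) i ≤ Z := Nat.find_spec hex
    obtain ⟨j, hj⟩ : ∃ j, i = j + 1 := by
      refine Nat.exists_eq_succ_of_ne_zero ?_
      intro h0
      rw [h0] at hi1
      exact hcon hi1
    have hj1 : ¬ DD (CC ρ F) j ≤ Z := Nat.find_min hex (by omega)
    rw [hj] at hi1
    set D := DD (CC ρ F) j with hD
    have hDn : D.Normal := DD_normal _ hCn j
    have hDC : D ≤ CC ρ F := DD_le _ hCn j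
    have hDD : ⁅D, D⁆ ≤ Z := hi1
    have hgood : Good ρ (F ⊔ D) := by
      refine ⟨inferInstance, hF.2.1.trans le_sup_left, ?_⟩
      intro x hx y hy
      obtain ⟨f, hf, d, hd, rfl⟩ := Subgroup.mem_sup_of_normal_left.1 hx
      obtain ⟨f', hf', d', hd', rfl⟩ := Subgroup.mem_sup_of_normal_left.1 hy
      obtain ⟨c1, hc1⟩ := hF.2.2 f hf f' hf'
      obtain ⟨c2, hc2⟩ := comm_iff.1 (hDD (Subgroup.commutator_mem_commutator hd hd'))
      have e1 : ρ d * ρ f' = ρ f' * ρ d := hDC hd f' hf'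
      have e2 : ρ d' * ρ f = ρ f * ρ d' := hDC hd' f hf
      refine ⟨c1 * c2, ?_⟩
      rw [map_mul, map_mul]
      calc ρ f * ρ d * (ρ f' * ρ d') = ρ f * (ρ d * ρ f') * ρ d' := by simp only [mul_assoc]
        _ = ρ f * (ρ f' * ρ d) * ρ d' := by rw [e1]
        _ = (ρ f * ρ f') * (ρ d * ρ d') := by simp only [mul_assoc]
        _ = (c1 * c2) • (ρ f' * (ρ f * ρ d') * ρ d) := by
          rw [hc1, hc2, smul_mul_smul_comm]
          simp only [mul_assoc]
        _ = (c1 * c2) • (ρ f' * ρ d' * (ρ f * ρ d)) := by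
          rw [← e2]
          simp only [mul_assoc]
    have h1 := hmax _ hgood
    have h2 := Subgroup.relIndex_mul_relIndex Z F (F ⊔ D) hF.2.1 le_sup_left
    have h3 := (hcard F hF).1
    have h4 := (hcard _ hgood).1
    have h5 : F.relIndex (F ⊔ D) = 1 := by
      have h6 : F.relIndex (F ⊔ D) ≠ 0 := by
        intro h0
        rw [h0, mul_zero] at h2
        exact h4 h2.symm
      have h7 : F.relIndex (F ⊔ D) ≤ 1 := by
        by_contra h8
        push Not at h8
        have h9 : Z.relIndex F * 2 ≤ Z.relIndex (F ⊔ D) := by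
          rw [← h2]
          exact Nat.mul_le_mul le_rfl h8
        omega
      omega
    rw [Subgroup.relIndex_eq_one] at h5
    exact hj1 fun x hx => hcent F hF ⟨h5 (le_sup_right (a := F) hx), hDC hx⟩
  -- the index of the scalars
  have hZle : Z ≤ (cj F Z).ker := by
    intro z hz
    rw [mem_ker_cj]
    intro f _
    rw [commutatorElement_def, mul_assoc, mul_assoc]
    refine Z.mul_mem hz ?_
    rw [← mul_assoc]
    exact Subgroup.Normal.conj_mem inferInstance _ (Z.inv_mem hz) _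
  have hQfin : Finite (F ⧸ Z.subgroupOf F) := by
    have h1 : (Z.subgroupOf F).index ≠ 0 := (hcard F hF).1
    have : (Z.subgroupOf F).FiniteIndex := ⟨h1⟩
    exact Subgroup.finite_quotient_of_finiteIndex
  have hidx1 : (cj F Z).ker.index ≤ (n ^ 2).factorial ∧ (cj F Z).ker.index ≠ 0 := by
    have hinj : Function.Injective (MulAut.toPerm (F ⧸ Z.subgroupOf F)) := by
      intro a b hab
      ext z
      exact congrArg (fun σ : Equiv.Perm (F ⧸ Z.subgroupOf F) => σ z) hab
    have hfin : Finite (MulAut (F ⧸ Z.subgroupOf F)) := Finite.of_injective _ hinj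
    have hcq : Nat.card (F ⧸ Z.subgroupOf F) ≤ n ^ 2 := by
      rw [← Subgroup.index_eq_card]
      exact (hcard F hF).2
    rw [Subgroup.index_ker]
    constructor
    · calc Nat.card (cj F Z).range ≤ Nat.card (MulAut (F ⧸ Z.subgroupOf F)) :=
            Nat.card_le_card_of_injective _ (Subgroup.subtype_injective _)
        _ ≤ Nat.card (Equiv.Perm (F ⧸ Z.subgroupOf F)) :=
            Nat.card_le_card_of_injective _ hinj
        _ = (Nat.card (F ⧸ Z.subgroupOf F)).factorial := Nat.card_perm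
        _ ≤ (n ^ 2).factorial := Nat.factorial_le hcq
    · exact Nat.card_pos.ne'
  have hidx2 : Z.relIndex (cj F Z).ker ≤ n ^ 2 ∧ Z.relIndex (cj F Z).ker ≠ 0 := by
    set H2 := (cj F Z).ker with hH2
    have hχ : ∀ h : H2, ∃ χ : F → K, ∀ f : F, ρ h * ρ f = χ f • (ρ f * ρ h) := by
      intro h
      have h1 := (mem_ker_cj F Z h).1 h.2
      have h2 : ∀ f : F, ∃ c : K, ρ h * ρ f = c • (ρ f * ρ h) := fun f => comm_iff.1 (h1 f f.2)
      choose χ hχ using h2
      exact ⟨χ, hχ⟩
    choose χ hχ using hχ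
    have hfd : FiniteDimensional K (Module.End K V) := inferInstance
    have hind : iSupIndep fun χ : F → K => ⨅ y : F, (TT ρ (y : H)).maxGenEigenspace (χ y) :=
      Module.End.independent_iInf_maxGenEigenspace_of_forall_mapsTo (fun y : F => TT ρ (y : H))
        (fun i j φ => Module.End.mapsTo_maxGenEigenspace_of_comm
          (TT_comm (comm_iff.2 (hF.2.2 j j.2 i i.2))) φ)
    have hfin : {χ : F → K | (⨅ y : F, (TT ρ (y : H)).maxGenEigenspace (χ y)) ≠ ⊥}.Finite :=
      WellFoundedGT.finite_ne_bot_of_iSupIndep hind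
    have hFin : Finite {χ : F → K // (⨅ y : F, (TT ρ (y : H)).maxGenEigenspace (χ y)) ≠ ⊥} :=
      hfin.to_subtype
    have hFt : Fintype {χ : F → K // (⨅ y : F, (TT ρ (y : H)).maxGenEigenspace (χ y)) ≠ ⊥} :=
      Fintype.ofFinite _
    have hcard2 : Nat.card {χ : F → K // (⨅ y : F, (TT ρ (y : H)).maxGenEigenspace (χ y)) ≠ ⊥} ≤
        n ^ 2 := by
      rw [Nat.card_eq_fintype_card]
      refine hind.subtype_ne_bot_le_finrank.trans ?_
      have : Module.finrank K (Module.End K V) = n * n := Module.finrank_linearMap K K V V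
      rw [this, sq]
    have hne : ∀ h : H2, (⨅ y : F, (TT ρ (y : H)).maxGenEigenspace (χ h y)) ≠ ⊥ := by
      intro h hbot
      have h1 : ρ h ∈ (⨅ y : F, (TT ρ (y : H)).maxGenEigenspace (χ h y)) := by
        rw [Submodule.mem_iInf]
        intro y
        rw [Module.End.mem_maxGenEigenspace]
        refine ⟨1, ?_⟩
        rw [pow_one, LinearMap.sub_apply, TT_apply, LinearMap.smul_apply, Module.End.one_apply,
          mul_assoc, hχ h y, mul_smul_comm, ← mul_assoc, ← map_mul, inv_mul_cancel, map_one,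
          one_mul, sub_self]
      rw [hbot, Submodule.mem_bot] at h1
      exact ρ_ne_zero ρ _ h1
    let g : (H2 ⧸ Z.subgroupOf H2) →
        {χ : F → K // (⨅ y : F, (TT ρ (y : H)).maxGenEigenspace (χ y)) ≠ ⊥} :=
      fun q => ⟨χ q.out, hne q.out⟩
    have hg : Function.Injective g := by
      intro q q' hqq
      have h1 : χ q.out = χ q'.out := congrArg Subtype.val hqq
      have h2 : ((q.out⁻¹ * q'.out : H2) : H) ∈ CC ρ F := by
        intro f hf
        have e1 := hχ q.out ⟨f, hf⟩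
        have e2 := hχ q'.out ⟨f, hf⟩
        rw [← h1] at e2
        set c := χ q.out ⟨f, hf⟩ with hc
        change ρ (q.out : H) * ρ f = c • (ρ f * ρ (q.out : H)) at e1
        change ρ (q'.out : H) * ρ f = c • (ρ f * ρ (q'.out : H)) at e2
        have hc0 : c ≠ 0 := by
          rintro h0
          rw [h0, zero_smul, ← map_mul] at e1
          exact ρ_ne_zero ρ _ e1
        have i1 : ρ (q.out : H) * ρ (q.out : H)⁻¹ = 1 := by rw [← map_mul, mul_inv_cancel, map_one]
        have i2 : ρ (q.out : H)⁻¹ * ρ (q.out : H) = 1 := by rw [← map_mul, inv_mul_cancel, map_one]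
        have e3 : c • (ρ (q.out : H)⁻¹ * ρ f) = ρ f * ρ (q.out : H)⁻¹ := by
          calc c • (ρ (q.out : H)⁻¹ * ρ f) =
              ρ (q.out : H)⁻¹ * (c • (ρ f * ρ (q.out : H))) * ρ (q.out : H)⁻¹ := by
                rw [mul_smul_comm, smul_mul_assoc, mul_assoc, mul_assoc, i1, mul_one]
            _ = ρ (q.out : H)⁻¹ * (ρ (q.out : H) * ρ f) * ρ (q.out : H)⁻¹ := by rw [e1]
            _ = ρ f * ρ (q.out : H)⁻¹ := by rw [← mul_assoc (ρ (q.out : H)⁻¹), i2, one_mul]
        rw [Subgroup.coe_mul, Subgroup.coe_inv, map_mul, mul_assoc, e2, mul_smul_comm, ← mul_assoc,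
          ← smul_mul_assoc, e3, mul_assoc]
      have h3 : ((q.out⁻¹ * q'.out : H2) : H) ∈ Z := hC h2
      have h4 : (q.out : H2 ⧸ Z.subgroupOf H2) = (q'.out : H2 ⧸ Z.subgroupOf H2) := by
        rw [QuotientGroup.eq, Subgroup.mem_subgroupOf]
        exact h3
      have h5 : ((q.out : H2) : H2 ⧸ Z.subgroupOf H2) = q := Quotient.out_eq' q
      have h6 : ((q'.out : H2) : H2 ⧸ Z.subgroupOf H2) = q' := Quotient.out_eq' q'
      rw [← h5, ← h6]
      exact h4
    have hfq : Finite (H2 ⧸ Z.subgroupOf H2) := Finite.of_injective g hg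
    have hrel : Z.relIndex H2 = Nat.card (H2 ⧸ Z.subgroupOf H2) := Subgroup.index_eq_card _
    rw [hrel]
    exact ⟨(Nat.card_le_card_of_injective g hg).trans hcard2, Nat.card_pos.ne'⟩
  have hidx : Z.relIndex (cj F Z).ker * (cj F Z).ker.index = Z.index :=
    Subgroup.relIndex_mul_index hZle
  have hX : ∀ X : Submodule K V, X = ⊥ ∨ X = ⊤ := by
    intro X
    refine hs Z ?_ ?_ X ?_
    · rw [← hidx]
      exact mul_ne_zero hidx2.2 hidx1.2
    · rw [← hidx]
      exact Nat.mul_le_mul hidx2.1 hidx1.1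
    · rintro h ⟨c, hc⟩ x hx
      rw [hc, LinearMap.smul_apply, Module.End.one_apply]
      exact X.smul_mem c hx
  obtain ⟨v, hv⟩ := exists_ne (0 : V)
  have hspan : Submodule.span K {v} = ⊤ := by
    rcases hX (Submodule.span K {v}) with h | h
    · rw [Submodule.span_singleton_eq_bot] at h
      exact absurd h hv
    · exact h
  intro h
  have h1 : ρ h v ∈ Submodule.span K {v} := by
    rw [hspan]
    exact Submodule.mem_top
  obtain ⟨c, hc⟩ := Submodule.mem_span_singleton.1 h1
  refine ⟨c, ?_⟩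
  ext w
  have h2 : w ∈ Submodule.span K {v} := by
    rw [hspan]
    exact Submodule.mem_top
  obtain ⟨a, rfl⟩ := Submodule.mem_span_singleton.1 h2
  rw [map_smul, ← hc, LinearMap.smul_apply, Module.End.one_apply, smul_comm]

end P9700e
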