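import Mathlib
import Pool.Agent.Lib.P9700a.Chain
import Pool.Agent.Lib.P9700b.Malcev
import Pool.Agent.Lib.P9700e.Defs
import Pool.Agent.Lib.P9700e.UMc

/-!
# Malcev's theorem with a uniform bound

Induction on `n`; compare `MalcevAux.aux` in `P9700b/Malcev.lean`. `μ (n+1) = max over ... `: let `ν = (n+1) ^ 2 * ((n+1) ^ 2)!` and `μ (n+1) = max (μ n) (ν * μ n * μ n)` (and at least 1). If `finrank K V ≤ n` use the induction. If `V` is trivial, `H1 = ⊤` (`⊥ = ⊤`). Otherwise, if some `H1` of index `≤ ν` has an invariant `X ≠ ⊥, ⊤`,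
apply the induction to the representations of the (soluble) group `H1` on `X` and `V ⧸ X`, intersect the two subgroups (index in `H1` at most `μ n * μ n`), and use `TF.ext`. If there is no such `H1`, `scalar_all` shows that all `ρ h` are scalar, and `TF` holds with one step.
-/

set_option autoImplicit false

universe u v w

namespace P9700e

open P9700a

theorem um (n : ℕ) : ∃ μ : ℕ, ∀ (K : Type u) [Field K] [IsAlgClosed K] (V : Type v)
    [AddCommGroup V] [Module K V] [FiniteDimensional K V] (H : Type w) [Group H]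
    [Group.IsSolvable H] (ρ : H →* Module.End K V), Module.finrank K V ≤ n →
    ∃ H1 : Subgroup H, H1.index ≠ 0 ∧ H1.index ≤ μ ∧ TF (ρ '' (H1 : Set H)) := by
  induction n with
  | zero =>
    refine ⟨1, ?_⟩
    intro K _ _ V _ _ _ H _ _ ρ hn
    have h0 : Module.finrank K V = 0 := by omega
    have hsub : Subsingleton V := Module.finrank_zero_iff.1 h0
    refine ⟨⊤, by rw [Subgroup.index_top]; exact one_ne_zero,
      by rw [Subgroup.index_top], ?_⟩
    have h1 : (⊥ : Submodule K V) = ⊤ := Subsingleton.elim _ _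
    show Relation.ReflTransGen _ _ _
    rw [h1]
  | succ n ih =>
    obtain ⟨μ, hμ⟩ := ih
    refine ⟨μ * μ * ((n + 1) ^ 2 * ((n + 1) ^ 2).factorial) + 1, ?_⟩
    intro K _ _ V _ _ _ H _ _ ρ hn
    by_cases hV : Subsingleton V
    · refine ⟨⊤, by rw [Subgroup.index_top]; exact one_ne_zero,
        by rw [Subgroup.index_top]; omega, ?_⟩
      have h1 : (⊥ : Submodule K V) = ⊤ := Subsingleton.elim _ _
      show Relation.ReflTransGen _ _ _
      rw [h1]
    have hVn : Nontrivial V := not_subsingleton_iff_nontrivial.1 hV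
    by_cases hs : ∀ H1 : Subgroup H, H1.index ≠ 0 →
      H1.index ≤ Module.finrank K V ^ 2 * (Module.finrank K V ^ 2).factorial →
      ∀ X : Submodule K V, (∀ h ∈ H1, ∀ x ∈ X, ρ h x ∈ X) → X = ⊥ ∨ X = ⊤
    · refine ⟨⊤, by rw [Subgroup.index_top]; exact one_ne_zero,
        by rw [Subgroup.index_top]; omega, ?_⟩
      refine Relation.ReflTransGen.single ⟨bot_le, ?_⟩
      rintro _ ⟨x, -, rfl⟩
      obtain ⟨c, hc⟩ := scalar_all ρ hs x
      refine ⟨c, fun w _ => ?_⟩
      rw [hc, Submodule.mem_bot]
      show c • w - c • w = 0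
      exact sub_self _
    · push Not at hs
      obtain ⟨H', hH', hHi, X, hX, hX0, hX1⟩ := hs
      have hmap : ∀ h : H', ∀ x ∈ X, ρ (h : H) x ∈ X := fun h x hx => hX h h.2 x hx
      let σ0 : H' →* Module.End K X :=
        { toFun := fun h => (ρ (h : H)).restrict (hmap h)
          map_one' := by
            ext w
            show ρ ((1 : H') : H) (w : V) = (w : V)
            rw [Subgroup.coe_one, map_one]
            rfl
          map_mul' := by
            intro a b
            ext w
            show ρ ((a * b : H') : H) (w : V) = ρ (a : H) (ρ (b : H) (w : V))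
            rw [Subgroup.coe_mul, map_mul]
            rfl }
      let σ1 : H' →* Module.End K (V ⧸ X) :=
        { toFun := fun h => X.mapQ X (ρ (h : H)) (fun x hx => hmap h x hx)
          map_one' := by
            apply Submodule.linearMap_qext
            refine LinearMap.ext fun w => ?_
            show X.mkQ (ρ ((1 : H') : H) w) = X.mkQ w
            rw [Subgroup.coe_one, map_one]
            rfl
          map_mul' := by
            intro a b
            apply Submodule.linearMap_qext
            refine LinearMap.ext fun w => ?_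
            show X.mkQ (ρ ((a * b : H') : H) w) = X.mkQ (ρ (a : H) (ρ (b : H) w))
            rw [Subgroup.coe_mul, map_mul]
            rfl }
      have hf1 : Module.finrank K X < Module.finrank K V :=
        Submodule.finrank_lt hX1
      have hXn : Nontrivial X := Submodule.nontrivial_iff_ne_bot.2 hX0
      have hf2 : Module.finrank K (V ⧸ X) < Module.finrank K V := by
        have h1 := Submodule.finrank_quotient_add_finrank X
        have h2 : 0 < Module.finrank K X := Module.finrank_pos
        omega
      obtain ⟨H1, hH1, hI1, hT1⟩ := hμ K X H' σ0 (by omega)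
      obtain ⟨H2, hH2, hI2, hT2⟩ := hμ K (V ⧸ X) H' σ1 (by omega)
      have hfi1 : H1.FiniteIndex := ⟨hH1⟩
      have hfi2 : H2.FiniteIndex := ⟨hH2⟩
      have h12 : (H1 ⊓ H2).FiniteIndex := inferInstance
      have hb1 : (H1 ⊓ H2).index ≤ μ * μ :=
        Subgroup.index_inf_le.trans (Nat.mul_le_mul hI1 hI2)
      have hb2 : H'.index ≤ (n + 1) ^ 2 * ((n + 1) ^ 2).factorial := by
        refine hHi.trans ?_
        have h3 : Module.finrank K V ^ 2 ≤ (n + 1) ^ 2 := Nat.pow_le_pow_left hn 2
        exact Nat.mul_le_mul h3 (Nat.factorial_le h3)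
      refine ⟨(H1 ⊓ H2).map H'.subtype, ?_, ?_, ?_⟩
      · rw [Subgroup.index_map_subtype]
        exact mul_ne_zero h12.index_ne_zero hH'
      · rw [Subgroup.index_map_subtype]
        exact (Nat.mul_le_mul hb1 hb2).trans (Nat.le_succ _)
      · refine TF.ext X hT1 hT2 ?_
        rintro _ ⟨_, ⟨h, hh, rfl⟩, rfl⟩
        refine ⟨⟨σ0 h, ⟨h, hh.1, rfl⟩, fun w => rfl⟩, ⟨σ1 h, ⟨h, hh.2, rfl⟩, fun w => ?_⟩⟩
        rfl

end P9700e
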