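import Mathlib
import Pool.Agent.Lib.P9700a.Chain
import Pool.Agent.Lib.P9700a.ChainB
import Pool.Agent.Lib.P9700d.MatK
import Pool.Agent.Lib.P9700e.Defs
import Pool.Agent.Lib.P9700e.UMd

/-!
# A bounded-index subgroup acts on a chief factor through an abelian group

`t = (m * μ)!` with `μ` from `um e`. `V = M / M'` as a vector space over `ZMod p` (`P9700d.MatK` `exists_section` gives an additive group with the conjugation action; `AddCommGroup.zmodModule`), `finrank ≤ e`, `K = AlgebraicClosure (ZMod p)`, `W = K ⊗ V`, `ρ : G →* Module.End K W`.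
Restricted to `G0` the action factors through the soluble group `G0 ⧸ M'.subgroupOf G0` (elements of `M' ≤ G0` act trivially as `⁅M, M'⁆ ≤ M'`; soluble by `Sl`: `derivedSeries (G0 ⧸ _) k = ⊥`). `um e` gives a subgroup of it of index `≤ μ` with `TF`; its preimage `H1 ≤ G0` has index `≤ m * μ` in `G`; let `T = H1.normalCore` (in `G`), of index `≤ (m * μ)!`
(`Subgroup.index_normalCore`-like lemma: `G ⧸ normalCore` embeds into the permutations of `G ⧸ H1`; `Subgroup.index_normalCore_le_factorial` or via `MulAction.toPermHom`).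
`D = ⁅T, T⁆` acts trivially on all factors of the `TF`-chain, so `ρ d - 1` is nilpotent for `d ∈ D`, hence `(ρ d) ^ (p ^ k) = 1` for large `k` (characteristic `p`): `D` acts on the finite `p`-group `M / M'` through a `p`-group, so it has a nontrivial fixed point (`IsPGroup.card_modEq_card_fixedPoints`, or: choose `0 ≠ w ∈ W` in the first step
of the chain, fixed by `D`, and expand it in a basis of `K` over `ZMod p`). `U = {x ∈ M : ⁅x, d⁆ ∈ M' for all d ∈ D}` is a subgroup, normal in `G` (`D` normal), `M' < U ≤ M`, so `U = M` by `Chf`.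
-/

set_option autoImplicit false

open scoped commutatorElement

universe u

namespace P9700e

open P9700a

namespace ChiefTAux

/-- a common fixed vector over an extension gives one over the base field -/
theorem descend {F K ι : Type*} [Field F] [Field K] [Algebra F K] {D : ℕ}
    (M : ι → Matrix (Fin D) (Fin D) F) (v : Fin D → K) (hv : v ≠ 0)
    (h : ∀ i, ((M i).map (algebraMap F K)).mulVec v = v) :
    ∃ w : Fin D → F, w ≠ 0 ∧ ∀ i, (M i).mulVec w = w := by
  obtain ⟨j, hj⟩ := Function.ne_iff.1 hv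
  have h1 : ∃ φ : Module.Dual F K, φ (v j) ≠ 0 := by
    by_contra hcon
    push Not at hcon
    exact hj ((Module.forall_dual_apply_eq_zero_iff F (v j)).1 hcon)
  obtain ⟨φ, hφ⟩ := h1
  refine ⟨fun l => φ (v l), fun h0 => hφ (congrFun h0 j), fun i => ?_⟩
  funext l
  have h2 := congrArg φ (congrFun (h i) l)
  rw [← h2]
  simp only [Matrix.mulVec, dotProduct, Matrix.map_apply, map_sum]
  refine Finset.sum_congr rfl fun a _ => ?_
  rw [← Algebra.smul_def, map_smul, smul_eq_mul]

/-- coordinates -/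
theorem exists_equiv (p : ℕ) [Fact p.Prime] (T : Type*) [AddCommGroup T] [Finite T]
    [Module (ZMod p) T] : ∃ (D : ℕ) (_ : T ≃+ (Fin D → ZMod p)), Nat.card T = p ^ D := by
  have hTf : Module.Finite (ZMod p) T := Module.Finite.of_finite
  refine ⟨Module.finrank (ZMod p) T, (Module.finBasis (ZMod p) T).equivFun.toAddEquiv, ?_⟩
  have h1 : Nat.card T = Nat.card (ZMod p) ^ Module.finrank (ZMod p) T :=
    Module.natCard_eq_pow_finrank
  rw [h1, Nat.card_zmod]

/-- index of the core -/
theorem core_index {G : Type*} [Group G] (H : Subgroup G) (h : H.index ≠ 0) :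
    H.normalCore.index ≠ 0 ∧ H.normalCore.index ≤ H.index.factorial := by
  have i1 : Finite (G ⧸ H) := by
    have : H.FiniteIndex := ⟨h⟩
    infer_instance
  have i2 : Finite (Equiv.Perm (G ⧸ H)) := inferInstance
  have h1 : H.normalCore.index = Nat.card (MulAction.toPermHom G (G ⧸ H)).range := by
    rw [Subgroup.normalCore_eq_ker, Subgroup.index_ker]
  have h2 : Nat.card (MulAction.toPermHom G (G ⧸ H)).range ≤ H.index.factorial := by
    have h3 : Nat.card (Equiv.Perm (G ⧸ H)) = H.index.factorial := by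
      rw [Nat.card_perm]
      rfl
    rw [← h3]
    exact Nat.card_le_card_of_injective _ Subtype.val_injective
  refine ⟨?_, h1 ▸ h2⟩
  rw [h1]
  exact Nat.card_pos.ne'

/-- the elements of `M` centralised by `D` modulo `M'` -/
def Cen {G : Type*} [Group G] (M M' D : Subgroup G) [M.Normal] [M'.Normal] : Subgroup G where
  carrier := {x | x ∈ M ∧ ∀ d ∈ D, ⁅x, d⁆ ∈ M'}
  one_mem' := ⟨M.one_mem, fun d _ => by rw [commutatorElement_one_left]; exact M'.one_mem⟩
  mul_mem' := by
    rintro x y ⟨h1, h2⟩ ⟨h3, h4⟩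
    refine ⟨M.mul_mem h1 h3, fun d hd => ?_⟩
    have e : ⁅x * y, d⁆ = x * ⁅y, d⁆ * x⁻¹ * ⁅x, d⁆ := by
      simp only [commutatorElement_def]
      group
    rw [e]
    exact M'.mul_mem (Subgroup.Normal.conj_mem inferInstance _ (h4 d hd) x) (h2 d hd)
  inv_mem' := by
    rintro x ⟨h1, h2⟩
    refine ⟨M.inv_mem h1, fun d hd => ?_⟩
    have e : ⁅x⁻¹, d⁆ = x⁻¹ * ⁅x, d⁆⁻¹ * (x⁻¹)⁻¹ := by
      simp only [commutatorElement_def]
      group
    rw [e]
    exact Subgroup.Normal.conj_mem inferInstance _ (M'.inv_mem (h2 d hd)) x⁻¹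

theorem Cen_normal {G : Type*} [Group G] (M M' D : Subgroup G) [M.Normal] [M'.Normal]
    [D.Normal] : (Cen M M' D).Normal := by
  refine ⟨fun x hx g => ?_⟩
  obtain ⟨h1, h2⟩ := hx
  refine ⟨Subgroup.Normal.conj_mem inferInstance _ h1 g, fun d hd => ?_⟩
  have h3 := h2 (g⁻¹ * d * g) (by
    have := Subgroup.Normal.conj_mem (inferInstance : D.Normal) _ hd g⁻¹
    rwa [inv_inv] at this)
  have e : ⁅g * x * g⁻¹, d⁆ = g * ⁅x, g⁻¹ * d * g⁆ * g⁻¹ := by
    simp only [commutatorElement_def]
    group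
  rw [e]
  exact Subgroup.Normal.conj_mem inferInstance _ h3 g

end ChiefTAux

open ChiefTAux

theorem chief_T (e m : ℕ) : ∃ t : ℕ, ∀ (G : Type u) [Group G] (G0 M M' : Subgroup G) (p : ℕ),
    p.Prime → G0.Normal → G0.index ≠ 0 → G0.index ≤ m → Sl G0 M' → M ≤ G0 → Chf M M' →
    ⁅M, M⁆ ≤ M' → (∀ x ∈ M, x ^ p ∈ M') → M'.relIndex M ≤ p ^ e →
    ∃ T : Subgroup G, T.Normal ∧ T.index ≠ 0 ∧ T.index ≤ t ∧ ⁅M, ⁅T, T⁆⁆ ≤ M' := by
  obtain ⟨μ, hμ⟩ := um.{0, 0, u} e
  refine ⟨(μ * m).factorial, ?_⟩
  intro G _ G0 M M' p hp hG0 hG0i hG0m hSl hMG0 hCh hcomm hpow hcard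
  have hpf : Fact p.Prime := ⟨hp⟩
  obtain ⟨iM, iM', hlt, hmin⟩ := hCh
  obtain ⟨-, iM'f, hM'G0, k, hk⟩ := hSl
  obtain ⟨T, iT, π, ρ, hπ1, hπ2, hπ3, hπ4, hπ5⟩ := P9700d.MatKAux.exists_section M M' hcomm
  have hTfin : Finite T := by
    refine Nat.finite_of_card_ne_zero ?_
    rw [hπ5]
    exact Subgroup.FiniteIndex.index_ne_zero (H := M'.subgroupOf M)
  have hπone : π 1 = 0 := (hπ3 1).2 M'.one_mem
  have hπpow : ∀ (n : ℕ) (x : M), π (x ^ n) = n • π x := by
    intro n x
    induction n with
    | zero => rw [pow_zero, zero_smul, hπone]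
    | succ n ih => rw [pow_succ, hπ1, ih, succ_nsmul]
  have hpT : ∀ y : T, p • y = 0 := by
    intro y
    obtain ⟨x, rfl⟩ := hπ2 y
    rw [← hπpow, hπ3]
    exact hpow x x.2
  obtain ⟨D, b, hDc⟩ := @exists_equiv p _ T iT hTfin (AddCommGroup.zmodModule hpT)
  have hDe : D ≤ e := by
    rw [hπ5] at hDc
    rw [hDc] at hcard
    exact (Nat.pow_le_pow_iff_right hp.one_lt).1 hcard
  obtain ⟨F, hF⟩ := P9700d.MatKAux.exists_matrix b
  -- the representation over the algebraic closure
  let K := AlgebraicClosure (ZMod p)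
  let α : G →* Matrix (Fin D) (Fin D) (ZMod p) := F.comp ρ
  let β : G →* Module.End K (Fin D → K) :=
    ((Matrix.toLinAlgEquiv' (R := K) (n := Fin D)).toAlgHom.toRingHom.toMonoidHom).comp
      ((RingHom.mapMatrix (algebraMap (ZMod p) K)).toMonoidHom.comp α)
  have hβ : ∀ g v, β g v = ((α g).map (algebraMap (ZMod p) K)).mulVec v := fun g v => rfl
  -- elements of `M'` act trivially
  have htriv : ∀ g ∈ M', ρ g = 1 := by
    intro g hg
    ext y
    obtain ⟨x, rfl⟩ := hπ2 y
    rw [hπ4]
    change _ = π x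
    have h1 : MulAut.conjNormal g x = (MulAut.conjNormal g x * x⁻¹) * x := by group
    rw [h1, hπ1]
    have h2 : π (MulAut.conjNormal g x * x⁻¹) = 0 := by
      rw [hπ3]
      have h3 : ((MulAut.conjNormal g x * x⁻¹ : M) : G) = ⁅g, (x : G)⁆ := by
        rw [commutatorElement_def]
        rfl
      rw [h3]
      exact hcomm (Subgroup.commutator_mem_commutator (hlt.le hg) x.2)
    rw [h2, zero_add]
  let N0 : Subgroup G0 := M'.subgroupOf G0
  have iN0 : N0.Normal := iM'.subgroupOf G0
  let γ : G0 ⧸ N0 →* Module.End K (Fin D → K) := QuotientGroup.lift N0 (β.comp G0.subtype) (by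
    intro x hx
    have h1 : (x : G) ∈ M' := hx
    rw [MonoidHom.mem_ker]
    change β (x : G) = 1
    change (((Matrix.toLinAlgEquiv' (R := K) (n := Fin D)).toAlgHom.toRingHom.toMonoidHom).comp
      ((RingHom.mapMatrix (algebraMap (ZMod p) K)).toMonoidHom.comp F)) (ρ (x : G)) = 1
    rw [htriv _ h1, map_one])
  have hsol : Group.IsSolvable (G0 ⧸ N0) := by
    rw [Group.isSolvable_def]
    refine ⟨k, ?_⟩
    rw [← map_derivedSeries_eq (QuotientGroup.mk'_surjective N0), Subgroup.map_eq_bot_iff,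
      QuotientGroup.ker_mk']
    intro x hx
    exact hk ⟨x, hx, rfl⟩
  obtain ⟨H1, hH1, hH1μ, hTF⟩ := hμ K (Fin D → K) (G0 ⧸ N0) γ (by
    rw [Module.finrank_fin_fun]
    exact hDe)
  -- the preimage
  let H2 : Subgroup G := (H1.comap (QuotientGroup.mk' N0)).map G0.subtype
  have hH2i : H2.index = H1.index * G0.index := by
    change ((H1.comap (QuotientGroup.mk' N0)).map G0.subtype).index = _
    rw [Subgroup.index_map_subtype,
      Subgroup.index_comap_of_surjective H1 (QuotientGroup.mk'_surjective N0)]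
  have hH2n : H2.index ≠ 0 := by
    rw [hH2i]
    exact mul_ne_zero hH1 hG0i
  obtain ⟨hT1, hT2⟩ := core_index H2 hH2n
  have iTn : H2.normalCore.Normal := Subgroup.normalCore_normal H2
  refine ⟨H2.normalCore, iTn, hT1, hT2.trans (Nat.factorial_le ?_), ?_⟩
  · rw [hH2i]
    exact Nat.mul_le_mul hH1μ hG0m
  -- a fixed vector
  have hTnt : Nontrivial T := by
    obtain ⟨x, hx, hx'⟩ := Set.exists_of_ssubset hlt
    exact ⟨π ⟨x, hx⟩, 0, fun h => hx' ((hπ3 ⟨x, hx⟩).1 h)⟩
  have hDpos : 0 < D := by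
    rcases Nat.eq_zero_or_pos D with h0 | h0
    · rw [h0, pow_zero] at hDc
      have := Finite.one_lt_card (α := T)
      omega
    · exact h0
  have : Nonempty (Fin D) := ⟨⟨0, hDpos⟩⟩
  obtain ⟨v, hv, hev⟩ := hTF.eigen
  have hmemH : ∀ g ∈ H2.normalCore, ∃ c : K, β g v = c • v := by
    intro g hg
    obtain ⟨x, hx, rfl⟩ := Subgroup.normalCore_le H2 hg
    exact hev (γ (QuotientGroup.mk' N0 x)) ⟨_, hx, rfl⟩
  have hfix : ∀ d ∈ ⁅H2.normalCore, H2.normalCore⁆, β d v = v := by
    have hle : ⁅H2.normalCore, H2.normalCore⁆ ≤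
        { carrier := {d : G | β d v = v}
          one_mem' := by
            change β 1 v = v
            rw [map_one]
            rfl
          mul_mem' := by
            intro x y hx hy
            change β (x * y) v = v
            rw [map_mul]
            change β x (β y v) = v
            rw [show β y v = v from hy]
            exact hx
          inv_mem' := by
            intro x hx
            change β x⁻¹ v = v
            have h1 : β x⁻¹ (β x v) = v := by
              rw [← Module.End.mul_apply, ← map_mul, inv_mul_cancel, map_one]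
              rfl
            rwa [show β x v = v from hx] at h1 : Subgroup G } := by
      rw [Subgroup.commutator_le]
      intro x hx y hy
      change β ⁅x, y⁆ v = v
      obtain ⟨c, hc⟩ := hmemH x hx
      obtain ⟨c', hc'⟩ := hmemH y hy
      obtain ⟨c1, hc1⟩ := hmemH x⁻¹ (inv_mem hx)
      obtain ⟨c2, hc2⟩ := hmemH y⁻¹ (inv_mem hy)
      have h1 : c * c1 = 1 := by
        have h2 : β x (β x⁻¹ v) = v := by
          rw [← Module.End.mul_apply, ← map_mul, mul_inv_cancel, map_one]
          rfl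
        rw [hc1, map_smul, hc, smul_smul] at h2
        have h3 : (c1 * c - 1) • v = 0 := by rw [sub_smul, h2, one_smul, sub_self]
        have h4 := (smul_eq_zero.1 h3).resolve_right hv
        rw [mul_comm]
        exact sub_eq_zero.1 h4
      have h1' : c' * c2 = 1 := by
        have h2 : β y (β y⁻¹ v) = v := by
          rw [← Module.End.mul_apply, ← map_mul, mul_inv_cancel, map_one]
          rfl
        rw [hc2, map_smul, hc', smul_smul] at h2
        have h3 : (c2 * c' - 1) • v = 0 := by rw [sub_smul, h2, one_smul, sub_self]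
        have h4 := (smul_eq_zero.1 h3).resolve_right hv
        rw [mul_comm]
        exact sub_eq_zero.1 h4
      rw [commutatorElement_def, map_mul, map_mul, map_mul]
      change β x (β y (β x⁻¹ (β y⁻¹ v))) = v
      rw [hc2, map_smul (β x⁻¹), hc1, map_smul (β y), map_smul (β y), hc', map_smul (β x),
        map_smul (β x), map_smul (β x), hc, smul_smul, smul_smul, smul_smul]
      have h5 : c2 * (c1 * (c' * c)) = 1 := by
        calc c2 * (c1 * (c' * c)) = (c * c1) * (c' * c2) := by ring
          _ = 1 := by rw [h1, h1', one_mul]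
      have h6 : c2 * c1 * c' * c = 1 := by
        rw [← h5]
        ring
      rw [h6, one_smul]
    exact fun d hd => hle hd
  obtain ⟨w, hw, hwf⟩ := descend (K := K)
    (fun d : ↥(⁅H2.normalCore, H2.normalCore⁆ : Subgroup G) => α (d : G)) v hv (fun d => by
      rw [← hβ]
      exact hfix d d.2)
  -- back in `M`
  obtain ⟨x0, hx0⟩ := hπ2 (b.symm w)
  have hx0M' : (x0 : G) ∉ M' := by
    intro h
    rw [← hπ3, hx0] at h
    exact hw (by
      have := congrArg b h
      rwa [AddEquiv.apply_symm_apply, map_zero] at this)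
  have hx0c : ∀ d ∈ ⁅H2.normalCore, H2.normalCore⁆, ⁅(x0 : G), d⁆ ∈ M' := by
    intro d hd
    have h1 : ρ d (π x0) = π x0 := by
      apply b.injective
      rw [hF, hx0, AddEquiv.apply_symm_apply]
      exact hwf ⟨d, hd⟩
    rw [hπ4] at h1
    have h2 : π (x0 * (MulAut.conjNormal d x0)⁻¹) = 0 := by
      have h3 : π (x0 * (MulAut.conjNormal d x0)⁻¹) + π (MulAut.conjNormal d x0) = π x0 := by
        rw [← hπ1]
        congr 1
        group
      rw [h1] at h3
      exact left_eq_add.1 (by rw [add_comm]; exact h3.symm)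
    rw [hπ3] at h2
    have h4 : ((x0 * (MulAut.conjNormal d x0)⁻¹ : M) : G) = ⁅(x0 : G), d⁆ := by
      rw [commutatorElement_def]
      change (x0 : G) * (d * x0 * d⁻¹)⁻¹ = _
      group
    rwa [h4] at h2
  have iC : (Cen M M' ⁅H2.normalCore, H2.normalCore⁆).Normal := Cen_normal _ _ _
  have h1 : Cen M M' ⁅H2.normalCore, H2.normalCore⁆ = M := by
    refine (hmin _ iC ?_ ?_).resolve_left ?_
    · intro x hx
      refine ⟨hlt.le hx, fun d _ => ?_⟩
      rw [commutatorElement_def]
      have e : x * d * x⁻¹ * d⁻¹ = x * (d * x⁻¹ * d⁻¹) := by group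
      rw [e]
      exact M'.mul_mem hx (iM'.conj_mem _ (M'.inv_mem hx) d)
    · exact fun x hx => hx.1
    · intro h
      apply hx0M'
      rw [← h]
      exact ⟨x0.2, hx0c⟩
  rw [Subgroup.commutator_le]
  intro x hx d hd
  rw [← h1] at hx
  exact hx.2 d hd

end P9700e
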