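import Mathlib
import Pool.Agent.Lib.P9700e.Defs
import Pool.Agent.Lib.P9700e.Defs2

/-!
# Chief chains

`N ≤ M` are normal in `G`, `N` of finite index. Define the chain by recursion: given `N ≤ c i` normal, if `c i ≠ N` choose a maximal one among the normal subgroups `U` of `G` with `N ≤ U < c i` (there are finitely many subgroups above `N`; or choose one of smallest index): `Chf (c i) U`; put `c (i+1) = U`; if `c i = N` put `c (i+1) = N`. The index of `c i` strictly
increases while `c i ≠ N` and is bounded by `N.index`, so `c i = N` for `i ≥ N.index`.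
-/

set_option autoImplicit false

namespace P9700e

namespace ChnAux

theorem exists_max {G : Type*} [Group G] (U N : Subgroup G) (hU : U.Normal) (hN : N.Normal)
    (hNi : N.FiniteIndex) (h : N ≤ U) (hne : U ≠ N) :
    ∃ V : Subgroup G, V.Normal ∧ N ≤ V ∧ V < U ∧ Chf U V := by
  classical
  have hex : ∃ n : ℕ, ∃ V : Subgroup G, V.Normal ∧ N ≤ V ∧ V < U ∧ V.index = n :=
    ⟨_, N, hN, le_rfl, lt_of_le_of_ne h hne.symm, rfl⟩
  obtain ⟨V, hV, hNV, hVU, hVi⟩ := Nat.find_spec hex
  refine ⟨V, hV, hNV, hVU, hU, hV, hVU, ?_⟩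
  intro W hW hVW hWU
  by_cases hWU' : W = U
  · exact Or.inr hWU'
  · left
    by_contra hWV
    have h1 : V < W := lt_of_le_of_ne hVW (Ne.symm hWV)
    have i1 : V.FiniteIndex := Subgroup.finiteIndex_of_le hNV
    have h2 : W.index < V.index := Subgroup.index_strictAnti h1
    have h3 : V.index ≤ W.index := by
      rw [hVi]
      exact Nat.find_min' hex ⟨W, hW, hNV.trans hVW, lt_of_le_of_ne hWU hWU', rfl⟩
    omega

end ChnAux

open ChnAux in
theorem exists_chain {G : Type*} [Group G] (M N : Subgroup G) (hM : M.Normal) (hN : N.Normal)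
    (hNi : N.FiniteIndex) (h : N ≤ M) :
    ∃ (c : ℕ → Subgroup G) (l : ℕ), c 0 = M ∧ (∀ i, l ≤ i → c i = N) ∧ (∀ i, (c i).Normal) ∧
      (∀ i, N ≤ c i) ∧ (∀ i, c (i + 1) ≤ c i) ∧
      ∀ i, Chf (c i) (c (i + 1)) ∨ (c i = N ∧ c (i + 1) = N) := by
  classical
  have hstep : ∀ U : {U : Subgroup G // U.Normal ∧ N ≤ U}, ∃ V : {U : Subgroup G // U.Normal ∧ N ≤ U},
      (V.1 ≤ U.1) ∧ ((U.1 = N ∧ V.1 = N) ∨ (V.1 < U.1 ∧ Chf U.1 V.1)) := by
    rintro ⟨U, hU, hNU⟩
    by_cases hUN : U = N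
    · exact ⟨⟨U, hU, hNU⟩, le_rfl, Or.inl ⟨hUN, hUN⟩⟩
    · obtain ⟨V, hV, hNV, hVU, hC⟩ := exists_max U N hU hN hNi hNU hUN
      exact ⟨⟨V, hV, hNV⟩, hVU.le, Or.inr ⟨hVU, hC⟩⟩
  choose f hf1 hf2 using hstep
  obtain ⟨c, hc⟩ : ∃ c : ℕ → {U : Subgroup G // U.Normal ∧ N ≤ U}, c = fun i =>
    f^[i] ⟨M, hM, h⟩ := ⟨_, rfl⟩
  have hc0 : c 0 = ⟨M, hM, h⟩ := by rw [hc]; rfl
  have hcs : ∀ i, c (i + 1) = f (c i) := by
    intro i
    rw [hc]
    exact Function.iterate_succ_apply' f i _
  have hfi : ∀ i, (c i).1.FiniteIndex := fun i => Subgroup.finiteIndex_of_le (c i).2.2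
  have hstab : ∀ i, (c i).1 = N → (c (i + 1)).1 = N := by
    intro i hi
    rw [hcs]
    rcases hf2 (c i) with h1 | h1
    · exact h1.2
    · exact absurd (lt_of_lt_of_le h1.1 hi.le) (not_lt_of_ge (f (c i)).2.2)
  have hgrow : ∀ i, (c i).1 = N ∨ i + 1 ≤ (c i).1.index := by
    intro i
    induction i with
    | zero =>
      right
      have := (hfi 0).index_ne_zero
      omega
    | succ i ih =>
      by_cases hi : (c i).1 = N
      · exact Or.inl (hstab i hi)
      · right
        have h1 : i + 1 ≤ (c i).1.index := ih.resolve_left hi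
        have h2 : (c (i + 1)).1 < (c i).1 := by
          rw [hcs]
          rcases hf2 (c i) with h1 | h1
          · exact absurd h1.1 hi
          · exact h1.1
        have i1 := hfi (i + 1)
        have h3 := Subgroup.index_strictAnti h2
        omega
  refine ⟨fun i => (c i).1, N.index, ?_, ?_, fun i => (c i).2.1, fun i => (c i).2.2, ?_, ?_⟩
  · show (c 0).1 = M
    rw [hc0]
  · intro i hi
    rcases hgrow i with h1 | h1
    · exact h1
    · exfalso
      have h2 : (c i).1.index ≤ N.index := Subgroup.index_antitone (c i).2.2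
      omega
  · intro i
    show (c (i + 1)).1 ≤ (c i).1
    rw [hcs]
    exact hf1 (c i)
  · intro i
    show Chf (c i).1 (c (i + 1)).1 ∨ ((c i).1 = N ∧ (c (i + 1)).1 = N)
    rw [hcs]
    rcases hf2 (c i) with h1 | h1
    · exact Or.inr h1
    · exact Or.inl h1.2

end P9700e
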