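import Mathlib
import Pool.Agent.Lib.P9700e.Defs

/-!
# Generators of a subdirect product of groups of coprime orders

`Y` embeds into `∏ (p ∈ S), Y ⧸ N p` (a finite group; `S` finite; `hint`), so `Y` is finite, and `Nat.card Y` is divisible by every `(N p).index`, pairwise coprime prime powers, so by their product: the embedding is bijective (count). Write the generators for `p` as a family `x p : Fin ρ → Y` (pad with `1`). By surjectivity choose `z : Fin ρ → Y` with `z j ≡ x p j` mod `N p` for all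
`p ∈ S`. `Z = closure (range z)`: `Z ⊔ N p = ⊤` for `p ∈ S`, so `(N p).index` divides `Nat.card Z` (`Z / (Z ⊓ N p) ≅ Y / N p`), hence `Nat.card Y = ∏ (N p).index` divides `Nat.card Z`, `Z = ⊤`. (Alternatively by induction on `S`.)
-/

set_option autoImplicit false

namespace P9700e

namespace CopGAux

/-- the intersection of the `N p`, `p ∈ S` -/
def MM {Y : Type*} [Group Y] (N : ℕ → Subgroup Y) (S : Finset ℕ) : Subgroup Y := ⨅ p ∈ S, N p

theorem mem_MM {Y : Type*} [Group Y] {N : ℕ → Subgroup Y} {S : Finset ℕ} {y : Y} :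
    y ∈ MM N S ↔ ∀ p ∈ S, y ∈ N p := by
  simp [MM, Subgroup.mem_iInf]

theorem main {Y : Type*} [Group Y] (N : ℕ → Subgroup Y) (S : Finset ℕ) :
    (∀ p ∈ S, p.Prime) → (∀ p ∈ S, (N p).Normal) → (∀ p ∈ S, ∃ k : ℕ, (N p).index = p ^ k) →
    (MM N S).index ∣ ∏ p ∈ S, (N p).index ∧
      ∀ x : ℕ → Y, ∃ z : Y, ∀ p ∈ S, z⁻¹ * x p ∈ N p := by
  classical
  induction S using Finset.induction_on with
  | empty =>
    intro _ _ _
    constructor
    · have : MM N ∅ = ⊤ := by
        rw [eq_top_iff]
        intro y _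
        rw [mem_MM]
        simp
      rw [this]
      simp
    · intro x
      exact ⟨1, by simp⟩
  | insert q S hq ih =>
    intro hS hN hi
    obtain ⟨ih1, ih2⟩ := ih (fun p hp => hS p (Finset.mem_insert_of_mem hp))
      (fun p hp => hN p (Finset.mem_insert_of_mem hp))
      (fun p hp => hi p (Finset.mem_insert_of_mem hp))
    haveI hNq : (N q).Normal := hN q (Finset.mem_insert_self _ _)
    have hqp : q.Prime := hS q (Finset.mem_insert_self _ _)
    haveI hMn : (MM N S).Normal := by
      constructor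
      intro n hn g
      rw [mem_MM] at hn ⊢
      intro p hp
      exact (hN p (Finset.mem_insert_of_mem hp)).conj_mem n (hn p hp) g
    have hMM : MM N (insert q S) = N q ⊓ MM N S := by
      ext y
      rw [Subgroup.mem_inf, mem_MM, mem_MM]
      simp
    constructor
    · rw [hMM, Finset.prod_insert hq]
      have h1 : (N q ⊓ MM N S).index = (N q).relIndex (MM N S) * (MM N S).index := by
        rw [← Subgroup.inf_relIndex_right, Subgroup.relIndex_mul_index inf_le_right]
      rw [h1]
      exact Nat.mul_dvd_mul (Subgroup.relIndex_dvd_index_of_normal _ _) ih1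
    · intro x
      obtain ⟨z, hz⟩ := ih2 x
      have htop : MM N S ⊔ N q = ⊤ := by
        rw [← Subgroup.index_eq_one]
        have h1 : (MM N S ⊔ N q).index ∣ ∏ p ∈ S, (N p).index :=
          (Subgroup.index_dvd_of_le le_sup_left).trans ih1
        have h2 : (MM N S ⊔ N q).index ∣ (N q).index := Subgroup.index_dvd_of_le le_sup_right
        have hcop : Nat.Coprime (∏ p ∈ S, (N p).index) (N q).index := by
          apply Nat.Coprime.prod_left
          intro p hp
          obtain ⟨k, hk⟩ := hi p (Finset.mem_insert_of_mem hp)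
          obtain ⟨l, hl⟩ := hi q (Finset.mem_insert_self _ _)
          rw [hk, hl]
          apply Nat.Coprime.pow
          rw [Nat.coprime_primes (hS p (Finset.mem_insert_of_mem hp)) hqp]
          rintro rfl
          exact hq hp
        exact Nat.eq_one_of_dvd_coprimes hcop h1 h2
      have hmem : z⁻¹ * x q ∈ MM N S ⊔ N q := by
        rw [htop]
        exact Subgroup.mem_top _
      obtain ⟨m, hm, n, hn, hmn⟩ := Subgroup.mem_sup_of_normal_right.mp hmem
      refine ⟨z * m, ?_⟩
      intro p hp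
      rw [Finset.mem_insert] at hp
      rcases hp with rfl | hp
      · have : (z * m)⁻¹ * x p = n := by
          rw [mul_inv_rev, mul_assoc, ← hmn, inv_mul_cancel_left]
        rw [this]
        exact hn
      · have : (z * m)⁻¹ * x p = m⁻¹ * (z⁻¹ * x p) := by
          rw [mul_inv_rev, mul_assoc]
        rw [this]
        exact (N p).mul_mem ((N p).inv_mem (mem_MM.mp hm p hp)) (hz p hp)

end CopGAux

open CopGAux

theorem gen_of_coprime {Y : Type*} [Group Y] (S : Finset ℕ) (hS : ∀ p ∈ S, p.Prime)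
    (N : ℕ → Subgroup Y) (hN : ∀ p ∈ S, (N p).Normal) (hi : ∀ p ∈ S, ∃ k : ℕ, (N p).index = p ^ k)
    (hint : ∀ y, (∀ p ∈ S, y ∈ N p) → y = 1) (ρ : ℕ)
    (hg : ∀ p ∈ S, ∃ s : Finset Y, s.card ≤ ρ ∧ Subgroup.closure (s : Set Y) ⊔ N p = ⊤) :
    ∃ s : Finset Y, s.card ≤ ρ ∧ Subgroup.closure (s : Set Y) = ⊤ := by
  classical
  obtain ⟨h1, h2⟩ := main N S hS hN hi
  have hbot : MM N S = ⊥ := by
    rw [eq_bot_iff]
    intro y hy
    rw [Subgroup.mem_bot]
    exact hint y (mem_MM.mp hy)
  rw [hbot, Subgroup.index_bot] at h1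
  have hidx : ∀ p ∈ S, (N p).index ≠ 0 := by
    intro p hp
    obtain ⟨k, hk⟩ := hi p hp
    rw [hk]
    exact pow_ne_zero _ (hS p hp).ne_zero
  have hprod : ∏ p ∈ S, (N p).index ≠ 0 := Finset.prod_ne_zero_iff.mpr hidx
  have hY0 : Nat.card Y ≠ 0 := fun h => hprod (by rw [h] at h1; exact Nat.eq_zero_of_zero_dvd h1)
  haveI : Finite Y := Nat.finite_of_card_ne_zero hY0
  -- padded generators
  have hx : ∀ p, ∃ x : Fin ρ → Y, p ∈ S → Subgroup.closure (Set.range x) ⊔ N p = ⊤ := by
    intro p
    by_cases hp : p ∈ S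
    · obtain ⟨s, hs1, hs2⟩ := hg p hp
      refine ⟨fun j => if h : (j : ℕ) < s.card then (s.equivFin.symm ⟨j, h⟩ : Y) else 1, ?_⟩
      intro _
      rw [eq_top_iff, ← hs2]
      apply sup_le_sup_right
      apply Subgroup.closure_mono
      intro y hy
      have hy' : y ∈ s := hy
      refine ⟨⟨(s.equivFin ⟨y, hy'⟩ : ℕ), lt_of_lt_of_le (Fin.is_lt _) hs1⟩, ?_⟩
      simp
    · exact ⟨fun _ => 1, fun h => absurd h hp⟩
  choose x hx using hx
  have hz : ∀ j : Fin ρ, ∃ z : Y, ∀ p ∈ S, z⁻¹ * x p j ∈ N p := fun j => h2 (fun p => x p j)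
  choose z hz using hz
  refine ⟨Finset.univ.image z, Finset.card_image_le.trans (by simp), ?_⟩
  have hcoe : ((Finset.univ.image z : Finset Y) : Set Y) = Set.range z := by simp
  rw [hcoe]
  obtain ⟨Z, hZ⟩ : ∃ Z, Z = Subgroup.closure (Set.range z) := ⟨_, rfl⟩
  rw [← hZ]
  have hZN : ∀ p ∈ S, Z ⊔ N p = ⊤ := by
    intro p hp
    rw [eq_top_iff, ← hx p hp]
    apply sup_le _ le_sup_right
    rw [Subgroup.closure_le]
    rintro _ ⟨j, rfl⟩
    have h3 : x p j = z j * ((z j)⁻¹ * x p j) := by group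
    rw [h3]
    apply Subgroup.mul_mem_sup
    · rw [hZ]
      exact Subgroup.subset_closure ⟨j, rfl⟩
    · exact hz j p hp
  have hdiv : ∀ p ∈ S, (N p).index ∣ Nat.card Z := by
    intro p hp
    haveI := hN p hp
    have h4 : (N p).relIndex Z = (N p).index := by
      rw [← Subgroup.relIndex_sup_right, hZN p hp, Subgroup.relIndex_top_right]
    rw [← h4]
    exact Subgroup.relIndex_dvd_card _ _
  have hdiv2 : ∏ p ∈ S, (N p).index ∣ Nat.card Z := by
    apply Finset.prod_dvd_of_isRelPrime _ hdiv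
    intro p hp q hq hpq
    obtain ⟨k, hk⟩ := hi p hp
    obtain ⟨l, hl⟩ := hi q hq
    simp only [Function.onFun]
    rw [hk, hl]
    rw [← Nat.coprime_iff_isRelPrime]
    apply Nat.Coprime.pow
    rw [Nat.coprime_primes (hS p hp) (hS q hq)]
    exact hpq
  apply Subgroup.eq_top_of_le_card
  exact Nat.le_of_dvd Nat.card_pos (h1.trans hdiv2)

end P9700e
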