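import Mathlib
import Pool.Agent.Lib.P9700e.Defs

/-!
# Coprime elements stabilising a chain of a `p`-group centralise it

Downward induction: `g` centralises `c i`. For `i = n` trivial. If `g` centralises `c (i+1)` and `u ∈ c i`: `z = ⁅g, u⁆ ∈ c (i+1)`, `g u g⁻¹ = z u`, `g z g⁻¹ = z`, so `g ^ k u g⁻¹ ^ k = z ^ k u`; for `k = orderOf g`: `z ^ k = 1`, `z` is in the `p`-group `c 0` and `k` is prime to `p`, so `z = 1`.
-/

set_option autoImplicit false

open scoped commutatorElement

namespace P9700e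

theorem coprime_stab {X : Type*} [Group X] {p : ℕ} [Fact p.Prime] (c : ℕ → Subgroup X) (n : ℕ)
    (hp : IsPGroup p (c 0)) (hanti : ∀ i, c (i + 1) ≤ c i) (hn : c n = ⊥) (g : X)
    (hg0 : 0 < orderOf g) (hg : ¬ p ∣ orderOf g) (hst : ∀ i, ∀ u ∈ c i, ⁅g, u⁆ ∈ c (i + 1)) :
    ∀ u ∈ c 0, g * u = u * g := by
  have hc0 : ∀ i, c i ≤ c 0 := by
    intro i
    induction i with
    | zero => exact le_rfl
    | succ i ih => exact (hanti i).trans ih
  have key : ∀ k i, i + k = n → ∀ u ∈ c i, g * u = u * g := by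
    intro k
    induction k with
    | zero =>
      intro i hi u hu
      rw [Nat.add_zero] at hi
      rw [hi, hn, Subgroup.mem_bot] at hu
      rw [hu, mul_one, one_mul]
    | succ k ih =>
      intro i hi u hu
      have hz : ⁅g, u⁆ ∈ c (i + 1) := hst i u hu
      have hgz : g * ⁅g, u⁆ = ⁅g, u⁆ * g := ih (i + 1) (by omega) _ hz
      have hgu : g * u = ⁅g, u⁆ * u * g := by
        rw [commutatorElement_def]
        group
      have hpow : ∀ m : ℕ, g ^ m * u = ⁅g, u⁆ ^ m * u * g ^ m := by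
        intro m
        induction m with
        | zero => simp
        | succ m ihm =>
          have h1 : g * ⁅g, u⁆ ^ m = ⁅g, u⁆ ^ m * g :=
            ((show Commute g ⁅g, u⁆ from hgz).pow_right m).eq
          calc g ^ (m + 1) * u = g * (g ^ m * u) := by rw [pow_succ', mul_assoc]
            _ = g * (⁅g, u⁆ ^ m * u * g ^ m) := by rw [ihm]
            _ = g * ⁅g, u⁆ ^ m * u * g ^ m := by simp only [mul_assoc]
            _ = ⁅g, u⁆ ^ m * (g * u) * g ^ m := by rw [h1]; simp only [mul_assoc]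
            _ = ⁅g, u⁆ ^ m * (⁅g, u⁆ * u * g) * g ^ m := by rw [← hgu]
            _ = ⁅g, u⁆ ^ (m + 1) * u * g ^ (m + 1) := by
              rw [pow_succ, pow_succ' g m]
              simp only [mul_assoc]
      have hm := hpow (orderOf g)
      rw [pow_orderOf_eq_one, one_mul, mul_one] at hm
      have hz1 : ⁅g, u⁆ ^ orderOf g = 1 := by
        have h2 : 1 * u = ⁅g, u⁆ ^ orderOf g * u := by rw [one_mul]; exact hm
        exact (mul_right_cancel h2).symm
      obtain ⟨j, hj⟩ := hp ⟨⁅g, u⁆, hc0 _ hz⟩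
      have hj' : ⁅g, u⁆ ^ p ^ j = 1 := by
        have h3 := congrArg Subtype.val hj
        simpa using h3
      have hcop : Nat.Coprime (orderOf g) (p ^ j) :=
        (((Fact.out : p.Prime).coprime_iff_not_dvd.mpr hg).symm).pow_right j
      have h4 : orderOf ⁅g, u⁆ ∣ 1 := by
        have h5 := Nat.dvd_gcd (orderOf_dvd_of_pow_eq_one hz1) (orderOf_dvd_of_pow_eq_one hj')
        rwa [hcop] at h5
      have h6 : ⁅g, u⁆ = 1 := orderOf_eq_one_iff.mp (Nat.dvd_one.mp h4)
      rw [hgu, h6, one_mul]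
  exact fun u hu => key n 0 (Nat.zero_add n) u hu

end P9700e
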