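import Mathlib
import Pool.Agent.Lib.P9700a.Chain
import Pool.Agent.Lib.P9700e.Defs

/-!
# Triangularizable groups have bounded derived length

Take the chain of `Stp`-steps from `⊥` to `⊤` (`Relation.ReflTransGen`), without repetitions: `X_0 = ⊥ < X_1 < ... < X_l = ⊤`, `l ≤ finrank K V` (dimensions strictly increase). All `X_i` are invariant under `ρ h`. Every `u ∈ derivedSeries H 1` acts trivially on every factor: `(ρ u - 1) X_(i+1) ≤ X_i` (commutators act trivially; the set of such `u` is a subgroup). By induction on `j ≥ 0`: for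
`u ∈ derivedSeries H (j+1)` and all `i`: `(ρ u - 1) X_i ≤ X_(i-1-j)` (`X_k = ⊥` for `k ≤ 0`): for `a`, `b` unipotent of depth `≥ j + 1` the commutator has depth `≥ 2 (j+1) ≥ j + 2`; the elements of depth `≥ d` form a subgroup, normal under `ρ H`. For `j = l`: `ρ u = 1`.
(One can also use a direct induction along the chain: claim for each `Z` reached by `n` strict steps: elements of `derivedSeries H (n+1)` act trivially on `Z`; step: if `derivedSeries H (n+1)` acts trivially on `X` and `X → Y` is a step then for `a, b ∈ derivedSeries H (n+1)` the maps `y ↦ ρ a y - y` vanish on `X`, have values in `X`,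
so `⁅a, b⁆` acts trivially on `Y`.)
-/

set_option autoImplicit false

namespace P9700e

open P9700a

open scoped commutatorElement

namespace TFderAux

variable {K V H : Type*} [Field K] [AddCommGroup V] [Module K V] [Group H] (ρ : H →* Module.End K V)

theorem mul_apply (h k : H) (v : V) : ρ (h * k) v = ρ h (ρ k v) := by
  rw [map_mul]
  rfl

theorem one_apply (v : V) : ρ 1 v = v := by
  rw [map_one]
  rfl

/-- the elements which act trivially on `Y / X` -/
def triv (X Y : Submodule K V) (_hX : ∀ h, ∀ w ∈ X, ρ h w ∈ X) (hY : ∀ h, ∀ w ∈ Y, ρ h w ∈ Y) :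
    Subgroup H where
  carrier := {u | ∀ w ∈ Y, ρ u w - w ∈ X}
  one_mem' := by
    intro w _
    rw [one_apply, sub_self]
    exact X.zero_mem
  mul_mem' := by
    intro a b ha hb w hw
    rw [mul_apply]
    have h1 := ha _ (hY b w hw)
    have h2 := hb w hw
    have e : ρ a (ρ b w) - w = (ρ a (ρ b w) - ρ b w) + (ρ b w - w) := by abel
    rw [e]
    exact X.add_mem h1 h2
  inv_mem' := by
    intro a ha w hw
    have h1 := ha _ (hY a⁻¹ w hw)
    rw [← mul_apply, mul_inv_cancel, one_apply] at h1
    have h2 := X.neg_mem h1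
    rwa [neg_sub] at h2

theorem mem_triv {X Y : Submodule K V} {hX : ∀ h, ∀ w ∈ X, ρ h w ∈ X} {hY : ∀ h, ∀ w ∈ Y, ρ h w ∈ Y}
    {u : H} : u ∈ triv ρ X Y hX hY ↔ ∀ w ∈ Y, ρ u w - w ∈ X := Iff.rfl

/-- if `h k` and `k h` agree on `Y / X` then the commutator acts trivially on `Y / X` -/
theorem comm_triv {X Y : Submodule K V} (hX : ∀ h, ∀ w ∈ X, ρ h w ∈ X) (hY : ∀ h, ∀ w ∈ Y, ρ h w ∈ Y)
    (h k : H) (hk : ∀ w ∈ Y, ρ (h * k) w - ρ (k * h) w ∈ X) : ⁅h, k⁆ ∈ triv ρ X Y hX hY := by
  intro w hw
  have h1 := hk _ (hY (k * h)⁻¹ w hw)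
  rw [← mul_apply, ← mul_apply, mul_inv_cancel, one_apply] at h1
  have e : h * k * (k * h)⁻¹ = ⁅h, k⁆ := by
    rw [commutatorElement_def]
    group
  rwa [e] at h1

theorem chain [FiniteDimensional K V] (Z : Submodule K V)
    (hZ : Relation.ReflTransGen (Stp (Set.range ρ)) ⊥ Z) :
    (∀ h, ∀ w ∈ Z, ρ h w ∈ Z) ∧
      ∀ u ∈ derivedSeries H (Module.finrank K Z + 1), ∀ w ∈ Z, ρ u w = w := by
  induction hZ with
  | refl =>
    refine ⟨fun h w hw => ?_, fun u _ w hw => ?_⟩
    · rw [Submodule.mem_bot] at hw ⊢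
      rw [hw, map_zero]
    · rw [Submodule.mem_bot] at hw
      rw [hw, map_zero]
  | @tail X Y _ hst ih =>
    obtain ⟨hX, hXt⟩ := ih
    obtain ⟨hXY, hsc⟩ := hst
    have hY : ∀ h, ∀ w ∈ Y, ρ h w ∈ Y := by
      intro h w hw
      obtain ⟨c, hc⟩ := hsc (ρ h) ⟨h, rfl⟩
      have e : ρ h w = (ρ h w - c • w) + c • w := by abel
      rw [e]
      exact Y.add_mem (hXY (hc w hw)) (Y.smul_mem c hw)
    refine ⟨hY, ?_⟩
    by_cases hne : X = Y
    · subst hne
      exact hXt
    have hlt : X < Y := lt_of_le_of_ne hXY hne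
    have hfr : Module.finrank K X < Module.finrank K Y := Submodule.finrank_lt_finrank_of_lt hlt
    -- commutators act trivially on `Y / X`
    have hD1 : derivedSeries H 1 ≤ triv ρ X Y hX hY := by
      rw [derivedSeries_succ, Subgroup.commutator_le]
      intro h _ k _
      apply comm_triv
      intro w hw
      obtain ⟨c, hc⟩ := hsc (ρ h) ⟨h, rfl⟩
      obtain ⟨d, hd⟩ := hsc (ρ k) ⟨k, rfl⟩
      rw [mul_apply, mul_apply]
      have h1 := hX h _ (hd w hw)
      have h2 := hX k _ (hc w hw)
      rw [map_sub, map_smul] at h1 h2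
      have e : ρ h (ρ k w) - ρ k (ρ h w) = (ρ h (ρ k w) - d • ρ h w) + d • (ρ h w - c • w) -
          ((ρ k (ρ h w) - c • ρ k w) + c • (ρ k w - d • w)) := by
        rw [smul_sub, smul_sub, smul_smul, smul_smul, mul_comm c d]
        abel
      rw [e]
      exact X.sub_mem (X.add_mem h1 (X.smul_mem d (hc w hw))) (X.add_mem h2 (X.smul_mem c (hd w hw)))
    have hanti := derivedSeries_antitone H
    have hZ0 : ∀ h, ∀ w ∈ (⊥ : Submodule K V), ρ h w ∈ (⊥ : Submodule K V) := by
      intro h w hw
      rw [Submodule.mem_bot] at hw ⊢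
      rw [hw, map_zero]
    have hD : derivedSeries H (Module.finrank K Y + 1) ≤ triv ρ ⊥ Y hZ0 hY := by
      rw [derivedSeries_succ, Subgroup.commutator_le]
      intro a ha b hb
      apply comm_triv
      intro w hw
      have ha1 := hD1 (hanti (show 1 ≤ Module.finrank K Y by omega) ha) w hw
      have hb1 := hD1 (hanti (show 1 ≤ Module.finrank K Y by omega) hb) w hw
      have ha2 := hXt a (hanti (show Module.finrank K X + 1 ≤ Module.finrank K Y by omega) ha)
      have hb2 := hXt b (hanti (show Module.finrank K X + 1 ≤ Module.finrank K Y by omega) hb)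
      rw [Submodule.mem_bot, mul_apply, mul_apply]
      have h1 := ha2 _ hb1
      have h2 := hb2 _ ha1
      rw [map_sub] at h1 h2
      have e1 : ρ a (ρ b w) = ρ b w - w + ρ a w := by rw [← h1]; abel
      have e2 : ρ b (ρ a w) = ρ a w - w + ρ b w := by rw [← h2]; abel
      rw [e1, e2]
      abel
    intro u hu w hw
    have := hD hu w hw
    rw [Submodule.mem_bot, sub_eq_zero] at this
    exact this

end TFderAux

open TFderAux in
theorem tf_derived {K V H : Type*} [Field K] [AddCommGroup V] [Module K V] [FiniteDimensional K V]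
    [Group H] (ρ : H →* Module.End K V) (hT : TF (Set.range ρ)) :
    ∀ h ∈ derivedSeries H (Module.finrank K V + 1), ρ h = 1 := by
  intro h hh
  have h1 := (chain ρ ⊤ hT).2 h (by rw [finrank_top]; exact hh)
  ext v
  exact h1 v Submodule.mem_top

end P9700e
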