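import Mathlib
import Pool.Agent.Lib.P9700c.Plat
import Pool.Agent.Lib.P9700d.Defs
import Pool.Agent.Lib.P9700d.Rep
import Pool.Agent.Lib.P9700d.KerC
import Pool.Agent.Lib.P9700e.Defs
import Pool.Agent.Lib.P9700e.TFder

/-!
# Derived length and torsion in the virtually residually-`p` case

* `dl_of_stb`: `P9700d.exists_rep` gives `ρ : G →* GL (Fin D) F`, whose kernel centralises `L i0` (`P9700d.ker_cent`). Let `E = AlgebraicClosure F`, `ρ' : G →* Module.End E (Fin D → E)` (as in `P9700d/Fin.lean`, `fr_vs_of_linear`; injectivity of the base change: `ρ' g = 1 → ρ g = 1`). `platonov hG ρ'`: `G1` of finite index with `TF (ρ' '' G1)`.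
`Y = G1 ⊓ L i0` has finite index. `tf_derived` for `Y` (with `TF.mono`): `derivedSeries Y (D+1)` acts trivially, so it consists of elements of `L i0` that centralise `L i0`; hence it is commutative and `derivedSeries Y (D+2) = ⊥`.
* `tf_of_stb`: let `1 ≠ x ∈ L i0`, `0 < m`, `x ^ m = 1`. There is `i ≥ i0` with `x ∈ L i`, `x ∉ L (i+1)` (`h.int`). If `p ∣ m`, `m = p m'`: `x ^ p ∈ L (i+1)`, `x ^ p ∉ L (i+2)` (`hs.inj`), induction on `m` (for all `i`, `x`). If `p ∤ m`: `x ^ (p ^ D) ∈ L (i+1)` (`hs.card`, `Subgroup.pow_relIndex`-like: the quotient `L i / L (i+1)` has order `p ^ D`) and `x ^ m ∈ L (i+1)`, so `x ∈ L (i+1)` by coprimality.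
-/

set_option autoImplicit false

namespace P9700e

open P9700a P9700d

theorem dl_of_stb {G : Type*} [Group G] (hG : FR G) {p : ℕ} [Fact p.Prime] {L : ℕ → Subgroup G}
    (h : Fil p L) {i0 D : ℕ} (hi0 : 1 ≤ i0) (hs : Stb p L i0 D) : DL (D + 2) G := by
  obtain ⟨F, iF, iC, ρ, hρ⟩ := exists_rep h hi0 hs
  have hker : ∀ g, ρ g = 1 → ∀ x ∈ L i0, x * g = g * x :=
    fun g hg => ker_cent h hs g (hρ g hg)
  let E := AlgebraicClosure F
  let ε : G →* Matrix.GeneralLinearGroup (Fin D) E :=
    (Matrix.GeneralLinearGroup.map (algebraMap F E)).comp ρ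
  have hε : ∀ g, ε g = 1 → ρ g = 1 := by
    intro g hg
    refine Units.ext ?_
    have h1 := congrArg (fun z : Matrix.GeneralLinearGroup (Fin D) E =>
      (z : Matrix (Fin D) (Fin D) E)) hg
    have h0 : ε 1 = 1 := map_one ε
    have h1' := congrArg (fun z : Matrix.GeneralLinearGroup (Fin D) E =>
      (z : Matrix (Fin D) (Fin D) E)) (hg.trans h0.symm)
    have e1 : ρ 1 = 1 := map_one ρ
    rw [← e1]
    ext i j
    have h2 := congrFun (congrFun h1' i) j
    exact (algebraMap F E).injective h2
  let σ : G →* Module.End E (Fin D → E) :=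
    ((Matrix.toLinAlgEquiv' : Matrix (Fin D) (Fin D) E ≃ₐ[E] _) : _ →* _).comp
      ((Units.coeHom (Matrix (Fin D) (Fin D) E)).comp ε)
  have hσ : ∀ g : G, σ g = Matrix.toLin' ((ε g : Matrix (Fin D) (Fin D) E)) := fun g => rfl
  have hσk : ∀ g, σ g = 1 → ρ g = 1 := by
    intro g hg
    apply hε
    have h1 : σ g = σ 1 := hg.trans (map_one σ).symm
    rw [hσ, hσ] at h1
    exact (Units.ext (Matrix.toLin'.injective h1)).trans (map_one ε)
  obtain ⟨G1, hG1, hT⟩ := platonov hG σ
  have hL := h.fi i0
  refine ⟨G1 ⊓ L i0, inferInstance, ?_⟩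
  have hT' : TF (Set.range (σ.comp (G1 ⊓ L i0).subtype)) := by
    refine TF.mono ?_ hT
    rintro _ ⟨y, rfl⟩
    exact ⟨y, y.2.1, rfl⟩
  have key := tf_derived (σ.comp (G1 ⊓ L i0).subtype) hT'
  rw [Module.finrank_fin_fun] at key
  rw [eq_bot_iff, derivedSeries_succ, Subgroup.commutator_le]
  intro a ha b hb
  rw [Subgroup.mem_bot, commutatorElement_eq_one_iff_mul_comm]
  exact Subtype.ext (hker b (hσk b (key b hb)) a a.2.2)

theorem tf_of_stb {G : Type*} [Group G] {p : ℕ} [Fact p.Prime] {L : ℕ → Subgroup G}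
    (h : Fil p L) {i0 D : ℕ} (hs : Stb p L i0 D) :
    ∀ x ∈ L i0, ∀ m : ℕ, 0 < m → x ^ m = 1 → x = 1 := by
  have hp : p.Prime := Fact.out
  have main : ∀ m : ℕ, ∀ x ∈ L i0, 0 < m → x ^ m = 1 → x = 1 := by
    intro m
    induction m using Nat.strong_induction_on with
    | _ m ih =>
      intro x hx hm hxm
      by_contra hne
      have hex : ∃ i, x ∉ L i := by
        by_contra hcon
        push Not at hcon
        exact hne (h.int x hcon)
      obtain ⟨s, hs0, hxs, hxs'⟩ : ∃ s, i0 ≤ s ∧ x ∈ L s ∧ x ∉ L (s + 1) := by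
        classical
        have hf := Nat.find_spec hex
        have hmin := fun m (hm : m < Nat.find hex) => Nat.find_min hex hm
        have hpos : i0 < Nat.find hex := by
          by_contra hle
          push Not at hle
          exact hf (h.anti' hle hx)
        refine ⟨Nat.find hex - 1, by omega, ?_, ?_⟩
        · by_contra hcon
          exact hmin _ (by omega) hcon
        · have e : Nat.find hex - 1 + 1 = Nat.find hex := by omega
          rw [e]
          exact hf
      by_cases hpm : p ∣ m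
      · obtain ⟨k, rfl⟩ := hpm
        have hk : 0 < k := Nat.pos_of_mul_pos_left hm
        have h1 : x ^ p = 1 := by
          refine ih k ?_ (x ^ p) ((L i0).pow_mem hx p) hk ?_
          · exact lt_mul_left hk hp.one_lt
          · rw [← pow_mul]
            exact hxm
        apply hxs'
        apply hs.inj s hs0 x hxs
        rw [h1]
        exact (L (s + 2)).one_mem
      · have hn := h.norm (s + 1)
        have h1 : (QuotientGroup.mk' (L (s + 1)) x) ^ (p ^ D) = 1 := by
          rw [← map_pow]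
          refine (QuotientGroup.eq_one_iff _).2 ?_
          have h2 := Subgroup.pow_index_mem ((L (s + 1)).subgroupOf (L s)) ⟨x, hxs⟩
          have h3 : ((L (s + 1)).subgroupOf (L s)).index = p ^ D := hs.card s hs0
          rw [h3] at h2
          exact h2
        have h2 : (QuotientGroup.mk' (L (s + 1)) x) ^ m = 1 := by
          rw [← map_pow, hxm, map_one]
        have h3 := pow_gcd_eq_one.2 ⟨h1, h2⟩
        have h4 : Nat.gcd (p ^ D) m = 1 :=
          Nat.Coprime.pow_left D ((Nat.Prime.coprime_iff_not_dvd hp).2 hpm)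
        rw [h4, pow_one] at h3
        exact hxs' ((QuotientGroup.eq_one_iff _).1 h3)
  exact fun x hx m hm hxm => main m x hx hm hxm

end P9700e
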