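import Mathlib
import Pool.Agent.Lib.P9700d.Cnt
import Pool.Agent.Lib.P9700d.NasS
import Pool.Agent.Lib.P9700d.RelV
import Pool.Agent.Lib.P9700e.Defs

/-!
# Elementary abelian normal sections of a product have bounded rank

Let `S / M'` be a Sylow `p`-subgroup of the finite group `G ⧸ M'` (`S ≤ G`, `M' ≤ S`, `M'.relIndex S` a power of `p`, `p` does not divide `S.index`). `M / M'` is a normal `p`-subgroup of `G ⧸ M'`, so `M ≤ S` (a normal `p`-subgroup is in every Sylow `p`-subgroup; e.g. `IsPGroup.le_sylow...`/`Sylow` sup argument, or: `S ⊔ M` has `p`-power index over `M'`,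
so `S ⊔ M = S` by the index). `P9700d.nas_quot` (hypotheses `hA`, `hB` in the form of `rk_iff`) gives `NAS e (S ⧸ M'.subgroupOf S)`, and `P9700d.relIndex_le_of_NAS` (for the group `S`, `N = K = M'.subgroupOf S`, `M := M.subgroupOf S`) gives `(M'.subgroupOf S).relIndex (M.subgroupOf S) ≤ p ^ e`, which is the claim.
-/

set_option autoImplicit false

open scoped commutatorElement

namespace P9700e

open P9700a

theorem elem_rank {G : Type*} [Group G] {p : ℕ} [Fact p.Prime] (A B : Subgroup G) (r e : ℕ)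
    (hA : RK r A) (hB : RK r B) (hAB : ∀ g : G, ∃ a ∈ A, ∃ b ∈ B, g = a * b)
    (he : ∀ n : ℕ, n ≤ 2 * r + r * (r + 1) * Nat.clog p n → n ≤ e) (M M' : Subgroup G)
    (hM : M.Normal) (hM' : M'.Normal) (hfi : M'.FiniteIndex) (hle : M' ≤ M) (hc : ⁅M, M⁆ ≤ M')
    (hexp : ∀ x ∈ M, x ^ p ∈ M') : M'.relIndex M ≤ p ^ e := by
  have iM' := hM'
  have iM := hM
  have ifi := hfi
  have hfin : Finite (G ⧸ M') := Subgroup.finite_quotient_of_finiteIndex
  have hsurj := QuotientGroup.mk'_surjective M'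
  have hker : (QuotientGroup.mk' M').ker = M' := QuotientGroup.ker_mk' M'
  let P : Sylow p (G ⧸ M') := default
  let S : Subgroup G := (P : Subgroup (G ⧸ M')).comap (QuotientGroup.mk' M')
  have hM'S : M' ≤ S := by
    intro x hx
    have h1 : QuotientGroup.mk' M' x = 1 := (QuotientGroup.eq_one_iff x).2 hx
    show QuotientGroup.mk' M' x ∈ (P : Subgroup (G ⧸ M'))
    rw [h1]
    exact one_mem _
  have hSP : S.map (QuotientGroup.mk' M') = P := Subgroup.map_comap_eq_self_of_surjective hsurj _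
  have hk : ∃ k : ℕ, M'.relIndex S = p ^ k := by
    obtain ⟨k, hk⟩ := IsPGroup.iff_card.1 P.isPGroup'
    refine ⟨k, ?_⟩
    have h1 := Subgroup.relIndex_ker S (QuotientGroup.mk' M')
    rw [hker, hSP] at h1
    rw [h1]
    exact hk
  have hpS : ¬ p ∣ S.index := by
    have h1 : S.index = (P : Subgroup (G ⧸ M')).index :=
      Subgroup.index_comap_of_surjective _ hsurj
    rw [h1]
    exact P.not_dvd_index
  have hMS : M ≤ S := by
    have hMp : IsPGroup p (M.map (QuotientGroup.mk' M')) := by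
      rintro ⟨y, hy⟩
      obtain ⟨x, hx, rfl⟩ := hy
      refine ⟨1, Subtype.ext ?_⟩
      show (QuotientGroup.mk' M' x) ^ p ^ 1 = 1
      rw [pow_one, ← map_pow]
      exact (QuotientGroup.eq_one_iff _).2 (hexp x hx)
    have hMn : (M.map (QuotientGroup.mk' M')).Normal := hM.map _ hsurj
    have h1 : IsPGroup p (M.map (QuotientGroup.mk' M') ⊔ (P : Subgroup (G ⧸ M')) :
        Subgroup (G ⧸ M')) := IsPGroup.to_sup_of_normal_left hMp P.isPGroup'
    have h2 := P.is_maximal' h1 le_sup_right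
    intro x hx
    show QuotientGroup.mk' M' x ∈ (P : Subgroup (G ⧸ M'))
    rw [← h2]
    exact Subgroup.mem_sup_left (Subgroup.mem_map_of_mem _ hx)
  have hN : P9700d.NAS e (S ⧸ M'.subgroupOf S) :=
    P9700d.nas_quot A B r e ((rk_iff A).1 hA) ((rk_iff B).1 hB) hAB he S M' hfi hM'S hk hpS
  have h3 := P9700d.relIndex_le_of_NAS (p := p) (M'.subgroupOf S) e hN (M.subgroupOf S)
    (M'.subgroupOf S) (Subgroup.normal_subgroupOf) (Subgroup.normal_subgroupOf) le_rfl
    (fun x hx => hle hx) (by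
      rw [Subgroup.commutator_le]
      intro a ha b hb
      have h4 : ⁅(a : G), (b : G)⁆ ∈ M' := hc (Subgroup.commutator_mem_commutator ha hb)
      exact h4) (fun x hx => hexp x hx)
  have h5 : (M'.subgroupOf S).relIndex (M.subgroupOf S) = M'.relIndex M :=
    Subgroup.relIndex_subgroupOf hMS
  rw [h5] at h3
  exact h3.2

end P9700e
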