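import Mathlib
import Pool.Agent.Lib.P9700d.MatK
import Pool.Agent.Lib.P9700e.Defs

/-!
# The matrices of an elementary abelian section

`P9700d` `exists_section` (in `P9700d/MatK.lean`, with `A = M`, `B = M'`) gives an additive group `T` with `π`, `ρ0`; `p • t = 0` on `T`, so `T` is a vector space over `ZMod p` (`AddCommGroup.zmodModule`) with `Nat.card T = p ^ n`, so `finrank = n` and `T ≃+ (Fin n → ZMod p)`; `exists_matrix` (same file) turns the action into matrices. `θ x = e (π x)`.
-/

set_option autoImplicit false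

open scoped commutatorElement

namespace P9700e

namespace SecMAux

/-- coordinates -/
theorem exists_equiv {p : ℕ} [Fact p.Prime] {n : ℕ} {T : Type*} [AddCommGroup T] [Finite T]
    [Module (ZMod p) T] (hcard : Nat.card T = p ^ n) : Nonempty (T ≃+ (Fin n → ZMod p)) := by
  have hp : p.Prime := Fact.out
  have hfr : Module.finrank (ZMod p) T = n := by
    have h1 := Module.natCard_eq_pow_finrank (K := ZMod p) (V := T)
    rw [hcard, Nat.card_zmod] at h1
    exact (Nat.pow_right_injective hp.two_le h1).symm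
  exact ⟨(Module.finBasisOfFinrankEq (ZMod p) T hfr).equivFun.toAddEquiv⟩

end SecMAux

theorem exists_secM {G : Type*} [Group G] {p : ℕ} [Fact p.Prime] (M M' : Subgroup G) (hM : M.Normal)
    (hM' : M'.Normal) (hc : ⁅M, M⁆ ≤ M') (hexp : ∀ x ∈ M, x ^ p ∈ M') (n : ℕ)
    (hn : M'.relIndex M = p ^ n) :
    ∃ (θ : M → (Fin n → ZMod p)) (ρ : G →* Matrix (Fin n) (Fin n) (ZMod p)),
      (∀ x y, θ (x * y) = θ x + θ y) ∧ (∀ x, θ x = 0 ↔ (x : G) ∈ M') ∧
      ∀ (g : G) (x : M), θ (MulAut.conjNormal g x) = (ρ g).mulVec (θ x) := by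
  have hp : p.Prime := Fact.out
  obtain ⟨T, hT, π, ρ, hadd, hsurj, hker, hρ, hcard⟩ := P9700d.MatKAux.exists_section M M' hc
  have hπ1 : π 1 = 0 := by
    rw [hker]
    exact M'.one_mem
  have hπpow : ∀ (x : M) (k : ℕ), π (x ^ k) = k • π x := by
    intro x k
    induction k with
    | zero => rw [pow_zero, hπ1, zero_smul]
    | succ k ih => rw [pow_succ, hadd, ih, succ_nsmul]
  have hexpT : ∀ t : T, p • t = 0 := by
    intro t
    obtain ⟨x, rfl⟩ := hsurj t
    rw [← hπpow, hker]
    exact hexp x x.2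
  have hcard' : Nat.card T = p ^ n := by rw [hcard, hn]
  have hfinT : Finite T := Nat.finite_of_card_ne_zero (by rw [hcard']; exact pow_ne_zero _ hp.ne_zero)
  obtain ⟨e⟩ := @SecMAux.exists_equiv p _ n T _ _ (AddCommGroup.zmodModule hexpT) hcard'
  obtain ⟨F, hF⟩ := P9700d.MatKAux.exists_matrix e
  refine ⟨fun x => e (π x), F.comp ρ, ?_, ?_, ?_⟩
  · intro x y
    change e (π (x * y)) = e (π x) + e (π y)
    rw [hadd, map_add]
  · intro x
    change e (π x) = 0 ↔ _
    rw [EmbeddingLike.map_eq_zero_iff, hker]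
  · intro g x
    change e (π (MulAut.conjNormal g x)) = (F (ρ g)).mulVec (e (π x))
    rw [← hρ]
    exact hF (ρ g) (π x)

end P9700e
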