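import Mathlib
import Pool.Agent.Lib.P9700e.Defs

/-!
# The ultraproduct of the prime fields

`I = {f : f p = 0 for 𝒰-almost all p}` is a maximal ideal of `∀ p : Nat.Primes, ZMod p`: if `f ∉ I` then `f p ≠ 0` for almost all `p`; with `g p = (f p)⁻¹` (in the field `ZMod p`), `f g - 1 ∈ I`. `F = (∀ p, ZMod p) ⧸ I`, `Ideal.Quotient.field`. Characteristic 0: if `(n : F) = 0`, `n > 0`, then `p ∣ n` for almost all `p`, but `{p : p ∣ n}` is finite, so its complement is in `𝒰`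
(`h𝒰`), contradiction. Universe: `F : Type`.
-/

set_option autoImplicit false

namespace P9700e

namespace UltFAux

/-- the sequences which vanish almost everywhere -/
def idl (𝒰 : Ultrafilter Nat.Primes) : Ideal (∀ p : Nat.Primes, ZMod (p : ℕ)) where
  carrier := {f | ∀ᶠ p in (𝒰 : Filter Nat.Primes), f p = 0}
  add_mem' := by
    intro f g hf hg
    change ∀ᶠ p in (𝒰 : Filter Nat.Primes), (f + g) p = 0
    filter_upwards [hf, hg] with p h1 h2
    rw [Pi.add_apply, h1, h2, add_zero]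
  zero_mem' := Filter.Eventually.of_forall (fun p => rfl)
  smul_mem' := by
    intro c f hf
    change ∀ᶠ p in (𝒰 : Filter Nat.Primes), (c • f) p = 0
    filter_upwards [hf] with p h1
    change c p * f p = 0
    rw [h1, mul_zero]

theorem mem_idl (𝒰 : Ultrafilter Nat.Primes) (f : ∀ p : Nat.Primes, ZMod (p : ℕ)) :
    f ∈ idl 𝒰 ↔ ∀ᶠ p in (𝒰 : Filter Nat.Primes), f p = 0 := Iff.rfl

theorem idl_max (𝒰 : Ultrafilter Nat.Primes) : (idl 𝒰).IsMaximal := by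
  have hF : ∀ p : Nat.Primes, Fact (p : ℕ).Prime := fun p => ⟨p.2⟩
  rw [Ideal.isMaximal_iff]
  constructor
  · intro h
    rw [mem_idl] at h
    obtain ⟨p, hp⟩ := h.exists
    exact one_ne_zero hp
  · intro J x hIJ hx hxJ
    rw [mem_idl, ← Ultrafilter.eventually_not] at hx
    have h1 : 1 - (fun p => (x p)⁻¹ : ∀ p : Nat.Primes, ZMod (p : ℕ)) * x ∈ idl 𝒰 := by
      rw [mem_idl]
      filter_upwards [hx] with p hp
      change 1 - (x p)⁻¹ * x p = 0
      rw [inv_mul_cancel₀ hp, sub_self]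
    have h2 := J.add_mem (hIJ h1)
      (J.mul_mem_left (fun p => (x p)⁻¹ : ∀ p : Nat.Primes, ZMod (p : ℕ)) hxJ)
    rwa [sub_add_cancel] at h2

theorem fin_dvd {n : ℕ} (hn : n ≠ 0) : {p : Nat.Primes | (p : ℕ) ∣ n}.Finite := by
  refine ((Set.finite_le_nat n).preimage (f := ((↑) : Nat.Primes → ℕ))
    (Subtype.val_injective.injOn)).subset ?_
  intro p hp
  exact Nat.le_of_dvd (Nat.pos_of_ne_zero hn) hp

end UltFAux

theorem exists_ultrafield (𝒰 : Ultrafilter Nat.Primes)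
    (h𝒰 : (𝒰 : Filter Nat.Primes) ≤ Filter.cofinite) :
    ∃ (F : Type) (_ : Field F) (_ : CharZero F) (φ : (∀ p : Nat.Primes, ZMod (p : ℕ)) →+* F),
      ∀ f, φ f = 0 ↔ ∀ᶠ p in (𝒰 : Filter Nat.Primes), f p = 0 := by
  have hmax := UltFAux.idl_max 𝒰
  let _ : Field ((∀ p : Nat.Primes, ZMod (p : ℕ)) ⧸ UltFAux.idl 𝒰) :=
    Ideal.Quotient.field (UltFAux.idl 𝒰)
  have key : ∀ f : ∀ p : Nat.Primes, ZMod (p : ℕ),
      Ideal.Quotient.mk (UltFAux.idl 𝒰) f = 0 ↔ ∀ᶠ p in (𝒰 : Filter Nat.Primes), f p = 0 := by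
    intro f
    rw [Ideal.Quotient.eq_zero_iff_mem, UltFAux.mem_idl]
  refine ⟨(∀ p : Nat.Primes, ZMod (p : ℕ)) ⧸ UltFAux.idl 𝒰, inferInstance, ?_,
    Ideal.Quotient.mk (UltFAux.idl 𝒰), key⟩
  refine charZero_of_inj_zero (fun n hn => ?_)
  by_contra hn0
  have h1 : Ideal.Quotient.mk (UltFAux.idl 𝒰) (n : ∀ p : Nat.Primes, ZMod (p : ℕ)) = 0 := by
    rw [map_natCast]
    exact hn
  rw [key] at h1
  have h2 : ∀ᶠ p : Nat.Primes in (𝒰 : Filter Nat.Primes), ¬ ((p : ℕ) ∣ n) := by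
    have h3 : {p : Nat.Primes | (p : ℕ) ∣ n}ᶜ ∈ Filter.cofinite :=
      (UltFAux.fin_dvd hn0).compl_mem_cofinite
    exact h𝒰 h3
  obtain ⟨p, hp1, hp2⟩ := (h1.and h2).exists
  refine hp2 ?_
  rw [Pi.natCast_apply] at hp1
  exact (ZMod.natCast_eq_zero_iff n (p : ℕ)).1 hp1

end P9700e
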