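import Mathlib
import Pool.Agent.Lib.P9700e.Defs
import Pool.Agent.Lib.P9700e.UltF
import Pool.Agent.Lib.P9700e.SecM

/-!
# The ultraproduct of elementary abelian sections

For every `p` the index `(M' p).relIndex (M p)` is `≠ 0` and a power `p ^ (d p)` (`M p / M' p` is a finite abelian group of exponent dividing `p`), `d p ≤ e`. Some `n ≤ e` has `d p = n` for `𝒰`-almost all `p` (finitely many values; `Ultrafilter.eventually_exists_mem_iff`-like / `Filter.Tendsto` to a finite set). For these `p` take `θ p`, `ρ p` from `exists_secM`, for the others `θ p = 0`,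
`ρ p = 1`. `exists_ultrafield` gives `F`, `φ`. `ρ g` = the matrix with entries `φ (fun p => ρ p g i j)` (a monoid homomorphism: `RingHom.mapMatrix φ` composed with the product of the `ρ p`; the entries of a product are finite sums, computed coordinatewise), `θ x` = the vector with coordinates `φ (fun p => if h : x ∈ M p then θ p ⟨x, h⟩ i else 0)`. For `x` with `x ∈ M p` almost always:
additivity, the kernel and equivariance follow from those of `θ p` for almost all `p` and `φ f = 0 ↔ f p = 0` almost always.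
-/

set_option autoImplicit false

open scoped commutatorElement

namespace P9700e

namespace ExEmbAux

theorem index_pow {G : Type*} [Group G] {p : ℕ} [Fact p.Prime] (M M' : Subgroup G)
    (hM' : M'.Normal) (hexp : ∀ x ∈ M, x ^ p ∈ M') (e : ℕ)
    (h0 : M'.relIndex M ≠ 0) (h1 : M'.relIndex M ≤ p ^ e) :
    ∃ d, d ≤ e ∧ M'.relIndex M = p ^ d := by
  have hfi : (M'.subgroupOf M).FiniteIndex := ⟨h0⟩
  have hfin : Finite (M ⧸ M'.subgroupOf M) := Subgroup.finite_quotient_of_finiteIndex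
  have hp : IsPGroup p (M ⧸ M'.subgroupOf M) := by
    intro q
    refine ⟨1, ?_⟩
    induction q using QuotientGroup.induction_on with
    | H x =>
      rw [pow_one, ← QuotientGroup.mk_pow, QuotientGroup.eq_one_iff, Subgroup.mem_subgroupOf]
      exact hexp _ x.2
  obtain ⟨d, hd⟩ := IsPGroup.iff_card.1 hp
  have hd' : M'.relIndex M = p ^ d := by
    have : M'.relIndex M = Nat.card (M ⧸ M'.subgroupOf M) := Subgroup.index_eq_card _
    rw [this, hd]
  refine ⟨d, ?_, hd'⟩
  rw [hd'] at h1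
  exact (Nat.pow_le_pow_iff_right (Fact.out : p.Prime).one_lt).1 h1

theorem local_data {G : Type*} [Group G] (n d : ℕ) (p : ℕ) [Fact p.Prime] (M M' : Subgroup G)
    (hM : M.Normal) (hM' : M'.Normal) (hc : ⁅M, M⁆ ≤ M') (hexp : ∀ x ∈ M, x ^ p ∈ M')
    (hd : M'.relIndex M = p ^ d) :
    ∃ (θ : G → (Fin n → ZMod p)) (ρ : G →* Matrix (Fin n) (Fin n) (ZMod p)), d = n →
      (∀ x ∈ M, ∀ y ∈ M, θ (x * y) = θ x + θ y) ∧ (∀ x ∈ M, (θ x = 0 ↔ x ∈ M')) ∧
      ∀ (g : G), ∀ x ∈ M, θ (g * x * g⁻¹) = (ρ g).mulVec (θ x) := by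
  classical
  by_cases h : d = n
  · subst h
    obtain ⟨θ, ρ, h1, h2, h3⟩ := exists_secM M M' hM hM' hc hexp d hd
    have hv : ∀ x (hx : x ∈ M), (fun x => if h : x ∈ M then θ ⟨x, h⟩ else 0) x = θ ⟨x, hx⟩ :=
      fun x hx => dif_pos hx
    refine ⟨fun x => if h : x ∈ M then θ ⟨x, h⟩ else 0, ρ, fun _ => ⟨?_, ?_, ?_⟩⟩
    · intro x hx y hy
      rw [hv x hx, hv y hy, hv _ (M.mul_mem hx hy)]
      exact h1 ⟨x, hx⟩ ⟨y, hy⟩
    · intro x hx
      rw [hv x hx]
      exact h2 ⟨x, hx⟩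
    · intro g x hx
      have hgx : g * x * g⁻¹ ∈ M := hM.conj_mem x hx g
      rw [hv x hx, hv _ hgx]
      have := h3 g ⟨x, hx⟩
      rw [← this]
      congr 1
  · exact ⟨0, 1, fun h' => absurd h' h⟩

end ExEmbAux

open ExEmbAux in
theorem exists_emb {G : Type*} [Group G] (e : ℕ) (M M' : Nat.Primes → Subgroup G)
    (hM : ∀ p, (M p).Normal) (hM' : ∀ p, (M' p).Normal) (hle : ∀ p, M' p ≤ M p)
    (hc : ∀ p, ⁅M p, M p⁆ ≤ M' p) (hexp : ∀ p, ∀ x ∈ M p, x ^ (p : ℕ) ∈ M' p)
    (hrk : ∀ p, (M' p).relIndex (M p) ≠ 0 ∧ (M' p).relIndex (M p) ≤ (p : ℕ) ^ e)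
    (𝒰 : Ultrafilter Nat.Primes) (h𝒰 : (𝒰 : Filter Nat.Primes) ≤ Filter.cofinite) :
    ∃ (F : Type) (_ : Field F) (_ : CharZero F) (n : ℕ) (ρ : G →* Matrix (Fin n) (Fin n) F)
      (θ : G → (Fin n → F)),
      (∀ x y, (∀ᶠ p in (𝒰 : Filter Nat.Primes), x ∈ M p) →
        (∀ᶠ p in (𝒰 : Filter Nat.Primes), y ∈ M p) → θ (x * y) = θ x + θ y) ∧
      (∀ x, (∀ᶠ p in (𝒰 : Filter Nat.Primes), x ∈ M p) →
        (θ x = 0 ↔ ∀ᶠ p in (𝒰 : Filter Nat.Primes), x ∈ M' p)) ∧
      ∀ g x, (∀ᶠ p in (𝒰 : Filter Nat.Primes), x ∈ M p) →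
        θ (g * x * g⁻¹) = (ρ g).mulVec (θ x) := by
  classical
  have hfact : ∀ p : Nat.Primes, Fact (p : ℕ).Prime := fun p => ⟨p.2⟩
  have hd : ∀ p : Nat.Primes, ∃ d, d ≤ e ∧ (M' p).relIndex (M p) = (p : ℕ) ^ d := fun p =>
    index_pow (M p) (M' p) (hM' p) (hexp p) e (hrk p).1 (hrk p).2
  choose d hde hd using hd
  obtain ⟨n, hn⟩ : ∃ n, ∀ᶠ p in (𝒰 : Filter Nat.Primes), d p = n := by
    have h1 : ∀ᶠ p in (𝒰 : Filter Nat.Primes), ∃ n ∈ Set.Iic e, d p = n :=
      Filter.Eventually.of_forall fun p => ⟨d p, hde p, rfl⟩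
    obtain ⟨n, _, hn⟩ := (Ultrafilter.eventually_exists_mem_iff (Set.finite_Iic e)).1 h1
    exact ⟨n, hn⟩
  have hloc : ∀ p : Nat.Primes, ∃ (θ : G → (Fin n → ZMod (p : ℕ)))
      (ρ : G →* Matrix (Fin n) (Fin n) (ZMod (p : ℕ))), d p = n →
      (∀ x ∈ M p, ∀ y ∈ M p, θ (x * y) = θ x + θ y) ∧ (∀ x ∈ M p, (θ x = 0 ↔ x ∈ M' p)) ∧
      ∀ (g : G), ∀ x ∈ M p, θ (g * x * g⁻¹) = (ρ g).mulVec (θ x) := fun p =>
    local_data n (d p) p (M p) (M' p) (hM p) (hM' p) (hc p) (hexp p) (hd p)
  choose θ ρ hθρ using hloc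
  obtain ⟨F, _, _, φ, hφ⟩ := exists_ultrafield 𝒰 h𝒰
  have hφe : ∀ f g : (∀ p : Nat.Primes, ZMod (p : ℕ)),
      (∀ᶠ p in (𝒰 : Filter Nat.Primes), f p = g p) → φ f = φ g := by
    intro f g h
    rw [← sub_eq_zero, ← map_sub, hφ]
    filter_upwards [h] with p hp
    rw [Pi.sub_apply, hp, sub_self]
  let ρF : G →* Matrix (Fin n) (Fin n) F :=
    { toFun := fun g => Matrix.of fun i j => φ (fun p => ρ p g i j)
      map_one' := by
        ext i j
        rw [Matrix.of_apply]
        by_cases hij : i = j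
        · subst hij
          rw [Matrix.one_apply_eq]
          have : (fun p : Nat.Primes => ρ p 1 i i) = 1 := by
            funext p
            rw [map_one, Matrix.one_apply_eq]
            rfl
          rw [this, map_one]
        · rw [Matrix.one_apply_ne hij]
          have : (fun p : Nat.Primes => ρ p 1 i j) = 0 := by
            funext p
            rw [map_one, Matrix.one_apply_ne hij]
            rfl
          rw [this, map_zero]
      map_mul' := by
        intro g h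
        ext i j
        rw [Matrix.of_apply, Matrix.mul_apply]
        have : (fun p : Nat.Primes => ρ p (g * h) i j) =
            ∑ k, (fun p : Nat.Primes => ρ p g i k) * (fun p : Nat.Primes => ρ p h k j) := by
          funext p
          rw [map_mul, Matrix.mul_apply, Finset.sum_apply]
          rfl
        rw [this, map_sum]
        refine Finset.sum_congr rfl fun k _ => ?_
        rw [map_mul]
        rfl }
  refine ⟨F, inferInstance, inferInstance, n, ρF, fun x i => φ (fun p => θ p x i), ?_, ?_, ?_⟩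
  · intro x y hx hy
    funext i
    rw [Pi.add_apply, ← map_add]
    refine hφe _ _ ?_
    filter_upwards [hn, hx, hy] with p hp hxp hyp
    have := (hθρ p hp).1 x hxp y hyp
    rw [this]
    rfl
  · intro x hx
    have h1 : (fun i => φ (fun p => θ p x i)) = 0 ↔
        ∀ i, ∀ᶠ p in (𝒰 : Filter Nat.Primes), θ p x i = 0 := by
      rw [funext_iff]
      refine forall_congr' fun i => ?_
      exact hφ _
    rw [h1, ← Filter.eventually_all]
    constructor
    · intro h
      filter_upwards [hn, hx, h] with p hp hxp hp0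
      refine ((hθρ p hp).2.1 x hxp).1 ?_
      funext i
      exact hp0 i
    · intro h
      filter_upwards [hn, hx, h] with p hp hxp hp0
      intro i
      rw [((hθρ p hp).2.1 x hxp).2 hp0]
      rfl
  · intro g x hx
    funext i
    change φ (fun p => θ p (g * x * g⁻¹) i) = ∑ j, φ (fun p => ρ p g i j) * φ (fun p => θ p x j)
    have h1 : ∑ j, φ (fun p => ρ p g i j) * φ (fun p => θ p x j) =
        φ (∑ j, (fun p : Nat.Primes => ρ p g i j) * (fun p : Nat.Primes => θ p x j)) := by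
      rw [map_sum]
      refine Finset.sum_congr rfl fun k _ => ?_
      rw [map_mul]
    rw [h1]
    refine hφe _ _ ?_
    filter_upwards [hn, hx] with p hp hxp
    have := (hθρ p hp).2.2 g x hxp
    rw [this, Finset.sum_apply]
    rfl

end P9700e
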