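import Mathlib
import Pool.Agent.Lib.P9700d.Num
import Pool.Agent.Lib.P9700d.Ord
import Pool.Agent.Lib.P9700d.NasS
import Pool.Agent.Lib.P9700e.Defs

/-!
# Normal subgroups of bounded index in a product of two groups of finite rank

For `N` a finite intersection of members of `𝒩` (finite index, normal): `Q = G ⧸ N` is finite with `x ^ (m !) = 1` for all `x` (`m !` is a multiple of all indices `≤ m`). Bound for `Nat.card Q`: if a prime `p` divides it then `p ∣ m !` (Cauchy), `p ≤ m`. Let `S / N` be a Sylow `p`-subgroup of `Q` (`S ≤ G`);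
`P9700d.nas_quot` (with `e` from `P9700d.exists_bound r`) gives `NAS e (S ⧸ N.subgroupOf S)`, so its abelian normal subgroups are generated by `e` elements (section `M / ⊥`), and its elements satisfy `x ^ (p ^ m !) = 1` (the order of `x` is a power of `p` dividing `m !`, so it divides `p ^ (m !)`): `P9700d.card_le_of_exp` with `k = m !` gives
`|S / N| ≤ p ^ (m ! * e * (e + 1)) ≤ m ^ (m ! * e * (e+1))`. So `Nat.card Q ≤ (m ^ (m ! * e * (e+1))) ^ m =: C` (product over the primes `p ≤ m` of the orders of the Sylow subgroups; `Nat.factorization_prod_pow_eq_self` or induct).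
Choose a finite intersection `N` of maximal index `≤ C`: then `N ≤ N'` for all `N' ∈ 𝒩` (as `N ⊓ N'` has the same index), so `N ≤ sInf 𝒩`. (`𝒩` may be empty; `sInf ∅ = ⊤`.)
-/

set_option autoImplicit false

namespace P9700e

open P9700a

open scoped Nat

namespace FinBddAux

variable {G : Type*} [Group G]

/-- the order of a Sylow `p`-subgroup of a finite quotient `G ⧸ N` with `x ^ (m !) = 1` -/
theorem pow_bound (A B : Subgroup G) (r : ℕ) (hA : RK r A) (hB : RK r B)
    (hAB : ∀ g : G, ∃ a ∈ A, ∃ b ∈ B, g = a * b) (e : ℕ)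
    (he : ∀ p n : ℕ, 2 ≤ p → n ≤ 2 * r + r * (r + 1) * Nat.clog p n → n ≤ e)
    (m : ℕ) (N : Subgroup G) [hN : N.Normal] (hNi : N.FiniteIndex) (hm : ∀ x : G, x ^ (m !) ∈ N)
    (p : ℕ) (hp : p.Prime) (hpd : p ∣ N.index) :
    p ∣ m ! ∧ N.index.factorization p ≤ m ! * e * (e + 1) := by
  classical
  have : Fact p.Prime := ⟨hp⟩
  have := hNi
  have hfin : Finite (G ⧸ N) := inferInstance
  have hcard : Nat.card (G ⧸ N) = N.index := rfl
  have hQ : ∀ y : G ⧸ N, y ^ (m !) = 1 := by
    intro y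
    obtain ⟨x, rfl⟩ := QuotientGroup.mk'_surjective N y
    rw [← map_pow]
    exact (QuotientGroup.eq_one_iff _).2 (hm x)
  have h1 : p ∣ m ! := by
    obtain ⟨y, hy⟩ := exists_prime_orderOf_dvd_card' (G := G ⧸ N) p (hcard ▸ hpd)
    rw [← hy]
    exact orderOf_dvd_of_pow_eq_one (hQ y)
  refine ⟨h1, ?_⟩
  obtain ⟨P⟩ : Nonempty (Sylow p (G ⧸ N)) := inferInstance
  have hPc : Nat.card P = p ^ N.index.factorization p := by
    rw [P.card_eq_multiplicity, hcard]
  set S : Subgroup G := (P : Subgroup (G ⧸ N)).comap (QuotientGroup.mk' N) with hS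
  have hNS : N ≤ S := by
    intro x hx
    rw [hS, Subgroup.mem_comap]
    have : QuotientGroup.mk' N x = 1 := (QuotientGroup.eq_one_iff _).2 hx
    rw [this]
    exact Subgroup.one_mem _
  have hSi : S.index = (P : Subgroup (G ⧸ N)).index :=
    Subgroup.index_comap_of_surjective _ (QuotientGroup.mk'_surjective N)
  have hPi : ¬ p ∣ S.index := by
    rw [hSi]
    exact P.not_dvd_index
  have hrel : N.relIndex S = p ^ N.index.factorization p := by
    have e1 : N.relIndex S * S.index = N.index := Subgroup.relIndex_mul_index hNS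
    have e2 : Nat.card P * (P : Subgroup (G ⧸ N)).index = N.index :=
      (Subgroup.card_mul_index (P : Subgroup (G ⧸ N)))
    rw [← hSi, hPc] at e2
    have h0 : 0 < S.index := Nat.pos_of_ne_zero (by
      intro h0
      rw [h0] at hPi
      exact hPi (dvd_zero _))
    exact Nat.eq_of_mul_eq_mul_right h0 (e1.trans e2.symm)
  have hnas : P9700d.NAS e (S ⧸ N.subgroupOf S) :=
    P9700d.nas_quot (p := p) A B r e ((rk_iff A).1 hA) ((rk_iff B).1 hB) hAB
      (fun n => he p n hp.two_le) S N hNi hNS ⟨_, hrel⟩ hPi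
  have hcX : Nat.card (S ⧸ N.subgroupOf S) = p ^ N.index.factorization p := hrel
  have : Finite (S ⧸ N.subgroupOf S) := by
    apply Nat.finite_of_card_ne_zero
    rw [hcX]
    exact pow_ne_zero _ hp.ne_zero
  have hXp : IsPGroup p (S ⧸ N.subgroupOf S) := IsPGroup.of_card hcX
  have hle := P9700d.card_le_of_exp hXp e (m !) (fun M hM hMc => by
    obtain ⟨s, hs1, hs2⟩ := hnas M ⊥ hM inferInstance bot_le (by
      rw [Subgroup.commutator_le]
      intro a ha b hb
      rw [Subgroup.mem_bot, commutatorElement_eq_one_iff_mul_comm]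
      exact hMc a ha b hb)
    exact ⟨s, hs1, by rwa [sup_bot_eq] at hs2⟩) (fun x => by
    obtain ⟨j, hj⟩ := (IsPGroup.iff_orderOf.1 hXp) x
    obtain ⟨y, rfl⟩ := QuotientGroup.mk'_surjective (N.subgroupOf S) x
    have hx1 : (QuotientGroup.mk' (N.subgroupOf S) y) ^ (m !) = 1 := by
      rw [← map_pow]
      refine (QuotientGroup.eq_one_iff _).2 ?_
      rw [Subgroup.mem_subgroupOf]
      exact hm y
    have h2 : p ^ j ∣ m ! := by
      rw [← hj]
      exact orderOf_dvd_of_pow_eq_one hx1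
    have h3 : j ≤ m ! := by
      have h4 : p ^ j ≤ m ! := Nat.le_of_dvd (Nat.factorial_pos m) h2
      exact (Nat.lt_pow_self hp.one_lt).le.trans h4
    have h5 : orderOf (QuotientGroup.mk' (N.subgroupOf S) y) ∣ p ^ (m !) := by
      rw [hj]
      exact pow_dvd_pow p h3
    exact orderOf_dvd_iff_pow_eq_one.1 h5)
  rw [hcX] at hle
  exact (Nat.pow_le_pow_iff_right hp.one_lt).1 hle

theorem index_dvd (A B : Subgroup G) (r : ℕ) (hA : RK r A) (hB : RK r B)
    (hAB : ∀ g : G, ∃ a ∈ A, ∃ b ∈ B, g = a * b) (e : ℕ)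
    (he : ∀ p n : ℕ, 2 ≤ p → n ≤ 2 * r + r * (r + 1) * Nat.clog p n → n ≤ e)
    (m : ℕ) (N : Subgroup G) (hN : N.Normal) (hNi : N.FiniteIndex) (hm : ∀ x : G, x ^ (m !) ∈ N) :
    N.index ∣ (m !) ^ (m ! * e * (e + 1)) := by
  have h0 : N.index ≠ 0 := hNi.index_ne_zero
  have h1 : (m !) ^ (m ! * e * (e + 1)) ≠ 0 := pow_ne_zero _ (Nat.factorial_ne_zero m)
  rw [← Nat.factorization_prime_le_iff_dvd h0 h1]
  intro p hp
  by_cases hpd : p ∣ N.index
  · obtain ⟨h2, h3⟩ := pow_bound A B r hA hB hAB e he m N hNi hm p hp hpd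
    have h4 : 1 ≤ (m !).factorization p :=
      (hp.dvd_iff_one_le_factorization (Nat.factorial_ne_zero m)).1 h2
    rw [Nat.factorization_pow, Finsupp.smul_apply, smul_eq_mul]
    exact h3.trans (Nat.le_mul_of_pos_right _ h4)
  · rw [Nat.factorization_eq_zero_of_not_dvd hpd]
    exact Nat.zero_le _

end FinBddAux

open FinBddAux

theorem finbdd {G : Type*} [Group G] (A B : Subgroup G) (r : ℕ) (hA : RK r A) (hB : RK r B)
    (hAB : ∀ g : G, ∃ a ∈ A, ∃ b ∈ B, g = a * b) (m : ℕ) (𝒩 : Set (Subgroup G))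
    (h : ∀ N ∈ 𝒩, N.Normal ∧ N.index ≠ 0 ∧ N.index ≤ m) : (sInf 𝒩).FiniteIndex := by
  obtain ⟨e, he⟩ := P9700d.exists_bound r
  set C : ℕ := (m !) ^ (m ! * e * (e + 1)) with hC
  set T : Set (Subgroup G) := {N | N.Normal ∧ N.FiniteIndex ∧ ∀ x : G, x ^ (m !) ∈ N} with hT
  have hTC : ∀ N ∈ T, N.index ≤ C := by
    rintro N ⟨h1, h2, h3⟩
    exact Nat.le_of_dvd (pow_pos (Nat.factorial_pos m) _)
      (index_dvd A B r hA hB hAB e he m N h1 h2 h3)
  have hI : (⊤ : Subgroup G) ∈ T := ⟨inferInstance, inferInstance, fun x => Subgroup.mem_top _⟩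
  have hne : (Subgroup.index '' T).Nonempty := ⟨_, _, hI, rfl⟩
  have hbd : BddAbove (Subgroup.index '' T) := by
    refine ⟨C, ?_⟩
    rintro _ ⟨N, hN, rfl⟩
    exact hTC N hN
  obtain ⟨N, hN, hNm⟩ := Nat.sSup_mem hne hbd
  have hmax : ∀ N' ∈ T, N'.index ≤ N.index := by
    intro N' hN'
    rw [hNm]
    exact le_csSup hbd ⟨N', hN', rfl⟩
  obtain ⟨hN1, hN2, hN3⟩ := hN
  have := hN1
  have := hN2
  have hle : N ≤ sInf 𝒩 := by
    refine le_sInf ?_
    intro N' hN'
    obtain ⟨h1, h2, h3⟩ := h N' hN'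
    have := h1
    have : N'.FiniteIndex := ⟨h2⟩
    have h4 : ∀ x : G, x ^ (m !) ∈ N' := by
      intro x
      have h5 : N'.index ∣ m ! := Nat.dvd_factorial (Nat.pos_of_ne_zero h2) h3
      obtain ⟨k, hk⟩ := h5
      rw [hk, pow_mul]
      exact Subgroup.pow_mem _ (Subgroup.pow_index_mem N' x) k
    have h5 : N ⊓ N' ∈ T := ⟨inferInstance, inferInstance, fun x => ⟨hN3 x, h4 x⟩⟩
    have h6 := hmax _ h5
    have h7 : (N ⊓ N').relIndex N * N.index = (N ⊓ N').index :=
      Subgroup.relIndex_mul_index inf_le_left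
    have h8 : 0 < N.index := Nat.pos_of_ne_zero hN2.index_ne_zero
    have h9 : (N ⊓ N').relIndex N ≤ 1 := by
      by_contra hlt
      have h10 : 2 * N.index ≤ (N ⊓ N').relIndex N * N.index :=
        Nat.mul_le_mul_right _ (by omega)
      omega
    have h10 : (N ⊓ N').relIndex N ≠ 0 := by
      intro h0
      rw [h0, zero_mul] at h7
      exact (inferInstance : (N ⊓ N').FiniteIndex).index_ne_zero h7.symm
    have h11 : (N ⊓ N').relIndex N = 1 := by omega
    exact (Subgroup.relIndex_eq_one.1 h11).trans inf_le_right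
  exact Subgroup.finiteIndex_of_le hle

end P9700e
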