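import Mathlib
import Pool.Agent.Lib.P9700d.Num
import Pool.Agent.Lib.P9700e.Defs
import Pool.Agent.Lib.P9700e.Defs2
import Pool.Agent.Lib.P9700e.FinBdd
import Pool.Agent.Lib.P9700e.ElemR
import Pool.Agent.Lib.P9700e.ChiefE
import Pool.Agent.Lib.P9700e.ChiefT

/-!
# The subgroup `J`

`exists_J`: `e` from `P9700d.exists_bound r`, `t` from `chief_T e (G0.index)`. For every pair `(M, M')` with `Sl G0 M'`, `M ≤ G0`, `Chf M M'`: `chief_elem`, `elem_rank`, `chief_T` give `T` normal of index `≤ t` with `⁅M, ⁅T, T⁆⁆ ≤ M'`. Let `𝒩` be the set of all normal `T` of index `≠ 0`, `≤ t` such that `⁅M, ⁅T, T⁆⁆ ≤ M'` for some such pair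
(one for each pair), together with `G0`-like members: `T0 = sInf 𝒩 ⊓ G0`, normal, of finite index by `finbdd` (`sInf` of normal subgroups is normal). `J = T0 ⊓ {g : ⁅x, g⁆ ∈ M' for all pairs (M, M') and x ∈ M}` is a normal subgroup with `CJ G0 J`, and `⁅T0, T0⁆ ≤ J`.
`fr_DL_of_ab`: in `G ⧸ J`, `N = T.map (mk' J)` is abelian and normal, its centralizer contains `N`, of finite index: `P9700a.FR_of_cent` gives `FR N`, `FR.of_finiteIndex`. `DL 1`: `derivedSeries N 1 = ⊥`.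
-/

set_option autoImplicit false

open scoped commutatorElement

universe u

namespace P9700e

open P9700a

namespace ExJAux

/-- the elements of `T0` that centralise all the chief factors in question -/
def JJ {G : Type*} [Group G] (G0 T0 : Subgroup G) : Subgroup G where
  carrier := {g | g ∈ T0 ∧ ∀ M M' : Subgroup G, Sl G0 M' → M ≤ G0 → Chf M M' →
    ∀ x ∈ M, x * g * x⁻¹ * g⁻¹ ∈ M'}
  one_mem' := ⟨T0.one_mem, fun M M' _ _ _ x _ => by
    have : x * 1 * x⁻¹ * 1⁻¹ = 1 := by group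
    rw [this]
    exact M'.one_mem⟩
  mul_mem' := by
    rintro a b ⟨ha, ha'⟩ ⟨hb, hb'⟩
    refine ⟨T0.mul_mem ha hb, fun M M' h1 h2 h3 x hx => ?_⟩
    have e : x * (a * b) * x⁻¹ * (a * b)⁻¹ =
        (x * a * x⁻¹ * a⁻¹) * (a * (x * b * x⁻¹ * b⁻¹) * a⁻¹) := by group
    rw [e]
    exact M'.mul_mem (ha' M M' h1 h2 h3 x hx) (h3.2.1.conj_mem _ (hb' M M' h1 h2 h3 x hx) a)
  inv_mem' := by
    rintro a ⟨ha, ha'⟩
    refine ⟨T0.inv_mem ha, fun M M' h1 h2 h3 x hx => ?_⟩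
    have e : x * a⁻¹ * x⁻¹ * (a⁻¹)⁻¹ = a⁻¹ * (x * a * x⁻¹ * a⁻¹)⁻¹ * (a⁻¹)⁻¹ := by group
    rw [e]
    exact h3.2.1.conj_mem _ (M'.inv_mem (ha' M M' h1 h2 h3 x hx)) a⁻¹

theorem mem_JJ {G : Type*} [Group G] (G0 T0 : Subgroup G) (g : G) :
    g ∈ JJ G0 T0 ↔ g ∈ T0 ∧ ∀ M M' : Subgroup G, Sl G0 M' → M ≤ G0 → Chf M M' →
      ∀ x ∈ M, x * g * x⁻¹ * g⁻¹ ∈ M' := Iff.rfl

theorem JJ_normal {G : Type*} [Group G] (G0 T0 : Subgroup G) (hT : T0.Normal) :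
    (JJ G0 T0).Normal := by
  refine ⟨fun g hg a => ?_⟩
  rw [mem_JJ] at hg ⊢
  refine ⟨hT.conj_mem _ hg.1 a, fun M M' h1 h2 h3 x hx => ?_⟩
  have hx' : a⁻¹ * x * (a⁻¹)⁻¹ ∈ M := h3.1.conj_mem x hx a⁻¹
  have e : x * (a * g * a⁻¹) * x⁻¹ * (a * g * a⁻¹)⁻¹ =
      a * ((a⁻¹ * x * (a⁻¹)⁻¹) * g * (a⁻¹ * x * (a⁻¹)⁻¹)⁻¹ * g⁻¹) * a⁻¹ := by group
  rw [e]
  exact h3.2.1.conj_mem _ (hg.2 M M' h1 h2 h3 _ hx') a

end ExJAux

open ExJAux

theorem exists_J {G : Type u} [Group G] (A B : Subgroup G) (r : ℕ) (hA : RK r A) (hB : RK r B)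
    (hAB : ∀ g : G, ∃ a ∈ A, ∃ b ∈ B, g = a * b) (G0 : Subgroup G) (hG0 : G0.Normal)
    (hfi : G0.FiniteIndex) :
    ∃ J T : Subgroup G, J.Normal ∧ T.Normal ∧ T.FiniteIndex ∧ J ≤ T ∧ T ≤ G0 ∧ ⁅T, T⁆ ≤ J ∧
      CJ G0 J := by
  obtain ⟨e, he⟩ := P9700d.exists_bound r
  obtain ⟨t, ht⟩ := chief_T.{u} e G0.index
  have key : ∀ M M' : Subgroup G, Sl G0 M' → M ≤ G0 → Chf M M' →
      ∃ T : Subgroup G, T.Normal ∧ T.index ≠ 0 ∧ T.index ≤ t ∧ ⁅M, ⁅T, T⁆⁆ ≤ M' := by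
    intro M M' h1 h2 h3
    obtain ⟨p, hp, hc, hx⟩ := chief_elem G0 M M' h1 h2 h3
    haveI : Fact p.Prime := ⟨hp⟩
    have h4 := elem_rank A B r e hA hB hAB (fun n hn => he p n hp.two_le hn) M M' h3.1 h3.2.1
      h1.2.1 h3.2.2.1.le hc hx
    exact ht G G0 M M' p hp hG0 hfi.index_ne_zero le_rfl h1 h2 h3 hc hx h4
  let 𝒩 : Set (Subgroup G) := {T | T.Normal ∧ T.index ≠ 0 ∧ T.index ≤ t}
  have hfin : (sInf 𝒩).FiniteIndex := finbdd A B r hA hB hAB t 𝒩 (fun N hN => hN)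
  have hnor : (sInf 𝒩).Normal := by
    refine ⟨fun x hx g => ?_⟩
    rw [Subgroup.mem_sInf] at hx ⊢
    exact fun N hN => hN.1.conj_mem x (hx N hN) g
  have hT0n : (sInf 𝒩 ⊓ G0).Normal := by
    refine ⟨fun x hx g => ?_⟩
    rw [Subgroup.mem_inf] at hx ⊢
    exact ⟨hnor.conj_mem x hx.1 g, hG0.conj_mem x hx.2 g⟩
  refine ⟨JJ G0 (sInf 𝒩 ⊓ G0), sInf 𝒩 ⊓ G0, JJ_normal _ _ hT0n, hT0n, inferInstance,
    fun g hg => hg.1, inf_le_right, ?_, ?_⟩
  · intro g hg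
    rw [mem_JJ]
    constructor
    · have h1 : ⁅sInf 𝒩 ⊓ G0, sInf 𝒩 ⊓ G0⁆ ≤ sInf 𝒩 ⊓ G0 := by
        rw [Subgroup.commutator_le]
        intro a ha b hb
        rw [commutatorElement_def]
        exact mul_mem (mul_mem (mul_mem ha hb) (inv_mem ha)) (inv_mem hb)
      exact h1 hg
    · intro M M' h1 h2 h3 x hx
      obtain ⟨T, hTn, hT0, hTt, hT⟩ := key M M' h1 h2 h3
      have h4 : sInf 𝒩 ⊓ G0 ≤ T := inf_le_left.trans (sInf_le ⟨hTn, hT0, hTt⟩)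
      have h5 : g ∈ ⁅T, T⁆ := Subgroup.commutator_mono h4 h4 hg
      have h6 := hT (Subgroup.commutator_mem_commutator hx h5)
      rw [commutatorElement_def] at h6
      exact h6
  · intro M M' h1 h2 h3
    rw [Subgroup.commutator_le]
    intro x hx g hg
    rw [commutatorElement_def]
    exact hg.2 M M' h1 h2 h3 x hx

theorem fr_DL_of_ab {G : Type*} [Group G] (A B : Subgroup G) (hA : FR A) (hB : FR B)
    (hAB : ∀ g : G, ∃ a ∈ A, ∃ b ∈ B, g = a * b) (J T : Subgroup G) [J.Normal] (hT : T.Normal)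
    (hTi : T.FiniteIndex) (hJT : J ≤ T) (hc : ⁅T, T⁆ ≤ J) : FR (G ⧸ J) ∧ DL 1 (G ⧸ J) := by
  have hsurj : Function.Surjective (QuotientGroup.mk' J) := QuotientGroup.mk'_surjective J
  have hNn : (T.map (QuotientGroup.mk' J)).Normal := Subgroup.Normal.map hT _ hsurj
  have hNab : ∀ x ∈ T.map (QuotientGroup.mk' J), ∀ y ∈ T.map (QuotientGroup.mk' J),
      x * y = y * x := by
    rintro _ ⟨a, ha, rfl⟩ _ ⟨b, hb, rfl⟩
    have h1 : ⁅a, b⁆ ∈ J := hc (Subgroup.commutator_mem_commutator ha hb)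
    have h2 : QuotientGroup.mk' J ⁅a, b⁆ = 1 := by
      rw [QuotientGroup.mk'_apply, QuotientGroup.eq_one_iff]
      exact h1
    rw [map_commutatorElement, commutatorElement_eq_one_iff_mul_comm] at h2
    exact h2
  have hNfi : (T.map (QuotientGroup.mk' J)).FiniteIndex := by
    refine ⟨?_⟩
    rw [← Subgroup.index_comap_of_surjective _ hsurj, Subgroup.comap_map_eq,
      QuotientGroup.ker_mk', sup_of_le_left hJT]
    exact hTi.index_ne_zero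
  have hcent : (Subgroup.centralizer ((T.map (QuotientGroup.mk' J) : Subgroup (G ⧸ J)) :
      Set (G ⧸ J))).FiniteIndex := by
    refine Subgroup.finiteIndex_of_le (H := T.map (QuotientGroup.mk' J)) fun x hx => ?_
    rw [Subgroup.mem_centralizer_iff]
    exact fun y hy => hNab y hy x hx
  have hA' : FR (A.map (QuotientGroup.mk' J)) :=
    FR.of_surjective _ (MonoidHom.subgroupMap_surjective (QuotientGroup.mk' J) A) hA
  have hB' : FR (B.map (QuotientGroup.mk' J)) :=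
    FR.of_surjective _ (MonoidHom.subgroupMap_surjective (QuotientGroup.mk' J) B) hB
  have hAB' : ∀ g : G ⧸ J, ∃ a ∈ A.map (QuotientGroup.mk' J), ∃ b ∈ B.map (QuotientGroup.mk' J),
      g = a * b := by
    intro g
    obtain ⟨g, rfl⟩ := hsurj g
    obtain ⟨a, ha, b, hb, rfl⟩ := hAB g
    exact ⟨_, Subgroup.mem_map_of_mem _ ha, _, Subgroup.mem_map_of_mem _ hb, map_mul _ _ _⟩
  have hN : FR (T.map (QuotientGroup.mk' J)) := FR_of_cent _ _ _ hA' hB' hAB' hNab hcent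
  refine ⟨FR.of_finiteIndex _ hN, T.map (QuotientGroup.mk' J), hNfi, ?_⟩
  rw [eq_bot_iff, derivedSeries_succ, Subgroup.commutator_le]
  intro x _ y _
  rw [Subgroup.mem_bot, commutatorElement_eq_one_iff_mul_comm]
  exact Subtype.ext (hNab x x.2 y y.2)

end P9700e
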