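import Mathlib
import Pool.Agent.Lib.P9700e.Defs
import Pool.Agent.Lib.P9700e.Defs2
import Pool.Agent.Lib.P9700e.ChiefE

/-!
# The quotients without normal subgroups of order prime to `p` separate points

* `Sl.inf`: `M ⊓ M'` is normal of finite index, and `derivedSeries G0 (max k k')` is in both.
* `Sl.of_le`: for `N ≤ M ≤ G0`, `M` normal: `Sl G0 N → Sl G0 M`.
* `PR.inf`: let `M ⊓ M' ≤ U ≤ G0`, `p ∤ [U : M ⊓ M']`. `M.relIndex (U ⊔ M) = (M ⊓ U).relIndex U`-like number divides `(M ⊓ M').relIndex U` (`Subgroup.relIndex_sup_right`, `Subgroup.inf_relIndex_right`, multiplicativity), so `U ⊔ M = M`, `U ≤ M`; same for `M'`.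
* `exists_PR`: among the `M` with `Sl G0 M`, `N ≤ M`, `g ∉ M` choose one of smallest index (a maximal one; finite index of `N`). If `M = G0`: `PR 2 G0 G0` is trivial. Otherwise let `U` be minimal among the normal subgroups of `G` with `M < U ≤ G0`, so `Chf U M`; `chief_elem` gives `p` prime with `x ^ p ∈ M` for `x ∈ U`, so `p ∣ M.relIndex U`
(`U / M` is a nontrivial finite `p`-group). `PR p G0 M`: let `U'` be normal, `M ≤ U' ≤ G0`, `U' ≠ M`. By the choice of `M`, `g ∈ U` and `g ∈ U'` (`Sl.of_le`), so `M < U ⊓ U' ≤ U`, `U ≤ U'`, and `p ∣ M.relIndex U ∣ M.relIndex U'`.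
-/

set_option autoImplicit false

namespace P9700e

theorem Sl.inf {G : Type*} [Group G] {G0 M M' : Subgroup G} (h : Sl G0 M) (h' : Sl G0 M') :
    Sl G0 (M ⊓ M') := by
  obtain ⟨h1, h2, h3, k, hk⟩ := h
  obtain ⟨h1', h2', h3', k', hk'⟩ := h'
  refine ⟨inferInstance, inferInstance, inf_le_left.trans h3, max k k', le_inf ?_ ?_⟩
  · exact (Subgroup.map_mono (derivedSeries_antitone G0 (le_max_left k k'))).trans hk
  · exact (Subgroup.map_mono (derivedSeries_antitone G0 (le_max_right k k'))).trans hk'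

theorem Sl.of_le {G : Type*} [Group G] {G0 N M : Subgroup G} (h : Sl G0 N) (hM : M.Normal)
    (h1 : N ≤ M) (h2 : M ≤ G0) : Sl G0 M := by
  obtain ⟨-, h4, -, k, hk⟩ := h
  exact ⟨hM, Subgroup.finiteIndex_of_le h1, h2, k, hk.trans h1⟩

theorem PR.inf {G : Type*} [Group G] {p : ℕ} {G0 M M' : Subgroup G} (hM : Sl G0 M) (hM' : Sl G0 M')
    (h : PR p G0 M) (h' : PR p G0 M') : PR p G0 (M ⊓ M') := by
  have nM : M.Normal := hM.1
  have nM' : M'.Normal := hM'.1
  intro U hU h1 h2 h3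
  have key : ∀ K : Subgroup G, K.Normal → K ≤ G0 → M ⊓ M' ≤ K → PR p G0 K → U ≤ K := by
    intro K hK hK0 hle hPR
    have e1 : K.relIndex (U ⊔ K) = K.relIndex U := Subgroup.relIndex_sup_right U K
    have e2 : K.relIndex U ∣ (M ⊓ M').relIndex U := Subgroup.relIndex_dvd_of_le_left U hle
    have e3 : U ⊔ K = K := by
      refine hPR (U ⊔ K) inferInstance le_sup_right (sup_le h2 hK0) ?_
      rw [e1]
      exact fun hd => h3 (hd.trans e2)
    exact le_sup_left.trans e3.le
  exact le_antisymm (le_inf (key M nM hM.2.2.1 inf_le_left h)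
    (key M' nM' hM'.2.2.1 inf_le_right h')) h1

namespace MonoPAux

theorem dvd_of_exp {G : Type*} [Group G] {M U : Subgroup G} (hM : M.Normal) {p : ℕ}
    (hp : p.Prime) (hlt : M < U) (hfin : M.relIndex U ≠ 0) (he : ∀ x ∈ U, x ^ p ∈ M) :
    p ∣ M.relIndex U := by
  have h1 : M.relIndex U ≠ 1 := by
    intro h
    exact absurd (Subgroup.relIndex_eq_one.mp h) (not_le_of_gt hlt)
  obtain ⟨q, hq, hqd⟩ := Nat.exists_prime_and_dvd h1
  have hcard : M.relIndex U = Nat.card (U ⧸ M.subgroupOf U) := rfl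
  have : Finite (U ⧸ M.subgroupOf U) := Nat.finite_of_card_ne_zero (by rw [← hcard]; exact hfin)
  have : Fact q.Prime := ⟨hq⟩
  obtain ⟨x, hx⟩ := exists_prime_orderOf_dvd_card' (G := U ⧸ M.subgroupOf U) q
    (by rw [← hcard]; exact hqd)
  obtain ⟨y, rfl⟩ := QuotientGroup.mk_surjective x
  have h2 : ((y : U ⧸ M.subgroupOf U)) ^ p = 1 := by
    rw [← QuotientGroup.mk_pow, QuotientGroup.eq_one_iff, Subgroup.mem_subgroupOf]
    exact he y y.2
  have h3 : q ∣ p := by
    rw [← hx]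
    exact orderOf_dvd_of_pow_eq_one h2
  have h4 : q = p := (Nat.prime_dvd_prime_iff_eq hq hp).mp h3
  rw [← h4]
  exact hqd

end MonoPAux

open Classical in
theorem exists_PR {G : Type*} [Group G] {G0 N : Subgroup G} (hG0 : G0.Normal) (hN : Sl G0 N) (g : G)
    (hg : g ∉ N) : ∃ p : ℕ, p.Prime ∧ ∃ M : Subgroup G, Sl G0 M ∧ PR p G0 M ∧ g ∉ M := by
  have hex : ∃ m : ℕ, ∃ M : Subgroup G, Sl G0 M ∧ N ≤ M ∧ g ∉ M ∧ M.index = m :=
    ⟨N.index, N, hN, le_rfl, hg, rfl⟩
  obtain ⟨M, hM, hNM, hgM, hidx⟩ := Nat.find_spec hex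
  have nM : M.Normal := hM.1
  have fM : M.FiniteIndex := hM.2.1
  -- every larger normal subgroup contains `g`
  have hmax : ∀ U : Subgroup G, U.Normal → M ≤ U → U ≤ G0 → U ≠ M → g ∈ U := by
    intro U hU hMU hU0 hne
    by_contra hgU
    have h1 : Nat.find hex ≤ U.index :=
      Nat.find_min' hex ⟨U, hM.of_le hU hMU hU0, hNM.trans hMU, hgU, rfl⟩
    rw [← hidx] at h1
    have h2 : M.relIndex U * U.index = M.index := Subgroup.relIndex_mul_index hMU
    have h3 : M.index ≠ 0 := fM.index_ne_zero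
    have h4 : M.relIndex U ≠ 1 := by
      intro h5
      exact hne (le_antisymm (Subgroup.relIndex_eq_one.mp h5) hMU)
    have h5 : M.relIndex U ≠ 0 := by
      intro h6
      rw [h6, zero_mul] at h2
      exact h3 h2.symm
    have h6 : U.index ≠ 0 := by
      intro h7
      rw [h7, mul_zero] at h2
      exact h3 h2.symm
    have h7 : 2 ≤ M.relIndex U := by omega
    have h8 : 2 * U.index ≤ M.index := by
      rw [← h2]
      exact Nat.mul_le_mul_right _ h7
    omega
  by_cases hMG : M = G0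
  · refine ⟨2, Nat.prime_two, M, hM, ?_, hgM⟩
    intro U _ h1 h2 _
    rw [hMG] at h1 ⊢
    exact le_antisymm h2 h1
  -- a minimal normal subgroup above `M`
  have hex2 : ∃ m : ℕ, ∃ U : Subgroup G, U.Normal ∧ M < U ∧ U ≤ G0 ∧ M.relIndex U = m :=
    ⟨M.relIndex G0, G0, hG0, lt_of_le_of_ne hM.2.2.1 hMG, le_rfl, rfl⟩
  obtain ⟨U, nU, hMU, hU0, hrel⟩ := Nat.find_spec hex2
  have hne0 : ∀ V : Subgroup G, M.relIndex V ≠ 0 := fun V =>
    (inferInstance : (M.subgroupOf V).FiniteIndex).index_ne_zero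
  have hch : Chf U M := by
    refine ⟨nU, nM, hMU, ?_⟩
    intro V hV h1 h2
    by_cases hVM : V = M
    · exact Or.inl hVM
    · right
      have h3 : Nat.find hex2 ≤ M.relIndex V :=
        Nat.find_min' hex2 ⟨V, hV, lt_of_le_of_ne h1 (Ne.symm hVM), h2.trans hU0, rfl⟩
      rw [← hrel] at h3
      have h4 : M.relIndex V * V.relIndex U = M.relIndex U :=
        Subgroup.relIndex_mul_relIndex M V U h1 h2
      have h5 : V.relIndex U ≠ 0 := by
        intro h6
        rw [h6, mul_zero] at h4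
        exact hne0 U h4.symm
      have h6 : V.relIndex U = 1 := by
        by_contra h7
        have h8 : 2 ≤ V.relIndex U := by omega
        have h9 : M.relIndex V * 2 ≤ M.relIndex U := by
          rw [← h4]
          exact Nat.mul_le_mul_left _ h8
        have h10 := hne0 V
        omega
      exact le_antisymm h2 (Subgroup.relIndex_eq_one.mp h6)
  obtain ⟨p, hp, -, he⟩ := chief_elem G0 U M hM hU0 hch
  have hdvd : p ∣ M.relIndex U := MonoPAux.dvd_of_exp nM hp hMU (hne0 U) he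
  refine ⟨p, hp, M, hM, ?_, hgM⟩
  intro U' nU' h1 h2 h3
  by_contra hne
  have hg1 : g ∈ U' := hmax U' nU' h1 h2 hne
  have hg2 : g ∈ U := hmax U nU hMU.le hU0 hMU.ne'
  have h4 : U ⊓ U' = U := by
    rcases hch.2.2.2 (U ⊓ U') inferInstance (le_inf hMU.le h1) inf_le_left with h5 | h5
    · exact absurd (h5 ▸ (⟨hg2, hg1⟩ : g ∈ U ⊓ U')) hgM
    · exact h5
  have h5 : U ≤ U' := inf_eq_left.mp h4
  have h6 : M.relIndex U ∣ M.relIndex U' := by
    rw [← Subgroup.relIndex_mul_relIndex M U U' hMU.le h5]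
    exact dvd_mul_right _ _
  exact h3 (hdvd.trans h6)

end P9700e
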