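import Mathlib
import Pool.Agent.Lib.P9700d.Main
import Pool.Agent.Lib.P9700e.Defs
import Pool.Agent.Lib.P9700e.ElemR
import Pool.Agent.Lib.P9700e.DLen
import Pool.Agent.Lib.P9700e.HSol

/-!
# The virtually residually-`p` case with bounds
-/

set_option autoImplicit false

open scoped commutatorElement

universe v

namespace P9700e

open P9700a P9700d

theorem resp {G : Type v} [Group G] {p : ℕ} [Fact p.Prime] (A B : Subgroup G) (r e : ℕ)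
    (hA : RK r A) (hB : RK r B) (hAB : ∀ g : G, ∃ a ∈ A, ∃ b ∈ B, g = a * b)
    (he : ∀ n : ℕ, n ≤ 2 * r + r * (r + 1) * Nat.clog p n → n ≤ e) (G0 : Subgroup G)
    (hfi : G0.FiniteIndex)
    (hres : ∀ g : G0, g ≠ 1 → ∃ N : Subgroup G0, N.Normal ∧ (∃ k : ℕ, N.index = p ^ k) ∧ g ∉ N) :
    FR G ∧ DL (e + 2) G ∧ ∃ L : Subgroup G, L.Normal ∧ L.FiniteIndex ∧
      ∀ x ∈ L, ∀ m : ℕ, 0 < m → x ^ m = 1 → x = 1 := by
  classical
  have hFG : FR G := (main G0 hfi hres A B hA.fr hB.fr hAB).1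
  have hA' := (rk_iff A).1 hA
  have hB' := (rk_iff B).1 hB
  obtain ⟨G1, S, 𝒩, hG1n, hG1i, hG1S, hSi, hne, hinf, h𝒩, hint⟩ := exists_fam (p := p) G0 hfi hres
  have hnas : ∀ N ∈ 𝒩, ∀ _ : N.Normal, NAS e (S ⧸ N.subgroupOf S) := by
    intro N hN hNn
    obtain ⟨h1, h2, h3, h4⟩ := h𝒩 N hN
    exact nas_quot A B r e hA' hB' hAB he S N h2 (h3.trans hG1S) h4 hSi
  obtain ⟨V, hVn, hVG, ⟨N0, hN0, hN0V⟩, hV⟩ := exists_V e G1 S 𝒩 hG1n hG1S hne hinf h𝒩 hnas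
  have hVi : V.FiniteIndex := by
    have := (h𝒩 N0 hN0).2.1
    exact Subgroup.finiteIndex_of_le hN0V
  obtain ⟨L, hL0, hL⟩ := exists_fil (p := p) e V hVn hVi {N | N ∈ 𝒩 ∧ N ≤ V} ⟨N0, hN0, hN0V⟩
    (by
      rintro N ⟨h1, h2⟩ N' ⟨h3, h4⟩
      exact ⟨N ⊓ N', ⟨hinf N h1 N' h3, inf_le_left.trans h2⟩, inf_le_left, inf_le_right⟩)
    (fun N hN => (h𝒩 N hN.1).1) (fun N hN => (h𝒩 N hN.1).2.1) (fun N hN => hN.2)
    (by
      rintro N ⟨h1, h2⟩ v hv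
      obtain ⟨h3, h4, h5, k, hk⟩ := h𝒩 N h1
      refine ⟨k, ?_⟩
      rw [← hk]
      have h6 : v ∈ S := hG1S (hVG hv)
      have h7 : (⟨v, h6⟩ : S) ^ (N.subgroupOf S).index ∈ N.subgroupOf S :=
        Subgroup.pow_index_mem _ _
      exact h7)
    (by
      intro g hg
      refine hint g fun N hN => ?_
      exact (hg (N ⊓ N0) ⟨hinf N hN N0 hN0, inf_le_right.trans hN0V⟩).1)
    (fun N hN M h1 h2 h3 => (hV N hN.1 M h1 h2 h3).1)
    (fun N hN M h1 h2 h3 => (hV N hN.1 M h1 h2 h3).2)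
  obtain ⟨i0, D, hi0, hs⟩ := exists_stb L hL
  have hD : D ≤ e := by
    have h1 := elem_rank A B r e hA hB hAB he (L i0) (L (i0 + 1)) (hL.norm i0) (hL.norm (i0 + 1))
      (hL.fi (i0 + 1)) (hL.anti i0)
      ((hL.comm i0 i0).trans (hL.anti' (by omega))) (hL.pow i0)
    rw [hs.card i0 le_rfl] at h1
    exact (Nat.pow_le_pow_iff_right (Fact.out : p.Prime).one_lt).1 h1
  refine ⟨hFG, (dl_of_stb hFG hL hi0 hs).mono (by omega), L i0, hL.norm i0, hL.fi i0,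
    tf_of_stb hL hs⟩

end P9700e
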