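import Mathlib
import Pool.Agent.Lib.P9700e.Defs
import Pool.Agent.Lib.P9700e.Defs2
import Pool.Agent.Lib.P9700e.MonoP
import Pool.Agent.Lib.P9700e.Resp

/-!
# The quotient `G / KP p G0`

`KP` is normal (infimum of normal subgroups). `Q = G ⧸ KP p G0`, `G1 = V.map (mk' _)` has finite index. For `g ∈ G1`, `g ≠ 1`, `g = mk v`, `v ∈ V`, `v ∉ KP`, so there is `M` with `Sl G0 M`, `PR p G0 M`, `v ∉ M`; `N` = the image of `M ⊓ V` in `G1` (as a subgroup of `G1`): normal, does not contain `g` (as `KP ≤ M`, `v ∉ M`), of finite index, and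
`G1 / N` is a finite `p`-group by `hV`, so its index is a power of `p` (`IsPGroup.iff_card`). `resp` for `Q` with the images of `A`, `B` (`RK.map`): `FR Q`, `DL (e+2) Q` and a torsion-free normal subgroup of finite index; `L` = its preimage.
-/

set_option autoImplicit false

universe u

namespace P9700e

open P9700a

/-- the intersection of the `M` with `Sl G0 M` and `PR p G0 M` -/
def KP {G : Type*} [Group G] (p : ℕ) (G0 : Subgroup G) : Subgroup G :=
  sInf {M | Sl G0 M ∧ PR p G0 M}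

namespace RespQAux

theorem kp_normal {G : Type*} [Group G] (p : ℕ) (G0 : Subgroup G) : (KP p G0).Normal := by
  constructor
  intro n hn g
  rw [KP, Subgroup.mem_sInf] at hn ⊢
  intro M hM
  exact hM.1.1.conj_mem n (hn M hM) g

theorem kp_le {G : Type*} [Group G] {p : ℕ} {G0 M : Subgroup G} (h : Sl G0 M) (h' : PR p G0 M) :
    KP p G0 ≤ M := sInf_le ⟨h, h'⟩

theorem exists_of_notMem {G : Type*} [Group G] {p : ℕ} {G0 : Subgroup G} {v : G}
    (h : v ∉ KP p G0) : ∃ M : Subgroup G, Sl G0 M ∧ PR p G0 M ∧ v ∉ M := by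
  by_contra hn
  apply h
  rw [KP, Subgroup.mem_sInf]
  intro M hM
  by_contra hv
  exact hn ⟨M, hM.1, hM.2, hv⟩

theorem mem_of_map {G : Type*} [Group G] {K M : Subgroup G} [K.Normal] (hKM : K ≤ M) {v : G}
    (h : QuotientGroup.mk' K v ∈ M.map (QuotientGroup.mk' K)) : v ∈ M := by
  obtain ⟨m, hm, he⟩ := Subgroup.mem_map.1 h
  have h1 : m⁻¹ * v ∈ K := QuotientGroup.eq.1 he
  have h2 : v = m * (m⁻¹ * v) := by group
  rw [h2]
  exact M.mul_mem hm (hKM h1)

end RespQAux

open RespQAux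

theorem exists_Lp {G : Type u} [Group G] (A B : Subgroup G) (r e : ℕ) (hA : RK r A) (hB : RK r B)
    (hAB : ∀ g : G, ∃ a ∈ A, ∃ b ∈ B, g = a * b)
    (he : ∀ p n : ℕ, 2 ≤ p → n ≤ 2 * r + r * (r + 1) * Nat.clog p n → n ≤ e) (G0 : Subgroup G)
    (p : ℕ) (hp : p.Prime) (V : Subgroup G) (hVn : V.Normal) (hVi : V.FiniteIndex)
    (hV : ∀ M : Subgroup G, Sl G0 M → PR p G0 M → ∀ v ∈ V, ∃ k : ℕ, v ^ (p ^ k) ∈ M) :
    ∃ _ : (KP p G0).Normal, FR (G ⧸ KP p G0) ∧ DL (e + 2) (G ⧸ KP p G0) ∧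
      ∃ L : Subgroup G, L.Normal ∧ L.FiniteIndex ∧ KP p G0 ≤ L ∧
        ∀ x ∈ L, ∀ m : ℕ, 0 < m → x ^ m ∈ KP p G0 → x ∈ KP p G0 := by
  have hK : (KP p G0).Normal := kp_normal p G0
  have : Fact p.Prime := ⟨hp⟩
  refine ⟨hK, ?_⟩
  have hsurj : Function.Surjective (QuotientGroup.mk' (KP p G0)) := QuotientGroup.mk'_surjective _
  have hfi : (V.map (QuotientGroup.mk' (KP p G0))).FiniteIndex := by
    constructor
    intro h
    have h1 := Subgroup.index_map_dvd V hsurj
    rw [h, zero_dvd_iff] at h1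
    exact hVi.index_ne_zero h1
  have hres : ∀ g : V.map (QuotientGroup.mk' (KP p G0)), g ≠ 1 →
      ∃ N : Subgroup (V.map (QuotientGroup.mk' (KP p G0))), N.Normal ∧
        (∃ k : ℕ, N.index = p ^ k) ∧ g ∉ N := by
    rintro ⟨g, hg⟩ hg1
    obtain ⟨v, hv, rfl⟩ := Subgroup.mem_map.1 hg
    have hvK : v ∉ KP p G0 := by
      intro h
      apply hg1
      apply Subtype.ext
      exact (QuotientGroup.eq_one_iff v).2 h
    obtain ⟨M, hM, hM', hvM⟩ := exists_of_notMem hvK
    have nM : M.Normal := hM.1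
    have fM : M.FiniteIndex := hM.2.1
    have nM' : (M.map (QuotientGroup.mk' (KP p G0))).Normal := nM.map _ hsurj
    have fM' : (M.map (QuotientGroup.mk' (KP p G0))).FiniteIndex := by
      constructor
      intro h
      have h1 := Subgroup.index_map_dvd M hsurj
      rw [h, zero_dvd_iff] at h1
      exact fM.index_ne_zero h1
    refine ⟨(M.map (QuotientGroup.mk' (KP p G0))).subgroupOf _, inferInstance, ?_, ?_⟩
    · have hPG : IsPGroup p ((V.map (QuotientGroup.mk' (KP p G0))) ⧸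
          (M.map (QuotientGroup.mk' (KP p G0))).subgroupOf (V.map (QuotientGroup.mk' (KP p G0)))) := by
        intro x
        obtain ⟨⟨y, hy⟩, rfl⟩ := QuotientGroup.mk_surjective x
        obtain ⟨w, hw, rfl⟩ := Subgroup.mem_map.1 hy
        obtain ⟨k, hk⟩ := hV M hM hM' w hw
        refine ⟨k, ?_⟩
        rw [← QuotientGroup.mk_pow, QuotientGroup.eq_one_iff, Subgroup.mem_subgroupOf]
        change (QuotientGroup.mk' (KP p G0) w) ^ p ^ k ∈ _
        rw [← map_pow]
        exact Subgroup.mem_map_of_mem _ hk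
      have : Finite ((V.map (QuotientGroup.mk' (KP p G0))) ⧸
          (M.map (QuotientGroup.mk' (KP p G0))).subgroupOf (V.map (QuotientGroup.mk' (KP p G0)))) :=
        Subgroup.finite_quotient_of_finiteIndex
      obtain ⟨n, hn⟩ := IsPGroup.iff_card.1 hPG
      exact ⟨n, hn⟩
    · rw [Subgroup.mem_subgroupOf]
      exact fun h => hvM (mem_of_map (kp_le hM hM') h)
  obtain ⟨h1, h2, L, hLn, hLi, hL⟩ := resp (p := p) (A.map (QuotientGroup.mk' (KP p G0)))
    (B.map (QuotientGroup.mk' (KP p G0))) r e (hA.map _) (hB.map _) (by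
      intro q
      obtain ⟨g, rfl⟩ := hsurj q
      obtain ⟨a, ha, b, hb, rfl⟩ := hAB g
      exact ⟨_, Subgroup.mem_map_of_mem _ ha, _, Subgroup.mem_map_of_mem _ hb, map_mul _ _ _⟩)
    (fun n hn => he p n hp.two_le hn) (V.map (QuotientGroup.mk' (KP p G0))) hfi hres
  refine ⟨h1, h2, L.comap (QuotientGroup.mk' (KP p G0)), inferInstance, ?_, ?_, ?_⟩
  · constructor
    rw [Subgroup.index_comap_of_surjective L hsurj]
    exact hLi.index_ne_zero
  · intro x hx
    rw [Subgroup.mem_comap]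
    have h3 : QuotientGroup.mk' (KP p G0) x = 1 := (QuotientGroup.eq_one_iff x).2 hx
    rw [h3]
    exact L.one_mem
  · intro x hx m hm hxm
    have h3 : QuotientGroup.mk' (KP p G0) (x ^ m) = 1 := (QuotientGroup.eq_one_iff (x ^ m)).2 hxm
    rw [map_pow] at h3
    exact (QuotientGroup.eq_one_iff x).1 (hL _ hx m hm h3)

end P9700e
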