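import Mathlib
import Pool.Agent.Lib.P9700e.Defs
import Pool.Agent.Lib.P9700h.HH

/-!
# Hall-Higman Lemma 1.2.3, relative form

`X` is a soluble normal subgroup of the finite group `Y`, without nontrivial `Y`-normal subgroups of order prime to `p`.
Let `P` be a maximal subgroup among the `p`-subgroups of `X` that are normal in `Y`; it contains all of them. The
conclusion is `P9700h.HHAux.hh_fin`.
-/

set_option autoImplicit false

namespace P9700e

theorem hall_higman {Y : Type*} [Group Y] [Finite Y] (X : Subgroup Y) (hX : X.Normal)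
    (hsol : Group.IsSolvable X) (p : ℕ) [Fact p.Prime]
    (h : ∀ N : Subgroup Y, N.Normal → N ≤ X → ¬ p ∣ Nat.card N → N = ⊥) :
    ∃ P : Subgroup Y, P.Normal ∧ P ≤ X ∧ IsPGroup p P ∧
      ∀ g ∈ X, (∀ x ∈ P, x * g = g * x) → g ∈ P := by
  obtain ⟨P, ⟨h1, h2, h3⟩, hmax⟩ := (wellFounded_gt (α := Subgroup Y)).has_min
    {P | P.Normal ∧ P ≤ X ∧ IsPGroup p P} ⟨⊥, inferInstance, bot_le, IsPGroup.of_bot⟩
  refine ⟨P, h1, h2, h3, fun g hg hc => ?_⟩
  have hp : p.Prime := Fact.out
  refine P9700h.HHAux.hh_fin hp hX h1 hsol (fun L hL hLX hcop => h L hL hLX ?_)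
    (fun R hR hRX hRp => ?_) h3 hg hc
  · exact (hp.coprime_iff_not_dvd).1 hcop
  · have h4 : (P ⊔ R) ∈ {P : Subgroup Y | P.Normal ∧ P ≤ X ∧ IsPGroup p P} :=
      ⟨Subgroup.sup_normal _ _, sup_le h2 hRX, IsPGroup.to_sup_of_normal_right h3 hRp⟩
    have h5 := hmax _ h4
    by_contra hne
    refine h5 (lt_of_le_of_ne le_sup_left fun he => hne ?_)
    rw [he]
    exact le_sup_right

end P9700e
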