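import Mathlib
import Pool.Agent.Lib.P9700d.Num
import Pool.Agent.Lib.P9700d.Cnt
import Pool.Agent.Lib.P9700e.Defs
import Pool.Agent.Lib.P9700e.Defs2
import Pool.Agent.Lib.P9700e.FinBdd
import Pool.Agent.Lib.P9700e.ElemR
import Pool.Agent.Lib.P9700e.ChiefE
import Pool.Agent.Lib.P9700e.HallH
import Pool.Agent.Lib.P9700e.CopS
import Pool.Agent.Lib.P9700e.Chn

/-!
# For fixed `p` the `PR p` quotients are uniformly virtually `p`-groups

`e` from `P9700d.exists_bound r`. For all pairs `(U, U')` with `Sl G0 U'`, `U ≤ G0`, `Chf U U'` and `x ^ p ∈ U'` for all `x ∈ U`: `⁅U, U⁆ ≤ U'` (`chief_elem`), `U'.relIndex U ≤ p ^ e` (`elem_rank`), so `C(U, U') = {g : ⁅x, g⁆ ∈ U' for all x ∈ U}` is a normal subgroup of index `≠ 0` and `≤ (p ^ e)!` (it is the kernel of an action on the set `U / U'`;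
or `P9700d.index_le_of_cent`). `finbdd`: `V = G0 ⊓ ⋂ C(U, U')` has finite index; it is normal.
Let `Sl G0 M`, `PR p G0 M`. Apply `hall_higman` to `Y = G ⧸ M`, `X = G0.map (mk' M)` (soluble by `Sl`); its hypothesis is `PR p G0 M` (comap of `N`; `Nat.card N = M.relIndex (N.comap _)`). We get `P ≤ X`, normal in `Y`, a `p`-group; let `P0 = P.comap (mk' M)`, `M ≤ P0 ≤ G0`. `exists_chain P0 M`; for each step `Chf (c i) (c (i+1))`: `Sl G0 (c (i+1))`, and
`c i / c (i+1)` is a `p`-group which is elementary abelian for some prime (`chief_elem`), so for `p`: `V` acts trivially: `⁅x, v⁆ ∈ c (i+1)` for `x ∈ c i`, `v ∈ V`. Let `v ∈ V`, `w = mk v`; write `orderOf w = p ^ k * m`, `p ∤ m`; `g = w ^ (p ^ k)` has order `m`; `coprime_stab` (chain of the images of `c i` in `Y`) gives that `g` centralises `P`; `g ∈ X`, so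
`g ∈ P`, a `p`-group, so `g = 1` and `v ^ (p ^ k) ∈ M`.
-/

set_option autoImplicit false

universe u

namespace P9700e

open P9700a

open scoped commutatorElement

namespace VirtPAux

theorem exists_cent {G : Type*} [Group G] (U U' : Subgroup G) (hU : U.Normal) (hU' : U'.Normal) :
    ∃ N : Subgroup G, N.Normal ∧ ∀ g, g ∈ N ↔ ∀ m ∈ U, ⁅m, g⁆ ∈ U' := by
  have iU := hU
  have iU' := hU'
  have hn : (U.map (QuotientGroup.mk' U')).Normal :=
    hU.map _ (QuotientGroup.mk'_surjective U')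
  refine ⟨(Subgroup.centralizer ((U.map (QuotientGroup.mk' U') : Subgroup (G ⧸ U')) :
    Set (G ⧸ U'))).comap (QuotientGroup.mk' U'), inferInstance, ?_⟩
  intro g
  rw [Subgroup.mem_comap, Subgroup.mem_centralizer_iff]
  have key : ∀ m, ⁅m, g⁆ ∈ U' ↔
      QuotientGroup.mk' U' m * QuotientGroup.mk' U' g =
        QuotientGroup.mk' U' g * QuotientGroup.mk' U' m := by
    intro m
    rw [← commutatorElement_eq_one_iff_mul_comm, ← map_commutatorElement]
    exact (QuotientGroup.eq_one_iff _).symm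
  constructor
  · intro h m hm
    rw [key]
    exact h _ ⟨m, hm, rfl⟩
  · rintro h _ ⟨m, hm, rfl⟩
    rw [← key]
    exact h m hm

theorem exists_gen {G : Type*} [Group G] (U U' : Subgroup G) (hle : U' ≤ U)
    (hf : U'.relIndex U ≠ 0) : ∃ s : Finset G, s.card ≤ U'.relIndex U ∧
      Subgroup.closure (s : Set G) ⊔ U' = U := by
  classical
  have hfi : (U'.subgroupOf U).FiniteIndex := ⟨hf⟩
  have hfin : Finite (U ⧸ U'.subgroupOf U) := Subgroup.finite_quotient_of_finiteIndex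
  have : Fintype (U ⧸ U'.subgroupOf U) := Fintype.ofFinite _
  refine ⟨Finset.univ.image (fun q : U ⧸ U'.subgroupOf U => (q.out : G)), ?_, ?_⟩
  · refine Finset.card_image_le.trans ?_
    rw [Finset.card_univ, ← Nat.card_eq_fintype_card]
    exact le_rfl
  · apply le_antisymm
    · refine sup_le ?_ hle
      rw [Subgroup.closure_le]
      intro x hx
      rw [Finset.coe_image] at hx
      obtain ⟨q, -, rfl⟩ := hx
      exact q.out.2
    · intro x hx
      have h1 : ((QuotientGroup.mk (⟨x, hx⟩ : U) : U ⧸ U'.subgroupOf U).out)⁻¹ * ⟨x, hx⟩ ∈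
          U'.subgroupOf U := by
        rw [← QuotientGroup.eq]
        exact Quotient.out_eq' _
      have h2 : ((((QuotientGroup.mk (⟨x, hx⟩ : U) : U ⧸ U'.subgroupOf U).out : U) : G))⁻¹ * x ∈
          U' := Subgroup.mem_subgroupOf.1 h1
      have h3 : x = (((QuotientGroup.mk (⟨x, hx⟩ : U) : U ⧸ U'.subgroupOf U).out : U) : G) *
          (((((QuotientGroup.mk (⟨x, hx⟩ : U) : U ⧸ U'.subgroupOf U).out : U) : G))⁻¹ * x) := by
        group
      rw [h3]
      refine Subgroup.mul_mem_sup (Subgroup.subset_closure ?_) h2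
      rw [Finset.coe_image]
      exact ⟨_, Finset.mem_coe.2 (Finset.mem_univ _), rfl⟩

theorem solvable_map {G : Type*} [Group G] (G0 M : Subgroup G) [M.Normal]
    (hk : ∃ k : ℕ, (derivedSeries G0 k).map G0.subtype ≤ M) :
    Group.IsSolvable (G0.map (QuotientGroup.mk' M)) := by
  obtain ⟨k, hk⟩ := hk
  rw [Group.isSolvable_def]
  refine ⟨k, ?_⟩
  rw [← map_derivedSeries_eq (MonoidHom.subgroupMap_surjective (QuotientGroup.mk' M) G0) k,
    eq_bot_iff]
  rintro _ ⟨x, hx, rfl⟩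
  have h1 : (x : G) ∈ M := hk ⟨x, hx, rfl⟩
  exact Subtype.ext ((QuotientGroup.eq_one_iff (x : G)).2 h1)

end VirtPAux

theorem exists_V {G : Type u} [Group G] (A B : Subgroup G) (r : ℕ) (hA : RK r A) (hB : RK r B)
    (hAB : ∀ g : G, ∃ a ∈ A, ∃ b ∈ B, g = a * b) (G0 : Subgroup G) (hG0 : G0.Normal)
    (hfi : G0.FiniteIndex) (p : ℕ) (hp : p.Prime) :
    ∃ V : Subgroup G, V.Normal ∧ V.FiniteIndex ∧ V ≤ G0 ∧
      ∀ M : Subgroup G, Sl G0 M → PR p G0 M → ∀ v ∈ V, ∃ k : ℕ, v ^ (p ^ k) ∈ M := by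
  classical
  have ip : Fact p.Prime := ⟨hp⟩
  obtain ⟨e, he⟩ := P9700d.exists_bound r
  have he' := fun n => he p n hp.two_le
  let 𝒩 : Set (Subgroup G) := {N | N.Normal ∧ ∃ U U' : Subgroup G, Sl G0 U' ∧ U ≤ G0 ∧ Chf U U' ∧
    (∀ x ∈ U, x ^ p ∈ U') ∧ ∀ g, g ∈ N ↔ ∀ m ∈ U, ⁅m, g⁆ ∈ U'}
  have hb : ∀ N ∈ 𝒩, N.Normal ∧ N.index ≠ 0 ∧ N.index ≤ (p ^ e) ^ (p ^ e) := by
    rintro N ⟨hN, U, U', hs, hU0, hch, hexp, hmem⟩
    obtain ⟨q, -, hcomm, -⟩ := chief_elem G0 U U' hs hU0 hch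
    have hU := hch.1
    have hU' := hch.2.1
    have hle := hch.2.2.1.le
    have h1 : U'.relIndex U ≤ p ^ e :=
      elem_rank A B r e hA hB hAB he' U U' hU hU' hs.2.1 hle hcomm hexp
    have hfi' := hs.2.1
    have h0 : U'.relIndex U ≠ 0 :=
      (inferInstance : (U'.subgroupOf U).FiniteIndex).index_ne_zero
    obtain ⟨s, hs1, hs2⟩ := VirtPAux.exists_gen U U' hle h0
    obtain ⟨h2, h3⟩ := P9700d.index_le_of_cent U U' N hU hU' hle h0 s hs2
      (fun g hg => (hmem g).2 hg)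
    refine ⟨hN, h2, h3.trans ?_⟩
    exact (Nat.pow_le_pow_left h1 _).trans
      (Nat.pow_le_pow_right (pow_pos hp.pos e) (hs1.trans h1))
  have hfin : (sInf 𝒩).FiniteIndex := finbdd A B r hA hB hAB _ 𝒩 hb
  have hnorm : (sInf 𝒩).Normal := by
    refine ⟨fun n hn g => ?_⟩
    rw [Subgroup.mem_sInf] at hn ⊢
    intro N hN
    exact hN.1.conj_mem n (hn N hN) g
  refine ⟨G0 ⊓ sInf 𝒩, inferInstance, inferInstance, inf_le_left, ?_⟩
  intro M hM hPR v hv
  have iM := hM.1
  have iMf := hM.2.1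
  have hMle : M ≤ G0 := hM.2.2.1
  have hYf : Finite (G ⧸ M) := Subgroup.finite_quotient_of_finiteIndex
  have hsurj := QuotientGroup.mk'_surjective M
  have hker : (QuotientGroup.mk' M).ker = M := QuotientGroup.ker_mk' M
  have h1M : ∀ x : G, QuotientGroup.mk' M x = 1 ↔ x ∈ M := fun x => QuotientGroup.eq_one_iff x
  -- preimages
  have hcomap : ∀ N : Subgroup (G ⧸ M), N ≤ G0.map (QuotientGroup.mk' M) →
      M ≤ N.comap (QuotientGroup.mk' M) ∧ N.comap (QuotientGroup.mk' M) ≤ G0 := by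
    intro N hN
    constructor
    · intro x hx
      show QuotientGroup.mk' M x ∈ N
      rw [(h1M x).2 hx]
      exact one_mem _
    · intro x hx
      obtain ⟨g, hg, hgx⟩ := hN hx
      have h2 : g⁻¹ * x ∈ M := by
        rw [← h1M, map_mul, map_inv, hgx, inv_mul_cancel]
      have h3 : x = g * (g⁻¹ * x) := by group
      rw [h3]
      exact G0.mul_mem hg (hMle h2)
  have hXn : (G0.map (QuotientGroup.mk' M)).Normal := hG0.map _ hsurj
  obtain ⟨P, hPn, hPX, hPp, hPc⟩ := hall_higman (G0.map (QuotientGroup.mk' M)) hXn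
    (VirtPAux.solvable_map G0 M hM.2.2.2) p (by
      intro N hN hNX hNp
      obtain ⟨h2, h3⟩ := hcomap N hNX
      have hNU : (N.comap (QuotientGroup.mk' M)).map (QuotientGroup.mk' M) = N :=
        Subgroup.map_comap_eq_self_of_surjective hsurj _
      have h4 : M.relIndex (N.comap (QuotientGroup.mk' M)) = Nat.card N := by
        have h5 := Subgroup.relIndex_ker (N.comap (QuotientGroup.mk' M)) (QuotientGroup.mk' M)
        rw [hker, hNU] at h5
        exact h5
      have h5 := hPR (N.comap (QuotientGroup.mk' M)) (hN.comap _) h2 h3 (by rw [h4]; exact hNp)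
      rw [← hNU, h5, eq_bot_iff]
      rintro _ ⟨x, hx, rfl⟩
      exact (h1M x).2 hx)
  obtain ⟨hMP, hPG⟩ := hcomap P hPX
  obtain ⟨c, l, hc0, hcl, hcn, hcM, hcanti, hcch⟩ :=
    exists_chain (P.comap (QuotientGroup.mk' M)) M (hPn.comap _) iM iMf hMP
  have hcle : ∀ i, c i ≤ P.comap (QuotientGroup.mk' M) := by
    intro i
    induction i with
    | zero => exact hc0.le
    | succ i ih => exact (hcanti i).trans ih
  have hPpow : ∀ x, QuotientGroup.mk' M x ∈ P → ∃ k : ℕ, x ^ (p ^ k) ∈ M := by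
    intro x hx
    obtain ⟨k, hk⟩ := hPp ⟨_, hx⟩
    refine ⟨k, (h1M _).1 ?_⟩
    rw [map_pow]
    exact congrArg Subtype.val hk
  -- `V` acts trivially on the factors
  have hact : ∀ w ∈ G0 ⊓ sInf 𝒩, ∀ i, ∀ x ∈ c i, ⁅x, w⁆ ∈ c (i + 1) := by
    intro w hw i x hx
    rcases hcch i with hch | ⟨h2, h3⟩
    · have hs : Sl G0 (c (i + 1)) := by
        refine ⟨hcn _, Subgroup.finiteIndex_of_le (hcM _), (hcle _).trans hPG, ?_⟩
        obtain ⟨k, hk⟩ := hM.2.2.2
        exact ⟨k, hk.trans (hcM _)⟩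
      have hci : c i ≤ G0 := (hcle i).trans hPG
      obtain ⟨q, hq, -, hqe⟩ := chief_elem G0 (c i) (c (i + 1)) hs hci hch
      have hqp : q = p := by
        by_contra hne
        refine absurd hch.2.2.1 (not_lt_of_ge ?_)
        intro z hz
        obtain ⟨k, hk⟩ := hPpow z (hcle i hz)
        have h4 : z ^ q ∈ c (i + 1) := hqe z hz
        have h5 : z ^ (p ^ k) ∈ c (i + 1) := hcM _ hk
        have hcop : Nat.Coprime q (p ^ k) := ((Nat.coprime_primes hq hp).2 hne).pow_right k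
        have hgcd := Nat.gcd_eq_gcd_ab q (p ^ k)
        rw [hcop] at hgcd
        have h6 : z = (z ^ q) ^ (Nat.gcdA q (p ^ k)) * (z ^ (p ^ k)) ^ (Nat.gcdB q (p ^ k)) := by
          rw [← zpow_natCast z q, ← zpow_natCast z (p ^ k), ← zpow_mul, ← zpow_mul, ← zpow_add,
            ← hgcd]
          simp
        rw [h6]
        exact (c (i + 1)).mul_mem ((c (i + 1)).zpow_mem h4 _) ((c (i + 1)).zpow_mem h5 _)
      rw [hqp] at hqe
      obtain ⟨N, hN, hNm⟩ := VirtPAux.exists_cent (c i) (c (i + 1)) (hcn _) (hcn _)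
      have hN' : N ∈ 𝒩 := ⟨hN, c i, c (i + 1), hs, hci, hch, hqe, hNm⟩
      have hwN : w ∈ N := Subgroup.mem_sInf.1 hw.2 N hN'
      exact (hNm w).1 hwN x hx
    · have hxM : x ∈ M := by
        rw [← h2]
        exact hx
      rw [h3, commutatorElement_def]
      have h4 : x * w * x⁻¹ * w⁻¹ = x * (w * x⁻¹ * w⁻¹) := by group
      rw [h4]
      exact M.mul_mem hxM (iM.conj_mem _ (M.inv_mem hxM) w)
  -- the order of the image of `v`
  obtain ⟨k, m, hm, hkm⟩ := Nat.exists_eq_pow_mul_and_not_dvd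
    (orderOf_pos (QuotientGroup.mk' M v)).ne' p hp.one_lt.ne'
  refine ⟨k, (h1M _).1 ?_⟩
  have hvV : v ^ p ^ k ∈ G0 ⊓ sInf 𝒩 := (G0 ⊓ sInf 𝒩).pow_mem hv _
  have hord : orderOf (QuotientGroup.mk' M (v ^ p ^ k)) = m := by
    rw [map_pow, orderOf_pow_of_dvd (pow_pos hp.pos k).ne' (hkm ▸ Dvd.intro _ rfl), hkm,
      Nat.mul_div_cancel_left _ (pow_pos hp.pos k)]
  have hP0 : (c 0).map (QuotientGroup.mk' M) = P := by
    rw [hc0]
    exact Subgroup.map_comap_eq_self_of_surjective hsurj _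
  have hcent : ∀ u ∈ P, QuotientGroup.mk' M (v ^ p ^ k) * u = u * QuotientGroup.mk' M (v ^ p ^ k) := by
    have h2 := coprime_stab (p := p) (fun i => (c i).map (QuotientGroup.mk' M)) l
      (by
        show IsPGroup p ((c 0).map (QuotientGroup.mk' M))
        rw [hP0]
        exact hPp)
      (fun i => Subgroup.map_mono (hcanti i))
      (by
        show (c l).map (QuotientGroup.mk' M) = ⊥
        rw [hcl l le_rfl, eq_bot_iff]
        rintro _ ⟨x, hx, rfl⟩
        exact (h1M x).2 hx)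
      (QuotientGroup.mk' M (v ^ p ^ k)) (orderOf_pos _) (by rw [hord]; exact hm)
      (by
        rintro i _ ⟨x, hx, rfl⟩
        refine ⟨⁅v ^ p ^ k, x⁆, ?_, map_commutatorElement _ _ _⟩
        rw [← commutatorElement_inv]
        exact (c (i + 1)).inv_mem (hact _ hvV i x hx))
    intro u hu
    refine h2 u ?_
    show u ∈ (c 0).map (QuotientGroup.mk' M)
    rw [hP0]
    exact hu
  have hgP : QuotientGroup.mk' M (v ^ p ^ k) ∈ P :=
    hPc _ ⟨_, hvV.1, rfl⟩ fun x hx => (hcent x hx).symm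
  obtain ⟨j, hj⟩ := hPp ⟨_, hgP⟩
  have hj' : QuotientGroup.mk' M (v ^ p ^ k) ^ p ^ j = 1 := congrArg Subtype.val hj
  have h3 := orderOf_dvd_of_pow_eq_one hj'
  rw [hord] at h3
  have h4 : Nat.Coprime m (p ^ j) :=
    (((hp.coprime_iff_not_dvd).2 hm).symm).pow_right j
  have h5 : m = 1 := Nat.Coprime.eq_one_of_dvd h4 h3
  rw [h5] at hord
  exact orderOf_eq_one_iff.1 hord

end P9700e
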