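import Mathlib
import Pool.Agent.Lib.P9700e.Defs
import Pool.Agent.Lib.P9700e.Defs2
import Pool.Agent.Lib.P9700e.HMono
import Pool.Agent.Lib.P9700e.HTor
import Pool.Agent.Lib.P9700e.HFin
import Pool.Agent.Lib.P9700e.HSol
import Pool.Agent.Lib.P9700e.MonoP
import Pool.Agent.Lib.P9700e.ExJ
import Pool.Agent.Lib.P9700e.VirtP
import Pool.Agent.Lib.P9700e.RespQ

/-!
# The subgroup `K1`

`s = e + 2`. `𝒦` = the set of the normal `K` with `FR (G ⧸ K)` and `DL s (G ⧸ K)`; it is closed under `⊓` (`G ⧸ (K ⊓ K')` embeds into `(G ⧸ K) × (G ⧸ K')`: `FR.of_injective`, `FR.prod`, `DL.of_injective`, `DL.prod`). `J ∈ 𝒦` (`exists_J`, `fr_DL_of_ab`, `DL.mono`), `KP p G0 ∈ 𝒦` for primes `p` (`exists_V`, `exists_Lp`). For `K ∈ 𝒦`: `hh (G ⧸ K) ≤ 2 r s`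
(`hh_le_of_prod` in `G ⧸ K` with the images of `A`, `B`). Choose `K ∈ 𝒦`, `K ≤ J`, with `hh (G ⧸ K)` maximal. `CJ G0 K` follows from `CJ G0 J`.
For a prime `p`: `K ⊓ KP ∈ 𝒦`, `hh (G ⧸ (K ⊓ KP)) = hh (K ⧸ (K ⊓ KP)) + hh (G ⧸ K)` (`hh_ker_range`), so `hh (K ⧸ (K ⊓ KP).subgroupOf K) = 0`. With `L` from `exists_Lp`: `(K ⊓ L) / (K ⊓ KP)` is torsion-free with `hh = 0` (`hh_le_of_injective` into the previous one), so `K ⊓ L ≤ KP` (`eq_one_of_hh_zero`). Hence `K ⊓ KP` has finite index in `K`.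
There is `M` with `Sl G0 M`, `PR p G0 M`, `K ⊓ M ≤ KP`: the family of these `M` is closed under `⊓` (`Sl.inf`, `PR.inf`; it contains `G0`: `Sl G0 G0`, `PR p G0 G0`), `KP` is its intersection; choose `M` with `(K ⊓ M)` of smallest index over `K ⊓ KP` (finite): for `x ∈ K ⊓ M`, `x ∉ KP` some `M'` does not contain `x`, and `M ⊓ M'` is better. `N p := M`.
If `x ∈ K` is in all `N p`, then `x ∈ KP p G0` for all primes `p`; if `x ≠ 1`, `hres` and `exists_PR` give `p`, `M` with `Sl G0 M`, `PR p G0 M`, `x ∉ M`, a contradiction.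
-/

set_option autoImplicit false

universe u

namespace P9700e

open P9700a

namespace ExK1Aux

/-- the family of the quotients -/
def KK {G : Type u} [Group G] (s : ℕ) (K : Subgroup G) : Prop :=
  ∃ _ : K.Normal, FR (G ⧸ K) ∧ DL s (G ⧸ K)

theorem KK.inf {G : Type u} [Group G] {s : ℕ} {K K' : Subgroup G} (h : KK s K) (h' : KK s K') :
    KK s (K ⊓ K') := by
  obtain ⟨iK, h1, h2⟩ := h
  obtain ⟨iK', h3, h4⟩ := h'
  let f0 : G →* (G ⧸ K) × (G ⧸ K') := (QuotientGroup.mk' K).prod (QuotientGroup.mk' K')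
  have hk : ∀ x, f0 x = 1 ↔ x ∈ K ⊓ K' := by
    intro x
    change ((QuotientGroup.mk' K x, QuotientGroup.mk' K' x) : (G ⧸ K) × (G ⧸ K')) = 1 ↔ _
    rw [Prod.mk_eq_one, Subgroup.mem_inf]
    exact and_congr (QuotientGroup.eq_one_iff x) (QuotientGroup.eq_one_iff x)
  have iI : (K ⊓ K').Normal := Subgroup.normal_inf_normal _ _
  let f : G ⧸ (K ⊓ K') →* (G ⧸ K) × (G ⧸ K') :=
    QuotientGroup.lift (K ⊓ K') f0 fun x hx => (hk x).2 hx
  have hf : Function.Injective f := by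
    rw [injective_iff_map_eq_one]
    intro y hy
    obtain ⟨x, rfl⟩ := QuotientGroup.mk_surjective y
    exact (QuotientGroup.eq_one_iff x).2 ((hk x).1 hy)
  exact ⟨iI, FR.of_injective f hf (h1.prod h3), DL.of_injective f hf (h2.prod h4)⟩

theorem KK.hh_le {G : Type u} [Group G] {A B : Subgroup G} {r s : ℕ} (hA : RK r A) (hB : RK r B)
    (hAB : ∀ g : G, ∃ a ∈ A, ∃ b ∈ B, g = a * b) {K : Subgroup G} [K.Normal]
    (h1 : FR (G ⧸ K)) (h2 : DL s (G ⧸ K)) : hh (G ⧸ K) ≤ ((2 * (r * s) : ℕ) : ℕ∞) := by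
  refine hh_le_of_prod (A.map (QuotientGroup.mk' K)) (B.map (QuotientGroup.mk' K))
    (hA.map _) (hB.map _) ?_ h1 h2
  intro y
  obtain ⟨g, rfl⟩ := QuotientGroup.mk_surjective y
  obtain ⟨a, ha, b, hb, rfl⟩ := hAB g
  exact ⟨_, ⟨a, ha, rfl⟩, _, ⟨b, hb, rfl⟩, rfl⟩

/-- a maximal value -/
theorem exists_max {P : ℕ → Prop} (h0 : P 0) (C : ℕ) (hC : ∀ n, P n → n ≤ C) :
    ∃ n, P n ∧ ¬ P (n + 1) := by
  by_contra hcon
  push Not at hcon
  have h : ∀ n, P n := fun n => Nat.rec h0 (fun n ih => hcon n ih) n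
  have := hC _ (h (C + 1))
  omega

/-- the kernel of a quotient map with equal finite `hh` -/
theorem ker_zero {G : Type u} [Group G] {K K' : Subgroup G} [K.Normal] [K'.Normal] (hle : K' ≤ K)
    {n : ℕ} (h1 : hh (G ⧸ K) = n) (h2 : hh (G ⧸ K') = n) (X : Subgroup (G ⧸ K'))
    (hX : ∀ y ∈ X, ∃ x ∈ K, QuotientGroup.mk' K' x = y) : hh X = 0 := by
  let f : G ⧸ K' →* G ⧸ K := QuotientGroup.map K' K (MonoidHom.id G) hle
  have hf : Function.Surjective f := by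
    intro y
    obtain ⟨g, rfl⟩ := QuotientGroup.mk_surjective y
    exact ⟨(g : G ⧸ K'), rfl⟩
  have h3 := hh_ker_range f
  have h4 : hh f.range = hh (G ⧸ K) := by
    have e : f.range = ⊤ := MonoidHom.range_eq_top.2 hf
    rw [e]
    exact hh_congr Subgroup.topEquiv
  rw [h4, h1, h2] at h3
  have h5 : hh f.ker = 0 := by
    have h6 : (0 : ℕ∞) + (n : ℕ∞) = hh f.ker + (n : ℕ∞) := by rw [zero_add]; exact h3
    exact (ENat.add_left_injective_of_ne_top (ENat.natCast_ne_top n) h6).symm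
  have h7 : X ≤ f.ker := by
    intro y hy
    obtain ⟨x, hx, rfl⟩ := hX y hy
    rw [MonoidHom.mem_ker]
    exact (QuotientGroup.eq_one_iff x).2 hx
  have h8 := hh_le_of_le h7
  rw [h5] at h8
  exact le_antisymm h8 bot_le

/-- choice of `M` -/
theorem exists_M {G : Type u} [Group G] {p : ℕ} {G0 K : Subgroup G} (hG0 : G0.Normal)
    (hfi : G0.FiniteIndex) (hK : (K ⊓ KP p G0).relIndex K ≠ 0) :
    ∃ M : Subgroup G, Sl G0 M ∧ PR p G0 M ∧ K ⊓ M ≤ KP p G0 := by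
  classical
  have hS0 : Sl G0 G0 := ⟨hG0, hfi, le_rfl, 0, Subgroup.map_subtype_le _⟩
  have hP0 : PR p G0 G0 := fun U _ h1 h2 _ => le_antisymm h2 h1
  have hex : ∃ m : ℕ, ∃ M, Sl G0 M ∧ PR p G0 M ∧ (K ⊓ KP p G0).relIndex (K ⊓ M) = m :=
    ⟨_, G0, hS0, hP0, rfl⟩
  obtain ⟨M, h1, h2, h3⟩ := Nat.find_spec hex
  refine ⟨M, h1, h2, ?_⟩
  intro x hx
  change x ∈ sInf {M | Sl G0 M ∧ PR p G0 M}
  rw [Subgroup.mem_sInf]
  rintro M' ⟨h4, h5⟩
  have h6 : Sl G0 (M ⊓ M') := h1.inf h4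
  have h7 : PR p G0 (M ⊓ M') := PR.inf h1 h4 h2 h5
  have hle1 : K ⊓ KP p G0 ≤ K ⊓ (M ⊓ M') :=
    inf_le_inf_left K (sInf_le ⟨h6, h7⟩)
  have hle2 : K ⊓ (M ⊓ M') ≤ K ⊓ M := inf_le_inf_left K inf_le_left
  have hmul := Subgroup.relIndex_mul_relIndex _ _ _ hle1 hle2
  have hmin : (K ⊓ KP p G0).relIndex (K ⊓ M) ≤ (K ⊓ KP p G0).relIndex (K ⊓ (M ⊓ M')) := by
    rw [h3]
    exact Nat.find_min' hex ⟨_, h6, h7, rfl⟩
  have hne : (K ⊓ KP p G0).relIndex (K ⊓ M) ≠ 0 := by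
    intro h
    exact hK (Subgroup.relIndex_eq_zero_of_le_right inf_le_left h)
  have h9 : (K ⊓ (M ⊓ M')).relIndex (K ⊓ M) = 1 := by
    have h10 : (K ⊓ (M ⊓ M')).relIndex (K ⊓ M) ≠ 0 := by
      intro h
      rw [h, Nat.mul_zero] at hmul
      exact hne hmul.symm
    have h11 : ¬ 2 ≤ (K ⊓ (M ⊓ M')).relIndex (K ⊓ M) := by
      intro h
      have h12 := Nat.mul_le_mul_left ((K ⊓ KP p G0).relIndex (K ⊓ (M ⊓ M'))) h
      have h13 : 0 < (K ⊓ KP p G0).relIndex (K ⊓ (M ⊓ M')) := by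
        rcases Nat.eq_zero_or_pos ((K ⊓ KP p G0).relIndex (K ⊓ (M ⊓ M'))) with h0 | h0
        · rw [h0, Nat.zero_mul] at hmul
          exact absurd hmul.symm hne
        · exact h0
      omega
    omega
  have h14 := Subgroup.relIndex_eq_one.1 h9 hx
  exact h14.2.2

end ExK1Aux

open ExK1Aux

theorem exists_K1 {G : Type u} [Group G] (A B : Subgroup G) (r e : ℕ) (hA : RK r A) (hB : RK r B)
    (hAB : ∀ g : G, ∃ a ∈ A, ∃ b ∈ B, g = a * b)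
    (he : ∀ p n : ℕ, 2 ≤ p → n ≤ 2 * r + r * (r + 1) * Nat.clog p n → n ≤ e) (G0 : Subgroup G)
    (hG0 : G0.Normal) (hfi : G0.FiniteIndex)
    (hres : ∀ g : G, g ≠ 1 → ∃ N : Subgroup G, Sl G0 N ∧ g ∉ N) :
    ∃ (K : Subgroup G) (_ : K.Normal) (N : Nat.Primes → Subgroup G) (c0 : ℕ),
      K ≤ G0 ∧ CJ G0 K ∧ FR (G ⧸ K) ∧ hh (G ⧸ K) ≤ c0 ∧ (∀ p, Sl G0 (N p)) ∧
      (∀ p : Nat.Primes, PR (p : ℕ) G0 (N p)) ∧ ∀ x ∈ K, (∀ p, x ∈ N p) → x = 1 := by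
  classical
  obtain ⟨J, T, iJ, iT, iTf, hJT, hTG0, hTT, hCJ⟩ := exists_J A B r hA hB hAB G0 hG0 hfi
  obtain ⟨hJ1, hJ2⟩ := fr_DL_of_ab A B hA.fr hB.fr hAB J T iT iTf hJT hTT
  have hKJ : KK (e + 2) J := ⟨iJ, hJ1, hJ2.mono (by omega)⟩
  set C : ℕ := 2 * (r * (e + 2)) with hC
  -- the maximal value
  let P : ℕ → Prop := fun n => ∃ K : Subgroup G, K ≤ J ∧ ∃ _ : K.Normal,
    FR (G ⧸ K) ∧ DL (e + 2) (G ⧸ K) ∧ (n : ℕ∞) ≤ hh (G ⧸ K)
  have hP0 : P 0 := ⟨J, le_rfl, iJ, hJ1, hJ2.mono (by omega), bot_le⟩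
  have hPC : ∀ n, P n → n ≤ C := by
    rintro n ⟨K, -, iK, h1, h2, h3⟩
    have h4 := h3.trans (KK.hh_le hA hB hAB h1 h2)
    exact_mod_cast h4
  obtain ⟨n, ⟨K, hKJle, iK, hK1, hK2, hKn⟩, hnot⟩ := exists_max hP0 C hPC
  have hmax : ∀ K' : Subgroup G, K' ≤ J → ∀ _ : K'.Normal, FR (G ⧸ K') → DL (e + 2) (G ⧸ K') →
      hh (G ⧸ K') ≤ n := by
    intro K' h1 iK' h2 h3
    by_contra hcon
    push Not at hcon
    exact hnot ⟨K', h1, iK', h2, h3, by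
      push_cast
      exact Order.add_one_le_of_lt hcon⟩
  have hKeq : hh (G ⧸ K) = n := le_antisymm (hmax K hKJle iK hK1 hK2) hKn
  have hKG0 : K ≤ G0 := hKJle.trans (hJT.trans hTG0)
  -- the subgroups `N p`
  have key : ∀ p : Nat.Primes, ∃ M : Subgroup G, Sl G0 M ∧ PR (p : ℕ) G0 M ∧
      K ⊓ M ≤ KP (p : ℕ) G0 := by
    intro p
    obtain ⟨V, iV, iVf, hVG0, hV⟩ := exists_V A B r hA hB hAB G0 hG0 hfi p p.2
    obtain ⟨iKP, h1, h2, L, iL, iLf, hL1, hL2⟩ :=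
      exists_Lp A B r e hA hB hAB he G0 p p.2 V iV iVf hV
    obtain ⟨iK', h3, h4⟩ := KK.inf (⟨iK, hK1, hK2⟩ : KK (e + 2) K)
      (⟨iKP, h1, h2⟩ : KK (e + 2) (KP (p : ℕ) G0))
    have hK'eq : hh (G ⧸ (K ⊓ KP (p : ℕ) G0)) = n := by
      refine le_antisymm (hmax _ (inf_le_left.trans hKJle) iK' h3 h4) ?_
      rw [← hKeq]
      exact hh_le_of_surjective
        (QuotientGroup.map (K ⊓ KP (p : ℕ) G0) K (MonoidHom.id G) inf_le_left) (by
          intro y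
          obtain ⟨g, rfl⟩ := QuotientGroup.mk_surjective y
          exact ⟨(g : G ⧸ (K ⊓ KP (p : ℕ) G0)), rfl⟩)
    have h5 : K ⊓ L ≤ KP (p : ℕ) G0 := by
      intro x hx
      have h6 : hh ((K ⊓ L).map (QuotientGroup.mk' (K ⊓ KP (p : ℕ) G0))) = 0 := by
        refine ker_zero inf_le_left hKeq hK'eq _ ?_
        rintro y ⟨z, hz, rfl⟩
        exact ⟨z, hz.1, rfl⟩
      have h7 := eq_one_of_hh_zero h6 (by
        rintro ⟨y, z, hz, rfl⟩ m hm hy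
        have h8 : QuotientGroup.mk' (K ⊓ KP (p : ℕ) G0) (z ^ m) = 1 := by
          rw [map_pow]
          exact congrArg Subtype.val hy
        have h9 : z ^ m ∈ K ⊓ KP (p : ℕ) G0 := (QuotientGroup.eq_one_iff _).1 h8
        have h10 := hL2 z hz.2 m hm h9.2
        apply Subtype.ext
        exact (QuotientGroup.eq_one_iff z).2 ⟨hz.1, h10⟩)
        ⟨QuotientGroup.mk' (K ⊓ KP (p : ℕ) G0) x, x, hx, rfl⟩
      have h8 := congrArg Subtype.val h7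
      exact ((QuotientGroup.eq_one_iff x).1 h8).2
    refine exists_M hG0 hfi ?_
    have h6 : K ⊓ L ≤ K ⊓ KP (p : ℕ) G0 := le_inf inf_le_left h5
    have h7 : (K ⊓ L).relIndex K ≠ 0 := by
      rw [Subgroup.inf_relIndex_left]
      exact Subgroup.FiniteIndex.index_ne_zero (H := L.subgroupOf K)
    intro h8
    have h9 := Subgroup.relIndex_dvd_of_le_left K h6
    rw [h8, zero_dvd_iff] at h9
    exact h7 h9
  choose N hN1 hN2 hN3 using key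
  refine ⟨K, iK, N, C, hKG0, ?_, hK1, KK.hh_le hA hB hAB hK1 hK2, hN1, hN2, ?_⟩
  · intro M M' h1 h2 h3
    exact (Subgroup.commutator_mono le_rfl hKJle).trans (hCJ M M' h1 h2 h3)
  · intro x hx hxN
    by_contra hne
    obtain ⟨N0, h1, h2⟩ := hres x hne
    obtain ⟨p, hp, M, h3, h4, h5⟩ := exists_PR hG0 h1 x h2
    have h6 : x ∈ KP p G0 := hN3 ⟨p, hp⟩ ⟨hx, hxN ⟨p, hp⟩⟩
    exact h5 ((sInf_le ⟨h3, h4⟩ : KP p G0 ≤ M) h6)

end P9700e
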