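import Mathlib
import Pool.Agent.Lib.P9700b.CrossV
import Pool.Agent.Lib.P9700c.Plat
import Pool.Agent.Lib.P9700e.Defs

/-!
# A section that embeds equivariantly into a finite-dimensional space has finite rank

`E = AlgebraicClosure F`, `W = Fin n → E`, `α g` = the endomorphism `Matrix.toLin' ((ρ g).map (algebraMap F E))` of `W` (as in `P9700d/Fin.lean`), composed with the first projection `HP A B R →* G`. `FR (HP A B R)` (`FR.prod`, `FR.subgroup`); `platonov` gives a subgroup `H0` of finite index with `TF`. `δ (a, b) = (θ (a b⁻¹) : Fin n → E)`,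
`δ (h h') = α h (δ h') + δ h` (`(a a') (b b')⁻¹ = a (a' b'⁻¹) a⁻¹ * (a b⁻¹)`). `U` = the image of `θ` in `W` (an additive subgroup), equal to the image of `δ` (every `x ∈ R` is `a b⁻¹` with `(a, b) ∈ HP A B R` by `hAB`). `cross_v`: `FR (Multiplicative U)`. `R ⧸ R'.subgroupOf R` embeds into `Multiplicative U` (kernel of `θ`), so it is `FR`.
-/

set_option autoImplicit false

namespace P9700e

open P9700a

namespace FRsecAux

section
variable {F E : Type*} [Field F] [Field E] (i : F →+* E) {n : ℕ}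

/-- the action on `E ^ n` -/
noncomputable def act {G : Type*} [Group G] (ρ : G →* Matrix (Fin n) (Fin n) F) :
    G →* Module.End E (Fin n → E) :=
  ((Matrix.toLinAlgEquiv' : Matrix (Fin n) (Fin n) E ≃ₐ[E] _) : _ →* _).comp
    ((i.mapMatrix : Matrix (Fin n) (Fin n) F →+* Matrix (Fin n) (Fin n) E).toMonoidHom.comp ρ)

theorem act_apply {G : Type*} [Group G] (ρ : G →* Matrix (Fin n) (Fin n) F) (g : G)
    (v : Fin n → F) : act i ρ g (fun j => i (v j)) = fun j => i ((ρ g).mulVec v j) := by
  have h1 : act i ρ g (fun j => i (v j)) = ((ρ g).map i).mulVec (fun j => i (v j)) := rfl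
  rw [h1]
  funext j
  rw [RingHom.map_mulVec]
  rfl

end

end FRsecAux

open FRsecAux

theorem fr_sec {G : Type*} [Group G] (A B : Subgroup G) (hA : FR A) (hB : FR B)
    (hAB : ∀ g : G, ∃ a ∈ A, ∃ b ∈ B, g = a * b) (R R' : Subgroup G) [R.Normal] [R'.Normal]
    {F : Type*} [Field F] [CharZero F] {n : ℕ} (ρ : G →* Matrix (Fin n) (Fin n) F)
    (θ : R → (Fin n → F)) (hθ : ∀ x y, θ (x * y) = θ x + θ y)
    (hker : ∀ x, θ x = 0 ↔ (x : G) ∈ R')
    (hρ : ∀ (g : G) (x : R), θ (MulAut.conjNormal g x) = (ρ g).mulVec (θ x)) :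
    FR (R ⧸ R'.subgroupOf R) := by
  let i : F →+* AlgebraicClosure F := algebraMap F (AlgebraicClosure F)
  have hi : Function.Injective i := i.injective
  have hθ1 : θ 1 = 0 := by
    have h := hθ 1 1
    rw [one_mul] at h
    exact left_eq_add.mp h
  let Θ : Additive R →+ (Fin n → AlgebraicClosure F) :=
    { toFun := fun x => fun j => i (θ x.toMul j)
      map_zero' := by
        funext j
        change i (θ 1 j) = 0
        rw [hθ1]
        exact map_zero i
      map_add' := by
        intro x y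
        funext j
        change i (θ (x.toMul * y.toMul) j) = i (θ x.toMul j) + i (θ y.toMul j)
        rw [hθ, ← map_add]
        rfl }
  have hΘ : ∀ x, Θ x = 0 ↔ ((x.toMul : R) : G) ∈ R' := by
    intro x
    rw [← hker]
    constructor
    · intro h
      funext j
      exact hi ((congrFun h j).trans (map_zero i).symm)
    · intro h
      funext j
      change i (θ x.toMul j) = 0
      rw [h]
      exact map_zero i
  have hH : FR (HP A B R) := FR.subgroup _ (FR.prod hA hB)
  let π : HP A B R →* G := A.subtype.comp ((MonoidHom.fst A B).comp (HP A B R).subtype)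
  let α : HP A B R →* Module.End (AlgebraicClosure F) (Fin n → AlgebraicClosure F) :=
    (act i ρ).comp π
  obtain ⟨H0, hH0, hTF⟩ := platonov hH α
  let δ : HP A B R → (Fin n → AlgebraicClosure F) := fun h =>
    Θ (Additive.ofMul (⟨(h.1.1 : G) * (h.1.2 : G)⁻¹, h.2⟩ : R))
  have hδ : ∀ h h' : HP A B R, δ (h * h') = α h (δ h') + δ h := by
    intro h h'
    have e1 : (⟨((h * h').1.1 : G) * ((h * h').1.2 : G)⁻¹, (h * h').2⟩ : R)
        = MulAut.conjNormal (h.1.1 : G) (⟨(h'.1.1 : G) * (h'.1.2 : G)⁻¹, h'.2⟩ : R)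
          * (⟨(h.1.1 : G) * (h.1.2 : G)⁻¹, h.2⟩ : R) := by
      apply Subtype.ext
      change ((h.1.1 : G) * (h'.1.1 : G)) * ((h.1.2 : G) * (h'.1.2 : G))⁻¹
        = (h.1.1 : G) * ((h'.1.1 : G) * (h'.1.2 : G)⁻¹) * (h.1.1 : G)⁻¹
          * ((h.1.1 : G) * (h.1.2 : G)⁻¹)
      group
    have e2 : δ (h * h') = Θ (Additive.ofMul (MulAut.conjNormal (h.1.1 : G)
          (⟨(h'.1.1 : G) * (h'.1.2 : G)⁻¹, h'.2⟩ : R))) + δ h := by
      rw [← map_add, ← ofMul_mul, ← e1]
    rw [e2]
    congr 1
    have e3 : α h (δ h') = act i ρ (h.1.1 : G)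
        (fun j => i (θ (⟨(h'.1.1 : G) * (h'.1.2 : G)⁻¹, h'.2⟩ : R) j)) := rfl
    rw [e3, act_apply, ← hρ]
    rfl
  have hU : ∀ w, w ∈ Θ.range ↔ ∃ h, δ h = w := by
    intro w
    constructor
    · rintro ⟨x, rfl⟩
      obtain ⟨a, ha, b, hb, hab⟩ := hAB ((x.toMul : R) : G)
      have h1 : (a : G) * (b⁻¹)⁻¹ = ((x.toMul : R) : G) := by rw [inv_inv, hab]
      have h2 : (((⟨a, ha⟩, ⟨b⁻¹, B.inv_mem hb⟩) : A × B)) ∈ HP A B R := by
        rw [mem_HP]
        change a * (b⁻¹)⁻¹ ∈ R
        rw [h1]
        exact (x.toMul).2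
      refine ⟨⟨_, h2⟩, ?_⟩
      change Θ _ = Θ x
      congr 1
      apply Additive.toMul.injective
      apply Subtype.ext
      exact h1
    · rintro ⟨h, rfl⟩
      exact ⟨_, rfl⟩
  have hFR : FR (Multiplicative Θ.range) :=
    cross_v hH α H0 _ hTF (fun h hh => ⟨h, hh, rfl⟩) δ hδ Θ.range hU
  let f : R →* Multiplicative Θ.range :=
    { toFun := fun x => Multiplicative.ofAdd ⟨Θ (Additive.ofMul x), ⟨_, rfl⟩⟩
      map_one' := by
        apply Multiplicative.toAdd.injective
        apply Subtype.ext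
        exact map_zero Θ
      map_mul' := by
        intro x y
        apply Multiplicative.toAdd.injective
        apply Subtype.ext
        exact map_add Θ _ _ }
  have hf : ∀ x, f x = 1 ↔ (x : G) ∈ R' := by
    intro x
    refine Iff.trans ?_ (hΘ (Additive.ofMul x))
    constructor
    · intro h
      exact congrArg Subtype.val (congrArg Multiplicative.toAdd h)
    · intro h
      apply Multiplicative.toAdd.injective
      apply Subtype.ext
      exact h
  have hle : R'.subgroupOf R ≤ f.ker := by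
    intro x hx
    rw [MonoidHom.mem_ker, hf]
    exact Subgroup.mem_subgroupOf.1 hx
  refine FR.of_injective (QuotientGroup.lift (R'.subgroupOf R) f hle) ?_ hFR
  rw [injective_iff_map_eq_one]
  intro x
  induction x using QuotientGroup.induction_on with
  | H x =>
    intro h
    rw [QuotientGroup.lift_mk, hf] at h
    exact (QuotientGroup.eq_one_iff x).2 (Subgroup.mem_subgroupOf.2 h)

end P9700e
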