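import Mathlib
import Pool.Agent.Lib.P9700e.Defs
import Pool.Agent.Lib.P9700e.Defs3

/-!
# The valuation of a tower

The germs (along an ultrafilter on the primes) of the levels of a tower form a valuation.
-/

set_option autoImplicit false

namespace P9700e

namespace ValGAux

open scoped commutatorElement

theorem anti {G : Type*} [Group G] {K : Subgroup G} {e : ℕ} {N : Nat.Primes → Subgroup G}
    {c : Nat.Primes → ℕ → Subgroup G} (h : Tower K e N c) (p : Nat.Primes) {i j : ℕ}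
    (hij : i ≤ j) : c p j ≤ c p i :=
  antitone_nat_of_succ_le (f := c p) (fun n => h.anti p n) hij

theorem lev_le_lev {G : Type*} [Group G] {c : Nat.Primes → ℕ → Subgroup G} {p : Nat.Primes}
    {x z : G} (h : ∀ i, x ∈ c p i → z ∈ c p i) : lev c p x ≤ lev c p z :=
  iSup₂_le fun i hi => le_iSup₂ (f := fun (i : ℕ) (_ : z ∈ c p i) => (i : ℕ∞)) i (h i hi)

theorem lev_congr {G : Type*} [Group G] {c : Nat.Primes → ℕ → Subgroup G} {p : Nat.Primes}
    {x z : G} (h : ∀ i, x ∈ c p i ↔ z ∈ c p i) : lev c p x = lev c p z :=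
  le_antisymm (lev_le_lev fun i => (h i).1) (lev_le_lev fun i => (h i).2)

theorem coprime_mem {G : Type*} [Group G] (H : Subgroup G) {x : G} {m p : ℕ}
    (hmp : Nat.Coprime m p) (hm : x ^ m ∈ H) (hp : x ^ p ∈ H) : x ∈ H := by
  obtain ⟨u, v, huv⟩ := Nat.isCoprime_iff_coprime.2 hmp
  have h1 : x = (x ^ m) ^ u * (x ^ p) ^ v := by
    rw [← zpow_natCast x m, ← zpow_natCast x p, ← zpow_mul, ← zpow_mul, ← zpow_add,
      mul_comm (m : ℤ) u, mul_comm (p : ℤ) v, huv, zpow_one]
  rw [h1]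
  exact H.mul_mem (H.zpow_mem hm u) (H.zpow_mem hp v)

end ValGAux

open ValGAux

theorem le_lev {G : Type*} [Group G] {K : Subgroup G} {e : ℕ} {N : Nat.Primes → Subgroup G}
    {c : Nat.Primes → ℕ → Subgroup G} (h : Tower K e N c) (p : Nat.Primes) (x : G)
    (hx : x ∈ c p 0) (i : ℕ) : (i : ℕ∞) ≤ lev c p x ↔ x ∈ c p i := by
  constructor
  · intro h1
    by_contra h2
    have hi : i ≠ 0 := by
      rintro rfl
      exact h2 hx
    have h3 : lev c p x ≤ ((i - 1 : ℕ) : ℕ∞) := by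
      refine iSup₂_le fun j hj => ?_
      have : j < i := by
        by_contra hij
        exact h2 (anti h p (not_lt.1 hij) hj)
      exact_mod_cast (by omega : j ≤ i - 1)
    have h4 : i ≤ i - 1 := by exact_mod_cast h1.trans h3
    omega
  · intro h1
    exact le_iSup₂ (f := fun (i : ℕ) (_ : x ∈ c p i) => (i : ℕ∞)) i h1

theorem lev_top {G : Type*} [Group G] {K : Subgroup G} {e : ℕ} {N : Nat.Primes → Subgroup G}
    {c : Nat.Primes → ℕ → Subgroup G} (h : Tower K e N c) (p : Nat.Primes) (x : G)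
    (hx : x ∈ c p 0) : lev c p x = ⊤ ↔ x ∈ N p := by
  constructor
  · intro h1
    obtain ⟨l, hl⟩ := h.stop p
    rw [← hl, ← le_lev h p x hx, h1]
    exact le_top
  · intro h1
    by_contra h2
    obtain ⟨n, hn⟩ := ENat.ne_top_iff_exists.1 h2
    have h3 := (le_lev h p x hx (n + 1)).2 (h.le p _ h1)
    rw [← hn] at h3
    have h4 : n + 1 ≤ n := by exact_mod_cast h3
    omega

open scoped commutatorElement in
theorem wv_tower {G : Type*} [Group G] {K : Subgroup G} (hK : K.Normal) {e : ℕ}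
    {N : Nat.Primes → Subgroup G} {c : Nat.Primes → ℕ → Subgroup G} (h : Tower K e N c)
    (𝒰 : Ultrafilter Nat.Primes) (h𝒰 : (𝒰 : Filter Nat.Primes) ≤ Filter.cofinite) :
    WV K (NU K N 𝒰) (vU c 𝒰) := by
  have h0 : ∀ p, ∀ x ∈ K, x ∈ c p 0 := fun p x hx => h.zero p hx
  refine ⟨?_, ?_, ?_, ?_, ?_, ?_⟩
  · intro x hx
    rw [mem_NU]
    have h1 : vU c 𝒰 x = ⊤ ↔ ∀ᶠ p in (𝒰 : Filter Nat.Primes), lev c p x = ⊤ :=
      Filter.Germ.coe_eq
    rw [h1]
    simp only [hx, true_and]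
    exact Filter.eventually_congr (Filter.Eventually.of_forall fun p => lev_top h p x (h0 p x hx))
  · intro x hx y hy
    rcases le_total (vU c 𝒰 x) (vU c 𝒰 y) with hle | hle
    · rw [min_eq_left hle]
      have h2 : ∀ᶠ p in (𝒰 : Filter Nat.Primes), lev c p x ≤ lev c p y :=
        Filter.Germ.coe_le.1 hle
      refine Filter.Germ.coe_le.2 (h2.mono fun p hp => lev_le_lev fun i hi => ?_)
      exact (c p i).mul_mem hi ((le_lev h p y (h0 p y hy) i).1
        (((le_lev h p x (h0 p x hx) i).2 hi).trans hp))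
    · rw [min_eq_right hle]
      have h2 : ∀ᶠ p in (𝒰 : Filter Nat.Primes), lev c p y ≤ lev c p x :=
        Filter.Germ.coe_le.1 hle
      refine Filter.Germ.coe_le.2 (h2.mono fun p hp => lev_le_lev fun i hi => ?_)
      exact (c p i).mul_mem ((le_lev h p x (h0 p x hx) i).1
        (((le_lev h p y (h0 p y hy) i).2 hi).trans hp)) hi
  · intro x hx
    refine congrArg (fun f : Nat.Primes → ℕ∞ => (f : Filter.Germ (𝒰 : Filter Nat.Primes) ℕ∞)) ?_
    funext p
    exact lev_congr fun i => (c p i).inv_mem_iff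
  · intro g x hx
    refine congrArg (fun f : Nat.Primes → ℕ∞ => (f : Filter.Germ (𝒰 : Filter Nat.Primes) ℕ∞)) ?_
    funext p
    refine lev_congr fun i => ⟨fun h1 => ?_, fun h1 => (h.normal p i).conj_mem x h1 g⟩
    have h2 := (h.normal p i).conj_mem _ h1 g⁻¹
    have h3 : g⁻¹ * (g * x * g⁻¹) * g⁻¹⁻¹ = x := by group
    rwa [h3] at h2
  · intro x hx y hy hyN
    have h1 : ¬ ∀ᶠ p in (𝒰 : Filter Nat.Primes), y ∈ N p := fun h1 => hyN ⟨hy, h1⟩
    rw [← Ultrafilter.eventually_not] at h1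
    refine Filter.Germ.coe_lt.2 (h1.mono fun p hp => ?_)
    have h2 : lev c p y ≠ ⊤ := fun h2 => hp ((lev_top h p y (h0 p y hy)).1 h2)
    obtain ⟨n, hn⟩ := ENat.ne_top_iff_exists.1 h2
    have h3 : y ∈ c p n := (le_lev h p y (h0 p y hy) n).1 hn.le
    have h4 : ⁅y, x⁆ ∈ c p (n + 1) := h.comm p n (Subgroup.commutator_mem_commutator h3 hx)
    have h5 : ⁅x, y⁆ ∈ c p (n + 1) := by
      rw [← commutatorElement_inv]
      exact (c p (n + 1)).inv_mem h4
    have h6 : ⁅x, y⁆ ∈ c p 0 := anti h p (Nat.zero_le _) h5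
    have h7 := (le_lev h p _ h6 (n + 1)).2 h5
    refine lt_of_lt_of_le ?_ h7
    rw [← hn]
    exact_mod_cast Nat.lt_succ_self n
  · intro x hx m hm
    refine Filter.Germ.coe_eq.2 ?_
    have hfin : {p : Nat.Primes | (p : ℕ) ∣ m}.Finite := by
      refine Set.Finite.of_finite_image (f := fun p : Nat.Primes => (p : ℕ)) ?_
        (Subtype.val_injective.injOn)
      refine (Set.finite_Iic m).subset ?_
      rintro _ ⟨p, hp, rfl⟩
      exact Nat.le_of_dvd hm hp
    have h1 : ∀ᶠ p : Nat.Primes in (𝒰 : Filter Nat.Primes), ¬ (p : ℕ) ∣ m :=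
      h𝒰 hfin.compl_mem_cofinite
    refine h1.mono fun p hp => ?_
    have hcop : Nat.Coprime m (p : ℕ) := ((Nat.Prime.coprime_iff_not_dvd p.2).2 hp).symm
    refine lev_congr fun i => ?_
    induction i with
    | zero => exact ⟨fun _ => h0 p x hx, fun h2 => (c p 0).pow_mem h2 m⟩
    | succ i ih =>
      refine ⟨fun h2 => ?_, fun h2 => (c p (i + 1)).pow_mem h2 m⟩
      exact coprime_mem _ hcop h2 (h.exp p i x (ih.1 (h.anti p i h2)))

end P9700e
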