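import Mathlib
import Pool.Agent.Lib.P9700e.Defs
import Pool.Agent.Lib.P9700e.Defs3
import Pool.Agent.Lib.P9700e.ValG
import Pool.Agent.Lib.P9700e.ExEmb
import Pool.Agent.Lib.P9700e.FRsec

/-!
# The factors of the valuation of a tower have finite rank

`l` is the germ of some `f : Nat.Primes → ℕ∞` (`Filter.Germ.inductionOn`), `f p ≠ ⊤` for almost all `p` (ultrafilter: otherwise `l = ⊤`). `i p = (f p).toNat`, `M p = c p (i p)`, `M' p = c p (i p + 1)`. For `x ∈ K`: `l ≤ vU c 𝒰 x` iff `f p ≤ lev c p x` almost always (`Filter.Germ.coe_le`) iff `x ∈ M p` almost always (`le_lev`; `K ≤ c p 0`), and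
`l < vU c 𝒰 x` iff `f p < lev c p x` almost always (`Filter.Germ.coe_lt`) iff `x ∈ M' p` almost always (`i + 1 ≤ lev`). `exists_emb` (its hypotheses are fields of `Tower`) gives `F`, `ρ`, `θ`; restrict `θ` to `R` and apply `fr_sec`.
-/

set_option autoImplicit false

namespace P9700e

open P9700a

theorem fr_factor {G : Type*} [Group G] (A B : Subgroup G) (hA : FR A) (hB : FR B)
    (hAB : ∀ g : G, ∃ a ∈ A, ∃ b ∈ B, g = a * b) {K : Subgroup G} (hK : K.Normal) {e : ℕ}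
    {N : Nat.Primes → Subgroup G} {c : Nat.Primes → ℕ → Subgroup G} (h : Tower K e N c)
    (𝒰 : Ultrafilter Nat.Primes) (h𝒰 : (𝒰 : Filter Nat.Primes) ≤ Filter.cofinite)
    (l : Filter.Germ (𝒰 : Filter Nat.Primes) ℕ∞) (hl : l ≠ ⊤) (R R' : Subgroup G) (hR : R.Normal)
    (hR' : R'.Normal) (h1 : ∀ x, x ∈ R ↔ x ∈ K ∧ l ≤ vU c 𝒰 x)
    (h2 : ∀ x, x ∈ R' ↔ x ∈ K ∧ l < vU c 𝒰 x) : FR (R ⧸ R'.subgroupOf R) := by
  classical
  induction l using Filter.Germ.inductionOn with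
  | h f =>
  have hf : ∀ᶠ p in (𝒰 : Filter Nat.Primes), f p ≠ ⊤ := by
    rw [Ultrafilter.eventually_not]
    intro h3
    exact hl (Filter.Germ.coe_eq.2 h3)
  have hx1 : ∀ x ∈ K, ((f : Filter.Germ (𝒰 : Filter Nat.Primes) ℕ∞) ≤ vU c 𝒰 x ↔
      ∀ᶠ p in (𝒰 : Filter Nat.Primes), x ∈ c p (f p).toNat) := by
    intro x hx
    unfold vU
    rw [Filter.Germ.coe_le]
    refine Filter.eventually_congr ?_
    filter_upwards [hf] with p hp
    rw [← le_lev h p x (h.zero p hx), ENat.natCast_toNat hp]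
  have hx2 : ∀ x ∈ K, ((f : Filter.Germ (𝒰 : Filter Nat.Primes) ℕ∞) < vU c 𝒰 x ↔
      ∀ᶠ p in (𝒰 : Filter Nat.Primes), x ∈ c p ((f p).toNat + 1)) := by
    intro x hx
    unfold vU
    rw [Filter.Germ.coe_lt]
    refine Filter.eventually_congr ?_
    filter_upwards [hf] with p hp
    rw [← le_lev h p x (h.zero p hx), Nat.cast_add, ENat.natCast_toNat hp, Nat.cast_one,
      ENat.add_one_le_iff hp]
  obtain ⟨F, _, _, n, ρ, θ, h3, h4, h5⟩ := exists_emb e (fun p => c p (f p).toNat)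
    (fun p => c p ((f p).toNat + 1)) (fun p => h.normal p _) (fun p => h.normal p _)
    (fun p => h.anti p _) (fun p => h.ab p _) (fun p => h.exp p _) (fun p => h.rk p _) 𝒰 h𝒰
  have hRM : ∀ x : R, ∀ᶠ p in (𝒰 : Filter Nat.Primes), (x : G) ∈ c p (f p).toNat := by
    intro x
    obtain ⟨h6, h7⟩ := (h1 x).1 x.2
    exact (hx1 x h6).1 h7
  refine fr_sec A B hA hB hAB R R' ρ (fun x => θ x) ?_ ?_ ?_
  · intro x y
    exact h3 x y (hRM x) (hRM y)
  · intro x
    rw [h4 x (hRM x), h2, ← hx2 x ((h1 x).1 x.2).1]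
    exact ⟨fun h6 => ⟨((h1 x).1 x.2).1, h6⟩, fun h6 => h6.2⟩
  · intro g x
    rw [MulAut.conjNormal_apply]
    exact h5 g x (hRM x)

end P9700e
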