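import Mathlib
import Pool.Agent.Lib.P9700e.Defs
import Pool.Agent.Lib.P9700e.Defs3
import Pool.Agent.Lib.P9700e.HMono
import Pool.Agent.Lib.P9700e.HTor
import Pool.Agent.Lib.P9700e.HFin
import Pool.Agent.Lib.P9700e.NilB
import Pool.Agent.Lib.P9700e.AbsQ
import Pool.Agent.Lib.P9700e.ValG
import Pool.Agent.Lib.P9700e.ValF

/-!
# The subgroup `K2`

Let `𝒮` be the set of the normal subgroups `K'` of `G`, `K' ≤ K`, with `FR (K ⧸ K'.subgroupOf K)`, `Group.IsNilpotent (K ⧸ K'.subgroupOf K)` and (`x ∈ K`, `0 < m`, `x ^ m ∈ K'` imply `x ∈ K'`). `K ∈ 𝒮`. For every ultrafilter `𝒰 ≤ cofinite`: `NU K N 𝒰 ∈ 𝒮` by `absV` with `wv_tower`, `fr_factor` (torsion: `pow`, `top_iff`). `𝒮` is closed under `⊓`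
(`K ⧸ (K' ⊓ K'').subgroupOf K` embeds into the product: `QuotientGroup` lift; `FR.prod`, `FR.of_injective`, nilpotency of products and subgroups).
For `K' ∈ 𝒮`: `hh (K ⧸ K'.subgroupOf K) ≤ C := 2 (r + r ^ 2 + c0)`: `hh_nilp_normal` in `G ⧸ K'` for `K.map (mk' K')` (isomorphic to `K ⧸ K'.subgroupOf K`; `(G ⧸ K') ⧸ K.map _` is a quotient of `G ⧸ K`).
Choose `K2 ∈ 𝒮` with `hh (K ⧸ K2.subgroupOf K)` maximal (values in `{0, ..., C}`). For `𝒰`: `K' = K2 ⊓ NU K N 𝒰 ∈ 𝒮`, `hh (K ⧸ K') = hh (K2 ⧸ K') + hh (K ⧸ K2)` (`hh_ker_range` for `K ⧸ K' → K ⧸ K2`), so `hh (K2 ⧸ K'.subgroupOf K2) = 0` (cancel in `ℕ∞`, finite); it is torsion-free, so trivial (`eq_one_of_hh_zero`): `K2 ≤ NU K N 𝒰`.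
For `x ∈ K2`: if `{p : x ∉ N p}` were infinite, there would be an ultrafilter `𝒰 ≤ cofinite` containing it (`Filter.cofinite ⊓ 𝓟 s` is `NeBot` for infinite `s`; `Ultrafilter.of`), contradicting `x ∈ NU K N 𝒰`.
-/

set_option autoImplicit false

universe u

namespace P9700e

open P9700a

namespace ExK2Aux

/-- the subgroups of `K` with torsion-free nilpotent factor of finite rank -/
structure SS {G : Type u} [Group G] (K K' : Subgroup G) [K'.Normal] : Prop where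
  le : K' ≤ K
  fr : FR (K ⧸ K'.subgroupOf K)
  nil : Group.IsNilpotent (K ⧸ K'.subgroupOf K)
  tf : ∀ x ∈ K, ∀ m : ℕ, 0 < m → x ^ m ∈ K' → x ∈ K'

theorem inj_of {G : Type u} [Group G] {K K' : Subgroup G} [K'.Normal] {Q : Type u} [Group Q]
    (f : K →* Q) (hf : ∀ x : K, f x = 1 ↔ (x : G) ∈ K') :
    ∃ g : K ⧸ K'.subgroupOf K →* Q, Function.Injective g := by
  refine ⟨QuotientGroup.lift (K'.subgroupOf K) f (fun x hx => (hf x).2
    (Subgroup.mem_subgroupOf.mp hx)), ?_⟩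
  rw [injective_iff_map_eq_one]
  intro z
  induction z using QuotientGroup.induction_on with
  | H x =>
    intro hx
    rw [QuotientGroup.eq_one_iff, Subgroup.mem_subgroupOf]
    exact (hf x).1 hx

theorem nil_of_injective {G H : Type*} [Group G] [Group H] (f : G →* H)
    (hf : Function.Injective f) (h : Group.IsNilpotent H) : Group.IsNilpotent G := by
  have h1 : Group.IsNilpotent f.range := inferInstance
  exact Group.nilpotent_of_mulEquiv (MonoidHom.ofInjective hf).symm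

theorem ss_self {G : Type u} [Group G] (K : Subgroup G) [K.Normal] : SS K K := by
  have hs : Subsingleton (K ⧸ K.subgroupOf K) := by
    rw [Subgroup.subgroupOf_self]
    exact QuotientGroup.subsingleton_quotient_top
  refine ⟨le_rfl, ?_, ?_, fun x hx _ _ _ => hx⟩
  · have : Finite (K ⧸ K.subgroupOf K) := Finite.of_subsingleton
    exact FR.of_finite
  · exact Group.isNilpotent_of_subsingleton

theorem ss_inf {G : Type u} [Group G] {K K1 K2 : Subgroup G} [K1.Normal] [K2.Normal]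
    (h1 : SS K K1) (h2 : SS K K2) : SS K (K1 ⊓ K2) := by
  obtain ⟨g, hg⟩ := inj_of (K' := K1 ⊓ K2)
    ((QuotientGroup.mk' (K1.subgroupOf K)).prod (QuotientGroup.mk' (K2.subgroupOf K))) (by
      intro x
      rw [MonoidHom.prod_apply, Prod.mk_eq_one, QuotientGroup.mk'_apply, QuotientGroup.mk'_apply,
        QuotientGroup.eq_one_iff, QuotientGroup.eq_one_iff, Subgroup.mem_subgroupOf,
        Subgroup.mem_subgroupOf, Subgroup.mem_inf])
  refine ⟨inf_le_left.trans h1.le, FR.of_injective g hg (FR.prod h1.fr h2.fr), ?_, ?_⟩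
  · have n1 := h1.nil
    have n2 := h2.nil
    exact nil_of_injective g hg inferInstance
  · intro x hx m hm hxm
    exact ⟨h1.tf x hx m hm hxm.1, h2.tf x hx m hm hxm.2⟩

/-- `K ⧸ K'` as a subgroup of `G ⧸ K'` -/
noncomputable def qe {G : Type u} [Group G] (K K' : Subgroup G) [K'.Normal] :
    K ⧸ K'.subgroupOf K ≃* K.map (QuotientGroup.mk' K') :=
  (QuotientGroup.quotientMulEquivOfEq (by
    ext x
    rw [MonoidHom.mem_ker, Subgroup.mem_subgroupOf, ← QuotientGroup.eq_one_iff, Subtype.ext_iff]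
    rfl : K'.subgroupOf K = ((QuotientGroup.mk' K').subgroupMap K).ker)).trans
    (QuotientGroup.quotientKerEquivOfSurjective ((QuotientGroup.mk' K').subgroupMap K)
      (MonoidHom.subgroupMap_surjective _ _))

theorem bound {G : Type u} [Group G] (A B : Subgroup G) {r : ℕ} (hA : RK r A) (hB : RK r B)
    (hAB : ∀ g : G, ∃ a ∈ A, ∃ b ∈ B, g = a * b) {K K' : Subgroup G} [hK : K.Normal] [K'.Normal]
    (h : SS K K') (c0 : ℕ) (hc0 : hh (G ⧸ K) ≤ c0) :
    hh (K ⧸ K'.subgroupOf K) ≤ ((2 * (r + r ^ 2 + c0) : ℕ) : ℕ∞) := by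
  rw [hh_congr (qe K K')]
  have hn : (K.map (QuotientGroup.mk' K')).Normal :=
    hK.map _ (QuotientGroup.mk'_surjective K')
  refine hh_nilp_normal (A.map (QuotientGroup.mk' K')) (B.map (QuotientGroup.mk' K'))
    (K.map (QuotientGroup.mk' K')) (hA.map _) (hB.map _) ?_ ?_ ?_ ?_ c0 ?_
  · intro z
    induction z using QuotientGroup.induction_on with
    | H g =>
      obtain ⟨a, ha, b, hb, rfl⟩ := hAB g
      exact ⟨a, ⟨a, ha, rfl⟩, b, ⟨b, hb, rfl⟩, rfl⟩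
  · exact FR.of_surjective (qe K K').toMonoidHom (qe K K').surjective h.fr
  · have := h.nil
    exact Group.nilpotent_of_mulEquiv (qe K K')
  · rintro _ ⟨x, hx, rfl⟩ m hm hxm
    rw [← map_pow, QuotientGroup.mk'_apply, QuotientGroup.eq_one_iff] at hxm
    rw [QuotientGroup.mk'_apply, QuotientGroup.eq_one_iff]
    exact h.tf x hx m hm hxm
  · rw [hh_congr (QuotientGroup.quotientQuotientEquivQuotient K' K h.le)]
    exact hc0

theorem ss_NU {G : Type u} [Group G] (A B : Subgroup G) {r : ℕ} (hA : RK r A) (hB : RK r B)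
    (hAB : ∀ g : G, ∃ a ∈ A, ∃ b ∈ B, g = a * b) {K : Subgroup G} (hK : K.Normal) {e : ℕ}
    {N : Nat.Primes → Subgroup G} {c : Nat.Primes → ℕ → Subgroup G}
    (h : Tower K e N c) (c0 : ℕ) (hc0 : hh (G ⧸ K) ≤ c0)
    (𝒰 : Ultrafilter Nat.Primes) (h𝒰 : (𝒰 : Filter Nat.Primes) ≤ Filter.cofinite)
    [(NU K N 𝒰).Normal] : SS K (NU K N 𝒰) := by
  have hv := wv_tower hK h 𝒰 h𝒰
  obtain ⟨h1, h2⟩ := absV A B K (NU K N 𝒰) NU_le hA hB hAB (vU c 𝒰) hv c0 hc0
    (fun l hl R R' hR hR' e1 e2 =>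
      fr_factor A B hA.fr hB.fr hAB hK h 𝒰 h𝒰 l hl R R' hR hR' e1 e2)
  refine ⟨NU_le, h1, h2, ?_⟩
  intro x hx m hm hxm
  rw [← hv.top_iff x hx, ← hv.pow x hx m hm, hv.top_iff _ (K.pow_mem hx m)]
  exact hxm

theorem ss_step {G : Type u} [Group G] {K K1 K2 : Subgroup G} [K1.Normal] [K2.Normal]
    (h12 : K1 ≤ K2) (h1 : SS K K1) (h2 : SS K K2) {x : G} (hx2 : x ∈ K2) (hx1 : x ∉ K1) :
    1 + hh (K ⧸ K2.subgroupOf K) ≤ hh (K ⧸ K1.subgroupOf K) := by
  have hle : K1.subgroupOf K ≤ (K2.subgroupOf K).comap (MonoidHom.id K) := by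
    intro y hy
    exact h12 hy
  let f : K ⧸ K1.subgroupOf K →* K ⧸ K2.subgroupOf K :=
    QuotientGroup.map (K1.subgroupOf K) (K2.subgroupOf K) (MonoidHom.id K) hle
  have hf : Function.Surjective f := by
    intro z
    induction z using QuotientGroup.induction_on with
    | H y => exact ⟨(y : K ⧸ K1.subgroupOf K), rfl⟩
  rw [hh_ker_range f]
  refine add_le_add ?_ ?_
  · have hxK : x ∈ K := h2.le hx2
    have hxf : ((⟨x, hxK⟩ : K) : K ⧸ K1.subgroupOf K) ∈ f.ker := by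
      rw [MonoidHom.mem_ker]
      change (((⟨x, hxK⟩ : K) : K ⧸ K2.subgroupOf K)) = 1
      rw [QuotientGroup.eq_one_iff, Subgroup.mem_subgroupOf]
      exact hx2
    refine one_le_hh (⟨_, hxf⟩ : f.ker) ?_
    intro m hm hxm
    have h3 := congrArg Subtype.val hxm
    rw [SubmonoidClass.coe_pow] at h3
    change (((⟨x, hxK⟩ : K) : K ⧸ K1.subgroupOf K)) ^ m = 1 at h3
    rw [← QuotientGroup.mk_pow, QuotientGroup.eq_one_iff, Subgroup.mem_subgroupOf] at h3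
    exact hx1 (h1.tf x hxK m hm h3)
  · refine hh_le_of_surjective f.range.subtype ?_
    intro z
    obtain ⟨y, hy⟩ := hf z
    exact ⟨⟨z, y, hy⟩, rfl⟩

end ExK2Aux

open ExK2Aux

theorem exists_K2 {G : Type u} [Group G] (A B : Subgroup G) {r : ℕ} (hA : RK r A) (hB : RK r B)
    (hAB : ∀ g : G, ∃ a ∈ A, ∃ b ∈ B, g = a * b) {K : Subgroup G} (hK : K.Normal) {e : ℕ}
    {N : Nat.Primes → Subgroup G} (hN : ∀ p, (N p).Normal) {c : Nat.Primes → ℕ → Subgroup G}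
    (h : Tower K e N c) (c0 : ℕ) (hc0 : hh (G ⧸ K) ≤ c0) :
    ∃ (K2 : Subgroup G) (_ : K2.Normal), K2 ≤ K ∧ FR (K ⧸ K2.subgroupOf K) ∧
      ∀ x ∈ K2, {p : Nat.Primes | x ∉ N p}.Finite := by
  classical
  let P : ℕ → Prop := fun n => ∃ (K2 : Subgroup G) (_ : K2.Normal), SS K K2 ∧
    (n : ℕ∞) ≤ hh (K ⧸ K2.subgroupOf K)
  have hb : ∀ n, P n → n ≤ 2 * (r + r ^ 2 + c0) := by
    rintro n ⟨K2, hK2, h1, h2⟩
    exact_mod_cast h2.trans (bound A B hA hB hAB h1 c0 hc0)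
  have h0 : P 0 := ⟨K, hK, ss_self K, by simp⟩
  obtain ⟨K2, hK2, h1, h2⟩ := Nat.findGreatest_spec (P := P) (n := 2 * (r + r ^ 2 + c0))
    (Nat.zero_le _) h0
  refine ⟨K2, hK2, h1.le, h1.fr, ?_⟩
  intro x hx
  by_contra hinf
  have hne := Set.Infinite.cofinite_inf_principal_neBot hinf
  let 𝒰 : Ultrafilter Nat.Primes :=
    Ultrafilter.of (Filter.cofinite ⊓ Filter.principal {p : Nat.Primes | x ∉ N p})
  have h𝒰 : (𝒰 : Filter Nat.Primes) ≤ Filter.cofinite ⊓ Filter.principal {p | x ∉ N p} :=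
    Ultrafilter.of_le _
  have hNU : (NU K N 𝒰).Normal := NU_normal hK hN 𝒰
  have h3 : SS K (NU K N 𝒰) := ss_NU A B hA hB hAB hK h c0 hc0 𝒰 (h𝒰.trans inf_le_left)
  have hx' : x ∉ NU K N 𝒰 := by
    rintro ⟨-, h4⟩
    have h5 : ∀ᶠ p in (𝒰 : Filter Nat.Primes), x ∉ N p :=
      (h𝒰.trans inf_le_right) (Filter.mem_principal_self _)
    obtain ⟨p, h6, h7⟩ := (h4.and h5).exists
    exact h7 h6
  have h4 := ss_step (inf_le_left : K2 ⊓ NU K N 𝒰 ≤ K2) (ss_inf h1 h3) h1 hx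
    (fun h5 => hx' (Subgroup.mem_inf.mp h5).2)
  have h5 : P (Nat.findGreatest P (2 * (r + r ^ 2 + c0)) + 1) := by
    refine ⟨K2 ⊓ NU K N 𝒰, inferInstance, ss_inf h1 h3, ?_⟩
    refine le_trans ?_ h4
    rw [Nat.cast_add, Nat.cast_one, add_comm]
    exact add_le_add_right h2 1
  have h6 := Nat.le_findGreatest (hb _ h5) h5
  omega

end P9700e
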