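import Mathlib
import Pool.Agent.Lib.P9700d.Defs
import Pool.Agent.Lib.P9700d.NasP
import Pool.Agent.Lib.P9700d.FilE
import Pool.Agent.Lib.P9700e.Defs

/-!
# Subgroups of a powerful `p`-group have bounded rank

Strong induction on `Nat.card V` for the stronger claim: if `(pw p V).relIndex V = p ^ d` then every `H ≤ V` is generated by at most `d` elements (`d ≤ e`; the index is a power of `p`). Let `V1 = pw p V`, `V2 = pw p V1`; if `V = ⊥` trivial, otherwise `V1 < V` (`P9700d.FilEAux.pgroup_triv`-like: a nontrivial finite `p`-group is not generated by `p`-th powers modulo commutators; here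
`⁅V, V⁆ ≤ pw (p^2) V ≤ V1` so `V / V1` is elementary abelian, and `V = V1` would give `V = 1` by `sup_of_pw`/Frattini). `V1` satisfies the hypotheses (`⁅N, V1⁆ ≤ ⁅N, V⁆`). `⁅V, V⁆ ≤ pw (p^2) V ≤ V2` (`x^(p^2) = (x^p)^p`), so `V / V2` is abelian and `x ↦ x ^ p` induces a homomorphism `π : V / V1 → V1 / V2`, surjective. `|V1 / V2| = p ^ m`, `m ≤ d`,
`|ker π| = p ^ (d - m)`. Let `H ≤ V`, `K = H ⊓ V1`, generated by `m` elements (induction). Let `h_1, ..., h_ε ∈ H` be a basis of `H V1 / V1` (`ε ≤ d`), so `H = closure {h_i} ⊔ K`. The images of the `h_i ^ p ∈ K` in `V1 / V2` span a space of dimension `≥ ε - (d - m)`. The Frattini quotient `K / Φ`, `Φ = pw p K ⊔ ⁅K, K⁆ ≤ V2` (`⁅V1, V1⁆ ≤ V2`), has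
dimension `≤ m` and maps to `V1 / V2`, so the `h_i ^ p` span in `K / Φ` a subspace of dimension `≥ ε - (d - m)`; hence `K` is generated modulo `Φ` by the `h_i ^ p` and `m - (ε - (d - m)) = d - ε` further elements `y_j`, so `K = closure ({h_i ^ p} ∪ {y_j})` (Frattini property of finite `p`-groups; `P9700d.NasPAux.sup_of_pw` with `N = ⁅K, K⁆`-type statements) and
`H = closure ({h_i} ∪ {y_j})`: at most `d` generators. (If `ε ≤ d - m` simply take `m` generators `y_j` of `K`.) (Counting may be done with orders of subgroups of the elementary abelian groups instead of dimensions.)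
-/

set_option autoImplicit false

open scoped commutatorElement

namespace P9700e

open P9700d

namespace PowRAux

variable {X : Type*} [Group X]

/-- the Frattini subgroup of a finite `p`-group -/
def Ph (p : ℕ) (H : Subgroup X) : Subgroup X := pw p H ⊔ ⁅H, H⁆

theorem Ph_le (p : ℕ) (H : Subgroup X) : Ph p H ≤ H :=
  sup_le (pw_le p H) (Subgroup.commutator_le_self H)

theorem Ph_mono (p : ℕ) {H K : Subgroup X} (h : H ≤ K) : Ph p H ≤ Ph p K :=
  sup_le_sup (pw_mono p h) (Subgroup.commutator_mono h h)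

theorem frat [Finite X] {p : ℕ} [Fact p.Prime] (hX : IsPGroup p X) (T : Subgroup X)
    (hT : T ⊔ Ph p ⊤ = ⊤) : T = ⊤ := by
  by_contra hne
  obtain ⟨W, hW, hTW⟩ := (eq_top_or_exists_le_coatom T).resolve_left hne
  have hnil : Group.IsNilpotent X := hX.isNilpotent
  have hWn : W.Normal := Subgroup.NormalizerCondition.normal_of_coatom W
    Group.normalizerCondition_of_isNilpotent hW
  have hQ : IsPGroup p (X ⧸ W) := hX.to_quotient W
  have hnt : Nontrivial (X ⧸ W) := by
    by_contra h
    rw [not_nontrivial_iff_subsingleton] at h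
    exact hW.1 (QuotientGroup.subgroup_eq_top_of_subsingleton W h)
  have hcom : ∀ L : Subgroup (X ⧸ W), L ≠ ⊤ → L.comap (QuotientGroup.mk' W) ≤ W := by
    intro L hL
    have h1 : W ≤ L.comap (QuotientGroup.mk' W) := by
      intro x hx
      rw [Subgroup.mem_comap]
      have : QuotientGroup.mk' W x = 1 := (QuotientGroup.eq_one_iff x).2 hx
      rw [this]
      exact L.one_mem
    rcases eq_or_lt_of_le h1 with h2 | h2
    · exact h2.ge
    · exfalso
      apply hL
      have h3 := hW.2 _ h2
      rw [eq_top_iff]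
      intro y _
      obtain ⟨x, rfl⟩ := QuotientGroup.mk'_surjective W y
      have : x ∈ L.comap (QuotientGroup.mk' W) := by rw [h3]; trivial
      exact this
  have h1 : pw p (⊤ : Subgroup X) ≤ W := by
    rw [pw_le_iff]
    intro x _
    refine hcom (pw p ⊤) ?_ ?_
    · intro h
      have h2 := FilEAux.pgroup_triv hQ h
      have h3 : Subsingleton (X ⧸ W) := (Nat.card_eq_one_iff_unique.mp h2).1
      exact not_nontrivial_iff_subsingleton.mpr h3 hnt
    · rw [Subgroup.mem_comap, map_pow]
      exact pow_mem_pw (Subgroup.mem_top _)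
  have h2 : ⁅(⊤ : Subgroup X), ⊤⁆ ≤ W := by
    rw [Subgroup.commutator_le]
    intro a _ b _
    have hQn : Group.IsNilpotent (X ⧸ W) := hQ.isNilpotent
    refine hcom ⁅(⊤ : Subgroup (X ⧸ W)), (⊤ : Subgroup (X ⧸ W))⁆ ?_ ?_
    · exact (IsSolvable.commutator_lt_top_of_nontrivial (G := X ⧸ W)).ne
    · rw [Subgroup.mem_comap, map_commutatorElement]
      exact Subgroup.commutator_mem_commutator (Subgroup.mem_top _) (Subgroup.mem_top _)
  have h3 : T ⊔ Ph p ⊤ ≤ W := sup_le hTW (sup_le h1 h2)
  rw [hT, top_le_iff] at h3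
  exact hW.1 h3

/-- the map `x ↦ x ^ p` modulo `N` -/
def pm (p : ℕ) (V N : Subgroup X) [hN : N.Normal] (h : ⁅V, V⁆ ≤ N) : V →* X ⧸ N where
  toFun x := QuotientGroup.mk' N ((x : X) ^ p)
  map_one' := by simp
  map_mul' x y := by
    rw [Subgroup.coe_mul]
    exact FilEAux.mk_mul_pow (h (Subgroup.commutator_mem_commutator x.2 y.2)) p

theorem pm_apply (p : ℕ) (V N : Subgroup X) [hN : N.Normal] (h : ⁅V, V⁆ ≤ N) (x : V) :
    pm p V N h x = QuotientGroup.mk' N ((x : X) ^ p) := rfl

theorem key [Finite X] {p : ℕ} (V N H : Subgroup X) [hN : N.Normal] (hc : ⁅V, V⁆ ≤ N)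
    (hp : ∀ x ∈ pw p V, x ^ p ∈ N) (hH : H ≤ V) :
    (pw p V).relIndex H * N.relIndex (pw p V) ≤ (pw p V).relIndex V * N.relIndex (Ph p H) := by
  set f := pm p V N hc
  set H' := H.subgroupOf V
  set V' := (pw p V).subgroupOf V
  have hV' : V' ≤ f.ker := by
    intro x hx
    rw [MonoidHom.mem_ker, pm_apply]
    exact (QuotientGroup.eq_one_iff _).2 (hp _ hx)
  have hnz : ∀ A B : Subgroup V, A.relIndex B ≠ 0 := by
    intro A B
    exact Subgroup.index_ne_zero_of_finite
  have h1 : V'.relIndex (f.ker ⊓ H') * f.ker.relIndex H' = V'.relIndex H' := by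
    rw [Subgroup.relIndex_inf_mul_relIndex, inf_eq_left.mpr hV']
  have h2 : V'.relIndex (f.ker ⊓ H') ≤ V'.relIndex f.ker :=
    Subgroup.relIndex_le_of_le_right inf_le_left (hnz _ _)
  have h3 : V'.relIndex f.ker * f.ker.relIndex ⊤ = V'.relIndex ⊤ :=
    Subgroup.relIndex_mul_relIndex _ _ _ hV' le_top
  have h4 : V'.relIndex H' = (pw p V).relIndex H := Subgroup.relIndex_subgroupOf hH
  have h5 : V'.relIndex ⊤ = (pw p V).relIndex V := by
    rw [Subgroup.relIndex_top_right]
    rfl
  have h6 : f.ker.relIndex ⊤ = N.relIndex (pw p V) := by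
    have h7 : (⊤ : Subgroup V).map f = (pw p V).map (QuotientGroup.mk' N) := by
      apply le_antisymm
      · rintro _ ⟨x, _, rfl⟩
        exact ⟨(x : X) ^ p, pow_mem_pw x.2, rfl⟩
      · rw [Subgroup.map_le_iff_le_comap, pw_le_iff]
        intro x hx
        exact ⟨⟨x, hx⟩, Subgroup.mem_top _, rfl⟩
    rw [Subgroup.relIndex_ker, h7, ← Subgroup.relIndex_ker, QuotientGroup.ker_mk']
  have h8 : f.ker.relIndex H' ≤ N.relIndex (Ph p H) := by
    have h9 : H'.map f ≤ (Ph p H).map (QuotientGroup.mk' N) := by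
      rintro _ ⟨x, hx, rfl⟩
      exact ⟨(x : X) ^ p, Subgroup.mem_sup_left (pow_mem_pw hx), rfl⟩
    have h10 : N.relIndex (Ph p H) = Nat.card ((Ph p H).map (QuotientGroup.mk' N)) := by
      rw [← Subgroup.relIndex_ker, QuotientGroup.ker_mk']
    rw [Subgroup.relIndex_ker, h10]
    exact Subgroup.card_le_of_le h9
  rw [← h4, ← h1, ← h5, ← h3, h6]
  calc V'.relIndex (f.ker ⊓ H') * f.ker.relIndex H' * N.relIndex (pw p V)
      ≤ V'.relIndex f.ker * N.relIndex (Ph p H) * N.relIndex (pw p V) := by gcongr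
    _ = V'.relIndex f.ker * N.relIndex (pw p V) * N.relIndex (Ph p H) := by ring

theorem main [Finite X] {p : ℕ} [Fact p.Prime] (hX : IsPGroup p X) (n : ℕ) :
    ∀ V : Subgroup X, Nat.card V ≤ n → V.Normal →
      (∀ N : Subgroup X, N.Normal → N ≤ V → ⁅N, V⁆ ≤ pw (p ^ 2) N) →
      ∀ H : Subgroup X, H ≤ V → (Ph p H).relIndex H ≤ (pw p V).relIndex V := by
  induction n with
  | zero =>
    intro V hV
    exact absurd (Nat.card_pos (α := V)) (by omega)
  | succ n ih =>
    intro V hcard hV hpe H hH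
    by_cases hbot : V = ⊥
    · subst hbot
      have : H = ⊥ := le_bot_iff.mp hH
      subst this
      rw [Subgroup.relIndex_bot_right, Subgroup.relIndex_bot_right]
    · have hlt : pw p V < V := by
        refine lt_of_le_of_ne (pw_le p V) fun heq => hbot ?_
        have htop : pw p (⊤ : Subgroup V) = ⊤ := by
          apply Subgroup.map_injective V.subtype_injective
          rw [← FilEAux.pw_map, ← MonoidHom.range_eq_map, Subgroup.range_subtype, heq]
        exact Subgroup.card_eq_one.1 (FilEAux.pgroup_triv (hX.to_subgroup V) htop)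
      have hc1 : Nat.card (pw p V) < Nat.card V := by
        have := Set.ncard_lt_ncard (SetLike.coe_ssubset_coe.mpr hlt) (Set.toFinite _)
        rw [← Nat.card_coe_set_eq, ← Nat.card_coe_set_eq] at this
        exact this
      have hV1 : (pw p V).Normal := inferInstance
      have hpe1 : ∀ N : Subgroup X, N.Normal → N ≤ pw p V → ⁅N, pw p V⁆ ≤ pw (p ^ 2) N := by
        intro N hN hNV
        exact (Subgroup.commutator_mono le_rfl (pw_le p V)).trans (hpe N hN (hNV.trans (pw_le p V)))
      have hVV : ⁅V, V⁆ ≤ pw p (pw p V) := by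
        refine (hpe V hV le_rfl).trans ?_
        rw [pw_le_iff]
        intro x hx
        rw [pow_two, pow_mul]
        exact pow_mem_pw (pow_mem_pw hx)
      have hIH := ih (pw p V) (by omega) hV1 hpe1 (H ⊓ pw p V) inf_le_right
      set K := H ⊓ pw p V with hK
      have hKH : K ≤ H := inf_le_left
      have hPhK : Ph p H ≤ K := by
        refine le_inf (Ph_le p H) (sup_le (pw_mono p hH) ?_)
        exact (Subgroup.commutator_mono hH hH).trans (hVV.trans (pw_le p _))
      have hPP : Ph p K ≤ Ph p H := Ph_mono p hKH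
      have e1 : (Ph p H).relIndex K * K.relIndex H = (Ph p H).relIndex H :=
        Subgroup.relIndex_mul_relIndex _ _ _ hPhK hKH
      have e2 : (Ph p K).relIndex (Ph p H) * (Ph p H).relIndex K = (Ph p K).relIndex K :=
        Subgroup.relIndex_mul_relIndex _ _ _ hPP hPhK
      have hKr : K.relIndex H = (pw p V).relIndex H := Subgroup.inf_relIndex_left ..
      have hPhN : Ph p K ≤ pw p (pw p V) := by
        refine sup_le (pw_mono p inf_le_right) ?_
        exact (Subgroup.commutator_mono (hKH.trans hH) (hKH.trans hH)).trans hVV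
      have e3 : (pw p (pw p V)).relIndex (Ph p H) ≤ (Ph p K).relIndex (Ph p H) :=
        Subgroup.relIndex_le_of_le_left hPhN Subgroup.index_ne_zero_of_finite
      have e4 := key (p := p) V (pw p (pw p V)) H hVV (fun x hx => pow_mem_pw hx) hH
      have hq1 : 0 < (pw p (pw p V)).relIndex (pw p V) :=
        Nat.pos_of_ne_zero Subgroup.index_ne_zero_of_finite
      rw [← e1, hKr]
      refine Nat.le_of_mul_le_mul_right ?_ hq1
      calc (Ph p H).relIndex K * (pw p V).relIndex H * (pw p (pw p V)).relIndex (pw p V)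
          = (Ph p H).relIndex K *
            ((pw p V).relIndex H * (pw p (pw p V)).relIndex (pw p V)) := by ring
        _ ≤ (Ph p H).relIndex K *
            ((pw p V).relIndex V * (pw p (pw p V)).relIndex (Ph p H)) := by gcongr
        _ ≤ (Ph p H).relIndex K * ((pw p V).relIndex V * (Ph p K).relIndex (Ph p H)) := by gcongr
        _ = (pw p V).relIndex V * ((Ph p K).relIndex (Ph p H) * (Ph p H).relIndex K) := by ring
        _ = (pw p V).relIndex V * (Ph p K).relIndex K := by rw [e2]
        _ ≤ (pw p V).relIndex V * (pw p (pw p V)).relIndex (pw p V) := by gcongr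

theorem gen_of_index [Finite X] {p : ℕ} [hp : Fact p.Prime] (hX : IsPGroup p X) (e : ℕ)
    (h : (Ph p (⊤ : Subgroup X)).index ≤ p ^ e) :
    ∃ s : Finset X, s.card ≤ e ∧ Subgroup.closure (s : Set X) = ⊤ := by
  classical
  set F := Ph p (⊤ : Subgroup X) with hF
  have hFn : F.Normal := by
    have h1 : (pw p (⊤ : Subgroup X)).Normal := inferInstance
    have h2 : (⁅(⊤ : Subgroup X), (⊤ : Subgroup X)⁆ : Subgroup X).Normal := inferInstance
    exact Subgroup.sup_normal _ _
  obtain ⟨k, hk⟩ := IsPGroup.iff_card.mp hX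
  have hdvd : F.index ∣ p ^ k := by
    rw [← hk]
    exact F.index_dvd_card
  obtain ⟨m, _, hm⟩ := (Nat.dvd_prime_pow hp.out).mp hdvd
  have hme : m ≤ e := by
    rw [hm] at h
    exact (Nat.pow_le_pow_iff_right hp.out.one_lt).mp h
  obtain ⟨s, hs1, hs2⟩ := NasPAux.gen_le (p := p) (⊤ : Subgroup (X ⧸ F)) m (by
    rw [Subgroup.card_top, ← hm]
    rfl)
  refine ⟨s.image Quotient.out, Finset.card_image_le.trans (hs1.trans hme), ?_⟩
  apply frat hX
  rw [← hF, eq_top_iff]
  intro x _
  have h1 : QuotientGroup.mk' F x ∈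
      (Subgroup.closure ((s.image Quotient.out : Finset X) : Set X)).map (QuotientGroup.mk' F) := by
    rw [MonoidHom.map_closure]
    have h2 : (QuotientGroup.mk' F) '' ((s.image Quotient.out : Finset X) : Set X) =
        (s : Set (X ⧸ F)) := by
      rw [Finset.coe_image, Set.image_image]
      refine Eq.trans (Set.image_congr (g := id) fun y _ => ?_) (Set.image_id _)
      exact QuotientGroup.out_eq' y
    rw [h2, hs2]
    trivial
  obtain ⟨t, ht, htx⟩ := h1
  have h4 : t⁻¹ * x ∈ F := QuotientGroup.eq.mp htx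
  have h5 : x = t * (t⁻¹ * x) := by group
  rw [h5]
  exact Subgroup.mul_mem _ (Subgroup.mem_sup_left ht) (Subgroup.mem_sup_right h4)

end PowRAux

theorem rank_powerful {X : Type*} [Group X] [Finite X] {p : ℕ} [Fact p.Prime] (hX : IsPGroup p X)
    (e : ℕ) (V : Subgroup X) (hV : V.Normal)
    (hpe : ∀ N : Subgroup X, N.Normal → N ≤ V → ⁅N, V⁆ ≤ pw (p ^ 2) N)
    (hrk : ∀ N : Subgroup X, N.Normal → N ≤ V → (pw p N).relIndex N ≤ p ^ e) :
    ∀ H : Subgroup X, H ≤ V → ∃ s : Finset X, s.card ≤ e ∧ Subgroup.closure (s : Set X) = H := by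
  classical
  intro H hH
  have h1 := PowRAux.main hX (Nat.card V) V le_rfl hV hpe H hH
  have h2 : (PowRAux.Ph p (⊤ : Subgroup H)).map H.subtype = PowRAux.Ph p H := by
    unfold PowRAux.Ph
    rw [Subgroup.map_sup, ← FilEAux.pw_map, Subgroup.map_commutator, ← MonoidHom.range_eq_map,
      Subgroup.range_subtype]
  have h3 : (PowRAux.Ph p (⊤ : Subgroup H)).index ≤ p ^ e := by
    have h4 : (PowRAux.Ph p H).relIndex H = (PowRAux.Ph p (⊤ : Subgroup H)).index := by
      rw [Subgroup.relIndex, ← h2]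
      congr 1
      exact Subgroup.comap_map_eq_self_of_injective H.subtype_injective _
    rw [← h4]
    exact h1.trans (hrk V hV le_rfl)
  obtain ⟨s, hs1, hs2⟩ := PowRAux.gen_of_index (hX.to_subgroup H) e h3
  refine ⟨s.image H.subtype, Finset.card_image_le.trans hs1, ?_⟩
  rw [Finset.coe_image, ← MonoidHom.map_closure, hs2, ← MonoidHom.range_eq_map,
    Subgroup.range_subtype]

end P9700e
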