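import Mathlib
import Pool.Agent.Lib.P9700d.Defs
import Pool.Agent.Lib.P9700d.PE
import Pool.Agent.Lib.P9700d.VInd
import Pool.Agent.Lib.P9700d.RelV
import Pool.Agent.Lib.P9700d.NasP
import Pool.Agent.Lib.P9700e.Defs
import Pool.Agent.Lib.P9700e.PowR

/-!
# The rank of a finite `p`-group whose normal abelian sections are `e`-generated

`V = VV p X`: `P9700d.pe` gives `⁅N, V⁆ ≤ pw (p^2) N`; for `N ≤ V` normal, `N / pw p N` is abelian of exponent `p` (`⁅N, N⁆ ≤ ⁅N, V⁆ ≤ pw (p^2) N ≤ pw p N`), so `(pw p N).relIndex N ≤ p ^ e` (`P9700d.relIndex_le_pow` from Cnt with the generators of `NAS`). `rank_powerful`: `H ⊓ V` is generated by `e` elements. `(H ⊓ V).relIndex H ≤ V.index ≤ p ^ (2 e e e (e+1))`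
(`P9700d.index_VV_le`), a power `p ^ j` with `j ≤ 2 e e e (e+1)`; a subgroup `H` containing `K` with index `p ^ j` is generated by `K` and `j` elements (add elements one at a time: each time the index goes down by a factor at least `p`).
-/

set_option autoImplicit false

open scoped commutatorElement

namespace P9700e

open P9700d

namespace RkPAux

/-- a subgroup `H` of a finite `p`-group which contains `K` with index at most `p ^ j` is generated by `K`
and `j` elements -/
theorem gen_idx {Y : Type*} [Group Y] [Finite Y] {p : ℕ} [hp : Fact p.Prime] (hY : IsPGroup p Y)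
    (H : Subgroup Y) (j : ℕ) : ∀ K : Subgroup Y, K ≤ H → K.relIndex H ≤ p ^ j →
      ∃ s : Finset Y, s.card ≤ j ∧ Subgroup.closure (s : Set Y) ⊔ K = H := by
  classical
  induction j with
  | zero =>
    intro K hKH hj
    refine ⟨∅, le_refl _, ?_⟩
    have h0 : K.relIndex H ≠ 0 := Subgroup.index_ne_zero_of_finite
    rw [pow_zero] at hj
    have h1 : K.relIndex H = 1 := by omega
    have h2 : H ≤ K := Subgroup.relIndex_eq_one.1 h1
    rw [Finset.coe_empty, Subgroup.closure_empty, bot_sup_eq]
    exact le_antisymm hKH h2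
  | succ j ih =>
    intro K hKH hj
    by_cases hH : H ≤ K
    · refine ⟨∅, Nat.zero_le _, ?_⟩
      rw [Finset.coe_empty, Subgroup.closure_empty, bot_sup_eq]
      exact le_antisymm hKH hH
    · obtain ⟨x, hxH, hxK⟩ := SetLike.not_le_iff_exists.1 hH
      have hK'H : K ⊔ Subgroup.zpowers x ≤ H :=
        sup_le hKH ((Subgroup.zpowers_le).2 hxH)
      have hxK' : x ∈ K ⊔ Subgroup.zpowers x :=
        Subgroup.mem_sup_right (Subgroup.mem_zpowers x)
      have hmul : K.relIndex (K ⊔ Subgroup.zpowers x) * (K ⊔ Subgroup.zpowers x).relIndex H =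
          K.relIndex H := Subgroup.relIndex_mul_relIndex _ _ _ le_sup_left hK'H
      have hpp : p ≤ K.relIndex (K ⊔ Subgroup.zpowers x) := by
        obtain ⟨n, hn⟩ := (hY.to_subgroup (K ⊔ Subgroup.zpowers x)).index
          (K.subgroupOf (K ⊔ Subgroup.zpowers x))
        change K.relIndex (K ⊔ Subgroup.zpowers x) = p ^ n at hn
        have hn0 : n ≠ 0 := by
          intro h0
          rw [h0, pow_zero] at hn
          exact hxK (Subgroup.relIndex_eq_one.1 hn hxK')
        rw [hn]
        exact Nat.le_self_pow hn0 p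
      have hle : (K ⊔ Subgroup.zpowers x).relIndex H ≤ p ^ j := by
        have h1 : p * (K ⊔ Subgroup.zpowers x).relIndex H ≤ p * p ^ j := by
          calc p * (K ⊔ Subgroup.zpowers x).relIndex H
              ≤ K.relIndex (K ⊔ Subgroup.zpowers x) * (K ⊔ Subgroup.zpowers x).relIndex H :=
                Nat.mul_le_mul_right _ hpp
            _ = K.relIndex H := hmul
            _ ≤ p ^ (j + 1) := hj
            _ = p * p ^ j := by rw [pow_succ, mul_comm]
        exact Nat.le_of_mul_le_mul_left h1 hp.out.pos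
      obtain ⟨s, hs1, hs2⟩ := ih (K ⊔ Subgroup.zpowers x) hK'H hle
      refine ⟨insert x s, (Finset.card_insert_le x s).trans (Nat.succ_le_succ hs1), ?_⟩
      apply le_antisymm
      · refine sup_le ((Subgroup.closure_le H).2 ?_) hKH
        intro y hy
        rw [Finset.coe_insert] at hy
        rcases hy with rfl | hy
        · exact hxH
        · rw [← hs2]
          exact Subgroup.mem_sup_left (Subgroup.subset_closure hy)
      · have hcl : Subgroup.closure (s : Set Y) ≤
            Subgroup.closure ((insert x s : Finset Y) : Set Y) :=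
          Subgroup.closure_mono (by
            rw [Finset.coe_insert]
            exact Set.subset_insert x (s : Set Y))
        have hxc : x ∈ Subgroup.closure ((insert x s : Finset Y) : Set Y) :=
          Subgroup.subset_closure (by
            rw [Finset.coe_insert]
            exact Set.mem_insert x (s : Set Y))
        calc H = Subgroup.closure (s : Set Y) ⊔ (K ⊔ Subgroup.zpowers x) := hs2.symm
          _ ≤ Subgroup.closure ((insert x s : Finset Y) : Set Y) ⊔ K :=
            sup_le (hcl.trans le_sup_left)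
              (sup_le le_sup_right (((Subgroup.zpowers_le).2 hxc).trans le_sup_left))

theorem pw_sq_le {X : Type*} [Group X] (p : ℕ) (N : Subgroup X) : pw (p ^ 2) N ≤ pw p N := by
  rw [pw_le_iff]
  intro x hx
  have h1 : x ^ (p ^ 2) = (x ^ p) ^ p := by
    rw [← pow_mul, pow_two]
  rw [h1]
  exact (pw p N).pow_mem (pow_mem_pw hx) p

end RkPAux

open RkPAux

theorem rank_of_nas {X : Type*} [Group X] [Finite X] {p : ℕ} [Fact p.Prime] (hX : IsPGroup p X)
    (e : ℕ) (h : NAS e X) (H : Subgroup X) :
    ∃ s : Finset X, s.card ≤ e + 2 * e * e * e * (e + 1) ∧ Subgroup.closure (s : Set X) = H := by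
  classical
  have hp : p.Prime := Fact.out
  have hVn : (VV p X).Normal := VV_normal p X
  have hpe : ∀ N : Subgroup X, N.Normal → N ≤ VV p X → ⁅N, VV p X⁆ ≤ pw (p ^ 2) N :=
    fun N hN hNV => pe hX N hN hNV
  have hrk : ∀ N : Subgroup X, N.Normal → N ≤ VV p X → (pw p N).relIndex N ≤ p ^ e := by
    intro N hN hNV
    haveI := hN
    have hPn : (pw p N).Normal := inferInstance
    have hab : ⁅N, N⁆ ≤ pw p N :=
      (Subgroup.commutator_mono le_rfl hNV).trans ((hpe N hN hNV).trans (pw_sq_le p N))
    obtain ⟨s, hs1, hs2⟩ := h N (pw p N) hN hPn (pw_le p N) hab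
    have h1 := (relIndex_le_pow N (pw p N) hPn (pw_le p N) hab p hp.pos
      (fun x hx => pow_mem_pw hx) s hs2).2
    exact h1.trans (Nat.pow_le_pow_right hp.pos hs1)
  obtain ⟨s, hs1, hs2⟩ := rank_powerful hX e (VV p X) hVn hpe hrk (H ⊓ VV p X) inf_le_right
  have hidx : (H ⊓ VV p X).relIndex H ≤ p ^ (2 * e * e * e * (e + 1)) := by
    rw [Subgroup.inf_relIndex_left]
    have h1 : (VV p X).relIndex H ≤ (VV p X).relIndex ⊤ :=
      Subgroup.relIndex_le_of_le_right le_top (by
        rw [Subgroup.relIndex_top_right]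
        exact Subgroup.index_ne_zero_of_finite)
    rw [Subgroup.relIndex_top_right] at h1
    exact h1.trans (index_VV_le hX e h)
  obtain ⟨t, ht1, ht2⟩ := gen_idx hX H (2 * e * e * e * (e + 1)) (H ⊓ VV p X) inf_le_left hidx
  refine ⟨s ∪ t, (Finset.card_union_le s t).trans (Nat.add_le_add hs1 ht1), ?_⟩
  rw [Finset.coe_union, Subgroup.closure_union, hs2, sup_comm, ht2]

end P9700e
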