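import Mathlib
import Pool.Agent.Lib.P9700d.NasS
import Pool.Agent.Lib.P9700e.Defs
import Pool.Agent.Lib.P9700e.RkP

/-!
# Normal `p`-sections of a product have bounded rank

As in `ElemR`: let `S / M'` be a Sylow `p`-subgroup of the finite group `G ⧸ M'`; the normal `p`-subgroup `M / M'` is contained in it, `M ≤ S`. `P9700d.nas_quot` gives `NAS e (S ⧸ M'.subgroupOf S)`, `rank_of_nas` applied to the image of `L` in this group gives generators; lift them to `L` (`P9700a.RankAux.lift_set`).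
-/

set_option autoImplicit false

namespace P9700e

open P9700a

theorem rank_psec {G : Type*} [Group G] {p : ℕ} [Fact p.Prime] (A B : Subgroup G) (r e : ℕ)
    (hA : RK r A) (hB : RK r B) (hAB : ∀ g : G, ∃ a ∈ A, ∃ b ∈ B, g = a * b)
    (he : ∀ n : ℕ, n ≤ 2 * r + r * (r + 1) * Nat.clog p n → n ≤ e) (M M' : Subgroup G)
    (hM : M.Normal) (hM' : M'.Normal) (hfi : M'.FiniteIndex) (hle : M' ≤ M)
    (hp : ∀ x ∈ M, ∃ k : ℕ, x ^ (p ^ k) ∈ M') (L : Subgroup G) (h1 : M' ≤ L) (h2 : L ≤ M) :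
    ∃ s : Finset G, s.card ≤ e + 2 * e * e * e * (e + 1) ∧ (∀ x ∈ s, x ∈ L) ∧
      Subgroup.closure (s : Set G) ⊔ M' = L := by
  classical
  have iM' := hM'
  have iM := hM
  have ifi := hfi
  have hfin : Finite (G ⧸ M') := Subgroup.finite_quotient_of_finiteIndex
  have hsurj := QuotientGroup.mk'_surjective M'
  have hker : (QuotientGroup.mk' M').ker = M' := QuotientGroup.ker_mk' M'
  let P : Sylow p (G ⧸ M') := default
  let S : Subgroup G := (P : Subgroup (G ⧸ M')).comap (QuotientGroup.mk' M')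
  have hM'S : M' ≤ S := by
    intro x hx
    have h1 : QuotientGroup.mk' M' x = 1 := (QuotientGroup.eq_one_iff x).2 hx
    show QuotientGroup.mk' M' x ∈ (P : Subgroup (G ⧸ M'))
    rw [h1]
    exact one_mem _
  have hSP : S.map (QuotientGroup.mk' M') = P := Subgroup.map_comap_eq_self_of_surjective hsurj _
  have hk : ∃ k : ℕ, M'.relIndex S = p ^ k := by
    obtain ⟨k, hk⟩ := IsPGroup.iff_card.1 P.isPGroup'
    refine ⟨k, ?_⟩
    have h1 := Subgroup.relIndex_ker S (QuotientGroup.mk' M')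
    rw [hker, hSP] at h1
    rw [h1]
    exact hk
  have hpS : ¬ p ∣ S.index := by
    have h1 : S.index = (P : Subgroup (G ⧸ M')).index :=
      Subgroup.index_comap_of_surjective _ hsurj
    rw [h1]
    exact P.not_dvd_index
  have hMS : M ≤ S := by
    have hMp : IsPGroup p (M.map (QuotientGroup.mk' M')) := by
      rintro ⟨y, hy⟩
      obtain ⟨x, hx, rfl⟩ := hy
      obtain ⟨k, hk⟩ := hp x hx
      refine ⟨k, Subtype.ext ?_⟩
      show (QuotientGroup.mk' M' x) ^ p ^ k = 1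
      rw [← map_pow]
      exact (QuotientGroup.eq_one_iff _).2 hk
    have hMn : (M.map (QuotientGroup.mk' M')).Normal := hM.map _ hsurj
    have h1 : IsPGroup p (M.map (QuotientGroup.mk' M') ⊔ (P : Subgroup (G ⧸ M')) :
        Subgroup (G ⧸ M')) := IsPGroup.to_sup_of_normal_left hMp P.isPGroup'
    have h2 := P.is_maximal' h1 le_sup_right
    intro x hx
    show QuotientGroup.mk' M' x ∈ (P : Subgroup (G ⧸ M'))
    rw [← h2]
    exact Subgroup.mem_sup_left (Subgroup.mem_map_of_mem _ hx)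
  have hN : P9700d.NAS e (S ⧸ M'.subgroupOf S) :=
    P9700d.nas_quot A B r e ((rk_iff A).1 hA) ((rk_iff B).1 hB) hAB he S M' hfi hM'S hk hpS
  have hfin2 : Finite (S ⧸ M'.subgroupOf S) := Subgroup.finite_quotient_of_finiteIndex
  have hpX : IsPGroup p (S ⧸ M'.subgroupOf S) := by
    obtain ⟨k, hk⟩ := hk
    exact IsPGroup.of_card (n := k) hk
  let f : S →* S ⧸ M'.subgroupOf S := QuotientGroup.mk' (M'.subgroupOf S)
  have hLS : L ≤ S := h2.trans hMS
  obtain ⟨s1, hs1, hs2⟩ := rank_of_nas hpX e hN ((L.subgroupOf S).map f)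
  obtain ⟨s2, hs3, hs4, hs5⟩ := RankAux.lift_set f (L.subgroupOf S) s1 hs2
  refine ⟨s2.image S.subtype, (Finset.card_image_le.trans hs3).trans hs1, ?_, ?_⟩
  · intro x hx
    obtain ⟨y, hy, rfl⟩ := Finset.mem_image.1 hx
    exact hs4 y hy
  · rw [Finset.coe_image, ← MonoidHom.map_closure]
    apply le_antisymm
    · refine sup_le ?_ h1
      rintro _ ⟨y, hy, rfl⟩
      have h3 : Subgroup.closure (s2 : Set S) ≤ L.subgroupOf S :=
        (Subgroup.closure_le _).2 (fun z hz => hs4 z hz)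
      exact h3 hy
    · intro x hx
      have h3 : f ⟨x, hLS hx⟩ ∈ (Subgroup.closure (s2 : Set S)).map f := by
        rw [MonoidHom.map_closure, hs5, hs2]
        exact ⟨⟨x, hLS hx⟩, hx, rfl⟩
      obtain ⟨c, hc, hcx⟩ := h3
      have h4 : c⁻¹ * ⟨x, hLS hx⟩ ∈ M'.subgroupOf S := QuotientGroup.eq.1 hcx
      have h5 : (c : G)⁻¹ * x ∈ M' := h4
      have h6 : x = (c : G) * ((c : G)⁻¹ * x) := by group
      rw [h6]
      exact Subgroup.mul_mem_sup ⟨c, hc, rfl⟩ h5

end P9700e
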