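import Mathlib
import Pool.Agent.Lib.P9700d.Num
import Pool.Agent.Lib.P9700e.Defs
import Pool.Agent.Lib.P9700e.RankS
import Pool.Agent.Lib.P9700e.CopG

/-!
# The restricted product part has finite rank

`e` from `P9700d.exists_bound r`, `ρ = e + 2 e e e (e+1)`. Let `Y ≤ K2` be finitely generated. `S = {p : Y is not contained in N p}` is finite (a finite union over the generators). For `p ∈ S`: `Y / (Y ⊓ N p)` embeds into the finite `p`-group `K2 N p / N p`, so the index of `(N p).subgroupOf Y` is a power of `p`; `rank_psec` for `M = K ⊔ N p`, `M' = N p`, `L = Y ⊔ N p`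
gives `ρ` generators of `Y ⊔ N p` modulo `N p`; change them modulo `N p` to elements of `Y` (every element of `Y ⊔ N p` is `y n`), so `closure s ⊔ N p = ⊤` in `Y`. The intersection of the `N p`, `p ∈ S`, with `Y` is trivial: an element in it is in `N p` for all `p`, so it is `1` by `hint`. `gen_of_coprime` for the group `Y` (index set: primes as natural numbers, `S.image`;
define `N` on `ℕ` by `if h : p.Prime then (N ⟨p, h⟩).subgroupOf Y else ⊤`).
-/

set_option autoImplicit false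

namespace P9700e

open P9700a

namespace FRK2Aux

theorem sup_pow {G : Type*} [Group G] (K N : Subgroup G) (hN : N.Normal) (p : ℕ)
    (hp : ∀ x ∈ K, ∃ k : ℕ, x ^ (p ^ k) ∈ N) : ∀ x ∈ K ⊔ N, ∃ k : ℕ, x ^ (p ^ k) ∈ N := by
  intro x hx
  haveI := hN
  obtain ⟨a, ha, n, hn, rfl⟩ := Subgroup.mem_sup_of_normal_right.mp hx
  obtain ⟨k, hk⟩ := hp a ha
  refine ⟨k, ?_⟩
  have h1 : ((a * n : G) : G ⧸ N) = (a : G ⧸ N) := by
    rw [QuotientGroup.mk_mul, (QuotientGroup.eq_one_iff n).2 hn, mul_one]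
  rw [← QuotientGroup.eq_one_iff] at hk ⊢
  rw [QuotientGroup.mk_pow, h1, ← QuotientGroup.mk_pow]
  exact hk

theorem index_pow {G : Type*} [Group G] (Y N : Subgroup G) (hN : N.Normal) (hfi : N.FiniteIndex)
    (p : ℕ) [Fact p.Prime] (hp : ∀ x ∈ Y, ∃ k : ℕ, x ^ (p ^ k) ∈ N) :
    ∃ k : ℕ, (N.subgroupOf Y).index = p ^ k := by
  haveI := hN
  haveI := hfi
  have hfin : Finite (Y ⧸ N.subgroupOf Y) := Subgroup.finite_quotient_of_finiteIndex
  have hP : IsPGroup p (Y ⧸ N.subgroupOf Y) := by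
    intro q
    obtain ⟨y, rfl⟩ := QuotientGroup.mk_surjective q
    obtain ⟨k, hk⟩ := hp y y.2
    refine ⟨k, ?_⟩
    rw [← QuotientGroup.mk_pow, QuotientGroup.eq_one_iff]
    exact hk
  exact IsPGroup.iff_card.1 hP

theorem gens {G : Type*} [Group G] (Y N : Subgroup G) (hN : N.Normal) (ρ : ℕ)
    (h : ∃ s : Finset G, s.card ≤ ρ ∧ (∀ x ∈ s, x ∈ Y ⊔ N) ∧
      Subgroup.closure (s : Set G) ⊔ N = Y ⊔ N) :
    ∃ s : Finset Y, s.card ≤ ρ ∧ Subgroup.closure (s : Set Y) ⊔ N.subgroupOf Y = ⊤ := by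
  classical
  haveI := hN
  obtain ⟨s, h1, h2, h3⟩ := h
  have hf : ∀ x : G, ∃ y : Y, x ∈ Y ⊔ N → (y : G)⁻¹ * x ∈ N := by
    intro x
    by_cases hx : x ∈ Y ⊔ N
    · obtain ⟨a, ha, n, hn, rfl⟩ := Subgroup.mem_sup_of_normal_right.mp hx
      refine ⟨⟨a, ha⟩, fun _ => ?_⟩
      rw [inv_mul_cancel_left]
      exact hn
    · exact ⟨1, fun h => absurd h hx⟩
  choose f hf using hf
  refine ⟨s.image f, Finset.card_image_le.trans h1, ?_⟩
  rw [eq_top_iff]
  rintro y -
  have hC : Subgroup.closure (s : Set G) ⊔ N ≤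
      (Subgroup.closure ((s.image f : Finset Y) : Set Y)).map Y.subtype ⊔ N := by
    refine sup_le ?_ le_sup_right
    rw [Subgroup.closure_le]
    intro x hx
    have h4 : x = (f x : G) * ((f x : G)⁻¹ * x) := by group
    rw [h4]
    apply Subgroup.mul_mem_sup
    · refine ⟨f x, Subgroup.subset_closure ?_, rfl⟩
      rw [Finset.coe_image]
      exact ⟨x, hx, rfl⟩
    · exact hf x (h2 x hx)
  have hy : (y : G) ∈ Subgroup.closure (s : Set G) ⊔ N := by
    rw [h3]
    exact Subgroup.mem_sup_left y.2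
  obtain ⟨c, hc, n, hn, hcn⟩ := Subgroup.mem_sup_of_normal_right.mp (hC hy)
  obtain ⟨c', hc', rfl⟩ := hc
  have h5 : y = c' * (c'⁻¹ * y) := by group
  rw [h5]
  apply Subgroup.mul_mem_sup hc'
  rw [Subgroup.mem_subgroupOf]
  have h6 : ((c'⁻¹ * y : Y) : G) = n := by
    rw [Subgroup.coe_mul, Subgroup.coe_inv, ← hcn]
    exact inv_mul_cancel_left _ _
  rw [h6]
  exact hn

end FRK2Aux

theorem fr_K2 {G : Type*} [Group G] (A B : Subgroup G) (r : ℕ) (hA : RK r A) (hB : RK r B)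
    (hAB : ∀ g : G, ∃ a ∈ A, ∃ b ∈ B, g = a * b) (K K2 : Subgroup G) (hK : K.Normal)
    (hK2 : K2 ≤ K) (N : Nat.Primes → Subgroup G) (hN : ∀ p, (N p).Normal)
    (hNi : ∀ p, (N p).FiniteIndex) (hp : ∀ p : Nat.Primes, ∀ x ∈ K, ∃ k : ℕ, x ^ ((p : ℕ) ^ k) ∈ N p)
    (hint : ∀ x ∈ K, (∀ p, x ∈ N p) → x = 1)
    (hfin : ∀ x ∈ K2, {p : Nat.Primes | x ∉ N p}.Finite) : FR K2 := by
  classical
  obtain ⟨e, he⟩ := P9700d.exists_bound r
  refine ⟨e + 2 * e * e * e * (e + 1), ?_⟩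
  change RK (e + 2 * e * e * e * (e + 1)) K2
  rw [rk_iff]
  intro Y hY hfg
  obtain ⟨t, ht⟩ := hfg
  have hYK : Y ≤ K := hY.trans hK2
  have hSf : {p : Nat.Primes | ¬ Y ≤ N p}.Finite := by
    apply (Set.Finite.biUnion t.finite_toSet (t := fun x => {p : Nat.Primes | x ∉ N p}) ?_).subset
    · intro p hp'
      rw [Set.mem_setOf_eq] at hp'
      by_contra hcon
      apply hp'
      rw [← ht, Subgroup.closure_le]
      intro x hx
      by_contra hx'
      exact hcon (Set.mem_biUnion hx hx')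
    · intro x hx
      apply hfin
      apply hY
      rw [← ht]
      exact Subgroup.subset_closure hx
  obtain ⟨S, hS⟩ : ∃ S : Finset Nat.Primes, ∀ p, p ∈ S ↔ ¬ Y ≤ N p :=
    ⟨hSf.toFinset, fun p => by rw [Set.Finite.mem_toFinset, Set.mem_setOf_eq]⟩
  obtain ⟨N', hN'⟩ : ∃ N' : ℕ → Subgroup Y, ∀ p : Nat.Primes, N' (p : ℕ) = (N p).subgroupOf Y := by
    refine ⟨fun n => if h : n.Prime then (N ⟨n, h⟩).subgroupOf Y else ⊤, ?_⟩
    rintro ⟨p, hp'⟩
    simp [hp']
  have hmem : ∀ q ∈ S.image (fun p : Nat.Primes => (p : ℕ)), ∃ p : Nat.Primes, p ∈ S ∧ (p : ℕ) = q := by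
    intro q hq
    obtain ⟨p, hp1, hp2⟩ := Finset.mem_image.1 hq
    exact ⟨p, hp1, hp2⟩
  obtain ⟨s, hs1, hs2⟩ := gen_of_coprime (Y := Y) (S.image (fun p : Nat.Primes => (p : ℕ)))
    (by
      intro q hq
      obtain ⟨p, -, rfl⟩ := hmem q hq
      exact p.2) N'
    (by
      intro q hq
      obtain ⟨p, -, rfl⟩ := hmem q hq
      rw [hN' p]
      haveI := hN p
      exact Subgroup.normal_subgroupOf)
    (by
      intro q hq
      obtain ⟨p, -, rfl⟩ := hmem q hq
      rw [hN' p]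
      haveI : Fact (p : ℕ).Prime := ⟨p.2⟩
      exact FRK2Aux.index_pow Y (N p) (hN p) (hNi p) p (fun x hx => hp p x (hYK hx)))
    (by
      intro y hy
      apply Subtype.ext
      apply hint (y : G) (hYK y.2)
      intro p
      by_cases hpS : p ∈ S
      · have h1 := hy (p : ℕ) (Finset.mem_image_of_mem _ hpS)
        rw [hN' p] at h1
        exact h1
      · rw [hS, not_not] at hpS
        exact hpS y.2)
    (e + 2 * e * e * e * (e + 1))
    (by
      intro q hq
      obtain ⟨p, -, rfl⟩ := hmem q hq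
      rw [hN' p]
      haveI : Fact (p : ℕ).Prime := ⟨p.2⟩
      haveI := hN p
      have hMn : (K ⊔ N p).Normal := by
        haveI := hK
        infer_instance
      apply FRK2Aux.gens Y (N p) (hN p)
      exact rank_psec (p := (p : ℕ)) A B r e hA hB hAB (fun n hn => he p n p.2.two_le hn)
        (K ⊔ N p) (N p) hMn (hN p) (hNi p) le_sup_right
        (FRK2Aux.sup_pow K (N p) (hN p) p (hp p)) (Y ⊔ N p) le_sup_right
        (sup_le_sup_right hYK _))
  refine ⟨s.image Y.subtype, Finset.card_image_le.trans hs1, ?_⟩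
  rw [Finset.coe_image, ← MonoidHom.map_closure, hs2, ← MonoidHom.range_eq_map,
    Subgroup.range_subtype]

end P9700e
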