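import Mathlib
import Pool.Agent.Lib.P9700e.Defs
import Pool.Agent.Lib.P9700e.Defs2
import Pool.Agent.Lib.P9700e.Chn

/-!
# A subgroup centralising the chief factors is a `p`-group in the `PR p` quotients

`Y = G ⧸ N` is finite, `Q = J.map (mk' N)` normal in `Y`. `Q` is nilpotent: `exists_chain (J ⊔ N) N` (`J ≤ G0`, so `J ⊔ N ≤ G0`): for every step `⁅c i, J⁆ ≤ c (i+1)` (`CJ`, `Sl G0 (c (i+1))` as `N ≤ c (i+1) ≤ G0`), also `⁅c i, N⁆ ≤ N`; so the images of the `c i` in `Q` form a descending central series (`Subgroup.nilpotent_iff_finite_descending_central_series` or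
`descending_central_series_ge_lower`). Let `q ≠ p` be a prime dividing `Nat.card Q`; the Sylow `q`-subgroup of the finite nilpotent group `Q` is normal, hence characteristic in `Q` (`Sylow.characteristic_of_normal`), so it is (mapped to `Y`) normal in `Y`, nontrivial of order prime to `p`, contradicting `PR p G0 N` (preimage in `G`). So `Nat.card Q` is a power of `p`.
-/

set_option autoImplicit false

namespace P9700e

open scoped commutatorElement

namespace NilChAux

theorem nilp {G : Type*} [Group G] {G0 J N : Subgroup G} (hJ : J.Normal) (hJG : J ≤ G0)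
    (hCJ : CJ G0 J) (hN : Sl G0 N) [hNn : N.Normal] :
    Group.IsNilpotent (J.map (QuotientGroup.mk' N)) := by
  obtain ⟨-, hfin, hle, k, hk⟩ := hN
  have i1 := hJ
  obtain ⟨c, l, h0, hl, hn, hNc, hdec, hch⟩ := exists_chain (J ⊔ N) N (Subgroup.sup_normal J N)
    hNn hfin le_sup_right
  have hcG : ∀ i, c i ≤ G0 := by
    intro i
    induction i with
    | zero => rw [h0]; exact sup_le hJG hle
    | succ i ih => exact (hdec i).trans ih
  have hcomm : ∀ i, ⁅c i, J⁆ ≤ c (i + 1) := by
    intro i
    rcases hch i with h | ⟨h1, h2⟩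
    · exact hCJ (c i) (c (i + 1)) ⟨hn _, Subgroup.finiteIndex_of_le (hNc _), hcG _, k,
        hk.trans (hNc _)⟩ (hcG i) h
    · rw [h1, h2]
      exact Subgroup.commutator_le_left N J
  have hNbot : N.map (QuotientGroup.mk' N) = ⊥ := by
    rw [Subgroup.map_eq_bot_iff, QuotientGroup.ker_mk']
  rw [Subgroup.nilpotent_iff_finite_descending_central_series]
  refine ⟨l, fun i => ((c i).map (QuotientGroup.mk' N)).subgroupOf
    (J.map (QuotientGroup.mk' N)), ⟨?_, ?_⟩, ?_⟩
  · show ((c 0).map (QuotientGroup.mk' N)).subgroupOf (J.map (QuotientGroup.mk' N)) = ⊤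
    rw [h0, Subgroup.subgroupOf_eq_top]
    exact Subgroup.map_mono le_sup_left
  · intro x n hx g
    obtain ⟨a, ha, hax⟩ := Subgroup.mem_subgroupOf.1 hx
    obtain ⟨b, hb, hbg⟩ := g.2
    rw [Subgroup.mem_subgroupOf]
    refine ⟨⁅a, b⁆, hcomm n (Subgroup.commutator_mem_commutator ha hb), ?_⟩
    rw [map_commutatorElement, hax, hbg]
    rfl
  · show ((c l).map (QuotientGroup.mk' N)).subgroupOf (J.map (QuotientGroup.mk' N)) = ⊥
    rw [hl l le_rfl, hNbot, Subgroup.bot_subgroupOf]

end NilChAux

open NilChAux in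
theorem pgroup_of_PR {G : Type*} [Group G] {G0 J N : Subgroup G} (hG0 : G0.Normal) (hJ : J.Normal)
    (hJG : J ≤ G0) (hCJ : CJ G0 J) (hN : Sl G0 N) (p : ℕ) (hp : p.Prime) (hPR : PR p G0 N) :
    ∀ x ∈ J, ∃ k : ℕ, x ^ (p ^ k) ∈ N := by
  have hNn := hN.1
  have hfin := hN.2.1
  have hNG := hN.2.2.1
  have hnil := nilp hJ hJG hCJ hN
  have i1 := hJ
  have hQn : (J.map (QuotientGroup.mk' N)).Normal :=
    hJ.map _ (QuotientGroup.mk'_surjective N)
  have hYfin : Finite (G ⧸ N) := inferInstance
  have hprime : ∀ {q : ℕ}, q.Prime → q ∣ Nat.card (J.map (QuotientGroup.mk' N)) → q = p := by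
    intro q hq hdvd
    by_contra hqp
    have hqf : Fact q.Prime := ⟨hq⟩
    obtain ⟨S⟩ : Nonempty (Sylow q (J.map (QuotientGroup.mk' N))) := inferInstance
    have hSn : (S : Subgroup (J.map (QuotientGroup.mk' N))).Normal :=
      (Group.isNilpotent_of_finite_tfae.out 0 3 rfl rfl).mp hnil q hqf S
    have hSc := S.characteristic_of_normal hSn
    have hTn : ((S : Subgroup (J.map (QuotientGroup.mk' N))).map
      (J.map (QuotientGroup.mk' N)).subtype).Normal := inferInstance
    obtain ⟨T, hT⟩ : ∃ T, T = (S : Subgroup (J.map (QuotientGroup.mk' N))).map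
      (J.map (QuotientGroup.mk' N)).subtype := ⟨_, rfl⟩
    rw [← hT] at hTn
    have hTQ : T ≤ J.map (QuotientGroup.mk' N) := by
      rw [hT]
      exact Subgroup.map_subtype_le _
    have hTcard : Nat.card T = Nat.card S := by
      rw [hT]
      exact Nat.card_congr ((S : Subgroup (J.map (QuotientGroup.mk' N))).equivMapOfInjective
        (J.map (QuotientGroup.mk' N)).subtype (Subgroup.subtype_injective _)).toEquiv.symm
    have hU : T.comap (QuotientGroup.mk' N) = N := by
      apply hPR _ (hTn.comap _)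
      · intro x hx
        have hx1 : QuotientGroup.mk' N x = 1 := (QuotientGroup.eq_one_iff x).2 hx
        rw [Subgroup.mem_comap, hx1]
        exact T.one_mem
      · have h1 : T.comap (QuotientGroup.mk' N) ≤
            (J.map (QuotientGroup.mk' N)).comap (QuotientGroup.mk' N) := Subgroup.comap_mono hTQ
        refine h1.trans ?_
        rw [Subgroup.comap_map_eq, QuotientGroup.ker_mk']
        exact sup_le hJG hNG
      · have h2 : N.relIndex (T.comap (QuotientGroup.mk' N)) = Nat.card T := by
          have h3 := Subgroup.relIndex_comap (⊥ : Subgroup (G ⧸ N)) (QuotientGroup.mk' N)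
            (T.comap (QuotientGroup.mk' N))
          rw [MonoidHom.comap_bot, QuotientGroup.ker_mk', Subgroup.relIndex_bot_left,
            Subgroup.map_comap_eq_self_of_surjective (QuotientGroup.mk'_surjective N)] at h3
          exact h3
        rw [h2, hTcard]
        obtain ⟨n, hn⟩ := IsPGroup.iff_card.1 S.isPGroup'
        intro h4
        have h5 : p ∣ q ^ n := by
          rw [← hn]
          exact h4
        exact hqp ((Nat.prime_dvd_prime_iff_eq hp hq).1 (hp.dvd_of_dvd_pow h5)).symm
    have hTbot : T = ⊥ := by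
      rw [← Subgroup.map_comap_eq_self_of_surjective (QuotientGroup.mk'_surjective N) T, hU,
        Subgroup.map_eq_bot_iff, QuotientGroup.ker_mk']
    have h6 := S.dvd_card_of_dvd_card hdvd
    have h7 : Nat.card S = 1 := by
      rw [← hTcard, hTbot]
      exact Subgroup.card_bot
    rw [h7] at h6
    exact hq.one_lt.ne' (Nat.dvd_one.1 h6)
  have hcard := Nat.eq_prime_pow_of_unique_prime_dvd (p := p)
    (Nat.card_pos (α := J.map (QuotientGroup.mk' N))).ne' hprime
  intro x hx
  refine ⟨(Nat.card (J.map (QuotientGroup.mk' N))).primeFactorsList.length, ?_⟩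
  have h8 : (⟨QuotientGroup.mk' N x, Subgroup.mem_map_of_mem _ hx⟩ :
      J.map (QuotientGroup.mk' N)) ^ Nat.card (J.map (QuotientGroup.mk' N)) = 1 :=
    pow_card_eq_one'
  have h9 : QuotientGroup.mk' N x ^ Nat.card (J.map (QuotientGroup.mk' N)) = 1 :=
    congrArg Subtype.val h8
  rw [← hcard]
  rw [← map_pow] at h9
  exact (QuotientGroup.eq_one_iff _).1 h9

end P9700e
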