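import Mathlib
import Pool.Agent.Lib.P9700e.Defs
import Pool.Agent.Lib.P9700e.Defs2
import Pool.Agent.Lib.P9700e.Defs3
import Pool.Agent.Lib.P9700e.ElemR
import Pool.Agent.Lib.P9700e.ChiefE
import Pool.Agent.Lib.P9700e.Chn
import Pool.Agent.Lib.P9700e.NilCh

/-!
# The tower

For every prime `p`: `M = K ⊔ N p` (`≤ G0`), `exists_chain M (N p)` gives `c p`. `zero`, `normal`, `anti`, `le`, `stop` are clear. For a step with `Chf (c i) (c (i+1))`: `Sl G0 (c (i+1))` (between `N p` and `G0`: same `k` as for `N p`, finite index), so `⁅c i, K⁆ ≤ c (i+1)` (`CJ`); `chief_elem` gives a prime `q` with `⁅c i, c i⁆ ≤ c (i+1)`, `x ^ q ∈ c (i+1)`; as every element of `K`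
has a `p`-power power in `N p` (`pgroup_of_PR`), so has every element of `c i ≤ K ⊔ N p` (modulo `N p` it is an element of `K`), and `c i ≠ c (i+1)`: `q = p` (an `x ∈ c i`, `∉ c (i+1)` with `x ^ q ∈ c (i+1)`, `x ^ (p ^ k) ∈ c (i+1)`). `rk`: `elem_rank` and finite index. For a trivial step (`c i = c (i+1) = N p`) everything is clear (`N p` normal).
-/

set_option autoImplicit false

namespace P9700e

open P9700a

open scoped commutatorElement

namespace TowEAux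

theorem tower1 {G : Type*} [Group G] (A B : Subgroup G) (r e : ℕ) (hA : RK r A) (hB : RK r B)
    (hAB : ∀ g : G, ∃ a ∈ A, ∃ b ∈ B, g = a * b) (p : ℕ) (hp : p.Prime)
    (he : ∀ n : ℕ, n ≤ 2 * r + r * (r + 1) * Nat.clog p n → n ≤ e) {G0 K N : Subgroup G}
    (hG0 : G0.Normal) (hK : K.Normal) (hKG : K ≤ G0) (hCJ : CJ G0 K)
    (hN : Sl G0 N) (hPR : PR p G0 N) :
    ∃ c : ℕ → Subgroup G, K ≤ c 0 ∧ (∀ i, (c i).Normal) ∧ (∀ i, c (i + 1) ≤ c i) ∧
      (∀ i, N ≤ c i) ∧ (∃ l, c l = N) ∧ (∀ i, ⁅c i, K⁆ ≤ c (i + 1)) ∧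
      (∀ i, ⁅c i, c i⁆ ≤ c (i + 1)) ∧ (∀ i, ∀ x ∈ c i, x ^ p ∈ c (i + 1)) ∧
      ∀ i, (c (i + 1)).relIndex (c i) ≠ 0 ∧ (c (i + 1)).relIndex (c i) ≤ p ^ e := by
  have hpg := pgroup_of_PR hG0 hK hKG hCJ hN p hp hPR
  obtain ⟨hNn, hfin, hle, k, hk⟩ := hN
  have i1 := hK
  have i2 := hNn
  have i3 : Fact p.Prime := ⟨hp⟩
  obtain ⟨c, l, h0, hl, hn, hNc, hdec, hch⟩ := exists_chain (K ⊔ N) N (Subgroup.sup_normal K N)
    hNn hfin le_sup_right
  have hcM : ∀ i, c i ≤ K ⊔ N := by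
    intro i
    induction i with
    | zero => rw [h0]
    | succ i ih => exact (hdec i).trans ih
  have hcG : ∀ i, c i ≤ G0 := fun i => (hcM i).trans (sup_le hKG hle)
  have hcf : ∀ i, (c i).FiniteIndex := fun i => Subgroup.finiteIndex_of_le (hNc i)
  have hSl : ∀ i, Sl G0 (c i) := fun i => ⟨hn i, hcf i, hcG i, k, hk.trans (hNc i)⟩
  have hpk : ∀ x ∈ K ⊔ N, ∃ m : ℕ, x ^ (p ^ m) ∈ N := by
    intro x hx
    obtain ⟨a, ha, b, hb, rfl⟩ := Subgroup.mem_sup_of_normal_right.1 hx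
    obtain ⟨m, hm⟩ := hpg a ha
    refine ⟨m, ?_⟩
    rw [← QuotientGroup.eq_one_iff, QuotientGroup.mk_pow, QuotientGroup.mk_mul,
      (QuotientGroup.eq_one_iff b).2 hb, mul_one, ← QuotientGroup.mk_pow,
      QuotientGroup.eq_one_iff]
    exact hm
  have hel : ∀ i, ⁅c i, c i⁆ ≤ c (i + 1) ∧ ∀ x ∈ c i, x ^ p ∈ c (i + 1) := by
    intro i
    rcases hch i with h | ⟨h1, h2⟩
    · obtain ⟨q, hq, hq1, hq2⟩ := chief_elem G0 (c i) (c (i + 1)) (hSl (i + 1)) (hcG i) h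
      have hqp : q = p := by
        by_contra hne
        obtain ⟨x, hx, hx'⟩ := SetLike.exists_of_lt h.2.2.1
        obtain ⟨m, hm⟩ := hpk x (hcM i hx)
        have i4 := hn (i + 1)
        have e1 : (x : G ⧸ c (i + 1)) ^ q = 1 := by
          rw [← QuotientGroup.mk_pow, QuotientGroup.eq_one_iff]
          exact hq2 x hx
        have e2 : (x : G ⧸ c (i + 1)) ^ (p ^ m) = 1 := by
          rw [← QuotientGroup.mk_pow, QuotientGroup.eq_one_iff]
          exact hNc (i + 1) hm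
        have e3 : Nat.Coprime q (p ^ m) :=
          Nat.Coprime.pow_right m ((Nat.coprime_primes hq hp).2 hne)
        have e4 : orderOf (x : G ⧸ c (i + 1)) ∣ 1 := by
          have e6 := Nat.dvd_gcd (orderOf_dvd_of_pow_eq_one e1) (orderOf_dvd_of_pow_eq_one e2)
          rwa [Nat.Coprime.gcd_eq_one e3] at e6
        have e5 : (x : G ⧸ c (i + 1)) = 1 := orderOf_eq_one_iff.1 (Nat.dvd_one.1 e4)
        exact hx' ((QuotientGroup.eq_one_iff x).1 e5)
      subst hqp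
      exact ⟨hq1, hq2⟩
    · rw [h1, h2]
      exact ⟨Subgroup.commutator_le_left N N, fun x hx => N.pow_mem hx p⟩
  refine ⟨c, by rw [h0]; exact le_sup_left, hn, hdec, hNc, ⟨l, hl l le_rfl⟩, fun i => ?_,
    fun i => (hel i).1, fun i => (hel i).2, fun i => ⟨?_, ?_⟩⟩
  · rcases hch i with h | ⟨h1, h2⟩
    · exact hCJ (c i) (c (i + 1)) (hSl (i + 1)) (hcG i) h
    · rw [h1, h2]
      exact Subgroup.commutator_le_left N K
  · have i5 := hcf (i + 1)
    have i6 := Subgroup.isFiniteRelIndex_of_finiteIndex (H := c (i + 1)) (K := c i)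
    exact Subgroup.relIndex_ne_zero
  · exact elem_rank A B r e hA hB hAB he (c i) (c (i + 1)) (hn i) (hn (i + 1)) (hcf (i + 1))
      (hdec i) (hel i).1 (hel i).2

end TowEAux

theorem exists_tower {G : Type*} [Group G] (A B : Subgroup G) (r e : ℕ) (hA : RK r A) (hB : RK r B)
    (hAB : ∀ g : G, ∃ a ∈ A, ∃ b ∈ B, g = a * b)
    (he : ∀ p n : ℕ, 2 ≤ p → n ≤ 2 * r + r * (r + 1) * Nat.clog p n → n ≤ e) {G0 K : Subgroup G}
    (hG0 : G0.Normal) (hK : K.Normal) (hKG : K ≤ G0) (hCJ : CJ G0 K) (N : Nat.Primes → Subgroup G)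
    (hN : ∀ p, Sl G0 (N p)) (hPR : ∀ p : Nat.Primes, PR (p : ℕ) G0 (N p)) :
    ∃ c : Nat.Primes → ℕ → Subgroup G, Tower K e N c := by
  choose c h1 h2 h3 h4 h5 h6 h7 h8 h9 using fun p : Nat.Primes =>
    TowEAux.tower1 A B r e hA hB hAB p p.2 (fun n => he p n p.2.two_le) hG0 hK hKG hCJ
      (hN p) (hPR p)
  exact ⟨c, h1, h2, h3, h4, h5, h6, h7, h8, h9⟩

end P9700e
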