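import Mathlib
import Pool.Agent.Lib.P9700d.Num
import Pool.Agent.Lib.P9700e.Defs
import Pool.Agent.Lib.P9700e.Defs2
import Pool.Agent.Lib.P9700e.Defs3
import Pool.Agent.Lib.P9700e.NilCh
import Pool.Agent.Lib.P9700e.ExK1
import Pool.Agent.Lib.P9700e.TowE
import Pool.Agent.Lib.P9700e.ExK2
import Pool.Agent.Lib.P9700e.FRK2

/-!
# Products of two groups of finite special rank, virtually residually (finite soluble) case
-/

set_option autoImplicit false

open scoped commutatorElement

universe u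

namespace P9700e

open P9700a

theorem derivedSeries_map_le {G : Type*} [Group G] (H K : Subgroup G) (h : H ≤ K) (k : ℕ) :
    (derivedSeries H k).map H.subtype ≤ (derivedSeries K k).map K.subtype := by
  induction k with
  | zero =>
    rw [derivedSeries_zero, derivedSeries_zero, ← MonoidHom.range_eq_map, ← MonoidHom.range_eq_map,
      Subgroup.range_subtype, Subgroup.range_subtype]
    exact h
  | succ k ih =>
    rw [derivedSeries_succ, derivedSeries_succ, Subgroup.map_commutator, Subgroup.map_commutator]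
    exact Subgroup.commutator_mono ih ih

theorem derivedSeries_map_normal {G : Type*} [Group G] (H : Subgroup G) [H.Normal] (k : ℕ) :
    ((derivedSeries H k).map H.subtype).Normal := by
  induction k with
  | zero =>
    rw [derivedSeries_zero, ← MonoidHom.range_eq_map, Subgroup.range_subtype]
    infer_instance
  | succ k ih =>
    rw [derivedSeries_succ, Subgroup.map_commutator]
    exact Subgroup.commutator_normal _ _

theorem exists_sl {G : Type*} [Group G] (G0 : Subgroup G) (hfi : G0.FiniteIndex)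
    (hres : ∀ g : G0, g ≠ 1 → ∃ N : Subgroup G0, N.Normal ∧ N.FiniteIndex ∧
      (∃ k : ℕ, derivedSeries G0 k ≤ N) ∧ g ∉ N) (g : G) (hg : g ≠ 1) :
    ∃ N : Subgroup G, Sl G0.normalCore N ∧ g ∉ N := by
  have hGn : G0.normalCore.Normal := Subgroup.normalCore_normal _
  have hGi : G0.normalCore.FiniteIndex := inferInstance
  by_cases h : g ∈ G0
  · obtain ⟨N, hN, hNi, ⟨k, hk⟩, hgN⟩ := hres ⟨g, h⟩ (fun h1 => hg (congrArg Subtype.val h1))
    have hNfi : (N.map G0.subtype).FiniteIndex := by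
      refine ⟨?_⟩
      rw [Subgroup.index_map, G0.ker_subtype, sup_bot_eq, G0.range_subtype]
      exact mul_ne_zero hNi.index_ne_zero hfi.index_ne_zero
    refine ⟨(N.map G0.subtype ⊓ G0.normalCore).normalCore, ⟨Subgroup.normalCore_normal _,
      inferInstance, (Subgroup.normalCore_le _).trans inf_le_right, k, ?_⟩, ?_⟩
    · have h1 := derivedSeries_map_normal G0.normalCore k
      rw [Subgroup.normal_le_normalCore]
      refine le_inf ?_ ?_
      · exact (derivedSeries_map_le _ _ (Subgroup.normalCore_le G0) k).trans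
          (Subgroup.map_mono hk)
      · exact Subgroup.map_subtype_le _
    · intro h1
      have h2 := (Subgroup.normalCore_le _ h1).1
      obtain ⟨y, hy, hyg⟩ := h2
      have h3 : y = ⟨g, h⟩ := Subtype.ext hyg
      rw [h3] at hy
      exact hgN hy
  · refine ⟨G0.normalCore, ⟨hGn, hGi, le_rfl, 0, ?_⟩, fun h1 => h (Subgroup.normalCore_le _ h1)⟩
    exact Subgroup.map_subtype_le _

theorem main {G : Type u} [Group G] (G0 : Subgroup G) (hfi : G0.FiniteIndex)
    (hres : ∀ g : G0, g ≠ 1 → ∃ N : Subgroup G0, N.Normal ∧ N.FiniteIndex ∧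
      (∃ k : ℕ, derivedSeries G0 k ≤ N) ∧ g ∉ N)
    (A B : Subgroup G) (hA : FR A) (hB : FR B) (hAB : ∀ g : G, ∃ a ∈ A, ∃ b ∈ B, g = a * b) :
    FR G := by
  classical
  obtain ⟨rA, hrA⟩ := hA
  obtain ⟨rB, hrB⟩ := hB
  set r := max rA rB with hr
  have hA' : RK r A := RK.mono hrA (le_max_left _ _)
  have hB' : RK r B := RK.mono hrB (le_max_right _ _)
  obtain ⟨e, he⟩ := P9700d.exists_bound r
  have hGn : G0.normalCore.Normal := Subgroup.normalCore_normal _
  have hGi : G0.normalCore.FiniteIndex := inferInstance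
  obtain ⟨K, hK, N, c0, hKG, hCJ, hFK, hc0, hN, hPR, hint⟩ := exists_K1 A B r e hA' hB' hAB he
    G0.normalCore hGn hGi (exists_sl G0 hfi hres)
  obtain ⟨c, hc⟩ := exists_tower A B r e hA' hB' hAB he hGn hK hKG hCJ N hN hPR
  obtain ⟨K2, hK2, hK2K, hFK2, hfin⟩ := exists_K2 A B hA' hB' hAB hK (fun p => (hN p).1) hc c0 hc0
  have h2 : FR K2 := fr_K2 A B r hA' hB' hAB K K2 hK hK2K N (fun p => (hN p).1)
    (fun p => (hN p).2.1)
    (fun p x hx => pgroup_of_PR hGn hK hKG hCJ (hN p) p p.2 (hPR p) x hx) hint hfin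
  have h3 : FR K := by
    refine FR.of_ker_range (QuotientGroup.mk' (K2.subgroupOf K)) ?_ (FR.subgroup _ hFK2)
    rw [QuotientGroup.ker_mk']
    exact FR.of_injective (Subgroup.subgroupOfEquivOfLe hK2K).toMonoidHom
      (Subgroup.subgroupOfEquivOfLe hK2K).injective h2
  refine FR.of_ker_range (QuotientGroup.mk' K) ?_ (FR.subgroup _ hFK)
  rw [QuotientGroup.ker_mk']
  exact h3

theorem main' {G : Type u} [Group G] (G0 : Subgroup G) (hfi : G0.FiniteIndex)
    (hres : ∀ g : G0, g ≠ 1 → ∃ (N : Subgroup G0) (_ : N.Normal), N.FiniteIndex ∧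
      Group.IsSolvable (G0 ⧸ N) ∧ g ∉ N)
    (A B : Subgroup G) (hA : FR A) (hB : FR B) (hAB : ∀ g : G, ∃ a ∈ A, ∃ b ∈ B, g = a * b) :
    FR G := by
  refine main G0 hfi (fun g hg => ?_) A B hA hB hAB
  obtain ⟨N, hN, hNi, hs, hgN⟩ := hres g hg
  refine ⟨N, hN, hNi, ?_, hgN⟩
  obtain ⟨n, hn⟩ := hs.solvable
  refine ⟨n, ?_⟩
  have h1 := map_derivedSeries_le_derivedSeries (QuotientGroup.mk' N) n
  rw [hn, le_bot_iff, Subgroup.map_eq_bot_iff, QuotientGroup.ker_mk'] at h1
  exact h1

end P9700e
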